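import Pool.Agent.Helper63.SV.Cvx

/-!
Project SV (helper63): the block representation; closed convex affine manifolds and subspaces
with solvable holonomy.
-/

set_option autoImplicit false

open Set Metric Filter Topology

namespace Pool.Agent.Helper63.SV

open Pool.Agent.Helper240.Amen (InvHB)

section aff

variable {E : Type} [NormedAddCommGroup E] [NormedSpace ℝ E]

theorem aff_sub (f : E →ᵃ[ℝ] E) (v w : E) : f v - f w = f.linear (v - w) := by
  rw [← aff_eq f v, ← aff_eq f w, map_sub]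
  abel

end aff

section blk

variable {Γ E : Type} [Group Γ] [NormedAddCommGroup E] [NormedSpace ℝ E] [FiniteDimensional ℝ E]

/-- the projection of `E × ℝ` -/
noncomputable def Ph (P : E →L[ℝ] E) : (E × ℝ) →L[ℝ] (E × ℝ) :=
  P.prodMap (ContinuousLinearMap.id ℝ ℝ)

omit [FiniteDimensional ℝ E] in
theorem Ph_apply (P : E →L[ℝ] E) (p : E × ℝ) : Ph P p = (P p.1, p.2) := rfl

omit [FiniteDimensional ℝ E] in
theorem Ph_mul {P : E →L[ℝ] E} (hP : ∀ v, P (P v) = P v) : Ph P * Ph P = Ph P := by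
  refine ContinuousLinearMap.ext fun p => ?_
  show Ph P (Ph P p) = Ph P p
  rw [Ph_apply, Ph_apply, hP]

theorem Ph_hat {P : E →L[ℝ] E} (hP : ∀ v, P (P v) = P v) (f : E →ᵃ[ℝ] E)
    (hf : ∀ w, P w = 0 → P (f.linear w) = 0) : Ph P * hatL f * (1 - Ph P) = 0 := by
  refine ContinuousLinearMap.ext fun p => ?_
  show Ph P (hatL f (p - Ph P p)) = 0
  have e : hatL f (p - Ph P p) = (f.linear (p.1 - P p.1) + (p.2 - p.2) • f 0, p.2 - p.2) := rfl
  rw [e, sub_self, zero_smul, add_zero, Ph_apply]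
  show (P (f.linear (p.1 - P p.1)), (0 : ℝ)) = 0
  rw [hf _ (by rw [map_sub, hP, sub_self])]
  rfl

theorem hat_fix {P : E →L[ℝ] E} (hP : ∀ v, P (P v) = P v) (f : E →ᵃ[ℝ] E)
    (hf : ∀ w, P w = 0 → f.linear w = w) : hatL f * (1 - Ph P) = 1 - Ph P := by
  refine ContinuousLinearMap.ext fun p => ?_
  show hatL f (p - Ph P p) = p - Ph P p
  have e : hatL f (p - Ph P p) = (f.linear (p.1 - P p.1) + (p.2 - p.2) • f 0, p.2 - p.2) := rfl
  rw [e, sub_self, zero_smul, add_zero, hf _ (by rw [map_sub, hP, sub_self])]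
  refine Prod.ext rfl ?_
  show (0 : ℝ) = p.2 - p.2
  rw [sub_self]

/-- the block representation -/
noncomputable def blk (hol : Γ →* (E →ᵃ[ℝ] E)) (P : E →L[ℝ] E) (hP : ∀ v, P (P v) = P v)
    (hPl : ∀ γ w, P w = 0 → P ((hol γ).linear w) = 0) :
    Γ →* ((E × ℝ) →L[ℝ] (E × ℝ)) where
  toFun γ := Ph P * hatL (hol γ) * Ph P + (1 - Ph P)
  map_one' := by
    rw [map_one, hatL_one, mul_one, Ph_mul hP]
    abel
  map_mul' γ δ := by
    rw [map_mul, hatL_mul]
    have h1 := Ph_hat hP (hol γ) (hPl γ)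
    have h2 := Ph_mul hP
    set p := Ph P
    set a := hatL (hol γ)
    set b := hatL (hol δ)
    have h3 : p * (1 - p) = 0 := by rw [mul_sub, mul_one, h2, sub_self]
    have h4 : (1 - p) * p = 0 := by rw [sub_mul, one_mul, h2, sub_self]
    have h5 : (1 - p) * (1 - p) = 1 - p := by rw [sub_mul, one_mul, h3, sub_zero]
    have h6 : p * a * p = p * a := by
      rw [mul_sub, mul_one] at h1
      exact (sub_eq_zero.1 h1).symm
    calc p * (a * b) * p + (1 - p) = p * a * b * p + (1 - p) := by rw [mul_assoc p a b]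
      _ = p * a * p * b * p + (1 - p) := by rw [h6]
      _ = p * a * (p * p) * b * p + 0 + 0 + (1 - p) := by rw [h2, add_zero, add_zero]
      _ = p * a * (p * p) * b * p + p * a * (p * (1 - p)) + ((1 - p) * p) * b * p +
          (1 - p) * (1 - p) := by rw [h3, h4, h5, mul_zero, zero_mul, zero_mul]
      _ = (p * a * p + (1 - p)) * (p * b * p + (1 - p)) := by noncomm_ring

theorem blk_apply (hol : Γ →* (E →ᵃ[ℝ] E)) (P : E →L[ℝ] E) (hP : ∀ v, P (P v) = P v)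
    (hPl : ∀ γ w, P w = 0 → P ((hol γ).linear w) = 0) (γ : Γ) (v : E) (t : ℝ) :
    blk hol P hP hPl γ (v, t) =
      (P ((hol γ).linear (P v)) + t • P (hol γ 0) + (v - P v), t) := by
  have e : blk hol P hP hPl γ (v, t) = (P ((hol γ).linear (P v) + t • hol γ 0), t) +
      ((v, t) - (P v, t)) := rfl
  rw [e, map_add, map_smul]
  refine Prod.ext rfl ?_
  show t + (t - t) = t
  ring

theorem blk_lin (hol : Γ →* (E →ᵃ[ℝ] E)) (P : E →L[ℝ] E) (hP : ∀ v, P (P v) = P v)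
    (hPl : ∀ γ w, P w = 0 → P ((hol γ).linear w) = 0) (γ : Γ) (w : E) :
    ‖P ((hol γ).linear w)‖ ≤ ‖blk hol P hP hPl γ‖ * ‖P w‖ := by
  have h1 := (blk hol P hP hPl γ).le_opNorm (P w, 0)
  rw [blk_apply, hP, zero_smul, add_zero, sub_self, add_zero] at h1
  have h2 : P ((hol γ).linear (P w)) = P ((hol γ).linear w) := by
    have h3 := hPl γ (w - P w) (by rw [map_sub, hP, sub_self])
    rw [map_sub, map_sub] at h3
    exact (sub_eq_zero.1 h3).symm
  rw [h2] at h1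
  have e1 : ‖((P ((hol γ).linear w), 0) : E × ℝ)‖ = ‖P ((hol γ).linear w)‖ := by
    rw [Prod.norm_def]
    show max ‖P ((hol γ).linear w)‖ ‖(0 : ℝ)‖ = _
    rw [norm_zero, max_eq_left (norm_nonneg _)]
  have e2 : ‖((P w, 0) : E × ℝ)‖ = ‖P w‖ := by
    rw [Prod.norm_def]
    show max ‖P w‖ ‖(0 : ℝ)‖ = _
    rw [norm_zero, max_eq_left (norm_nonneg _)]
  rwa [e1, e2] at h1

theorem blk_norm (hol : Γ →* (E →ᵃ[ℝ] E)) (P : E →L[ℝ] E) (hP : ∀ v, P (P v) = P v)
    (hPl : ∀ γ w, P w = 0 → P ((hol γ).linear w) = 0) (γ : Γ) (x₀ : E) {L D : ℝ} (hL : 0 ≤ L)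
    (hLb : ∀ v, ‖P ((hol γ).linear v)‖ ≤ L * ‖P v‖) (hD : ‖P (hol γ x₀) - P x₀‖ ≤ D) :
    ‖blk hol P hP hPl γ‖ ≤ L * ‖P‖ + (1 + L) * ‖P x₀‖ + D + 2 + ‖P‖ := by
  have hD0 : 0 ≤ D := (norm_nonneg _).trans hD
  refine ContinuousLinearMap.opNorm_le_bound _ (by positivity) fun p => ?_
  obtain ⟨v, t⟩ := p
  rw [blk_apply, Prod.norm_def]
  show max ‖P ((hol γ).linear (P v)) + t • P (hol γ 0) + (v - P v)‖ ‖t‖ ≤ _
  have hv : ‖v‖ ≤ ‖((v, t) : E × ℝ)‖ := by
    rw [Prod.norm_def]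
    exact le_max_left _ _
  have ht : ‖t‖ ≤ ‖((v, t) : E × ℝ)‖ := by
    rw [Prod.norm_def]
    exact le_max_right _ _
  set m := ‖((v, t) : E × ℝ)‖ with hm
  have hm0 : 0 ≤ m := norm_nonneg _
  have h1 : ‖P ((hol γ).linear (P v))‖ ≤ L * ‖P‖ * m := by
    refine (hLb _).trans ?_
    rw [hP, mul_assoc]
    refine mul_le_mul_of_nonneg_left ((P.le_opNorm v).trans ?_) hL
    exact mul_le_mul_of_nonneg_left hv (norm_nonneg _)
  have h2 : ‖P (hol γ 0)‖ ≤ (1 + L) * ‖P x₀‖ + D := by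
    have e : P (hol γ 0) = (P (hol γ x₀) - P x₀) + P x₀ - P ((hol γ).linear x₀) := by
      rw [← aff_eq (hol γ) x₀, map_add]
      abel
    rw [e]
    refine (norm_sub_le _ _).trans ?_
    have h3 := norm_add_le (P (hol γ x₀) - P x₀) (P x₀)
    have h4 := hLb x₀
    linarith
  have h3 : ‖t • P (hol γ 0)‖ ≤ ((1 + L) * ‖P x₀‖ + D) * m := by
    rw [norm_smul, mul_comm]
    exact mul_le_mul h2 ht (norm_nonneg _) (by positivity)
  have h4 : ‖v - P v‖ ≤ (1 + ‖P‖) * m := by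
    refine (norm_sub_le _ _).trans ?_
    have h5 := (P.le_opNorm v).trans (mul_le_mul_of_nonneg_left hv (norm_nonneg P))
    linarith
  refine max_le ?_ ?_
  · refine (norm_add_le _ _).trans ?_
    have h5 := norm_add_le (P ((hol γ).linear (P v))) (t • P (hol γ 0))
    nlinarith
  · refine ht.trans ?_
    have h6 : (1 : ℝ) ≤ L * ‖P‖ + (1 + L) * ‖P x₀‖ + D + 2 + ‖P‖ := by
      have : 0 ≤ L * ‖P‖ + (1 + L) * ‖P x₀‖ + D + ‖P‖ := by positivity
      linarith
    nlinarith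

/-- conjugates of the linear representation -/
noncomputable def repc (hol : Γ →* (E →ᵃ[ℝ] E)) (P : E →L[ℝ] E) (hP : ∀ v, P (P v) = P v)
    (t : ℝ) (ht : t ≠ 0) : Γ →* ((E × ℝ) →L[ℝ] (E × ℝ)) where
  toFun γ := (Ph P + t • (1 - Ph P)) * hatL (hol γ) * (Ph P + t⁻¹ • (1 - Ph P))
  map_one' := by
    rw [map_one, hatL_one, mul_one]
    have h2 := Ph_mul hP
    set p := Ph P
    have h3 : p * (1 - p) = 0 := by rw [mul_sub, mul_one, h2, sub_self]
    have h4 : (1 - p) * p = 0 := by rw [sub_mul, one_mul, h2, sub_self]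
    have h5 : (1 - p) * (1 - p) = 1 - p := by rw [sub_mul, one_mul, h3, sub_zero]
    rw [add_mul, mul_add, mul_add, h2, mul_smul_comm, h3, smul_mul_assoc, h4, smul_mul_smul_comm,
      h5, mul_inv_cancel₀ ht, smul_zero, smul_zero, one_smul]
    abel
  map_mul' γ δ := by
    rw [map_mul, hatL_mul]
    have h2 := Ph_mul hP
    set p := Ph P
    set a := hatL (hol γ)
    set b := hatL (hol δ)
    have h3 : p * (1 - p) = 0 := by rw [mul_sub, mul_one, h2, sub_self]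
    have h4 : (1 - p) * p = 0 := by rw [sub_mul, one_mul, h2, sub_self]
    have h5 : (1 - p) * (1 - p) = 1 - p := by rw [sub_mul, one_mul, h3, sub_zero]
    have h6 : (p + t⁻¹ • (1 - p)) * (p + t • (1 - p)) = 1 := by
      rw [add_mul, mul_add, mul_add, h2, mul_smul_comm, h3, smul_mul_assoc, h4,
        smul_mul_smul_comm, h5, inv_mul_cancel₀ ht, smul_zero, smul_zero, one_smul]
      abel
    calc (p + t • (1 - p)) * (a * b) * (p + t⁻¹ • (1 - p))
        = (p + t • (1 - p)) * a * 1 * b * (p + t⁻¹ • (1 - p)) := by noncomm_ring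
      _ = (p + t • (1 - p)) * a * ((p + t⁻¹ • (1 - p)) * (p + t • (1 - p))) * b *
          (p + t⁻¹ • (1 - p)) := by rw [h6]
      _ = (p + t • (1 - p)) * a * (p + t⁻¹ • (1 - p)) *
          ((p + t • (1 - p)) * b * (p + t⁻¹ • (1 - p))) := by simp only [mul_assoc]

theorem repc_sub (hol : Γ →* (E →ᵃ[ℝ] E)) (P : E →L[ℝ] E) (hP : ∀ v, P (P v) = P v)
    (hPl : ∀ γ w, P w = 0 → P ((hol γ).linear w) = 0)
    (t : ℝ) (ht : t ≠ 0) (γ : Γ) (hγ : ∀ w, P w = 0 → (hol γ).linear w = w) :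
    repc hol P hP t ht γ - 1 = (blk hol P hP hPl γ - 1) +
      t • ((1 - Ph P) * hatL (hol γ) * Ph P) := by
  show (Ph P + t • (1 - Ph P)) * hatL (hol γ) * (Ph P + t⁻¹ • (1 - Ph P)) - 1 =
    (Ph P * hatL (hol γ) * Ph P + (1 - Ph P) - 1) + _
  have h1 := Ph_hat hP (hol γ) (hPl γ)
  have h7 := hat_fix hP (hol γ) hγ
  have h2 := Ph_mul hP
  set p := Ph P
  set a := hatL (hol γ)
  have h3 : p * (1 - p) = 0 := by rw [mul_sub, mul_one, h2, sub_self]
  have h5 : (1 - p) * (1 - p) = 1 - p := by rw [sub_mul, one_mul, h3, sub_zero]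
  have h8 : t • (1 - p) * a * t⁻¹ • (1 - p) = 1 - p := by
    rw [smul_mul_assoc, smul_mul_smul_comm, mul_inv_cancel₀ ht, one_smul, mul_assoc, h7, h5]
  rw [add_mul, add_mul, mul_add, mul_add, mul_smul_comm, h1, h8, smul_zero, smul_mul_assoc,
    smul_mul_assoc]
  abel

theorem repc_small (hol : Γ →* (E →ᵃ[ℝ] E)) (P : E →L[ℝ] E) (hP : ∀ v, P (P v) = P v)
    (hPl : ∀ γ w, P w = 0 → P ((hol γ).linear w) = 0) {ε : ℝ} (hε : 0 < ε)
    (hdisc : ∀ γ, ‖hatL (hol γ) - 1‖ < ε → γ = 1) (S : Finset Γ)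
    (hS : ∀ s ∈ S, (∀ w, P w = 0 → (hol s).linear w = w) ∧ ‖blk hol P hP hPl s - 1‖ ≤ 1 / 64) :
    InvHB (Subgroup.closure (S : Set Γ)) := by
  classical
  set M : ℝ := ∑ s ∈ S, ‖(1 - Ph P) * hatL (hol s) * Ph P‖ with hM
  have hM0 : 0 ≤ M := Finset.sum_nonneg fun _ _ => norm_nonneg _
  set t : ℝ := 1 / (64 * (M + 1)) with ht
  have ht0 : 0 < t := by positivity
  have h1 : ‖(1 : (E × ℝ) →L[ℝ] (E × ℝ))‖ ≤ 1 := ContinuousLinearMap.norm_id_le
  set c := Ph P + t • (1 - Ph P) with hc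
  set c' := Ph P + t⁻¹ • (1 - Ph P) with hc'
  have hcc : c' * c = 1 := by
    have h2 := Ph_mul hP
    rw [hc, hc']
    set p := Ph P
    have h3 : p * (1 - p) = 0 := by rw [mul_sub, mul_one, h2, sub_self]
    have h4 : (1 - p) * p = 0 := by rw [sub_mul, one_mul, h2, sub_self]
    have h5 : (1 - p) * (1 - p) = 1 - p := by rw [sub_mul, one_mul, h3, sub_zero]
    rw [add_mul, mul_add, mul_add, h2, mul_smul_comm, h3, smul_mul_assoc, h4,
      smul_mul_smul_comm, h5, inv_mul_cancel₀ ht0.ne', smul_zero, smul_zero, one_smul]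
    abel
  refine invHB_of_disc h1 (repc hol P hP t ht0.ne') S ?_
    (ε := ε / (‖c'‖ * ‖c‖ + 1)) (by positivity) ?_
  · intro s hs
    rw [repc_sub hol P hP hPl t ht0.ne' s (hS s hs).1]
    refine (norm_add_le _ _).trans ?_
    have h2 : ‖t • ((1 - Ph P) * hatL (hol s) * Ph P)‖ ≤ 1 / 64 := by
      rw [norm_smul, Real.norm_eq_abs, abs_of_pos ht0]
      have h3 : ‖(1 - Ph P) * hatL (hol s) * Ph P‖ ≤ M :=
        Finset.single_le_sum (f := fun s => ‖(1 - Ph P) * hatL (hol s) * Ph P‖)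
          (fun _ _ => norm_nonneg _) hs
      rw [ht, div_mul_eq_mul_div, one_mul, div_le_div_iff₀ (by positivity) (by norm_num)]
      nlinarith
    have h3 := (hS s hs).2
    linarith
  · intro γ hγ
    apply hdisc
    have e : hatL (hol γ) - 1 = c' * (repc hol P hP t ht0.ne' γ - 1) * c := by
      show _ = c' * (c * hatL (hol γ) * c' - 1) * c
      rw [mul_sub, sub_mul, mul_one, hcc]
      congr 1
      calc hatL (hol γ) = (c' * c) * hatL (hol γ) * (c' * c) := by rw [hcc, one_mul, mul_one]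
        _ = c' * (c * hatL (hol γ) * c') * c := by simp only [mul_assoc]
    rw [e]
    refine (norm_mul_le _ _).trans_lt ?_
    have h2 := norm_mul_le c' (repc hol P hP t ht0.ne' γ - 1)
    rw [lt_div_iff₀ (by positivity)] at hγ
    have h3 := mul_le_mul_of_nonneg_right h2 (norm_nonneg c)
    nlinarith [norm_nonneg (repc hol P hP t ht0.ne' γ - 1)]

end blk

section disc

variable {Γ E : Type} [Group Γ] [NormedAddCommGroup E] [NormedSpace ℝ E] [FiniteDimensional ℝ E]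
  {X : Set E} [MulAction Γ X]

theorem exists_disc (hXo : IsOpen X) (hne : X.Nonempty) (hol : Γ →* (E →ᵃ[ℝ] E))
    (hact : ∀ (γ : Γ) (x : X), ((γ • x : X) : E) = hol γ x)
    (hfree : ∀ (γ : Γ) (x : X), γ • x = x → γ = 1)
    (hprop : ∀ K : Set X, IsCompact K → {γ : Γ | ∃ x ∈ K, γ • x ∈ K}.Finite) :
    ∃ ε : ℝ, 0 < ε ∧ ∀ γ, ‖hatL (hol γ) - 1‖ < ε → γ = 1 := by
  obtain ⟨x₀, hx₀⟩ := hne
  obtain ⟨r, hr, hball⟩ := Metric.isOpen_iff.1 hXo x₀ hx₀
  have hcb : closedBall x₀ (r / 2) ⊆ X :=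
    (closedBall_subset_ball (half_lt_self hr)).trans hball
  have hK : IsCompact ((Subtype.val : X → E) ⁻¹' closedBall x₀ (r / 2)) := by
    rw [Topology.IsInducing.subtypeVal.isCompact_iff, Subtype.image_preimage_coe,
      inter_eq_right.2 hcb]
    exact isCompact_closedBall _ _
  have hF := hprop _ hK
  have hpos : ∀ γ ∈ {γ : Γ | ∃ x ∈ (Subtype.val : X → E) ⁻¹' closedBall x₀ (r / 2),
      γ • x ∈ (Subtype.val : X → E) ⁻¹' closedBall x₀ (r / 2)} \ {1},
      0 < ‖hatL (hol γ) - 1‖ := by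
    intro γ hγ
    rw [norm_pos_iff, Ne, sub_eq_zero]
    intro h
    apply hγ.2
    apply hfree γ ⟨x₀, hx₀⟩
    apply Subtype.ext
    rw [hact]
    have h2 := hatL_apply (hol γ) x₀
    rw [h] at h2
    exact (congrArg Prod.fst h2).symm
  obtain ⟨ε, hε, hεF⟩ := exists_pos_le_of_finite (hF.subset sdiff_subset) _ hpos
  refine ⟨min ε (r / 2 / (‖((x₀, 1) : E × ℝ)‖ + 1)), by positivity, fun γ hγ => ?_⟩
  by_contra hne1
  have h1 : γ ∈ {γ : Γ | ∃ x ∈ (Subtype.val : X → E) ⁻¹' closedBall x₀ (r / 2),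
      γ • x ∈ (Subtype.val : X → E) ⁻¹' closedBall x₀ (r / 2)} := by
    refine ⟨⟨x₀, hx₀⟩, mem_closedBall_self (half_pos hr).le, ?_⟩
    show ((γ • (⟨x₀, hx₀⟩ : X) : X) : E) ∈ closedBall x₀ (r / 2)
    rw [hact, mem_closedBall, dist_eq_norm]
    have h2 := (hatL (hol γ) - 1).le_opNorm (x₀, 1)
    have e : (hatL (hol γ) - 1) (x₀, 1) = (hol γ x₀ - x₀, 0) := by
      show hatL (hol γ) (x₀, 1) - (x₀, 1) = _
      rw [hatL_apply]
      refine Prod.ext rfl ?_
      show (1 : ℝ) - 1 = 0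
      ring
    rw [e] at h2
    have h3 : ‖hol γ x₀ - x₀‖ ≤ ‖((hol γ x₀ - x₀, 0) : E × ℝ)‖ := by
      rw [Prod.norm_def]
      exact le_max_left _ _
    have h4 := hγ.trans_le (min_le_right _ _)
    rw [lt_div_iff₀ (by positivity)] at h4
    refine (h3.trans h2).trans ?_
    nlinarith [norm_nonneg (hatL (hol γ) - 1)]
  exact absurd (hεF γ ⟨h1, hne1⟩) (not_le.2 (hγ.trans_le (min_le_left _ _)))

end disc

end Pool.Agent.Helper63.SV
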