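import Pool.Agent.Helper63.SV.Sing

/-!
Project SV (helper63): vanishing of invariant cocycles on cycles of tuples implies vanishing of the
`ℓ¹`-seminorm of the quotient.
-/

set_option autoImplicit false

open Set Filter Topology

namespace Pool.Agent.Helper63.SV

open Pool.Agent.N520.SV (Sx Chain face bdry norm1 BCob Negligible)

variable {Γ X E : Type} [Group Γ] [MulAction Γ X] [NormedAddCommGroup E] [NormedSpace ℝ E]
  [TopologicalSpace X] [T2Space X] [LocallyCompactSpace X] {dev : X → E} {g : Γ → (E →ᵃ[ℝ] E)}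

theorem negligible_of_tuples (D : ConvData dev g) (hemb : IsEmbedding dev)
    (hcont : ∀ γ : Γ, Continuous fun x : X => γ • x)
    (hprop : ∀ K : Set X, IsCompact K → {γ : Γ | ∃ x ∈ K, γ • x ∈ K}.Finite)
    (hfree : ∀ (γ : Γ) (x : X), γ • x = x → γ = 1) (k : ℕ)
    (H : ∀ f : (Fin (k + 2) → X) → ℝ, BdF f → (∀ c : TC X (k + 3), pr f (bd c) = 0) →
      (∀ (γ : Γ) x, f (γ • x) = f x) → ∀ z : TC X (k + 2), IsCyc Γ z → pr f z = 0) :
    Negligible k (MulAction.orbitRel.Quotient Γ X) := by
  classical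
  apply Pool.Agent.N340.SV.HB.t_hb
  intro φ hφb hφ
  obtain ⟨Cφ, hCφ⟩ := hφb
  obtain ⟨qc, hqc⟩ : ∃ qc : C(X, MulAction.orbitRel.Quotient Γ X), ∀ x, qc x = Quotient.mk'' x :=
    ⟨⟨fun x => Quotient.mk'' x, continuous_quot_mk⟩, fun _ => rfl⟩
  have hq : ∀ (γ : Γ) (x : X), qc (γ • x) = qc x := fun γ x => by
    rw [hqc, hqc]
    exact Quotient.sound' (MulAction.orbitRel_apply.2 ⟨γ, rfl⟩)
  have hlift := fun m σ => Pool.Agent.N278.SV.t_lift X Γ hcont hprop hfree m σ
  choose lf hlf using fun m (σ : C(Sx m, MulAction.orbitRel.Quotient Γ X)) => (hlift m σ).1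
  have hql : ∀ m (σ : C(Sx m, MulAction.orbitRel.Quotient Γ X)), qc.comp (lf m σ) = σ := by
    intro m σ
    ext p
    rw [ContinuousMap.comp_apply, hqc]
    exact hlf m σ p
  -- invariant functions on simplices of `X` descend
  have hdesc : ∀ (m : ℕ) (h : C(Sx m, X) → ℝ), (∀ (γ : Γ) s, h (sa hcont γ s) = h s) →
      ∀ s : C(Sx m, X), h (lf m (qc.comp s)) = h s := by
    intro m h hh s
    obtain ⟨γ, hγ⟩ := (hlift m (qc.comp s)).2 s (lf m (qc.comp s))
      (fun p => by rw [ContinuousMap.comp_apply, hqc]) (hlf m (qc.comp s))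
    have e : lf m (qc.comp s) = sa hcont γ s := by
      ext p
      exact hγ p
    rw [e, hh]
  -- the pulled back cocycle
  obtain ⟨φ', hφ'⟩ : ∃ φ' : C(Sx (k + 1), X) → ℝ, ∀ s, φ' s = φ (qc.comp s) :=
    ⟨fun s => φ (qc.comp s), fun _ => rfl⟩
  have hφ'i : ∀ (γ : Γ) s, φ' (sa hcont γ s) = φ' s := by
    intro γ s
    rw [hφ', hφ']
    congr 1
    ext p
    exact hq γ (s p)
  have hφ'c : ∀ τ : C(Sx (k + 2), X),
      Finsupp.linearCombination ℝ φ' (bs τ) = 0 := by
    intro τ
    rw [bs, map_sum]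
    simp only [map_smul, Finsupp.linearCombination_single, smul_eq_mul, one_mul, hφ']
    have := hφ (qc.comp τ)
    simpa only [ContinuousMap.comp_assoc] using this
  have hφ'b : ∀ c : Chain (k + 2) X, Finsupp.linearCombination ℝ φ' (bdry (k + 1) c) = 0 := by
    intro c
    have : ((Finsupp.linearCombination ℝ φ').comp (bdry (k + 1)) : Chain (k + 2) X →ₗ[ℝ] ℝ) =
        0 := by
      refine Finsupp.lhom_ext' fun s => LinearMap.ext_ring ?_
      simp only [LinearMap.comp_apply, Finsupp.lsingle_apply, LinearMap.zero_apply]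
      rw [bdry_single, hφ'c]
    exact LinearMap.congr_fun this c
  -- the cocycle on tuples
  obtain ⟨f, hf⟩ : ∃ f : (Fin (k + 2) → X) → ℝ, ∀ x, f x = φ' (str D hemb x) :=
    ⟨fun x => φ' (str D hemb x), fun _ => rfl⟩
  have hfb : BdF f := ⟨Cφ, fun x => by rw [hf, hφ']; exact hCφ _⟩
  have hfi : ∀ (γ : Γ) x, f (γ • x) = f x := fun γ x => by
    rw [hf, hf, str_sa D hemb hcont, hφ'i]
  have hfc : ∀ c : TC X (k + 3), pr f (bd c) = 0 := by
    intro c
    have : ((pr f).comp bd : TC X (k + 3) →ₗ[ℝ] ℝ) = 0 := by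
      refine Finsupp.lhom_ext' fun x => LinearMap.ext_ring ?_
      simp only [LinearMap.comp_apply, Finsupp.lsingle_apply, LinearMap.zero_apply]
      rw [bd_single, bx, map_sum]
      simp only [map_smul, pr_single, hf]
      have := hφ'c (str D hemb x)
      rw [bs, map_sum] at this
      simpa only [map_smul, Finsupp.linearCombination_single, one_smul, str_face] using this
    exact LinearMap.congr_fun this c
  -- the homotopy
  obtain ⟨h', hh'⟩ : ∃ h' : C(Sx k, X) → ℝ,
      ∀ s, h' s = Finsupp.linearCombination ℝ φ' (HS D hemb k s) := ⟨_, fun _ => rfl⟩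
  have hSA : ∀ (γ : Γ) (c : Chain (k + 1) X), Finsupp.linearCombination ℝ φ' (SA hcont γ c) =
      Finsupp.linearCombination ℝ φ' c := by
    intro γ c
    have : ((Finsupp.linearCombination ℝ φ').comp (SA hcont γ) : Chain (k + 1) X →ₗ[ℝ] ℝ) =
        Finsupp.linearCombination ℝ φ' := by
      refine Finsupp.lhom_ext' fun s => LinearMap.ext_ring ?_
      simp only [LinearMap.comp_apply, Finsupp.lsingle_apply]
      rw [SA_single, Finsupp.linearCombination_single, Finsupp.linearCombination_single, hφ'i]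
    exact LinearMap.congr_fun this c
  have hh'i : ∀ (γ : Γ) s, h' (sa hcont γ s) = h' s := by
    intro γ s
    rw [hh', hh', HS_sa D hemb hcont, hSA]
  have key : ∀ s : C(Sx (k + 1), X), φ' s = f (vt s) +
      ∑ i : Fin (k + 2), (-1 : ℝ) ^ (i : ℕ) * h' (s.comp (face i)) := by
    intro s
    have h1 := congrArg (Finsupp.linearCombination ℝ φ') (HS_spec D hemb k s)
    rw [hφ'b, map_sub, TT, map_sub, Finsupp.linearCombination_single,
      Finsupp.linearCombination_single, one_smul, one_smul, ← hf] at h1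
    have h2 : Finsupp.linearCombination ℝ φ'
        (Finsupp.linearCombination ℝ (HS D hemb k) (bs s)) =
        ∑ i : Fin (k + 2), (-1 : ℝ) ^ (i : ℕ) * h' (s.comp (face i)) := by
      rw [bs, map_sum, map_sum]
      refine Finset.sum_congr rfl fun i _ => ?_
      rw [map_smul, map_smul, Finsupp.linearCombination_single, one_smul, smul_eq_mul, hh']
    rw [h2] at h1
    linarith
  -- cycles
  have hcyc : ∀ z : Chain (k + 1) (MulAction.orbitRel.Quotient Γ X), bdry k z = 0 →
      Finsupp.linearCombination ℝ φ z = 0 := by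
    intro z hz
    let V : Chain (k + 1) (MulAction.orbitRel.Quotient Γ X) →ₗ[ℝ] TC X (k + 2) :=
      Finsupp.lmapDomain ℝ ℝ fun σ => vt (lf (k + 1) σ)
    have hV : ∀ σ, V (Finsupp.single σ 1) = Finsupp.single (vt (lf (k + 1) σ)) 1 := by
      intro σ
      show Finsupp.lmapDomain ℝ ℝ _ _ = _
      rw [Finsupp.lmapDomain_apply, Finsupp.mapDomain_single]
    have hface : ∀ (h : C(Sx k, X) → ℝ), (∀ (γ : Γ) s, h (sa hcont γ s) = h s) →
        ∀ (σ : C(Sx (k + 1), MulAction.orbitRel.Quotient Γ X)) (i : Fin (k + 2)),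
        h ((lf (k + 1) σ).comp (face i)) = h (lf k (σ.comp (face i))) := by
      intro h hh σ i
      rw [← hdesc k h hh ((lf (k + 1) σ).comp (face i)), ← ContinuousMap.comp_assoc, hql]
    have h1 : (Finsupp.linearCombination ℝ φ :
        Chain (k + 1) (MulAction.orbitRel.Quotient Γ X) →ₗ[ℝ] ℝ) =
        (pr f).comp V + (Finsupp.linearCombination ℝ fun τ => h' (lf k τ)).comp (bdry k) := by
      refine Finsupp.lhom_ext' fun σ => LinearMap.ext_ring ?_
      simp only [LinearMap.comp_apply, Finsupp.lsingle_apply, LinearMap.add_apply]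
      rw [hV, pr_single, Finsupp.linearCombination_single, one_smul, bdry_single, bs, map_sum]
      simp only [map_smul, Finsupp.linearCombination_single, smul_eq_mul, one_mul]
      have h2 := key (lf (k + 1) σ)
      rw [hφ', hql] at h2
      rw [h2]
      congr 1
      refine Finset.sum_congr rfl fun i _ => ?_
      rw [hface h' hh'i]
    have h2 : IsCyc Γ (V z) := by
      intro h0 hh0
      have h3 : ((pr h0).comp bd).comp V =
          (Finsupp.linearCombination ℝ fun τ => h0 (vt (lf k τ))).comp (bdry k) := by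
        refine Finsupp.lhom_ext' fun σ => LinearMap.ext_ring ?_
        simp only [LinearMap.comp_apply, Finsupp.lsingle_apply]
        rw [hV, bd_single, bdry_single, bx, bs, map_sum, map_sum]
        refine Finset.sum_congr rfl fun i _ => ?_
        rw [map_smul, map_smul, pr_single, Finsupp.linearCombination_single, one_smul,
          ← hface (fun s => h0 (vt s)) (fun γ s => hh0 γ (vt s)), vt_face]
      have h4 := LinearMap.congr_fun h3 z
      simp only [LinearMap.comp_apply] at h4
      rw [h4, hz, map_zero]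
    rw [h1, LinearMap.add_apply, LinearMap.comp_apply, LinearMap.comp_apply, hz, map_zero,
      add_zero]
    exact H f hfb hfc hfi _ h2
  -- linear algebra
  have h3 : (Finsupp.linearCombination ℝ φ :
      Chain (k + 1) (MulAction.orbitRel.Quotient Γ X) →ₗ[ℝ] ℝ) ∈
      LinearMap.range (bdry (M := MulAction.orbitRel.Quotient Γ X) k).dualMap := by
    rw [LinearMap.range_dualMap_eq_dualAnnihilator_ker, Submodule.mem_dualAnnihilator]
    intro z hz
    exact hcyc z hz
  obtain ⟨Ψ, hΨ⟩ := h3
  refine ⟨fun τ => Ψ (Finsupp.single τ 1), fun σ => ?_⟩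
  have h4 := LinearMap.congr_fun hΨ (Finsupp.single σ 1)
  rw [LinearMap.dualMap_apply, bdry_single, Finsupp.linearCombination_single, one_smul, bs,
    map_sum] at h4
  rw [← h4]
  refine Finset.sum_congr rfl fun i _ => ?_
  rw [map_smul, smul_eq_mul]

end Pool.Agent.Helper63.SV
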