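import Pool.Agent.Helper63.SV.Blk
import Pool.Agent.Helper63.SV.Desc

/-!
Project SV (helper63): closed convex affine manifolds with solvable holonomy on a subspace.
-/

set_option autoImplicit false

open Set Metric Filter Topology

namespace Pool.Agent.Helper63.SV

open Pool.Agent.Helper240.Amen (InvHB)
open Pool.Agent.N520.SV (Sx Chain face bdry norm1 BCob Negligible)

section cvm

variable {Γ E : Type} [Group Γ] [NormedAddCommGroup E] [NormedSpace ℝ E] [FiniteDimensional ℝ E]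
  {X : Set E} [MulAction Γ X]

open scoped Pointwise in
theorem convex_geoP (hXo : IsOpen X) (hXc : Convex ℝ X) (hol : Γ →* (E →ᵃ[ℝ] E))
    (hact : ∀ (γ : Γ) (x : X), ((γ • x : X) : E) = hol γ x)
    (hfree : ∀ (γ : Γ) (x : X), γ • x = x → γ = 1)
    (hprop : ∀ K : Set X, IsCompact K → {γ : Γ | ∃ x ∈ K, γ • x ∈ K}.Finite)
    (hcc : ∃ K : Set E, IsCompact K ∧ K ⊆ X ∧ ∀ x : X, ∃ γ : Γ, ((γ • x : X) : E) ∈ K)
    (W : Submodule ℝ E) (hW : ∀ γ, ∀ w ∈ W, (hol γ).linear w ∈ W)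
    (hline : ∀ v : E, (∀ x ∈ X, ∀ t : ℝ, ∃ w ∈ W, x + t • v + w ∈ X) → v ∈ W)
    (H : Subgroup Γ) [Finite (Γ ⧸ H)] (q : ℕ)
    (hsol : ∀ γ ∈ derivedSeries H q, ∀ w ∈ W, (hol (γ : Γ)).linear w = w) (n : ℕ)
    (hn : Module.finrank ℝ E < n + Module.finrank ℝ W) :
    ∃ (P : E →L[ℝ] E) (C : Submodule ℝ E),
      GeoP n (Subtype.val : X → E) (fun γ : Γ => hol γ) P C := by
  classical
  obtain ⟨C, hWC⟩ := W.exists_isCompl
  set P₀ : E →ₗ[ℝ] E := C.subtype.comp (C.projectionOnto W hWC.symm) with hP₀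
  set P : E →L[ℝ] E := LinearMap.toContinuousLinearMap P₀ with hPdef
  have hPa : ∀ v, P v = (C.projectionOnto W hWC.symm v : E) := fun v => rfl
  have hPC : ∀ v, P v ∈ C := fun v => by rw [hPa]; exact Subtype.property _
  have hPfix : ∀ v ∈ C, P v = v := fun v hv => by
    rw [hPa]
    exact congrArg Subtype.val (Submodule.projectionOnto_apply_left hWC.symm ⟨v, hv⟩)
  have hP : ∀ v, P (P v) = P v := fun v => hPfix _ (hPC v)
  have hPW : ∀ v, P v = 0 ↔ v ∈ W := by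
    intro v
    rw [hPa, ZeroMemClass.coe_eq_zero]
    exact Submodule.projectionOnto_apply_eq_zero_iff hWC.symm
  have hdim : Module.finrank ℝ C < n := by
    have := Submodule.finrank_add_eq_of_isCompl hWC
    omega
  have hPl : ∀ γ w, P w = 0 → P ((hol γ).linear w) = 0 := by
    intro γ w hw
    rw [hPW] at hw ⊢
    exact hW γ w hw
  -- the saturated convex set
  set U : Set E := X + (W : Set E) with hU
  have hUo : IsOpen U := hXo.add_right
  have hUc : Convex ℝ U := hXc.add W.convex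
  have hXU : X ⊆ U := fun x hx => ⟨x, hx, 0, W.zero_mem, add_zero x⟩
  have hUP : ∀ x ∈ U, ∀ w, P w = 0 → x + w ∈ U := by
    rintro _ ⟨x, hx, w', hw', rfl⟩ w hw
    rw [hPW] at hw
    exact ⟨x, hx, w' + w, W.add_mem hw' hw, (add_assoc x w' w).symm⟩
  have hfU : ∀ γ : Γ, ∀ x ∈ U, hol γ x ∈ U := by
    rintro γ _ ⟨x, hx, w, hw, rfl⟩
    refine ⟨hol γ x, ?_, (hol γ).linear w, hW γ w hw, ?_⟩
    · rw [← hact γ ⟨x, hx⟩]
      exact Subtype.property _
    · show hol γ x + (hol γ).linear w = hol γ (x + w)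
      have := aff_sub (hol γ) (x + w) x
      rw [add_sub_cancel_left] at this
      rw [← this]
      abel
  have hlU : ∀ v, (∀ x ∈ U, ∀ t : ℝ, x + t • v ∈ U) → P v = 0 := by
    intro v hv
    rw [hPW]
    apply hline
    intro x hx t
    obtain ⟨x', hx', w, hw, h⟩ := hv x (hXU hx) t
    refine ⟨-w, W.neg_mem hw, ?_⟩
    have h' : x' + w = x + t • v := h
    rw [← h', add_neg_cancel_right]
    exact hx'
  have hlip := fun x₁ : E => lip_lin hUo hUc P hP hUP hlU x₁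
  have hPsub : ∀ γ : Γ, ∀ x y : X, P ((γ • y : X) : E) - P ((γ • x : X) : E) =
      P ((hol γ).linear ((y : E) - x)) := by
    intro γ x y
    rw [hact, hact, ← map_sub, aff_sub]
  refine ⟨P, C, ⟨Subtype.val_injective, by rw [Subtype.range_coe]; exact hXc, hact⟩, hPC, hdim,
    ?_, ?_, ?_⟩
  · intro x₁
    obtain ⟨r₁, hr₁, h⟩ := hlip (x₁ : E)
    refine ⟨r₁, hr₁, fun x₀ => ?_⟩
    obtain ⟨r₀, L, hr₀, hL, h⟩ := h x₀ (hXU x₀.2)
    refine ⟨r₀, L, hr₀, hL, fun γ x y hx hγ => ?_⟩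
    rw [hPsub, ← map_sub]
    refine h (hol γ) (hfU γ) (hPl γ) x hx ?_ _
    rw [← hact]
    exact hγ
  · obtain ⟨K, hK, hKX, hc⟩ := hcc
    refine ⟨K, hK, ?_, hc⟩
    rw [Subtype.range_coe]
    exact hKX
  · -- amenability
    intro x₀
    have hne : X.Nonempty := ⟨x₀, x₀.2⟩
    obtain ⟨ε, hε, hdisc⟩ := exists_disc hXo hne hol hact hfree hprop
    obtain ⟨r₁, hr₁, h⟩ := hlip (x₀ : E)
    obtain ⟨r₀, L, hr₀, hL, h⟩ := h x₀ (hXU x₀.2)
    set R := blk hol P hP hPl with hR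
    have h1 : ‖(1 : (E × ℝ) →L[ℝ] (E × ℝ))‖ ≤ 1 := ContinuousLinearMap.norm_id_le
    have hsmall := small_invHB h1 R H q (fun S hS => repc_small hol P hP hPl hε hdisc S (by
      intro s hs
      obtain ⟨⟨γ, hγ, rfl⟩, h3⟩ := hS s hs
      refine ⟨fun w hw => ?_, h3⟩
      rw [hPW] at hw
      exact hsol γ hγ w hw))
    set ρ₁ : ℝ := min r₀ r₁ / 2 with hρ₁
    have hρ₁0 : 0 < ρ₁ := by positivity
    have hρ₁r₀ : ρ₁ < r₀ := by
      have := min_le_left r₀ r₁
      rw [hρ₁]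
      linarith
    have hρ₁r₁ : ρ₁ < r₁ := by
      have := min_le_right r₀ r₁
      rw [hρ₁]
      linarith
    have hinv : ∀ (γ : Γ), hol γ⁻¹ (hol γ x₀) = x₀ := by
      intro γ
      rw [← hact γ x₀, ← hact γ⁻¹, inv_smul_smul]
    set D : ℝ := (L + 1) * ρ₁ with hD
    have hρD : ρ₁ ≤ D := by
      rw [hD]
      nlinarith
    have hLD : L * ρ₁ ≤ D := by
      rw [hD]
      nlinarith
    obtain ⟨ρ, hρ, S, hS, hSρ⟩ := margulis R H hsmall
      (fun γ => ‖P (hol γ x₀) - P x₀‖) (by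
        show ‖P (hol 1 x₀) - P x₀‖ = 0
        rw [map_one]
        show ‖P (x₀ : E) - P x₀‖ = 0
        rw [sub_self, norm_zero]) (by
        intro γ δ
        show ‖P (hol (γ * δ) x₀) - P x₀‖ ≤ ‖P (hol γ x₀) - P x₀‖ +
          ‖R γ‖ * ‖P (hol δ x₀) - P x₀‖
        have e : P (hol (γ * δ) x₀) - P x₀ = (P (hol γ x₀) - P x₀) +
            P ((hol γ).linear (hol δ x₀ - x₀)) := by
          have e1 : hol (γ * δ) x₀ = hol γ (hol δ x₀) := by
            rw [map_mul]
            rfl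
          rw [← aff_sub, e1, map_sub]
          abel
        rw [e]
        refine (norm_add_le _ _).trans (add_le_add le_rfl ?_)
        rw [← map_sub]
        exact blk_lin hol P hP hPl γ _) (by
        intro γ
        show ‖P (hol γ⁻¹ x₀) - P x₀‖ ≤ ‖R γ⁻¹‖ * ‖P (hol γ x₀) - P x₀‖
        have e : P (hol γ⁻¹ x₀) - P x₀ = P ((hol γ⁻¹).linear (x₀ - hol γ x₀)) := by
          rw [← aff_sub, hinv, map_sub]
        rw [e, norm_sub_rev (P (hol γ x₀)), ← map_sub]
        exact blk_lin hol P hP hPl γ⁻¹ _) (fun γ => norm_nonneg _) ρ₁ hρ₁0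
      (L * ‖P‖ + (1 + L) * ‖P x₀‖ + D + 2 + ‖P‖) (by
        have : 0 ≤ L * ‖P‖ + (1 + L) * ‖P x₀‖ + D + ‖P‖ := by positivity
        linarith) (by
        intro γ hγ
        have hγ' : ‖P (hol γ x₀) - P x₀‖ ≤ ρ₁ := hγ
        have hb := h (hol γ) (hfU γ) (hPl γ) x₀ (by rw [sub_self, norm_zero]; exact hr₀)
          (hγ'.trans_lt hρ₁r₁)
        have hb' := h (hol γ⁻¹) (hfU γ⁻¹) (hPl γ⁻¹) (hol γ x₀) (hγ'.trans_lt hρ₁r₀)
          (by rw [hinv, sub_self, norm_zero]; exact hr₁)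
        refine ⟨blk_norm hol P hP hPl γ x₀ hL hb (hγ'.trans hρD),
          blk_norm hol P hP hPl γ⁻¹ x₀ hL hb' ?_⟩
        have e : P (hol γ⁻¹ x₀) - P x₀ = P ((hol γ⁻¹).linear (x₀ - hol γ x₀)) := by
          rw [← aff_sub, hinv, map_sub]
        rw [e]
        refine (hb' _).trans ?_
        rw [map_sub, norm_sub_rev]
        exact (mul_le_mul_of_nonneg_left hγ' hL).trans hLD)
    refine ⟨min ρ₁ (ρ / (L + 2)), by positivity, S, hS, fun x γ γ' hγ hγ' => ?_⟩
    apply hSρ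
    show ‖P (hol (γ' * γ⁻¹) x₀) - P x₀‖ < ρ
    set δ := γ' * γ⁻¹ with hδ
    have hδx : hol δ ((γ • x : X) : E) = ((γ' • x : X) : E) := by
      rw [← hact δ (γ • x), ← mul_smul, hδ, inv_mul_cancel_right]
    have hb := h (hol δ) (hfU δ) (hPl δ) ((γ • x : X) : E)
      ((hγ.trans_le (min_le_left _ _)).trans hρ₁r₀)
      (by rw [hδx]; exact (hγ'.trans_le (min_le_left _ _)).trans hρ₁r₁)
    have e : P (hol δ x₀) - P x₀ = P ((hol δ).linear (x₀ - ((γ • x : X) : E))) +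
        (P ((γ' • x : X) : E) - P x₀) := by
      rw [← aff_sub, hδx, map_sub]
      abel
    rw [e]
    refine (norm_add_le _ _).trans_lt ?_
    have h3 := hb (x₀ - ((γ • x : X) : E))
    have e9 : P (x₀ - ((γ • x : X) : E)) = P x₀ - P ((γ • x : X) : E) := map_sub _ _ _
    rw [e9, norm_sub_rev] at h3
    have h4 := hγ.trans_le (min_le_right _ _)
    have h5 := hγ'.trans_le (min_le_right _ _)
    rw [lt_div_iff₀ (by positivity)] at h4 h5
    have h6 : ‖P ((γ • x : X) : E) - P x₀‖ < ρ / (L + 2) := by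
      rw [lt_div_iff₀ (by positivity)]
      exact h4
    have h7 : L * ‖P ((γ • x : X) : E) - P x₀‖ ≤ L * (ρ / (L + 2)) :=
      mul_le_mul_of_nonneg_left h6.le hL
    have h8 : ‖P ((γ' • x : X) : E) - P x₀‖ < ρ / (L + 2) := by
      rw [lt_div_iff₀ (by positivity)]
      exact h5
    have h9 : L * (ρ / (L + 2)) + ρ / (L + 2) ≤ ρ := by
      have : L * (ρ / (L + 2)) + ρ / (L + 2) = (L + 1) / (L + 2) * ρ := by
        field_simp
      rw [this]
      have h10 : (L + 1) / (L + 2) ≤ 1 := by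
        rw [div_le_one (by positivity)]
        linarith
      nlinarith
    linarith

theorem cont_smul_of_hol (hol : Γ →* (E →ᵃ[ℝ] E))
    (hact : ∀ (γ : Γ) (x : X), ((γ • x : X) : E) = hol γ x) (γ : Γ) :
    Continuous fun x : X => γ • x := by
  rw [Topology.IsInducing.subtypeVal.continuous_iff]
  have e : ((Subtype.val : X → E) ∘ fun x : X => γ • x) = fun x : X => hol γ x :=
    funext fun x => hact γ x
  rw [e]
  exact (hol γ).continuous_of_finiteDimensional.comp continuous_subtype_val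

theorem exists_compact_cvx (hXo : IsOpen X) (hcont : ∀ γ : Γ, Continuous fun x : X => γ • x)
    (hcpt : CompactSpace (MulAction.orbitRel.Quotient Γ X)) :
    ∃ K : Set E, IsCompact K ∧ K ⊆ X ∧ ∀ x : X, ∃ γ : Γ, ((γ • x : X) : E) ∈ K := by
  have : ContinuousConstSMul Γ X := ⟨hcont⟩
  have : LocallyCompactSpace X := hXo.locallyCompactSpace
  have hopen : IsOpenMap (Quotient.mk (MulAction.orbitRel Γ X)) := isOpenMap_quotient_mk'_mul
  choose K hK hK' using fun x : X => exists_compact_mem_nhds x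
  obtain ⟨t, ht⟩ := (isCompact_univ : IsCompact (univ :
    Set (MulAction.orbitRel.Quotient Γ X))).elim_finite_subcover
    (fun x : X => Quotient.mk (MulAction.orbitRel Γ X) '' interior (K x))
    (fun n => hopen _ isOpen_interior) (by
      intro q _
      obtain ⟨x, rfl⟩ := Quotient.exists_rep q
      exact mem_iUnion.2 ⟨x, x, mem_interior_iff_mem_nhds.2 (hK' x), rfl⟩)
  refine ⟨⋃ x ∈ t, (Subtype.val : X → E) '' K x, ?_, ?_, ?_⟩
  · exact t.isCompact_biUnion fun x _ => (hK x).image continuous_subtype_val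
  · refine iUnion₂_subset fun x _ => ?_
    rintro _ ⟨y, _, rfl⟩
    exact y.2
  · intro x
    obtain ⟨x', hx', y, hy, hxy⟩ := mem_iUnion₂.1 (ht (mem_univ (Quotient.mk _ x)))
    obtain ⟨γ, hγ⟩ := MulAction.orbitRel_apply.1 (Quotient.exact hxy)
    refine ⟨γ, mem_iUnion₂.2 ⟨x', hx', y, interior_subset hy, ?_⟩⟩
    exact congrArg Subtype.val (show y = γ • x from hγ.symm)

theorem main_cvx (hXo : IsOpen X) (hXc : Convex ℝ X) (hol : Γ →* (E →ᵃ[ℝ] E))
    (hact : ∀ (γ : Γ) (x : X), ((γ • x : X) : E) = hol γ x)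
    (hfree : ∀ (γ : Γ) (x : X), γ • x = x → γ = 1)
    (hprop : ∀ K : Set X, IsCompact K → {γ : Γ | ∃ x ∈ K, γ • x ∈ K}.Finite)
    (hcpt : CompactSpace (MulAction.orbitRel.Quotient Γ X))
    (W : Submodule ℝ E) (hW : ∀ γ, ∀ w ∈ W, (hol γ).linear w ∈ W)
    (hline : ∀ v : E, (∀ x ∈ X, ∀ t : ℝ, ∃ w ∈ W, x + t • v + w ∈ X) → v ∈ W)
    (H : Subgroup Γ) (hH : H.FiniteIndex) (q : ℕ)
    (hsol : ∀ γ ∈ derivedSeries H q, ∀ w ∈ W, (hol (γ : Γ)).linear w = w) (k : ℕ)
    (hk : Module.finrank ℝ E < k + 1 + Module.finrank ℝ W) :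
    Negligible k (MulAction.orbitRel.Quotient Γ X) := by
  have hfin : Finite (Γ ⧸ H) := Subgroup.finite_quotient_of_finiteIndex
  have hcont := cont_smul_of_hol hol hact
  obtain ⟨P, C, G⟩ := convex_geoP hXo hXc hol hact hfree hprop
    (exists_compact_cvx hXo hcont hcpt) W hW hline H q hsol (k + 1) hk
  have : LocallyCompactSpace X := hXo.locallyCompactSpace
  exact negligible_of_tuples G.cd Topology.IsEmbedding.subtypeVal hcont hprop hfree k G.van

end cvm

end Pool.Agent.Helper63.SV
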