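import Pool.Agent.Helper63.SV.Flw
import Pool.Agent.Helper63.SV.Cvm

/-!
Project SV (helper63): closed convex affine manifolds with central elements.
-/

set_option autoImplicit false

open Set Metric Filter Topology NormedSpace

namespace Pool.Agent.Helper63.SV

open Pool.Agent.N520.SV (Sx Chain face bdry norm1 BCob Negligible)

section logc

theorem map_exp_gen {R A : Type} [NormedRing R] [NormedAlgebra ℝ R] [FiniteDimensional ℝ R]
    [NormedRing A] [NormedAlgebra ℝ A] [CompleteSpace A] (f : R →ₐ[ℝ] A) (b : R) :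
    f (exp b) = exp (f b) := by
  have : CompleteSpace R := FiniteDimensional.complete ℝ R
  let := NormedAlgebra.restrictScalars ℚ ℝ R
  let := NormedAlgebra.restrictScalars ℚ ℝ A
  exact NormedSpace.map_exp f (f.toLinearMap.continuous_of_finiteDimensional) b

variable {E : Type} [NormedAddCommGroup E] [NormedSpace ℝ E] [FiniteDimensional ℝ E]

/-- commuting logarithms of the squares of commuting affine maps -/
theorem exists_logs (S : Set ((E × ℝ) →L[ℝ] (E × ℝ))) (hS : ∀ a ∈ S, ∀ b ∈ S, a * b = b * a)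
    (hinv : ∀ a ∈ S, ∃ b ∈ S, a * b = 1) (hsnd : ∀ a ∈ S, ∀ p, (a p).2 = p.2)
    (a : (E × ℝ) →L[ℝ] (E × ℝ)) (ha : a ∈ S) :
    ∃ b : (E × ℝ) →L[ℝ] (E × ℝ), exp b = a ^ 2 ∧ (∀ p, (b p).2 = 0) ∧
      b ∈ Algebra.adjoin ℝ S := by
  set R := Algebra.adjoin ℝ S with hR
  have hcR : ∀ x y : R, x * y = y * x := by
    intro x y
    apply Subtype.ext
    show (x : (E × ℝ) →L[ℝ] (E × ℝ)) * y = y * x
    refine Algebra.commute_of_mem_adjoin_of_forall_mem_commute (R := ℝ) y.2 fun b hb => ?_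
    refine (Algebra.commute_of_mem_adjoin_of_forall_mem_commute (R := ℝ) x.2 fun c hc => ?_).symm
    exact hS b hb c hc
  have hfd : FiniteDimensional ℝ R :=
    FiniteDimensional.finiteDimensional_submodule (Subalgebra.toSubmodule R)
  have haR : a ∈ R := Algebra.subset_adjoin ha
  have hau : IsUnit (⟨a, haR⟩ : R) := by
    obtain ⟨b, hb, hab⟩ := hinv a ha
    refine ⟨⟨⟨a, haR⟩, ⟨b, Algebra.subset_adjoin hb⟩, Subtype.ext hab, ?_⟩, rfl⟩
    apply Subtype.ext
    show b * a = 1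
    rw [← hS a ha b hb, hab]
  obtain ⟨b, hb⟩ := exists_log_sq hcR (⟨a, haR⟩ : R) hau
  have hbA : exp (b : (E × ℝ) →L[ℝ] (E × ℝ)) = a ^ 2 := by
    have h1 := map_exp_gen (R.val : R →ₐ[ℝ] ((E × ℝ) →L[ℝ] (E × ℝ))) b
    rw [hb] at h1
    exact h1.symm
  have hsc : ∀ T ∈ R, ∃ c : ℝ, ∀ p, (T p).2 = c * p.2 := by
    intro T hT
    rw [hR] at hT
    induction hT using Algebra.adjoin_induction with
    | mem x hx => exact ⟨1, fun p => by rw [hsnd x hx, one_mul]⟩
    | algebraMap r => exact ⟨r, fun p => rfl⟩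
    | add x y _ _ hx hy =>
      obtain ⟨c, hc⟩ := hx
      obtain ⟨d, hd⟩ := hy
      refine ⟨c + d, fun p => ?_⟩
      show (x p).2 + (y p).2 = _
      rw [hc, hd, add_mul]
    | mul x y _ _ hx hy =>
      obtain ⟨c, hc⟩ := hx
      obtain ⟨d, hd⟩ := hy
      refine ⟨c * d, fun p => ?_⟩
      show (x (y p)).2 = _
      rw [hc, hd, mul_assoc]
  obtain ⟨c, hc⟩ := hsc b b.2
  set b' : (E × ℝ) →L[ℝ] (E × ℝ) := (b : (E × ℝ) →L[ℝ] (E × ℝ)) - c • 1 with hb'
  have hb'0 : ∀ p, (b' p).2 = 0 := by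
    intro p
    show ((b : (E × ℝ) →L[ℝ] (E × ℝ)) p).2 - c * p.2 = 0
    rw [hc, sub_self]
  have hexp : a ^ 2 = exp (c • (1 : (E × ℝ) →L[ℝ] (E × ℝ))) * exp b' := by
    rw [← exp_add', hb', add_sub_cancel, hbA]
    show (c • (1 : (E × ℝ) →L[ℝ] (E × ℝ))) * b' = b' * (c • (1 : (E × ℝ) →L[ℝ] (E × ℝ)))
    rw [smul_mul_assoc, one_mul, mul_smul_comm, mul_one]
  have hce : exp (c • (1 : (E × ℝ) →L[ℝ] (E × ℝ))) = (Real.exp c) • 1 := by
    let := NormedAlgebra.restrictScalars ℚ ℝ ((E × ℝ) →L[ℝ] (E × ℝ))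
    have h1 := NormedSpace.map_exp (algebraMap ℝ ((E × ℝ) →L[ℝ] (E × ℝ)))
      (algebraMapCLM ℝ _).continuous c
    rw [Algebra.algebraMap_eq_smul_one, Algebra.algebraMap_eq_smul_one] at h1
    rw [← h1, Real.exp_eq_exp_ℝ]
  have hc0 : c = 0 := by
    have h1 : ((a ^ 2) ((0 : E), (1 : ℝ))).2 = 1 := by
      rw [pow_two]
      show (a (a ((0 : E), (1 : ℝ)))).2 = 1
      rw [hsnd a ha, hsnd a ha]
    rw [hexp, hce] at h1
    have h2 : Real.exp c * (exp b' ((0 : E), (1 : ℝ))).2 = 1 := by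
      rw [smul_mul_assoc, one_mul] at h1
      exact h1
    rw [exp_snd b' hb'0, mul_one] at h2
    exact Real.exp_eq_one_iff c |>.1 h2
  refine ⟨b, hbA, fun p => ?_, b.2⟩
  rw [hc, hc0, zero_mul]

end logc

section cen

variable {H X E : Type} [Group H] [MulAction H X] [NormedAddCommGroup E]
  [NormedSpace ℝ E] [FiniteDimensional ℝ E] {dev : X → E}

/-- **Vanishing for central free abelian groups.** -/
theorem core_cen (hol : H →* (E →ᵃ[ℝ] E)) (D : ConvData dev fun γ => hol γ)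
    (hopen : IsOpen (range dev)) (hfree : ∀ (γ : H) (x : X), γ • x = x → γ = 1)
    (hpd : ∀ K : Set E, IsCompact K → K ⊆ range dev →
      {γ : H | ∃ x, dev x ∈ K ∧ dev (γ • x) ∈ K}.Finite)
    (hcc : ∃ K : Set E, IsCompact K ∧ K ⊆ range dev ∧ ∀ x, ∃ γ : H, dev (γ • x) ∈ K)
    {r : ℕ} (φ : Multiplicative (Fin r → ℤ) →* H) (hφ : Function.Injective φ)
    (hcen : ∀ m γ, φ m * γ = γ * φ m) {n : ℕ} (hn : Module.finrank ℝ E < n + r) : Van H X n := by
  set S : Set ((E × ℝ) →L[ℝ] (E × ℝ)) := range fun m => rep hol (φ m) with hS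
  have hSc : ∀ a ∈ S, ∀ b ∈ S, a * b = b * a := by
    rintro _ ⟨m, rfl⟩ _ ⟨m', rfl⟩
    show rep hol (φ m) * rep hol (φ m') = rep hol (φ m') * rep hol (φ m)
    rw [← map_mul (rep hol), ← map_mul (rep hol), hcen]
  have hlog : ∀ i : Fin r, ∃ b : (E × ℝ) →L[ℝ] (E × ℝ),
      exp b = rep hol (φ (Multiplicative.ofAdd (Pi.single i 1))) ^ 2 ∧
        (∀ p, (b p).2 = 0) ∧ b ∈ Algebra.adjoin ℝ S := by
    intro i
    refine exists_logs S hSc ?_ ?_ _ ⟨_, rfl⟩
    · rintro _ ⟨m, rfl⟩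
      refine ⟨rep hol (φ m⁻¹), ⟨_, rfl⟩, ?_⟩
      show rep hol (φ m) * rep hol (φ m⁻¹) = 1
      rw [← map_mul, ← map_mul, mul_inv_cancel, map_one, map_one]
    · rintro _ ⟨m, rfl⟩ p
      exact hatL_snd _ _
  choose B hBe hB0 hBS using hlog
  have hcomm : ∀ (γ : H) i, Commute (rep hol γ) (B i) := by
    intro γ i
    refine Algebra.commute_of_mem_adjoin_of_forall_mem_commute (R := ℝ) (hBS i) ?_
    rintro _ ⟨m, rfl⟩
    show rep hol γ * rep hol (φ m) = rep hol (φ m) * rep hol γ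
    rw [← map_mul (rep hol), ← map_mul (rep hol), hcen]
  have hBc : ∀ i j, Commute (B i) (B j) := by
    intro i j
    refine Algebra.commute_of_mem_adjoin_of_forall_mem_commute (R := ℝ) (hBS j) ?_
    rintro _ ⟨m, rfl⟩
    exact (hcomm (φ m) i).symm
  have hX := flow_pres_of_comm hol D hopen hcc B hB0 hBc hcomm
  have hkey := key_lat hol φ (fun _ => 2) B hBc (fun i => by rw [map_pow, hBe])
  have hinj : Function.Injective fun m : Fin r → ℤ =>
      φ (Multiplicative.ofAdd fun i => ((2 : ℕ) : ℤ) * m i) := by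
    intro m m' h
    have h1 := hφ h
    have h2 : (fun i => ((2 : ℕ) : ℤ) * m i) = fun i => ((2 : ℕ) : ℤ) * m' i := h1
    funext i
    have h3 := congrFun h2 i
    exact mul_left_cancel₀ (by norm_num) h3
  obtain ⟨α, β, G⟩ := geo_of_vec hol r n D hopen hfree hpd hcc B hB0 hBc
    (fun s x => by
      obtain ⟨y, hy⟩ := hX s (dev x) ⟨x, rfl⟩
      exact ⟨y, hy.symm⟩)
    (fun i => ⟨φ (Multiplicative.ofAdd (Pi.single i 1)) ^ 2, by rw [map_pow, hBe]⟩)
    (fun γ i => ⟨Pi.single i 1, by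
      rw [(hcomm γ i).eq, vecL_apply]
      congr 1
      simp [Pi.single_apply]⟩)
    (fun x s hs => ind_dev hol D hpd B hB0 hBc hX _ hkey hinj x s hs) hn
  intro f hb hf hfi z hz
  exact G.vanish f hb hf hfi z hz

end cen

section main

variable {Γ E : Type} [Group Γ] [NormedAddCommGroup E] [NormedSpace ℝ E] [FiniteDimensional ℝ E]
  {X : Set E} [MulAction Γ X]

omit [NormedSpace ℝ E] [FiniteDimensional ℝ E] in
theorem pd_val (hprop : ∀ K : Set X, IsCompact K → {γ : Γ | ∃ x ∈ K, γ • x ∈ K}.Finite) :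
    ∀ K : Set E, IsCompact K → K ⊆ range (Subtype.val : X → E) →
      {γ : Γ | ∃ x : X, (x : E) ∈ K ∧ ((γ • x : X) : E) ∈ K}.Finite := by
  intro K hK hKr
  refine (hprop ((Subtype.val : X → E) ⁻¹' K) ?_).subset fun γ hγ => hγ
  rw [Topology.IsInducing.subtypeVal.isCompact_iff, Subtype.image_preimage_coe,
    inter_eq_right.2 (by rwa [Subtype.range_coe] at hKr)]
  exact hK

theorem main_cen (hXo : IsOpen X) (hXc : Convex ℝ X) (hol : Γ →* (E →ᵃ[ℝ] E))
    (hact : ∀ (γ : Γ) (x : X), ((γ • x : X) : E) = hol γ x)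
    (hfree : ∀ (γ : Γ) (x : X), γ • x = x → γ = 1)
    (hprop : ∀ K : Set X, IsCompact K → {γ : Γ | ∃ x ∈ K, γ • x ∈ K}.Finite)
    (hcpt : CompactSpace (MulAction.orbitRel.Quotient Γ X))
    (H : Subgroup Γ) (hH : H.FiniteIndex) (r : ℕ) (φ : Multiplicative (Fin r → ℤ) →* Γ)
    (hφ : Function.Injective φ) (hφH : ∀ m, φ m ∈ H) (hcen : ∀ m, ∀ γ ∈ H, φ m * γ = γ * φ m)
    (k : ℕ) (hk : Module.finrank ℝ E < k + 1 + r) :
    Negligible k (MulAction.orbitRel.Quotient Γ X) := by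
  have hfin : Finite (Γ ⧸ H) := Subgroup.finite_quotient_of_finiteIndex
  have hcont := cont_smul_of_hol hol hact
  have D : ConvData (Subtype.val : X → E) fun γ => hol γ :=
    ⟨Subtype.val_injective, by rw [Subtype.range_coe]; exact hXc, hact⟩
  have hcc : ∃ K : Set E, IsCompact K ∧ K ⊆ range (Subtype.val : X → E) ∧
      ∀ x : X, ∃ γ : Γ, ((γ • x : X) : E) ∈ K := by
    obtain ⟨K, hK, hKX, h⟩ := exists_compact_cvx hXo hcont hcpt
    exact ⟨K, hK, by rwa [Subtype.range_coe], h⟩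
  have DH : ConvData (Subtype.val : X → E) fun γ : H => (hol.comp H.subtype) γ :=
    ⟨D.inj, D.conv, fun γ x => D.equi γ x⟩
  have hVanH : Van H X (k + 1) := by
    refine core_cen (hol.comp H.subtype) DH (by rw [Subtype.range_coe]; exact hXo) ?_ ?_
      (exists_compact_dev_sub hol D hcc H) (φ.codRestrict H hφH) ?_ ?_ hk
    · intro γ x hx
      exact Subtype.ext (hfree (γ : Γ) x hx)
    · intro K hK hKr
      refine Set.Finite.of_finite_image (f := (Subtype.val : H → Γ))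
        ((pd_val hprop K hK hKr).subset ?_) Subtype.val_injective.injOn
      rintro _ ⟨γ, ⟨x, hx, hx'⟩, rfl⟩
      exact ⟨x, hx, hx'⟩
    · intro m m' h
      exact hφ (congrArg Subtype.val h)
    · intro m γ
      exact Subtype.ext (hcen m γ γ.2)
  have hVan : Van Γ X (k + 1) := hVanH.of_finiteIndex H
  have : LocallyCompactSpace X := hXo.locallyCompactSpace
  exact negligible_of_tuples D Topology.IsEmbedding.subtypeVal hcont hprop hfree k hVan

end main

end Pool.Agent.Helper63.SV
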