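import Mathlib

/-!
Project SV (helper63): characters of commutative algebras, and weakly commensurated abelian groups
of matrices.
-/

set_option autoImplicit false

open Set

namespace Pool.Agent.Helper63.SV

section chr

theorem nil_of_chars {R : Type} [CommRing R] [Algebra ℝ R] [Module.Finite ℝ R] (T : R)
    (h : ∀ χ : R →ₐ[ℝ] ℂ, χ T = 0) : IsNilpotent T := by
  rw [nilpotent_iff_mem_prime]
  intro J hJ
  by_contra hT
  have : IsArtinianRing R := IsArtinianRing.of_finite ℝ R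
  have hmax : J.IsMaximal := IsArtinianRing.isMaximal_of_isPrime J
  let := Ideal.Quotient.field J
  have hfin : Module.Finite ℝ (R ⧸ J) := inferInstance
  have halg : Algebra.IsAlgebraic ℝ (R ⧸ J) := Algebra.IsAlgebraic.of_finite ℝ (R ⧸ J)
  let f : (R ⧸ J) →ₐ[ℝ] ℂ := IsAlgClosed.lift
  have h1 := h (f.comp (Ideal.Quotient.mkₐ ℝ J))
  have h2 : f (Ideal.Quotient.mk J T) = 0 := h1
  rw [map_eq_zero, Ideal.Quotient.eq_zero_iff_mem] at h2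
  exact hT h2

theorem nil_of_chars' {R : Type} [Ring R] [Algebra ℝ R] [Module.Finite ℝ R]
    (hc : ∀ a b : R, a * b = b * a) (T : R) (h : ∀ χ : R →ₐ[ℝ] ℂ, χ T = 0) : IsNilpotent T := by
  let : CommRing R := { ‹Ring R› with mul_comm := hc }
  exact nil_of_chars T h

end chr

section dicho

variable {H 𝔸 : Type} [Group H] [Ring 𝔸] [Algebra ℝ 𝔸]

/-- the algebra generated by a group of matrices -/
def galg (ρ : H →* 𝔸) (A : Subgroup H) : Subalgebra ℝ 𝔸 := Algebra.adjoin ℝ (ρ '' A)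

theorem galg_mono (ρ : H →* 𝔸) {A B : Subgroup H} (h : A ≤ B) : galg ρ A ≤ galg ρ B :=
  Algebra.adjoin_mono (image_mono h)

theorem mem_galg (ρ : H →* 𝔸) {A : Subgroup H} {a : H} (h : a ∈ A) : ρ a ∈ galg ρ A :=
  Algebra.subset_adjoin ⟨a, h, rfl⟩

theorem galg_comm (ρ : H →* 𝔸) (A : Subgroup H) (hab : ∀ a ∈ A, ∀ b ∈ A, a * b = b * a)
    (x y : galg ρ A) : x * y = y * x := by
  apply Subtype.ext
  show (x : 𝔸) * y = y * x
  refine Algebra.commute_of_mem_adjoin_of_forall_mem_commute (R := ℝ) y.2 fun b hb => ?_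
  refine (Algebra.commute_of_mem_adjoin_of_forall_mem_commute (R := ℝ) x.2 fun c hc => ?_).symm
  obtain ⟨a, ha, rfl⟩ := hb
  obtain ⟨a', ha', rfl⟩ := hc
  show ρ a * ρ a' = ρ a' * ρ a
  rw [← map_mul, ← map_mul, hab a ha a' ha']

theorem conj_galg (ρ : H →* 𝔸) (γ : H) {A B : Subgroup H} (h : ∀ a ∈ A, γ * a * γ⁻¹ ∈ B) :
    ∀ T ∈ galg ρ A, ρ γ * T * ρ γ⁻¹ ∈ galg ρ B := by
  have e1 : ρ γ * ρ γ⁻¹ = 1 := by rw [← map_mul, mul_inv_cancel, map_one]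
  have e2 : ρ γ⁻¹ * ρ γ = 1 := by rw [← map_mul, inv_mul_cancel, map_one]
  intro T hT
  unfold galg at hT
  induction hT using Algebra.adjoin_induction with
  | mem x hx =>
    obtain ⟨a, ha, rfl⟩ := hx
    rw [← map_mul, ← map_mul]
    exact mem_galg ρ (h a ha)
  | algebraMap r =>
    rw [← Algebra.commutes, mul_assoc, e1, mul_one]
    exact Subalgebra.algebraMap_mem _ r
  | add x y _ _ hx hy =>
    rw [mul_add, add_mul]
    exact add_mem hx hy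
  | mul x y _ _ hx hy =>
    have e : ρ γ * (x * y) * ρ γ⁻¹ = (ρ γ * x * ρ γ⁻¹) * (ρ γ * y * ρ γ⁻¹) := by
      calc ρ γ * (x * y) * ρ γ⁻¹ = ρ γ * x * 1 * y * ρ γ⁻¹ := by noncomm_ring
        _ = ρ γ * x * (ρ γ⁻¹ * ρ γ) * y * ρ γ⁻¹ := by rw [e2]
        _ = _ := by noncomm_ring
    rw [e]
    exact mul_mem hx hy

/-- **Weakly commensurated abelian groups of matrices**: there are unipotent elements, or a group
which is centralized by a subgroup of finite index. -/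
theorem dicho [FiniteDimensional ℝ 𝔸] (ρ : H →* 𝔸) (A : Subgroup H)
    (hab : ∀ a ∈ A, ∀ b ∈ A, a * b = b * a)
    (hcom : ∀ (γ : H), ∀ a ∈ A, ∃ m : ℕ, 0 < m ∧ γ * a ^ m * γ⁻¹ ∈ A) :
    (∃ c ∈ A, IsNilpotent (ρ c - 1) ∧ ρ c ≠ 1) ∨
    ∃ H' : Subgroup H, Finite (H ⧸ H') ∧ ∃ A' ≤ A, (∀ a ∈ A, ∃ m : ℕ, 0 < m ∧ a ^ m ∈ A') ∧
      ∀ γ ∈ H', ∀ a ∈ A', ρ γ * ρ a = ρ a * ρ γ := by
  classical
  let PF : Set (Subgroup H) := {B | B ≤ A ∧ ∀ a ∈ A, ∃ m : ℕ, 0 < m ∧ a ^ m ∈ B}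
  have hAPF : A ∈ PF := ⟨le_rfl, fun a ha => ⟨1, one_pos, by rwa [pow_one]⟩⟩
  obtain ⟨A', hA', hmin⟩ := (measure fun B : Subgroup H =>
    Module.finrank ℝ (galg ρ B)).wf.has_min PF ⟨A, hAPF⟩
  have hfd : ∀ B : Subgroup H, FiniteDimensional ℝ (galg ρ B) := fun B =>
    FiniteDimensional.finiteDimensional_submodule (Subalgebra.toSubmodule (galg ρ B))
  have hmin' : ∀ B ≤ A', B ∈ PF → galg ρ B = galg ρ A' := by
    intro B hB hBP
    have h1 : ¬ Module.finrank ℝ (galg ρ B) < Module.finrank ℝ (galg ρ A') := hmin B hBP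
    apply Subalgebra.toSubmodule_injective
    have := hfd A'
    apply Submodule.eq_of_le_of_finrank_le (galg_mono ρ hB)
    exact not_lt.1 h1
  -- the part of `A'` which is conjugated into `A'`
  let Aγ : H → Subgroup H := fun γ => A' ⊓ A'.comap (MulAut.conj γ).toMonoidHom
  have hAγ : ∀ γ a, a ∈ Aγ γ ↔ a ∈ A' ∧ γ * a * γ⁻¹ ∈ A' := fun γ a => Iff.rfl
  have hAγP : ∀ γ, Aγ γ ∈ PF := by
    intro γ
    refine ⟨fun a ha => hA'.1 ((hAγ γ a).1 ha).1, fun a ha => ?_⟩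
    obtain ⟨m₁, hm₁, h1⟩ := hA'.2 a ha
    obtain ⟨m₂, hm₂, h2⟩ := hcom γ _ (hA'.1 h1)
    obtain ⟨m₃, hm₃, h3⟩ := hA'.2 _ h2
    refine ⟨m₁ * (m₂ * m₃), Nat.mul_pos hm₁ (Nat.mul_pos hm₂ hm₃), ?_⟩
    rw [hAγ, pow_mul]
    refine ⟨A'.pow_mem h1 _, ?_⟩
    rw [conj_pow, ← pow_mul] at h3
    exact h3
  have hgalg : ∀ γ, galg ρ (Aγ γ) = galg ρ A' := fun γ =>
    hmin' _ (fun a ha => ((hAγ γ a).1 ha).1) (hAγP γ)
  have hconj : ∀ γ, ∀ T ∈ galg ρ A', ρ γ * T * ρ γ⁻¹ ∈ galg ρ A' := by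
    intro γ T hT
    rw [← hgalg γ] at hT
    exact conj_galg ρ γ (fun a ha => ((hAγ γ a).1 ha).2) T hT
  have e1 : ∀ γ, ρ γ * ρ γ⁻¹ = 1 := fun γ => by rw [← map_mul, mul_inv_cancel, map_one]
  have e2 : ∀ γ, ρ γ⁻¹ * ρ γ = 1 := fun γ => by rw [← map_mul, inv_mul_cancel, map_one]
  let c : H → (galg ρ A' →ₐ[ℝ] galg ρ A') := fun γ =>
    { toFun := fun T => ⟨ρ γ * T * ρ γ⁻¹, hconj γ T T.2⟩
      map_one' := Subtype.ext (by
        show ρ γ * 1 * ρ γ⁻¹ = 1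
        rw [mul_one, e1])
      map_mul' := fun x y => Subtype.ext (by
        show ρ γ * ((x : 𝔸) * y) * ρ γ⁻¹ = (ρ γ * x * ρ γ⁻¹) * (ρ γ * y * ρ γ⁻¹)
        calc ρ γ * ((x : 𝔸) * y) * ρ γ⁻¹ = ρ γ * x * 1 * y * ρ γ⁻¹ := by noncomm_ring
          _ = ρ γ * x * (ρ γ⁻¹ * ρ γ) * y * ρ γ⁻¹ := by rw [e2]
          _ = _ := by noncomm_ring)
      map_zero' := Subtype.ext (by
        show ρ γ * 0 * ρ γ⁻¹ = 0
        rw [mul_zero, zero_mul])
      map_add' := fun x y => Subtype.ext (by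
        show ρ γ * ((x : 𝔸) + y) * ρ γ⁻¹ = _
        rw [mul_add, add_mul]
        rfl)
      commutes' := fun r => Subtype.ext (by
        show ρ γ * (algebraMap ℝ 𝔸 r) * ρ γ⁻¹ = algebraMap ℝ 𝔸 r
        rw [← Algebra.commutes, mul_assoc, e1, mul_one]) }
  have hca : ∀ γ (T : galg ρ A'), ((c γ T : galg ρ A') : 𝔸) = ρ γ * T * ρ γ⁻¹ := fun _ _ => rfl
  have hc1 : ∀ T, c 1 T = T := by
    intro T
    apply Subtype.ext
    rw [hca, inv_one, map_one, one_mul, mul_one]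
  have hcm : ∀ γ δ T, c (γ * δ) T = c γ (c δ T) := by
    intro γ δ T
    apply Subtype.ext
    rw [hca, hca, hca, mul_inv_rev, map_mul, map_mul]
    noncomm_ring
  let H' : Subgroup H :=
    { carrier := {γ | ∀ (χ : galg ρ A' →ₐ[ℝ] ℂ) (T : galg ρ A'), χ (c γ T) = χ T}
      one_mem' := fun χ T => by rw [hc1]
      mul_mem' := by
        intro γ δ hγ hδ χ T
        rw [hcm, hγ χ, hδ χ]
      inv_mem' := by
        intro γ hγ χ T
        have h1 := hγ χ (c γ⁻¹ T)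
        rw [← hcm, mul_inv_cancel, hc1] at h1
        exact h1.symm }
  have hH' : Finite (H ⧸ H') := by
    have := hfd A'
    have hfin : Finite (galg ρ A' →ₐ[ℝ] ℂ) := inferInstance
    refine Finite.of_injective (β := (galg ρ A' →ₐ[ℝ] ℂ) → (galg ρ A' →ₐ[ℝ] ℂ))
      (fun q χ => χ.comp (c (q.out)⁻¹)) ?_
    intro q q' h
    rw [← QuotientGroup.out_eq' q, ← QuotientGroup.out_eq' q', QuotientGroup.eq]
    intro χ T
    have h1 := congrFun h χ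
    have h2 := congrArg (fun f : galg ρ A' →ₐ[ℝ] ℂ => f (c q'.out T)) h1
    have h3 : χ (c (q.out)⁻¹ (c q'.out T)) = χ (c (q'.out)⁻¹ (c q'.out T)) := h2
    rw [← hcm, ← hcm, inv_mul_cancel, hc1] at h3
    exact h3
  by_cases hex : ∃ c ∈ A, IsNilpotent (ρ c - 1) ∧ ρ c ≠ 1
  · exact Or.inl hex
  push Not at hex
  refine Or.inr ⟨H', hH', A', hA'.1, hA'.2, fun γ hγ a ha => ?_⟩
  have haγ : ρ a ∈ galg ρ (Aγ γ) := by
    rw [hgalg]
    exact mem_galg ρ ha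
  refine Algebra.commute_of_mem_adjoin_of_forall_mem_commute (R := ℝ) haγ ?_
  rintro _ ⟨b, hb, rfl⟩
  obtain ⟨hb1, hb2⟩ := (hAγ γ b).1 hb
  set T : galg ρ A' := ⟨ρ b, mem_galg ρ hb1⟩ with hT
  have hab' : ∀ a ∈ A', ∀ b ∈ A', a * b = b * a := fun a ha b hb =>
    hab a (hA'.1 ha) b (hA'.1 hb)
  have hnil : IsNilpotent (c γ T - T) := by
    have := hfd A'
    refine nil_of_chars' (galg_comm ρ A' hab') _ fun χ => ?_
    rw [map_sub, hγ χ T, sub_self]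
  set S : galg ρ A' := ⟨ρ b⁻¹, mem_galg ρ (A'.inv_mem hb1)⟩ with hS
  have hnil2 : IsNilpotent ((c γ T - T) * S) :=
    Commute.isNilpotent_mul_right (galg_comm ρ A' hab' _ _) hnil
  have hnil3 : IsNilpotent (ρ (γ * b * γ⁻¹ * b⁻¹) - 1) := by
    have h1 : (((c γ T - T) * S : galg ρ A') : 𝔸) = ρ (γ * b * γ⁻¹ * b⁻¹) - 1 := by
      show (ρ γ * ρ b * ρ γ⁻¹ - ρ b) * ρ b⁻¹ = _
      rw [sub_mul, e1, map_mul, map_mul, map_mul]
    rw [← h1]
    exact hnil2.map (galg ρ A').val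
  have h1 := hex _ (hA'.1 (A'.mul_mem hb2 (A'.inv_mem hb1))) hnil3
  rw [map_mul, map_mul, map_mul] at h1
  show ρ γ * ρ b = ρ b * ρ γ
  calc ρ γ * ρ b = ρ γ * ρ b * (ρ γ⁻¹ * ρ γ) := by rw [e2, mul_one]
    _ = ρ γ * ρ b * ρ γ⁻¹ * (ρ b⁻¹ * ρ b) * ρ γ := by
      rw [e2 b, mul_one, ← mul_assoc]
    _ = (ρ γ * ρ b * ρ γ⁻¹ * ρ b⁻¹) * ρ b * ρ γ := by noncomm_ring
    _ = ρ b * ρ γ := by rw [h1, one_mul]

end dicho

end Pool.Agent.Helper63.SV
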