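import Pool.Agent.Helper63.SV.Cvx

/-!
Project SV (helper63): open convex sets with a cocompact group of affine maps contain no smaller
invariant open convex sets.
-/

set_option autoImplicit false

open Set Metric Filter Topology

namespace Pool.Agent.Helper63.SV

section min

variable {E : Type} [NormedAddCommGroup E] [NormedSpace ℝ E] [FiniteDimensional ℝ E]

/-- functionals constant along the lines of `X` are dominated by positive functionals -/
theorem dominated {X : Set E} (hXo : IsOpen X) (hXc : Convex ℝ X) (hne : X.Nonempty)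
    (T : Module.Dual ℝ (E × ℝ))
    (hT : ∀ v : E, (∀ x ∈ X, ∀ t : ℝ, x + t • v ∈ X) → T (v, 0) = 0) :
    ∃ φ : Module.Dual ℝ (E × ℝ), (∀ x ∈ X, 0 < φ (x, 1)) ∧ ∀ x ∈ X, T (x, 1) ≤ φ (x, 1) := by
  set P : Set (Module.Dual ℝ (E × ℝ)) := {ψ | ∀ x ∈ X, 0 ≤ ψ (x, 1)} with hP
  have hsnd : LinearMap.snd ℝ E ℝ ∈ P := fun x _ => zero_le_one
  have hmem : T ∈ Submodule.span ℝ P := by
    rw [← Subspace.dualCoannihilator_dualAnnihilator_eq (W := Submodule.span ℝ P),
      Submodule.mem_dualAnnihilator]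
    intro p hp
    have hp' : ∀ ψ ∈ P, ψ p = 0 := fun ψ hψ =>
      (Submodule.mem_dualCoannihilator p).1 hp ψ (Submodule.subset_span hψ)
    have hp2 : p.2 = 0 := hp' _ hsnd
    have hpe : p = (p.1, 0) := Prod.ext rfl hp2
    rw [hpe]
    apply hT
    obtain ⟨x₁, hx₁⟩ := hne
    apply recession hXo hXc (x₁ := x₁)
    intro t
    by_contra hcon
    obtain ⟨f, u, hf1, hf2⟩ := geometric_hahn_banach_closed_point hXc.closure isClosed_closure hcon
    set ψ : Module.Dual ℝ (E × ℝ) := u • LinearMap.snd ℝ E ℝ -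
      (f : E →ₗ[ℝ] ℝ).comp (LinearMap.fst ℝ E ℝ) with hψ
    have hψa : ∀ p : E × ℝ, ψ p = u * p.2 - f p.1 := fun p => rfl
    have hψP : ψ ∈ P := by
      intro x hx
      rw [hψa]
      have := hf1 x (subset_closure hx)
      show 0 ≤ u * 1 - f x
      linarith
    have h1 := hp' ψ hψP
    rw [hψa, hp2, mul_zero, zero_sub, neg_eq_zero] at h1
    rw [map_add, map_smul, h1, smul_zero, add_zero] at hf2
    have := hf1 x₁ (subset_closure hx₁)
    linarith
  obtain ⟨φ, hφP, hφT⟩ : ∃ φ ∈ P, ∀ x ∈ X, |T (x, 1)| ≤ φ (x, 1) := by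
    clear hT
    induction hmem using Submodule.span_induction with
    | mem ψ hψ => exact ⟨ψ, hψ, fun x hx => by rw [abs_of_nonneg (hψ x hx)]⟩
    | zero => exact ⟨0, fun x _ => le_rfl, fun x _ => by simp⟩
    | add ψ ψ' _ _ h h' =>
      obtain ⟨φ, h1, h2⟩ := h
      obtain ⟨φ', h1', h2'⟩ := h'
      refine ⟨φ + φ', fun x hx => add_nonneg (h1 x hx) (h1' x hx), fun x hx => ?_⟩
      exact (abs_add_le _ _).trans (add_le_add (h2 x hx) (h2' x hx))
    | smul c ψ _ h =>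
      obtain ⟨φ, h1, h2⟩ := h
      refine ⟨|c| • φ, fun x hx => mul_nonneg (abs_nonneg c) (h1 x hx), fun x hx => ?_⟩
      show |c * ψ (x, 1)| ≤ |c| * φ (x, 1)
      rw [abs_mul]
      exact mul_le_mul_of_nonneg_left (h2 x hx) (abs_nonneg c)
  refine ⟨φ + LinearMap.snd ℝ E ℝ, fun x hx => ?_, fun x hx => ?_⟩
  · show 0 < φ (x, 1) + 1
    have := hφP x hx
    linarith
  · show T (x, 1) ≤ φ (x, 1) + 1
    have := (le_abs_self _).trans (hφT x hx)
    linarith

omit [FiniteDimensional ℝ E] in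
theorem dual_combo (φ : Module.Dual ℝ (E × ℝ)) (x y : E) (τ : ℝ) :
    φ (x + τ • (x - y), 1) = (1 + τ) * φ (x, 1) - τ * φ (y, 1) := by
  have e : ((x + τ • (x - y), 1) : E × ℝ) = (1 + τ) • ((x, 1) : E × ℝ) - τ • ((y, 1) : E × ℝ) := by
    refine Prod.ext ?_ ?_
    · show x + τ • (x - y) = (1 + τ) • x - τ • y
      module
    · show (1 : ℝ) = (1 + τ) * 1 - τ * 1
      ring
  rw [e, map_sub, map_smul, map_smul]
  rfl

omit [FiniteDimensional ℝ E] in
theorem aff_combo (g : E →ᵃ[ℝ] E) (x y : E) (τ : ℝ) :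
    g (x + τ • (x - y)) = g x + τ • (g x - g y) := by
  have h1 := g.map_vadd x (τ • (x - y))
  rw [vadd_eq_add, vadd_eq_add, map_smul] at h1
  have h2 : g.linear (x - y) = g x - g y := g.linearMap_vsub x y
  rw [add_comm x, h1, h2, add_comm]

/-- **Minimality.** -/
theorem minimal {X Y : Set E} (hXo : IsOpen X) (hXc : Convex ℝ X) (hYo : IsOpen Y)
    (hYc : Convex ℝ Y) (hYX : Y ⊆ X) (hYne : Y.Nonempty)
    (hYV : ∀ y ∈ Y, ∀ v, (∀ x ∈ X, ∀ t : ℝ, x + t • v ∈ X) → y + v ∈ Y)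
    (K : Set E) (hK : IsCompact K) (hKX : K ⊆ X) (G : Set (E →ᵃ[ℝ] E))
    (hGX : ∀ g ∈ G, ∀ x ∈ X, g x ∈ X) (hGY : ∀ g ∈ G, ∀ y ∈ Y, g y ∈ Y)
    (hcc : ∀ x ∈ X, ∃ g ∈ G, ∃ k ∈ K, g k = x) : X ⊆ Y := by
  obtain ⟨y₀, hy₀⟩ := hYne
  -- uniform extension of segments
  obtain ⟨τ, hτ, hτ1, hτ2⟩ : ∃ τ : ℝ, 0 < τ ∧ (∀ k ∈ K, k + τ • (k - y₀) ∈ X) ∧
      ∀ k ∈ K, y₀ + τ • (y₀ - k) ∈ X := by
    have h1 : ∀ᶠ τ : ℝ in 𝓝 0, ∀ k ∈ K, k + τ • (k - y₀) ∈ X := by
      apply hK.eventually_forall_of_forall_eventually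
      intro k hk
      have hcont : Continuous fun z : ℝ × E => z.2 + z.1 • (z.2 - y₀) := by fun_prop
      have h2 := hcont.tendsto ((0 : ℝ), k)
      apply h2
      apply hXo.mem_nhds
      show k + (0 : ℝ) • (k - y₀) ∈ X
      rw [zero_smul, add_zero]
      exact hKX hk
    have h2 : ∀ᶠ τ : ℝ in 𝓝 0, ∀ k ∈ K, y₀ + τ • (y₀ - k) ∈ X := by
      apply hK.eventually_forall_of_forall_eventually
      intro k hk
      have hcont : Continuous fun z : ℝ × E => y₀ + z.1 • (y₀ - z.2) := by fun_prop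
      have h2 := hcont.tendsto ((0 : ℝ), k)
      apply h2
      apply hXo.mem_nhds
      show y₀ + (0 : ℝ) • (y₀ - k) ∈ X
      rw [zero_smul, add_zero]
      exact hYX hy₀
    have h3 : ∀ᶠ τ : ℝ in 𝓝[>] 0, (∀ k ∈ K, k + τ • (k - y₀) ∈ X) ∧
        ∀ k ∈ K, y₀ + τ • (y₀ - k) ∈ X := nhdsWithin_le_nhds (h1.and h2)
    obtain ⟨τ, ⟨h4, h5⟩, h6⟩ := (h3.and self_mem_nhdsWithin).exists
    exact ⟨τ, h6, h4, h5⟩
  have hcl : X ⊆ closure Y := by
    intro x₀ hx₀
    by_contra hcon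
    obtain ⟨f, u, hf1, hf2⟩ := geometric_hahn_banach_closed_point hYc.closure isClosed_closure hcon
    set T : Module.Dual ℝ (E × ℝ) := (f : E →ₗ[ℝ] ℝ).comp (LinearMap.fst ℝ E ℝ) -
      u • LinearMap.snd ℝ E ℝ with hT
    have hTa : ∀ p : E × ℝ, T p = f p.1 - u * p.2 := fun p => rfl
    have hTY : ∀ y ∈ Y, T (y, 1) ≤ 0 := by
      intro y hy
      rw [hTa]
      have := hf1 y (subset_closure hy)
      show f y - u * 1 ≤ 0
      linarith
    have hT0 : 0 < T (x₀, 1) := by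
      rw [hTa]
      show 0 < f x₀ - u * 1
      linarith
    obtain ⟨φ, hφ, hφT⟩ := dominated hXo hXc ⟨x₀, hx₀⟩ T (by
      intro v hv
      rw [hTa]
      show f v - u * 0 = 0
      rw [mul_zero, sub_zero]
      by_contra hfv
      have h1 := hf1 (y₀ + ((u - f y₀) / f v) • v) (subset_closure (hYV y₀ hy₀ _ (by
        intro x hx t
        rw [smul_smul]
        exact hv x hx _)))
      rw [map_add, map_smul, smul_eq_mul, div_mul_cancel₀ _ hfv] at h1
      linarith)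
    set κ : ℝ := (1 + τ) - τ * (τ / (1 + τ)) with hκ
    have hκ1 : κ < 1 + τ := by
      have : 0 < τ * (τ / (1 + τ)) := by positivity
      rw [hκ]
      linarith
    have hκ0 : 0 < κ := by
      have h1 : τ / (1 + τ) < 1 := by
        rw [div_lt_one (by positivity)]
        linarith
      rw [hκ]
      nlinarith
    set q : ℝ := (1 + τ) / κ with hq
    have hq1 : 1 < q := by
      rw [hq, one_lt_div hκ0]
      exact hκ1
    set ρ₀ : ℝ := T (x₀, 1) / φ (x₀, 1) with hρ₀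
    have hρ₀0 : 0 < ρ₀ := div_pos hT0 (hφ x₀ hx₀)
    have hstep : ∀ n : ℕ, ∃ x ∈ X, q ^ n * ρ₀ * φ (x, 1) ≤ T (x, 1) := by
      intro n
      induction n with
      | zero =>
        refine ⟨x₀, hx₀, ?_⟩
        rw [pow_zero, one_mul, hρ₀, div_mul_cancel₀ _ (hφ x₀ hx₀).ne']
      | succ n ih =>
        obtain ⟨x, hx, hxn⟩ := ih
        obtain ⟨g, hg, k, hk, rfl⟩ := hcc x hx
        set x := g k with hxdef
        set y := g y₀ with hy
        have hyY : y ∈ Y := hGY g hg y₀ hy₀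
        have hx' : x + τ • (x - y) ∈ X := by
          rw [hxdef, hy, ← aff_combo]
          exact hGX g hg _ (hτ1 k hk)
        have hy' : y + τ • (y - x) ∈ X := by
          rw [hxdef, hy, ← aff_combo]
          exact hGX g hg _ (hτ2 k hk)
        have h1 := hφ _ hy'
        rw [dual_combo] at h1
        refine ⟨_, hx', ?_⟩
        rw [dual_combo, dual_combo]
        have h2 : τ / (1 + τ) * φ (x, 1) ≤ φ (y, 1) := by
          rw [div_mul_eq_mul_div, div_le_iff₀ (by positivity)]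
          linarith
        have h3 : (1 + τ) * φ (x, 1) - τ * φ (y, 1) ≤ κ * φ (x, 1) := by
          rw [hκ]
          nlinarith
        have h4 := hTY y hyY
        have h5 : 0 ≤ q ^ (n + 1) * ρ₀ := by positivity
        calc q ^ (n + 1) * ρ₀ * ((1 + τ) * φ (x, 1) - τ * φ (y, 1)) ≤
            q ^ (n + 1) * ρ₀ * (κ * φ (x, 1)) := mul_le_mul_of_nonneg_left h3 h5
          _ = (1 + τ) * (q ^ n * ρ₀ * φ (x, 1)) := by
            rw [pow_succ, hq]
            field_simp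
          _ ≤ (1 + τ) * T (x, 1) := mul_le_mul_of_nonneg_left hxn (by positivity)
          _ ≤ (1 + τ) * T (x, 1) - τ * T (y, 1) := by nlinarith
    obtain ⟨n, hn⟩ := pow_unbounded_of_one_lt (1 / ρ₀) hq1
    obtain ⟨x, hx, hxn⟩ := hstep n
    have h1 := hφT x hx
    have h2 := hφ x hx
    rw [div_lt_iff₀ hρ₀0] at hn
    nlinarith
  have h1 : X ⊆ interior (closure Y) := interior_maximal hcl hXo
  rw [hYc.interior_closure_eq_interior_of_nonempty_interior
    (by rw [hYo.interior_eq]; exact ⟨y₀, hy₀⟩), hYo.interior_eq] at h1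
  exact h1

end min

end Pool.Agent.Helper63.SV
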