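import Pool.Agent.Helper63.SV.Smo
import Pool.Agent.Helper63.SV.Min
import Pool.Agent.Helper63.SV.Chr
import Pool.Agent.Helper63.SV.Cen

/-!
Project SV (helper63): closed convex affine manifolds with weakly commensurated abelian groups.
-/

set_option autoImplicit false

open Set Metric Filter Topology NormedSpace

namespace Pool.Agent.Helper63.SV

open Pool.Agent.N520.SV (Sx Chain face bdry norm1 BCob Negligible)

section aux

variable {E : Type} [NormedAddCommGroup E] [NormedSpace ℝ E] [FiniteDimensional ℝ E] {k : ℕ}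

/-- the points whose orbits under a part of the vector group are in a set -/
def part (B : Fin k → ((E × ℝ) →L[ℝ] (E × ℝ))) (R : Set E) (I : Finset (Fin k)) : Set E :=
  {v | ∀ s : Fin k → ℝ, (∀ i, i ∉ I → s i = 0) → flow B s v ∈ R}

omit [FiniteDimensional ℝ E] in
theorem flow_single (B : Fin k → ((E × ℝ) →L[ℝ] (E × ℝ))) (j : Fin k) (t : ℝ) (v : E) :
    flow B (Pi.single j t) v = (exp (t • B j) (v, 1)).1 := by
  show (exp (vecL B (Pi.single j t)) (v, 1)).1 = _
  rw [vecL_apply]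
  congr 3
  rw [Finset.sum_eq_single j]
  · rw [Pi.single_eq_same]
  · intro i _ hi
    rw [Pi.single_eq_of_ne hi, zero_smul]
  · intro h
    exact absurd (Finset.mem_univ j) h

omit [FiniteDimensional ℝ E] in
theorem flow_combo (B : Fin k → ((E × ℝ) →L[ℝ] (E × ℝ))) (s : Fin k → ℝ) (v w : E) (a b : ℝ)
    (hab : a + b = 1) : flow B s (a • v + b • w) = a • flow B s v + b • flow B s w := by
  show (exp (vecL B s) (a • v + b • w, 1)).1 = a • (exp (vecL B s) (v, 1)).1 +
    b • (exp (vecL B s) (w, 1)).1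
  have e : ((a • v + b • w, 1) : E × ℝ) = a • ((v, 1) : E × ℝ) + b • ((w, 1) : E × ℝ) := by
    refine Prod.ext rfl ?_
    show (1 : ℝ) = a * 1 + b * 1
    rw [mul_one, mul_one, hab]
  rw [e, map_add, map_smul, map_smul]
  rfl

omit [FiniteDimensional ℝ E] in
theorem part_convex (B : Fin k → ((E × ℝ) →L[ℝ] (E × ℝ))) {R : Set E} (hR : Convex ℝ R)
    (I : Finset (Fin k)) : Convex ℝ (part B R I) := by
  intro v hv w hw a b ha hb hab s hs
  rw [flow_combo B s v w a b hab]
  exact hR (hv s hs) (hw s hs) ha hb hab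

theorem part_open (B : Fin k → ((E × ℝ) →L[ℝ] (E × ℝ))) (hB : ∀ i p, (B i p).2 = 0)
    (hBc : ∀ i j, Commute (B i) (B j)) {R : Set E} (hR : IsOpen R)
    (hlat : ∀ (m : Fin k → ℤ), ∀ v ∈ R, flow B (fun i => (m i : ℝ)) v ∈ R)
    (I : Finset (Fin k)) : IsOpen (part B R I) := by
  set C : Set (Fin k → ℝ) := {s | s ∈ Icc (0 : Fin k → ℝ) 1 ∧ ∀ i, i ∉ I → s i = 0} with hC
  have hCc : IsCompact C := by
    have e : {s : Fin k → ℝ | ∀ i, i ∉ I → s i = 0} = ⋂ i, ⋂ (_ : i ∉ I), {s | s i = 0} := by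
      ext s
      simp only [mem_ofPred_eq, mem_iInter]
    have hcl : IsClosed {s : Fin k → ℝ | ∀ i, i ∉ I → s i = 0} := by
      rw [e]
      exact isClosed_iInter fun i => isClosed_iInter fun _ =>
        isClosed_eq (continuous_apply i) continuous_const
    exact (isCompact_Icc : IsCompact (Icc (0 : Fin k → ℝ) 1)).inter_right hcl
  have hmem : ∀ v, (∀ s ∈ C, flow B s v ∈ R) → v ∈ part B R I := by
    intro v hv s hs
    have e : s = (fun i => ((⌊s i⌋ : ℤ) : ℝ)) + fun i => Int.fract (s i) := by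
      funext i
      show s i = ((⌊s i⌋ : ℤ) : ℝ) + Int.fract (s i)
      exact (Int.floor_add_fract (s i)).symm
    rw [e, flow_add B hB hBc]
    apply hlat
    apply hv
    refine ⟨⟨fun i => Int.fract_nonneg _, fun i => (Int.fract_lt_one _).le⟩, fun i hi => ?_⟩
    show Int.fract (s i) = 0
    rw [hs i hi, Int.fract_zero]
  rw [isOpen_iff_mem_nhds]
  intro v hv
  have h1 : ∀ᶠ w in 𝓝 v, ∀ s ∈ C, flow B s w ∈ R := by
    apply hCc.eventually_forall_of_forall_eventually
    intro s hs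
    have hcont : Continuous fun z : E × (Fin k → ℝ) => flow B z.2 z.1 :=
      (flow_cont B).comp (continuous_snd.prodMk continuous_fst)
    exact hcont.tendsto (v, s) (hR.mem_nhds (hv s hs.2))
  filter_upwards [h1] with w hw
  exact hmem w hw

/-- **Orbits of unipotent vector groups in convex sets.** -/
theorem part_nonempty (B : Fin k → ((E × ℝ) →L[ℝ] (E × ℝ))) (hB : ∀ i p, (B i p).2 = 0)
    (hBc : ∀ i j, Commute (B i) (B j)) (hBn : ∀ i, IsNilpotent (B i)) {R : Set E}
    (hR : IsOpen R) (hRc : Convex ℝ R) (hne : R.Nonempty)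
    (hlat : ∀ (m : Fin k → ℤ), ∀ v ∈ R, flow B (fun i => (m i : ℝ)) v ∈ R)
    (I : Finset (Fin k)) : (part B R I).Nonempty := by
  induction I using Finset.induction_on with
  | empty =>
    obtain ⟨v, hv⟩ := hne
    refine ⟨v, fun s hs => ?_⟩
    have : s = 0 := funext fun i => hs i (Finset.notMem_empty i)
    rw [this, flow_zero]
    exact hv
  | insert j I _ ih =>
    have hstep : ∀ ε : ℤ, ∀ v ∈ part B R I, flow B (Pi.single j (ε : ℝ)) v ∈ part B R I := by
      intro ε v hv s hs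
      rw [← flow_add B hB hBc, add_comm, flow_add B hB hBc]
      have e : (Pi.single j (ε : ℝ) : Fin k → ℝ) =
          fun i => (((Pi.single j ε : Fin k → ℤ) i : ℤ) : ℝ) := by
        funext i
        rcases eq_or_ne i j with rfl | hi
        · rw [Pi.single_eq_same, Pi.single_eq_same]
        · rw [Pi.single_eq_of_ne hi, Pi.single_eq_of_ne hi, Int.cast_zero]
      rw [e]
      exact hlat _ _ (hv s hs)
    obtain ⟨y, hy⟩ := exists_orbit (part_open B hB hBc hR hlat I) (part_convex B hRc I) ih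
      (hBn j) (hB j) (fun v hv => by
        have h1 := hstep 1 v hv
        rw [flow_single, Int.cast_one, one_smul] at h1
        exact h1) (fun v hv => by
        have h1 := hstep (-1) v hv
        rw [flow_single, Int.cast_neg, Int.cast_one] at h1
        have e : (-1 : ℝ) • B j = -(B j) := by
          rw [neg_smul (1 : ℝ) (B j), one_smul]
        rwa [e] at h1)
    refine ⟨y, fun s hs => ?_⟩
    have h1 := hy (s j)
    rw [← flow_single] at h1
    have h2 := h1 (s - Pi.single j (s j)) (by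
      intro i hi
      show s i - (Pi.single j (s j) : Fin k → ℝ) i = 0
      rcases eq_or_ne i j with rfl | hij
      · rw [Pi.single_eq_same, sub_self]
      · rw [Pi.single_eq_of_ne hij, sub_zero]
        apply hs
        rw [Finset.mem_insert]
        push Not
        exact ⟨hij, hi⟩)
    rwa [← flow_add B hB hBc, sub_add_cancel] at h2

omit [FiniteDimensional ℝ E] in
/-- a unipotent vector group preserves the directions of the lines of an invariant convex set -/
theorem flow_lines (B : Fin k → ((E × ℝ) →L[ℝ] (E × ℝ)))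
    (hBc : ∀ i j, Commute (B i) (B j)) (hBn : ∀ i, IsNilpotent (B i))
    (V : Submodule ℝ (E × ℝ)) (hV : ∀ i (n : ℕ), ∀ p ∈ V, exp ((n : ℝ) • B i) p ∈ V)
    (s : Fin k → ℝ) : ∀ p ∈ V, exp (vecL B s) p ∈ V := by
  have h1 : ∀ i, ∀ p ∈ V, B i p ∈ V := by
    intro i p hp
    obtain ⟨D, hD⟩ := hBn i
    have hD' : B i ^ (D + 2) = 0 := pow_eq_zero_of_le (by omega) hD
    have h2 := poly_zero (D + 2) (fun j => V.mkQ ((((j.factorial : ℝ)⁻¹) • B i ^ j) p)) (by
      intro n
      have h3 := hV i n p hp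
      rw [exp_smul_nilp hD', sum_apply] at h3
      have h4 := (Submodule.Quotient.mk_eq_zero V).2 h3
      rw [← Submodule.mkQ_apply, map_sum] at h4
      rw [← h4]
      refine Finset.sum_congr rfl fun j _ => ?_
      rw [← map_smul]
      rfl) 1 (by omega)
    have h3 := (Submodule.Quotient.mk_eq_zero V).1 h2
    have e : (((Nat.factorial 1 : ℝ)⁻¹) • B i ^ 1) p = B i p := by simp
    rwa [e] at h3
  have h2 : ∀ p ∈ V, vecL B s p ∈ V := by
    intro p hp
    rw [vecL_apply, sum_apply]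
    exact V.sum_mem fun i _ => V.smul_mem _ (h1 i p hp)
  have h3 : ∀ (j : ℕ), ∀ p ∈ V, (vecL B s ^ j) p ∈ V := by
    intro j
    induction j with
    | zero => exact fun p hp => hp
    | succ j ih =>
      intro p hp
      rw [pow_succ]
      exact ih _ (h2 p hp)
  intro p hp
  obtain ⟨D, hD⟩ := vecL_nil B hBc hBn s
  rw [exp_nilp hD, sum_apply]
  exact V.sum_mem fun j _ => V.smul_mem _ (h3 j p hp)

end aux

section dev

variable {H X E : Type} [Group H] [MulAction H X] [NormedAddCommGroup E]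
  [NormedSpace ℝ E] [FiniteDimensional ℝ E] {dev : X → E} {k : ℕ}

theorem rep_inj_dev (hol : H →* (E →ᵃ[ℝ] E)) (D : ConvData dev fun γ => hol γ)
    (hfree : ∀ (γ : H) (x : X), γ • x = x → γ = 1) (x : X) : Function.Injective (rep hol) := by
  intro γ δ h
  have h1 := rep_dev D γ x
  rw [h, rep_dev D δ x] at h1
  have h2 : δ • x = γ • x := D.inj (congrArg Prod.fst h1)
  have h3 : (γ⁻¹ * δ) • x = x := by
    rw [mul_smul, h2, inv_smul_smul]
  exact inv_mul_eq_one.1 (hfree _ _ h3)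

omit [FiniteDimensional ℝ E] in
theorem torsion_free_dev (hol : H →* (E →ᵃ[ℝ] E)) (D : ConvData dev fun γ => hol γ)
    (hfree : ∀ (γ : H) (x : X), γ • x = x → γ = 1) (x : X) (a : H) (m : ℕ) (hm : 0 < m)
    (h : a ^ m = 1) : a = 1 := by
  obtain ⟨m, rfl⟩ := Nat.exists_eq_succ_of_ne_zero hm.ne'
  obtain ⟨b, hb⟩ := D.exists_bar (m := m) fun i => a ^ (i : ℕ) • x
  apply hfree a b
  apply D.inj
  rw [D.equi, hb, affine_centroid]
  congr 1
  have e : ∀ i : Fin (m + 1), hol a (dev (a ^ (i : ℕ) • x)) = dev (a ^ ((i : ℕ) + 1) • x) := by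
    intro i
    rw [← D.equi, ← mul_smul, pow_succ']
  simp only [e]
  rw [Fin.sum_univ_eq_sum_range (fun i => dev (a ^ (i + 1) • x)) (m + 1),
    Fin.sum_univ_eq_sum_range (fun i => dev (a ^ i • x)) (m + 1), Finset.sum_range_succ,
    Finset.sum_range_succ', h, pow_zero]

/-- **A unipotent vector group normalized by a cocompact group, with a lattice in it, preserves the
convex set.** -/
theorem flow_pres_uni (hol : H →* (E →ᵃ[ℝ] E)) (D : ConvData dev fun γ => hol γ)
    (hopen : IsOpen (range dev))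
    (hcc : ∃ K : Set E, IsCompact K ∧ K ⊆ range dev ∧ ∀ x, ∃ γ : H, dev (γ • x) ∈ K)
    (B : Fin k → ((E × ℝ) →L[ℝ] (E × ℝ))) (hB : ∀ i p, (B i p).2 = 0)
    (hBc : ∀ i j, Commute (B i) (B j)) (hBn : ∀ i, IsNilpotent (B i))
    (hlat : ∀ i, ∃ γ : H, rep hol γ = exp (B i))
    (hnrm : ∀ (γ : H) (i : Fin k), ∃ s : Fin k → ℝ, rep hol γ * B i = vecL B s * rep hol γ) :
    ∀ s, ∀ v ∈ range dev, flow B s v ∈ range dev := by
  rcases isEmpty_or_nonempty X with hX | ⟨⟨x₀⟩⟩
  · rintro s _ ⟨x, _⟩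
    exact (hX.false x).elim
  have hγR : ∀ γ : H, ∀ v ∈ range dev, hol γ v ∈ range dev := by
    rintro γ _ ⟨x, rfl⟩
    exact ⟨γ • x, D.equi γ x⟩
  have hrep : ∀ (γ : H) (v : E), rep hol γ (v, 1) = (hol γ v, 1) := fun γ v => hatL_apply _ _
  have hlatm : ∀ (m : Fin k → ℤ), ∀ v ∈ range dev, flow B (fun i => (m i : ℝ)) v ∈ range dev := by
    intro m v hv
    obtain ⟨γ, hγ⟩ := lat_of hol B hBc hlat m
    have h1 := flow_eq B hB (fun i => (m i : ℝ)) v
    rw [← hγ, hrep] at h1
    have h2 : hol γ v = flow B (fun i => (m i : ℝ)) v := congrArg Prod.fst h1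
    rw [← h2]
    exact hγR γ v hv
  set Y := part B (range dev) Finset.univ with hY
  have hYm : ∀ v, v ∈ Y ↔ ∀ s, flow B s v ∈ range dev := fun v =>
    ⟨fun h s => h s fun i hi => absurd (Finset.mem_univ i) hi, fun h s _ => h s⟩
  have hYX : Y ⊆ range dev := by
    intro v hv
    have h1 := (hYm v).1 hv 0
    rwa [flow_zero] at h1
  have hsemi : ∀ (γ : H) (s : Fin k → ℝ), ∃ s' : Fin k → ℝ, ∀ v,
      flow B s (hol γ v) = hol γ (flow B s' v) := by
    intro γ s
    choose t ht using hnrm γ⁻¹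
    refine ⟨∑ i, s i • t i, fun v => ?_⟩
    have e1 : rep hol γ * rep hol γ⁻¹ = 1 := by rw [← map_mul, mul_inv_cancel, map_one]
    have e2 : rep hol γ⁻¹ * rep hol γ = 1 := by rw [← map_mul, inv_mul_cancel, map_one]
    have h1 : rep hol γ⁻¹ * vecL B s = vecL B (∑ i, s i • t i) * rep hol γ⁻¹ := by
      rw [vecL_apply B s, Finset.mul_sum, map_sum, Finset.sum_mul]
      refine Finset.sum_congr rfl fun i _ => ?_
      rw [mul_smul_comm, ht, map_smul, smul_mul_assoc]
    have h2 : SemiconjBy (rep hol γ) (vecL B (∑ i, s i • t i)) (vecL B s) := by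
      show rep hol γ * vecL B (∑ i, s i • t i) = vecL B s * rep hol γ
      calc rep hol γ * vecL B (∑ i, s i • t i) =
          rep hol γ * (vecL B (∑ i, s i • t i) * rep hol γ⁻¹) * rep hol γ := by
            rw [mul_assoc, mul_assoc, e2, mul_one]
        _ = rep hol γ * (rep hol γ⁻¹ * vecL B s) * rep hol γ := by rw [h1]
        _ = vecL B s * rep hol γ := by rw [← mul_assoc, e1, one_mul]
    let := NormedAlgebra.restrictScalars ℚ ℝ ((E × ℝ) →L[ℝ] (E × ℝ))
    have h3 : rep hol γ * exp (vecL B (∑ i, s i • t i)) = exp (vecL B s) * rep hol γ :=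
      h2.exp_right
    have h4 : rep hol γ (exp (vecL B (∑ i, s i • t i)) (v, 1)) =
        exp (vecL B s) (rep hol γ (v, 1)) :=
      congrArg (fun T : (E × ℝ) →L[ℝ] (E × ℝ) => T (v, 1)) h3
    rw [flow_eq B hB, hrep, hrep, flow_eq B hB] at h4
    exact (congrArg Prod.fst h4).symm
  have hYne : Y.Nonempty :=
    part_nonempty B hB hBc hBn hopen D.conv ⟨_, x₀, rfl⟩ hlatm Finset.univ
  let V : Submodule ℝ (E × ℝ) :=
    { carrier := {p | p.2 = 0 ∧ ∀ x ∈ range dev, ∀ t : ℝ, x + t • p.1 ∈ range dev}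
      zero_mem' := ⟨rfl, fun x hx t => by
        show x + t • (0 : E) ∈ range dev
        rw [smul_zero, add_zero]
        exact hx⟩
      add_mem' := by
        rintro p q ⟨hp, hp'⟩ ⟨hq, hq'⟩
        refine ⟨by rw [Prod.snd_add, hp, hq, add_zero], fun x hx t => ?_⟩
        rw [Prod.fst_add, smul_add, ← add_assoc]
        exact hq' _ (hp' x hx t) t
      smul_mem' := by
        rintro c p ⟨hp, hp'⟩
        refine ⟨by rw [Prod.smul_snd, hp, smul_zero], fun x hx t => ?_⟩
        rw [Prod.smul_fst, smul_smul]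
        exact hp' x hx _ }
  have hVm : ∀ p, p ∈ V ↔ p.2 = 0 ∧ ∀ x ∈ range dev, ∀ t : ℝ, x + t • p.1 ∈ range dev :=
    fun p => Iff.rfl
  have hVγ : ∀ (γ : H), ∀ p ∈ V, rep hol γ p ∈ V := by
    intro γ p hp
    obtain ⟨hp1, hp2⟩ := (hVm p).1 hp
    have e : rep hol γ p = ((hol γ).linear p.1, 0) := by
      show ((hol γ).linear p.1 + p.2 • hol γ 0, p.2) = _
      rw [hp1, zero_smul, add_zero]
    rw [e, hVm]
    refine ⟨rfl, fun x hx t => ?_⟩
    obtain ⟨x', rfl⟩ := hx
    have h1 := hγR γ _ (hp2 (dev (γ⁻¹ • x')) ⟨_, rfl⟩ t)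
    have e2 : hol γ (dev (γ⁻¹ • x') + t • p.1) = dev x' + t • (hol γ).linear p.1 := by
      have h2 := (hol γ).map_vadd (dev (γ⁻¹ • x')) (t • p.1)
      rw [vadd_eq_add, vadd_eq_add, map_smul] at h2
      rw [add_comm (dev (γ⁻¹ • x')), h2, ← D.equi, smul_inv_smul, add_comm]
    rwa [e2] at h1
  have hVflow : ∀ (s : Fin k → ℝ), ∀ p ∈ V, exp (vecL B s) p ∈ V := by
    apply flow_lines B hBc hBn V
    intro i n p hp
    obtain ⟨γ, hγ⟩ := hlat i
    rw [exp_nat_al, ← hγ, ← map_pow]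
    exact hVγ _ p hp
  obtain ⟨K, hK, hKr, hc⟩ := hcc
  have hmin := minimal hopen D.conv (part_open B hB hBc hopen hlatm Finset.univ)
    (part_convex B D.conv Finset.univ) hYX hYne (by
      intro y hy v hv
      rw [← hY, hYm]
      intro s
      have h1 := hVflow s (v, 0) ⟨rfl, hv⟩
      have e : flow B s (y + v) = flow B s y + (1 : ℝ) • (exp (vecL B s) (v, 0)).1 := by
        show (exp (vecL B s) (y + v, 1)).1 = (exp (vecL B s) (y, 1)).1 + _
        have e2 : ((y + v, 1) : E × ℝ) = (y, 1) + (v, 0) := by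
          rw [Prod.mk_add_mk, add_zero]
        rw [e2, map_add, one_smul]
        rfl
      rw [e]
      exact ((hVm _).1 h1).2 _ ((hYm y).1 hy s) 1) K hK hKr (range fun γ : H => hol γ)
    (by
      rintro _ ⟨γ, rfl⟩
      exact hγR γ)
    (by
      rintro _ ⟨γ, rfl⟩ y hy
      rw [← hY, hYm] at hy ⊢
      intro s
      obtain ⟨s', hs'⟩ := hsemi γ s
      rw [hs']
      exact hγR γ _ (hy s'))
    (by
      rintro _ ⟨x, rfl⟩
      obtain ⟨γ, hγ⟩ := hc x
      refine ⟨hol γ⁻¹, ⟨γ⁻¹, rfl⟩, _, hγ, ?_⟩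
      rw [← D.equi, inv_smul_smul])
  intro s v hv
  exact (hYm v).1 (hmin hv) s

/-- **Vanishing for weakly commensurated abelian groups with unipotent elements.** -/
theorem core_uni_cvx (hol : H →* (E →ᵃ[ℝ] E)) (D : ConvData dev fun γ => hol γ)
    (hopen : IsOpen (range dev)) (hfree : ∀ (γ : H) (x : X), γ • x = x → γ = 1)
    (hpd : ∀ K : Set E, IsCompact K → K ⊆ range dev →
      {γ : H | ∃ x, dev x ∈ K ∧ dev (γ • x) ∈ K}.Finite)
    (hcc : ∃ K : Set E, IsCompact K ∧ K ⊆ range dev ∧ ∀ x, ∃ γ : H, dev (γ • x) ∈ K)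
    (A : Subgroup H) (hab : ∀ a ∈ A, ∀ b ∈ A, a * b = b * a)
    (hcom : ∀ (γ : H), ∀ a ∈ A, ∃ m : ℕ, 0 < m ∧ γ * a ^ m * γ⁻¹ ∈ A) (c : H) (hcA : c ∈ A)
    (hcn : IsNilpotent (rep hol c - 1)) (hc1 : rep hol c ≠ 1) {n : ℕ}
    (hn : Module.finrank ℝ E < n + 1) : Van H X n := by
  set S : Set ((E × ℝ) →L[ℝ] (E × ℝ)) := {B | IsNilpotent B ∧ ∃ a ∈ A, rep hol a = exp B} with hS
  obtain ⟨k, hk, B, hBS, hBspan, hBl⟩ : ∃ k : ℕ, k = Module.finrank ℝ (Submodule.span ℝ S) ∧
      ∃ B : Fin k → ((E × ℝ) →L[ℝ] (E × ℝ)), (∀ i, B i ∈ S) ∧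
        Submodule.span ℝ (range B) = Submodule.span ℝ S ∧ LinearIndependent ℝ B :=
    ⟨_, rfl, Submodule.exists_fun_fin_finrank_span_eq ℝ S⟩
  have hBn : ∀ i, IsNilpotent (B i) := fun i => (hBS i).1
  have hBc : ∀ i j, Commute (B i) (B j) := by
    intro i j
    obtain ⟨a, ha, ha'⟩ := (hBS i).2
    obtain ⟨b, hb, hb'⟩ := (hBS j).2
    apply commute_nil (hBn i) (hBn j)
    rw [← ha', ← hb']
    show _ * _ = _ * _
    rw [← map_mul, ← map_mul, hab a ha b hb]
  have hB0 : ∀ i p, (B i p).2 = 0 := by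
    intro i
    apply snd_zero (hBn i)
    obtain ⟨a, _, ha'⟩ := (hBS i).2
    rw [← ha']
    exact fun p => rfl
  have hlat : ∀ i, ∃ γ : H, rep hol γ = exp (B i) := fun i => by
    obtain ⟨a, _, ha'⟩ := (hBS i).2
    exact ⟨a, ha'⟩
  have hnrm : ∀ (γ : H) (i : Fin k), ∃ s : Fin k → ℝ,
      rep hol γ * B i = vecL B s * rep hol γ := by
    intro γ i
    obtain ⟨a, ha, ha'⟩ := (hBS i).2
    obtain ⟨m, hm, hmA⟩ := hcom γ a ha
    have e1 : rep hol γ * rep hol γ⁻¹ = 1 := by
      rw [← map_mul, mul_inv_cancel, map_one]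
    have e2 : rep hol γ⁻¹ * rep hol γ = 1 := by
      rw [← map_mul, inv_mul_cancel, map_one]
    have hmem : (m : ℝ) • (rep hol γ * B i * rep hol γ⁻¹) ∈ S := by
      refine ⟨?_, _, hmA, ?_⟩
      · apply IsNilpotent.smul
        obtain ⟨D, hD⟩ := hBn i
        refine ⟨D, ?_⟩
        have e5 : ∀ q : ℕ, (rep hol γ * B i * rep hol γ⁻¹) ^ q =
            rep hol γ * B i ^ q * rep hol γ⁻¹ := by
          intro q
          induction q with
          | zero => rw [pow_zero, pow_zero, mul_one, e1]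
          | succ q ih =>
            rw [pow_succ, ih, pow_succ]
            calc rep hol γ * B i ^ q * rep hol γ⁻¹ * (rep hol γ * B i * rep hol γ⁻¹) =
                rep hol γ * B i ^ q * (rep hol γ⁻¹ * rep hol γ) * B i * rep hol γ⁻¹ := by
                  noncomm_ring
              _ = rep hol γ * (B i ^ q * B i) * rep hol γ⁻¹ := by rw [e2]; noncomm_ring
        rw [e5, hD, mul_zero, zero_mul]
      · rw [exp_nat_al, exp_conj' e1 e2, ← ha', ← map_mul, ← map_mul, ← map_pow]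
        congr 1
        exact conj_pow.symm
    have hmem2 : rep hol γ * B i * rep hol γ⁻¹ ∈ Submodule.span ℝ (range B) := by
      rw [hBspan]
      have h1 := Submodule.smul_mem (Submodule.span ℝ S) (m : ℝ)⁻¹ (Submodule.subset_span hmem)
      rwa [smul_smul, inv_mul_cancel₀ (by exact_mod_cast hm.ne'), one_smul] at h1
    obtain ⟨s, hs⟩ := (Submodule.mem_span_range_iff_exists_fun ℝ).1 hmem2
    refine ⟨s, ?_⟩
    rw [vecL_apply, hs, mul_assoc, mul_assoc, e2, mul_one]
  have hk1 : 1 ≤ k := by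
    rw [hk, Nat.one_le_iff_ne_zero]
    intro h0
    rw [Submodule.finrank_eq_zero] at h0
    obtain ⟨N, hN⟩ := hcn
    obtain ⟨b, hb, hb'⟩ := exists_log hN
    have hbS : b ∈ Submodule.span ℝ S := Submodule.subset_span ⟨⟨N, hb⟩, c, hcA, hb'.symm⟩
    rw [h0, Submodule.mem_bot] at hbS
    rw [hbS, exp_zero] at hb'
    exact hc1 hb'.symm
  have hX := flow_pres_uni hol D hopen hcc B hB0 hBc hBn hlat hnrm
  choose γ hγ using lat_of hol B hBc hlat
  have hinj : Function.Injective γ := by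
    intro m m' h
    have h1 := hγ m
    rw [h, hγ m'] at h1
    have h2 := exp_inj_nil (vecL_nil B hBc hBn _) (vecL_nil B hBc hBn _) h1
    rw [vecL_apply, vecL_apply] at h2
    rw [Fintype.linearIndependent_iff] at hBl
    have h3 := hBl (fun i => (m' i : ℝ) - (m i : ℝ)) (by
      simp only [sub_smul]
      rw [Finset.sum_sub_distrib, h2, sub_self])
    funext i
    have h4 : (m' i : ℝ) - (m i : ℝ) = 0 := h3 i
    have h5 : (m' i : ℝ) = (m i : ℝ) := by linarith
    exact_mod_cast h5.symm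
  obtain ⟨α, β, G⟩ := geo_of_vec hol k n D hopen hfree hpd hcc B hB0 hBc
    (fun s x => by
      obtain ⟨y, hy⟩ := hX s (dev x) ⟨x, rfl⟩
      exact ⟨y, hy.symm⟩)
    hlat hnrm
    (fun x s hs => ind_dev hol D hpd B hB0 hBc hX γ hγ hinj x s hs) (by omega)
  intro f hb hf hfi z hz
  exact G.vanish f hb hf hfi z hz

/-- **Vanishing for weakly commensurated abelian groups.** -/
theorem core_cvx_ab (hol : H →* (E →ᵃ[ℝ] E)) (D : ConvData dev fun γ => hol γ)
    (hopen : IsOpen (range dev)) (hfree : ∀ (γ : H) (x : X), γ • x = x → γ = 1)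
    (hpd : ∀ K : Set E, IsCompact K → K ⊆ range dev →
      {γ : H | ∃ x, dev x ∈ K ∧ dev (γ • x) ∈ K}.Finite)
    (hcc : ∃ K : Set E, IsCompact K ∧ K ⊆ range dev ∧ ∀ x, ∃ γ : H, dev (γ • x) ∈ K)
    (A : Subgroup H) (hab : ∀ a ∈ A, ∀ b ∈ A, a * b = b * a)
    (hcom : ∀ (γ : H), ∀ a ∈ A, ∃ m : ℕ, 0 < m ∧ γ * a ^ m * γ⁻¹ ∈ A) (a : H) (haA : a ∈ A)
    (ha1 : a ≠ 1) {n : ℕ} (hn : Module.finrank ℝ E < n + 1) : Van H X n := by
  classical
  rcases isEmpty_or_nonempty X with hX | ⟨⟨x₀⟩⟩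
  · intro f hb hf hfi z hz
    have : z = 0 := by
      ext x
      exact (hX.false (x 0)).elim
    rw [this, map_zero]
  have hrinj := rep_inj_dev hol D hfree x₀
  have htf := torsion_free_dev hol D hfree x₀
  rcases dicho (rep hol) A hab hcom with ⟨c, hcA, hcn, hc1⟩ | ⟨H', hH', A', hA', hpf, hcen⟩
  · exact core_uni_cvx hol D hopen hfree hpd hcc A hab hcom c hcA hcn hc1 hn
  · obtain ⟨m, hm, ham⟩ := hpf a haA
    have hidx : H'.index ≠ 0 := by
      have : H'.FiniteIndex := Subgroup.finiteIndex_of_finite_quotient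
      exact this.index_ne_zero
    obtain ⟨N, hN, _, haN⟩ := Subgroup.exists_pow_mem_of_index_ne_zero hidx (a ^ m)
    set g : H := (a ^ m) ^ N with hg
    have hg1 : ∀ j : ℤ, g ^ j = 1 → j = 0 := by
      intro j hj
      by_contra hne
      apply ha1
      have h2 : g ^ j.natAbs = 1 := by
        rcases Int.natAbs_eq j with h3 | h3
        · rw [h3, zpow_natCast] at hj
          exact hj
        · rw [h3, zpow_neg, zpow_natCast, inv_eq_one] at hj
          exact hj
      rw [hg, ← pow_mul, ← pow_mul] at h2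
      exact htf a _ (Nat.mul_pos hm (Nat.mul_pos hN (Int.natAbs_pos.2 hne))) h2
    have hgc : ∀ γ ∈ H', g * γ = γ * g := by
      intro γ hγ
      apply hrinj
      rw [map_mul, map_mul]
      exact (hcen γ hγ g (A'.pow_mem ham N)).symm
    let ψ : Multiplicative (Fin 1 → ℤ) →* H' :=
      { toFun := fun m => ⟨g, haN⟩ ^ (m.toAdd 0)
        map_one' := by
          show (⟨g, haN⟩ : H') ^ (0 : ℤ) = 1
          rw [zpow_zero]
        map_mul' := fun m m' => by
          show (⟨g, haN⟩ : H') ^ (m.toAdd 0 + m'.toAdd 0) = _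
          rw [zpow_add] }
    have hψ : Function.Injective ψ := by
      rw [injective_iff_map_eq_one]
      intro m hm
      have h1 : g ^ (m.toAdd 0) = 1 := by
        have := congrArg Subtype.val hm
        exact this
      apply Multiplicative.toAdd.injective
      funext i
      rw [Fin.eq_zero i, hg1 _ h1]
      rfl
    have DH : ConvData dev fun γ : H' => (hol.comp H'.subtype) γ :=
      ⟨D.inj, D.conv, fun γ x => D.equi γ x⟩
    have hVanH : Van H' X n := by
      refine core_cen (hol.comp H'.subtype) DH hopen ?_ ?_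
        (exists_compact_dev_sub hol D hcc H') ψ hψ ?_ hn
      · intro γ x hx
        exact Subtype.ext (hfree (γ : H) x hx)
      · intro K hK hKr
        refine Set.Finite.of_finite_image (f := (Subtype.val : H' → H))
          ((hpd K hK hKr).subset ?_) Subtype.val_injective.injOn
        rintro _ ⟨γ, ⟨x, hx, hx'⟩, rfl⟩
        exact ⟨x, hx, hx'⟩
      · intro m γ
        have h1 : Commute (⟨g, haN⟩ : H') γ := Subtype.ext (hgc γ γ.2)
        exact (h1.zpow_left (m.toAdd 0)).eq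
    exact hVanH.of_finiteIndex H'

end dev

section main

variable {Γ E : Type} [Group Γ] [NormedAddCommGroup E] [NormedSpace ℝ E] [FiniteDimensional ℝ E]
  {X : Set E} [MulAction Γ X]

theorem main_cvx_ab (hXo : IsOpen X) (hXc : Convex ℝ X) (hol : Γ →* (E →ᵃ[ℝ] E))
    (hact : ∀ (γ : Γ) (x : X), ((γ • x : X) : E) = hol γ x)
    (hfree : ∀ (γ : Γ) (x : X), γ • x = x → γ = 1)
    (hprop : ∀ K : Set X, IsCompact K → {γ : Γ | ∃ x ∈ K, γ • x ∈ K}.Finite)
    (hcpt : CompactSpace (MulAction.orbitRel.Quotient Γ X))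
    (H : Subgroup Γ) (hH : H.FiniteIndex) (A : Subgroup Γ) (hAH : A ≤ H) (hA : A ≠ ⊥)
    (hab : ∀ a ∈ A, ∀ b ∈ A, a * b = b * a)
    (hcom : ∀ γ ∈ H, ∀ a ∈ A, ∃ m : ℕ, 0 < m ∧ γ * a ^ m * γ⁻¹ ∈ A)
    (k : ℕ) (hk : Module.finrank ℝ E ≤ k + 1) :
    Negligible k (MulAction.orbitRel.Quotient Γ X) := by
  have hfin : Finite (Γ ⧸ H) := Subgroup.finite_quotient_of_finiteIndex
  have hcont := cont_smul_of_hol hol hact
  have D : ConvData (Subtype.val : X → E) fun γ => hol γ :=
    ⟨Subtype.val_injective, by rw [Subtype.range_coe]; exact hXc, hact⟩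
  have hcc : ∃ K : Set E, IsCompact K ∧ K ⊆ range (Subtype.val : X → E) ∧
      ∀ x : X, ∃ γ : Γ, ((γ • x : X) : E) ∈ K := by
    obtain ⟨K, hK, hKX, h⟩ := exists_compact_cvx hXo hcont hcpt
    exact ⟨K, hK, by rwa [Subtype.range_coe], h⟩
  have DH : ConvData (Subtype.val : X → E) fun γ : H => (hol.comp H.subtype) γ :=
    ⟨D.inj, D.conv, fun γ x => D.equi γ x⟩
  obtain ⟨⟨a, haA⟩, ha1⟩ := Subgroup.ne_bot_iff_exists_ne_one.1 hA
  have ha : a ≠ 1 := fun h => ha1 (Subtype.ext h)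
  have hVanH : Van H X (k + 1) := by
    refine core_cvx_ab (hol.comp H.subtype) DH (by rw [Subtype.range_coe]; exact hXo) ?_ ?_
      (exists_compact_dev_sub hol D hcc H) (A.subgroupOf H) ?_ ?_ ⟨a, hAH haA⟩ haA
      (fun h => ha (congrArg Subtype.val h)) (by omega)
    · intro γ x hx
      exact Subtype.ext (hfree (γ : Γ) x hx)
    · intro K hK hKr
      refine Set.Finite.of_finite_image (f := (Subtype.val : H → Γ))
        ((pd_val hprop K hK hKr).subset ?_) Subtype.val_injective.injOn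
      rintro _ ⟨γ, ⟨x, hx, hx'⟩, rfl⟩
      exact ⟨x, hx, hx'⟩
    · intro a ha b hb
      exact Subtype.ext (hab a ha b hb)
    · intro γ a ha
      obtain ⟨m, hm, h⟩ := hcom γ γ.2 a ha
      exact ⟨m, hm, h⟩
  have hVan : Van Γ X (k + 1) := hVanH.of_finiteIndex H
  have : LocallyCompactSpace X := hXo.locallyCompactSpace
  exact negligible_of_tuples D Topology.IsEmbedding.subtypeVal hcont hprop hfree k hVan

end main

end Pool.Agent.Helper63.SV
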