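import Pool.Agent.Helper63.SV.Sub

/-!
Project SV (helper63): means, and the vanishing theorem for amenable cells (chains of tuples).
-/

set_option autoImplicit false

open Finset

namespace Pool.Agent.Helper63.SV

/-- bounded functions -/
def BdF {X : Type} (u : X → ℝ) : Prop := ∃ C : ℝ, ∀ x, |u x| ≤ C

/-- an equivariant family of means on the bounded functions on `X`, indexed by `Y` -/
structure MeanFam (Γ : Type) {X Y : Type} [Group Γ] [MulAction Γ X] [MulAction Γ Y]
    (M : Y → (X → ℝ) → ℝ) : Prop where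
  add : ∀ y u v, BdF u → BdF v → M y (fun x => u x + v x) = M y u + M y v
  smul : ∀ y (c : ℝ) u, BdF u → M y (fun x => c * u x) = c * M y u
  bound : ∀ y u (C : ℝ), (∀ x, |u x| ≤ C) → |M y u| ≤ C
  const : ∀ y (c : ℝ), M y (fun _ => c) = c
  eqv : ∀ (γ : Γ) y u, M (γ • y) u = M y fun x => u (γ • x)

section avg

variable {Γ X Y : Type} [Group Γ] [MulAction Γ X] [MulAction Γ Y]

theorem MeanFam.sum {M : Y → (X → ℝ) → ℝ} (hM : MeanFam Γ M) (y : Y) {ι : Type}
    (s : Finset ι) (c : ι → ℝ) (u : ι → X → ℝ) (hu : ∀ i, BdF (u i)) :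
    BdF (fun x => ∑ i ∈ s, c i * u i x) ∧
      M y (fun x => ∑ i ∈ s, c i * u i x) = ∑ i ∈ s, c i * M y (u i) := by
  classical
  induction s using Finset.induction_on with
  | empty =>
    refine ⟨⟨0, fun x => by simp⟩, ?_⟩
    simp only [Finset.sum_empty]
    exact hM.const y 0
  | insert i s hi ih =>
    have hb : BdF (fun x => c i * u i x) := by
      obtain ⟨C, hC⟩ := hu i
      refine ⟨|c i| * C, fun x => ?_⟩
      rw [abs_mul]
      exact mul_le_mul_of_nonneg_left (hC x) (abs_nonneg _)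
    simp only [Finset.sum_insert hi]
    refine ⟨?_, ?_⟩
    · obtain ⟨C, hC⟩ := hb
      obtain ⟨C', hC'⟩ := ih.1
      exact ⟨C + C', fun x => (abs_add_le _ _).trans (add_le_add (hC x) (hC' x))⟩
    · rw [hM.add y _ _ hb ih.1, hM.smul y _ _ (hu i), ih.2]

/-- iterated means -/
noncomputable def avg (M : Y → (X → ℝ) → ℝ) : ∀ m, (Fin m → Y) → ((Fin m → X) → ℝ) → ℝ
  | 0, _, f => f default
  | m + 1, z, f => M (z 0) fun x => avg M m (Fin.tail z) fun x' => f (Fin.cons x x')

variable {M : Y → (X → ℝ) → ℝ} (hM : MeanFam Γ M)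

include hM

theorem avg_bound : ∀ (m : ℕ) (z : Fin m → Y) (f : (Fin m → X) → ℝ) (C : ℝ),
    (∀ x, |f x| ≤ C) → |avg M m z f| ≤ C := by
  intro m
  induction m with
  | zero => exact fun z f C h => h _
  | succ m ih =>
    intro z f C h
    exact hM.bound _ _ _ fun x => ih _ _ _ fun x' => h _

theorem avg_bdF {m : ℕ} (z : Fin m → Y) (f : (Fin (m + 1) → X) → ℝ) (hf : BdF f) :
    BdF fun x => avg M m z fun x' => f (Fin.cons x x') := by
  obtain ⟨C, hC⟩ := hf
  exact ⟨C, fun x => avg_bound hM m z _ C fun x' => hC _⟩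

theorem avg_sum : ∀ (m : ℕ) (z : Fin m → Y) {ι : Type} (s : Finset ι) (c : ι → ℝ)
    (f : ι → (Fin m → X) → ℝ), (∀ i, BdF (f i)) →
    avg M m z (fun x => ∑ i ∈ s, c i * f i x) = ∑ i ∈ s, c i * avg M m z (f i) := by
  intro m
  induction m with
  | zero => exact fun z ι s c f h => rfl
  | succ m ih =>
    intro z ι s c f h
    have h1 : ∀ x, (avg M m (Fin.tail z) fun x' => ∑ i ∈ s, c i * f i (Fin.cons x x')) =
        ∑ i ∈ s, c i * avg M m (Fin.tail z) fun x' => f i (Fin.cons x x') := by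
      intro x
      refine ih (Fin.tail z) s c (fun i x' => f i (Fin.cons x x')) fun i => ?_
      obtain ⟨C, hC⟩ := h i
      exact ⟨C, fun x' => hC _⟩
    show M (z 0) (fun x => avg M m (Fin.tail z) fun x' => ∑ i ∈ s, c i * f i (Fin.cons x x')) = _
    simp only [h1]
    exact (hM.sum (z 0) s c (fun i x => avg M m (Fin.tail z) fun x' => f i (Fin.cons x x'))
      fun i => avg_bdF hM _ _ (h i)).2

theorem avg_face : ∀ (m : ℕ) (z : Fin (m + 1) → Y) (f : (Fin m → X) → ℝ) (i : Fin (m + 1)),
    avg M (m + 1) z (fun x => f fun j => x (i.succAbove j)) =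
      avg M m (fun j => z (i.succAbove j)) f := by
  have hzero : ∀ (m : ℕ) (z : Fin (m + 1) → Y) (f : (Fin m → X) → ℝ),
      avg M (m + 1) z (fun x => f fun j => x ((0 : Fin (m + 1)).succAbove j)) =
        avg M m (fun j => z ((0 : Fin (m + 1)).succAbove j)) f := by
    intro m z f
    show M (z 0) (fun x => avg M m (Fin.tail z) fun x' =>
      f fun j => (Fin.cons x x' : Fin (m + 1) → X) ((0 : Fin (m + 1)).succAbove j)) = _
    simp only [Fin.succAbove_zero, Fin.cons_succ]
    exact hM.const _ _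
  intro m
  induction m with
  | zero =>
    intro z f i
    have : i = 0 := Fin.fin_one_eq_zero i
    subst this
    exact hzero 0 z f
  | succ m ih =>
    intro z f i
    refine Fin.cases ?_ (fun j => ?_) i
    · exact hzero (m + 1) z f
    · show M (z 0) (fun x => avg M (m + 1) (Fin.tail z) fun x' =>
        f fun l => (Fin.cons x x' : Fin (m + 2) → X) (j.succ.succAbove l)) =
        M (z (j.succ.succAbove 0)) (fun x => avg M m
          (Fin.tail fun l => z (j.succ.succAbove l)) fun x' => f (Fin.cons x x'))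
      rw [Fin.succ_succAbove_zero]
      congr 1
      funext x
      have h1 : (Fin.tail fun l => z (j.succ.succAbove l)) =
          fun l => (Fin.tail z) (j.succAbove l) := by
        funext l
        simp only [Fin.tail, Fin.succ_succAbove_succ]
      rw [h1, ← ih (Fin.tail z) (fun x' => f (Fin.cons x x')) j]
      congr 1
      funext x'
      rw [cons_succAbove]

theorem avg_eqv (γ : Γ) : ∀ (m : ℕ) (z : Fin m → Y) (f : (Fin m → X) → ℝ),
    avg M m (γ • z) f = avg M m z fun x => f (γ • x) := by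
  intro m
  induction m with
  | zero =>
    intro z f
    show f default = f (γ • default)
    congr 1
    exact Subsingleton.elim _ _
  | succ m ih =>
    intro z f
    show M (γ • z 0) (fun x => avg M m (Fin.tail (γ • z)) fun x' => f (Fin.cons x x')) =
      M (z 0) (fun x => avg M m (Fin.tail z) fun x' => f (γ • (Fin.cons x x' : Fin (m + 1) → X)))
    rw [hM.eqv]
    congr 1
    funext x
    have h1 : Fin.tail (γ • z) = γ • Fin.tail z := rfl
    rw [h1, ih]
    congr 1
    funext x'
    congr 1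
    funext j
    refine Fin.cases ?_ (fun l => ?_) j
    · simp
    · simp

theorem avg_cocycle {n : ℕ} (f : (Fin (n + 1) → X) → ℝ) (hb : BdF f)
    (hf : ∀ c : TC X (n + 2), pr f (bd c) = 0) (c : TC Y (n + 2)) :
    pr (fun z => avg M (n + 1) z f) (bd c) = 0 := by
  have : ((pr fun z => avg M (n + 1) z f).comp bd : TC Y (n + 2) →ₗ[ℝ] ℝ) = 0 := by
    refine Finsupp.lhom_ext' fun z => LinearMap.ext_ring ?_
    simp only [LinearMap.comp_apply, Finsupp.lsingle_apply, LinearMap.zero_apply]
    rw [bd_single, bx, map_sum]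
    simp only [map_smul, pr_single, smul_eq_mul]
    have h1 : ∀ i : Fin (n + 2), avg M (n + 1) (fun j => z (i.succAbove j)) f =
        avg M (n + 2) z (fun x => f fun j => x (i.succAbove j)) := fun i =>
      (avg_face hM (n + 1) z f i).symm
    simp only [h1]
    rw [← avg_sum hM (n + 2) z Finset.univ (fun i : Fin (n + 2) => (-1 : ℝ) ^ (i : ℕ))
      (fun i x => f fun j => x (i.succAbove j)) (fun i => by
        obtain ⟨C, hC⟩ := hb
        exact ⟨C, fun x => hC _⟩)]
    have h2 : ∀ x : Fin (n + 2) → X,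
        ∑ i : Fin (n + 2), (-1 : ℝ) ^ (i : ℕ) * f (fun j => x (i.succAbove j)) = 0 := by
      intro x
      have := hf (Finsupp.single x 1)
      rw [bd_single, bx, map_sum] at this
      simpa only [map_smul, pr_single, smul_eq_mul] using this
    simp only [h2]
    have h3 := avg_bound hM (n + 2) z (fun _ => (0 : ℝ)) 0 (fun _ => by simp)
    exact abs_nonpos_iff.1 h3
  exact LinearMap.congr_fun this c

end avg

section sum

variable {Γ X Y : Type} [Group Γ] [MulAction Γ X] [MulAction Γ Y]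

/-- points and means together -/
def elimM (M : Y → (X → ℝ) → ℝ) : X ⊕ Y → (X → ℝ) → ℝ :=
  Sum.elim (fun x u => u x) M

theorem MeanFam.elim {M : Y → (X → ℝ) → ℝ} (hM : MeanFam Γ M) : MeanFam Γ (elimM M) where
  add := by
    rintro (x | y) u v hu hv
    · rfl
    · exact hM.add y u v hu hv
  smul := by
    rintro (x | y) c u hu
    · rfl
    · exact hM.smul y c u hu
  bound := by
    rintro (x | y) u C h
    · exact h x
    · exact hM.bound y u C h
  const := by
    rintro (x | y) c
    · rfl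
    · exact hM.const y c
  eqv := by
    rintro γ (x | y) u
    · rfl
    · exact hM.eqv γ y u

theorem avg_inl (M : Y → (X → ℝ) → ℝ) : ∀ (m : ℕ) (x : Fin m → X) (f : (Fin m → X) → ℝ),
    avg (elimM M) m (fun j => Sum.inl (x j)) f = f x := by
  intro m
  induction m with
  | zero =>
    intro x f
    show f default = f x
    congr 1
    exact Subsingleton.elim _ _
  | succ m ih =>
    intro x f
    show avg (elimM M) m (Fin.tail fun j => (Sum.inl (x j) : X ⊕ Y))
      (fun x' => f (Fin.cons (x 0) x')) = f x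
    have h1 : (Fin.tail fun j => (Sum.inl (x j) : X ⊕ Y)) = fun j => Sum.inl (Fin.tail x j) := rfl
    rw [h1, ih, Fin.cons_self_tail]

end sum

theorem lin_eq_zero {S Z : Type} {m l : ℕ} (G : (Fin m → S) → TC Z l) (c : TC S m)
    (h : ∀ x ∈ c.support, G x = 0) : lin G c = 0 := by
  rw [lin, Finsupp.linearCombination_apply, Finsupp.sum]
  refine Finset.sum_eq_zero fun y hy => ?_
  rw [h y hy, smul_zero]

section vanish

variable {Γ X Y E : Type} [Group Γ] [MulAction Γ X] [MulAction Γ Y] [NormedAddCommGroup E]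
  [NormedSpace ℝ E] {dev : X → E} {g : Γ → (E →ᵃ[ℝ] E)}

/-- **Vanishing theorem for amenable cells.** `p` assigns to the points of a convex set cells, with
means (amenable stabilizers); small simplices of dimension `n` do not meet more than `n` cells. Then
bounded invariant cocycles of degree `n` vanish on cycles. -/
theorem cells_vanish (D : ConvData dev g) (p : X → Y) (hp : ∀ (γ : Γ) x, p (γ • x) = γ • p x)
    (M : Y → (X → ℝ) → ℝ) (hM : MeanFam Γ M) (n : ℕ)
    (hsmall : ∀ K : Set E, IsCompact K → K ⊆ Set.range dev → ∃ δ : ℝ, 0 < δ ∧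
      ∀ y : Fin (n + 1) → X, (∀ i, dev (y i) ∈ K) → (∀ i j, ‖dev (y i) - dev (y j)‖ < δ) →
        ¬ Function.Injective fun i => p (y i))
    (f : (Fin (n + 1) → X) → ℝ) (hb : BdF f) (hf : ∀ c : TC X (n + 2), pr f (bd c) = 0)
    (hfi : ∀ (γ : Γ) x, f (γ • x) = f x) (z : TC X (n + 1)) (hz : IsCyc Γ z) : pr f z = 0 := by
  classical
  -- the number of subdivisions
  have hN : ∀ x : Fin (n + 1) → X, ∃ N₀ : ℕ, ∀ N, N₀ ≤ N →
      ∀ y ∈ (((sdMap D).iter N).G (n + 1) x).support, ¬ Function.Injective fun i => p (y i) := by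
    intro x
    obtain ⟨δ, hδ, h⟩ := hsmall (convexHull ℝ (Set.range fun j => dev (x j)))
      ((Set.finite_range _).isCompact_convexHull ℝ)
      (convexHull_min (by rintro _ ⟨j, rfl⟩; exact ⟨x j, rfl⟩) D.conv)
    obtain ⟨R, hR⟩ : ∃ R : ℝ, ∀ i j, ‖dev (x i) - dev (x j)‖ ≤ R := by
      obtain ⟨R, hR⟩ := (Set.finite_range fun q : Fin (n + 1) × Fin (n + 1) =>
        ‖dev (x q.1) - dev (x q.2)‖).bddAbove
      exact ⟨R, fun i j => hR ⟨(i, j), rfl⟩⟩
    have hr0 : 0 ≤ (((n + 1 : ℕ) : ℝ) - 1) / ((n + 1 : ℕ) : ℝ) := by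
      push_cast
      rw [add_sub_cancel_right]
      positivity
    have hr1 : (((n + 1 : ℕ) : ℝ) - 1) / ((n + 1 : ℕ) : ℝ) < 1 := by
      rw [div_lt_one (by positivity)]
      linarith
    have hlim : Filter.Tendsto (fun N : ℕ => ((((n + 1 : ℕ) : ℝ) - 1) / ((n + 1 : ℕ) : ℝ)) ^ N * R)
        Filter.atTop (nhds 0) := by
      have := (tendsto_pow_atTop_nhds_zero_of_lt_one hr0 hr1).mul_const R
      rwa [zero_mul] at this
    obtain ⟨N₀, hN₀⟩ := Filter.eventually_atTop.1 (hlim.eventually_lt_const hδ)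
    refine ⟨N₀, fun N hN y hy => ?_⟩
    obtain ⟨h1, h2⟩ := iter_mesh D x hR N y hy
    exact h y h1 fun i j => (h2 i j).trans_lt (hN₀ N hN)
  choose N₀ hN₀ using hN
  set N := z.support.sup N₀ with hNdef
  have hNz : ∀ x ∈ z.support, ∀ y ∈ (((sdMap D).iter N).G (n + 1) x).support,
      ¬ Function.Injective fun i => p (y i) := fun x hx y hy =>
    hN₀ x N (Finset.le_sup hx) y hy
  -- the extended cocycle
  let F : (Fin (n + 1) → X ⊕ Y) → ℝ := fun w => avg (elimM M) (n + 1) w f
  have hF : ∀ c : TC (X ⊕ Y) (n + 2), pr F (bd c) = 0 :=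
    avg_cocycle hM.elim f hb hf
  have hFi : ∀ (γ : Γ) w, F (γ • w) = F w := by
    intro γ w
    show avg (elimM M) (n + 1) (γ • w) f = avg (elimM M) (n + 1) w f
    rw [avg_eqv hM.elim γ]
    congr 1
    funext x
    exact hfi γ x
  let P : ChMap Γ X (X ⊕ Y) := pushMap (fun x => Sum.inl x) fun _ _ => rfl
  let Q : ChMap Γ X (X ⊕ Y) := (pushMap (fun y : Y => (Sum.inr y : X ⊕ Y)) fun _ _ => rfl).comp
    (altMap.comp ((pushMap p hp).comp ((sdMap D).iter N)))
  have h1 : pr F (lin (P.G (n + 1)) z) = pr f z := by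
    rw [pr_lin]
    congr 2
    funext x
    show pr F (Finsupp.single (fun j => Sum.inl (x j)) 1) = f x
    rw [pr_single]
    exact avg_inl M (n + 1) x f
  have h2 : lin (Q.G (n + 1)) z = 0 := by
    refine lin_eq_zero _ _ fun x hx => ?_
    have h3 : lin ((altMap (Γ := Γ)).G (n + 1)) (lin (fun y : Fin (n + 1) → X =>
        (Finsupp.single (fun j => p (y j)) 1 : TC Y (n + 1)))
        (((sdMap D).iter N).G (n + 1) x)) = 0 := by
      rw [lin_lin]
      refine lin_eq_zero _ _ fun y hy => ?_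
      rw [lin_single]
      exact altMap_rep _ (hNz x hx y hy)
    show lin _ (lin ((altMap (Γ := Γ)).G (n + 1)) (lin (fun y : Fin (n + 1) → X =>
      Finsupp.single (fun j => p (y j)) 1) (((sdMap D).iter N).G (n + 1) x))) = 0
    rw [h3, map_zero]
  rw [← h1, ChMap.homotopy P Q (fun x => Sum.inl x) (fun _ _ => rfl) F hF hFi z hz, h2, map_zero]

end vanish

end Pool.Agent.Helper63.SV
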