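import Pool.Agent.Helper63.SV.Mar

/-!
Project SV (helper63): groups generated by elements of small displacement (Margulis lemma).
-/

set_option autoImplicit false

open Set Metric Filter Topology

namespace Pool.Agent.Helper63.SV

open Pool.Agent.Helper240.Amen (InvHB)

/-- **Margulis lemma.** -/
theorem margulis {Γ : Type} [Group Γ] {A : Type} [NormedRing A] [ProperSpace A]
    (R : Γ →* A) (H : Subgroup Γ) [Finite (Γ ⧸ H)]
    (hsmall : ∀ S : Finset Γ, (∀ s ∈ S, s ∈ H ∧ ‖R s - 1‖ ≤ 1 / 64) →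
      InvHB (Subgroup.closure (S : Set Γ)))
    (disp : Γ → ℝ) (hd1 : disp 1 = 0)
    (hmul : ∀ γ δ, disp (γ * δ) ≤ disp γ + ‖R γ‖ * disp δ)
    (hinv : ∀ γ, disp γ⁻¹ ≤ ‖R γ⁻¹‖ * disp γ) (hd0 : ∀ γ, 0 ≤ disp γ)
    (ρ₁ : ℝ) (hρ₁ : 0 < ρ₁) (C : ℝ) (hC1 : 1 ≤ C)
    (hC : ∀ γ, disp γ ≤ ρ₁ → ‖R γ‖ ≤ C ∧ ‖R γ⁻¹‖ ≤ C) :
    ∃ ρ : ℝ, 0 < ρ ∧ ∃ S : Subgroup Γ, HasMeanB S ∧ ∀ γ, disp γ < ρ → γ ∈ S := by
  classical
  have hC0 : 0 < C := lt_of_lt_of_le one_pos hC1
  -- classes
  obtain ⟨t, _, ht⟩ := (isCompact_closedBall (0 : A) C).finite_cover_balls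
    (show 0 < 1 / (128 * C) by positivity)
  obtain ⟨htf, ht⟩ := ht
  have : Finite t := htf
  have hcl : ∀ γ : Γ, ∃ y : t, ‖R γ‖ ≤ C → ‖R γ - y‖ < 1 / (128 * C) := by
    intro γ
    by_cases h : ‖R γ‖ ≤ C
    · obtain ⟨y, hy, hy'⟩ := mem_iUnion₂.1 (ht (show R γ ∈ closedBall (0 : A) C by
        rw [mem_closedBall, dist_zero_right]; exact h))
      exact ⟨⟨y, hy⟩, fun _ => by rw [← dist_eq_norm]; exact hy'⟩
    · have h0 : (0 : A) ∈ closedBall (0 : A) C := mem_closedBall_self hC0.le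
      obtain ⟨y, hy, _⟩ := mem_iUnion₂.1 (ht h0)
      exact ⟨⟨y, hy⟩, fun h' => absurd h' h⟩
  choose y hy using hcl
  let cls : Γ → t × (Γ ⧸ H) := fun γ => (y γ, ((γ⁻¹ : Γ) : Γ ⧸ H))
  have hcls : ∀ γ γ' : Γ, disp γ ≤ ρ₁ → disp γ' ≤ ρ₁ → cls γ = cls γ' →
      γ * γ'⁻¹ ∈ H ∧ ‖R (γ * γ'⁻¹) - 1‖ ≤ 1 / 64 := by
    intro γ γ' h h' he
    have he1 : y γ = y γ' := congrArg Prod.fst he
    have he2 : ((γ⁻¹ : Γ) : Γ ⧸ H) = ((γ'⁻¹ : Γ) : Γ ⧸ H) := congrArg Prod.snd he
    rw [QuotientGroup.eq, inv_inv] at he2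
    refine ⟨he2, ?_⟩
    have e : R (γ * γ'⁻¹) - 1 = (R γ - R γ') * R γ'⁻¹ := by
      rw [sub_mul, ← map_mul, ← map_mul, mul_inv_cancel, map_one]
    have h2 : ‖R γ - R γ'‖ ≤ 1 / (64 * C) := by
      have h3 := hy γ (hC γ h).1
      have h4 := hy γ' (hC γ' h').1
      rw [he1] at h3
      have e2 : R γ - R γ' = (R γ - y γ') - (R γ' - y γ') := by abel
      rw [e2]
      refine (norm_sub_le _ _).trans ?_
      have e3 : 1 / (64 * C) = 1 / (128 * C) + 1 / (128 * C) := by
        field_simp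
        norm_num
      rw [e3]
      exact add_le_add h3.le h4.le
    rw [e]
    refine (norm_mul_le _ _).trans ?_
    calc ‖R γ - R γ'‖ * ‖R γ'⁻¹‖ ≤ 1 / (64 * C) * C :=
          mul_le_mul h2 (hC γ' h').2 (norm_nonneg _) (by positivity)
      _ = 1 / 64 := by field_simp
  set m : ℕ := Nat.card (t × (Γ ⧸ H)) with hm
  set ρ : ℝ := ρ₁ / ((m + 1) * C ^ 2) with hρdef
  have hρ : 0 < ρ := by positivity
  have hρle : ρ ≤ ρ₁ := by
    rw [hρdef]
    apply div_le_self hρ₁.le
    have h2 : (1 : ℝ) ≤ C ^ 2 := one_le_pow₀ hC1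
    have h3 : (1 : ℝ) ≤ (m : ℝ) + 1 := by
      have : (0 : ℝ) ≤ (m : ℝ) := Nat.cast_nonneg _
      linarith
    calc (1 : ℝ) = 1 * 1 := (one_mul 1).symm
      _ ≤ _ := mul_le_mul h3 h2 zero_le_one (by positivity)
  set Sg : Set Γ := {γ | disp γ < ρ ∨ disp γ⁻¹ < ρ} with hSg
  have hSd : ∀ s ∈ Sg, disp s ≤ C * ρ := by
    rintro s (hs | hs)
    · exact hs.le.trans (by nlinarith)
    · have h2 := hinv s⁻¹
      rw [inv_inv] at h2
      have h3 := (hC s⁻¹ (hs.le.trans hρle)).2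
      rw [inv_inv] at h3
      exact h2.trans (mul_le_mul h3 hs.le (hd0 _) hC0.le)
  have hpre : ∀ (l : List Γ), (∀ s ∈ l, s ∈ Sg) → ∀ j ≤ l.length, j ≤ m →
      disp (l.take j).prod ≤ j * (C ^ 2 * ρ) := by
    intro l hl j
    induction j with
    | zero =>
      intro _ _
      rw [List.take_zero, List.prod_nil, hd1]
      simp
    | succ j ih =>
      intro hj hjm
      have hj' : j < l.length := hj
      have h2 := ih hj'.le (by omega)
      rw [List.prod_take_succ l j hj']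
      refine (hmul _ _).trans ?_
      have h3 : disp (l.take j).prod ≤ ρ₁ := by
        refine h2.trans ?_
        have h4 : (j : ℝ) ≤ (m : ℝ) + 1 := by
          have : (j : ℝ) ≤ (m : ℝ) := by exact_mod_cast (by omega : j ≤ m)
          linarith
        calc (j : ℝ) * (C ^ 2 * ρ) ≤ ((m : ℝ) + 1) * (C ^ 2 * ρ) := by gcongr
          _ = ρ₁ := by
            rw [hρdef]
            field_simp
      have h4 := hSd _ (hl _ (List.getElem_mem hj'))
      have h5 : ‖R (l.take j).prod‖ * disp l[j] ≤ C * (C * ρ) :=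
        mul_le_mul (hC _ h3).1 h4 (hd0 _) hC0.le
      push_cast
      nlinarith
  have hpre' : ∀ (l : List Γ), (∀ s ∈ l, s ∈ Sg) → ∀ j ≤ l.length, j ≤ m →
      disp (l.take j).prod ≤ ρ₁ := by
    intro l hl j hj hjm
    refine (hpre l hl j hj hjm).trans ?_
    have h4 : (j : ℝ) ≤ (m : ℝ) + 1 := by
      have : (j : ℝ) ≤ (m : ℝ) := by exact_mod_cast hjm
      linarith
    calc (j : ℝ) * (C ^ 2 * ρ) ≤ ((m : ℝ) + 1) * (C ^ 2 * ρ) := by gcongr
      _ = ρ₁ := by
        rw [hρdef]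
        field_simp
  set G : Subgroup Γ := Subgroup.closure Sg with hG
  set T : Set Γ := {γ | γ ∈ H ∧ ‖R γ - 1‖ ≤ 1 / 64 ∧ γ ∈ G} with hT
  set Δ : Subgroup Γ := Subgroup.closure T with hΔ
  have hΔG : Δ ≤ G := by
    rw [hΔ, Subgroup.closure_le]
    exact fun γ h => h.2.2
  have hΔinv : InvHB Δ := invHB_closure T fun S hS => hsmall S fun s hs =>
    ⟨(hS hs).1, (hS hs).2.1⟩
  have hlist : ∀ (N : ℕ) (l : List Γ), l.length ≤ N → (∀ s ∈ l, s ∈ Sg) →
      ∃ p : Γ, disp p ≤ ρ₁ ∧ l.prod * p⁻¹ ∈ Δ := by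
    intro N
    induction N with
    | zero =>
      intro l hl _
      have : l = [] := List.length_eq_zero_iff.1 (Nat.le_zero.1 hl)
      subst this
      refine ⟨1, by rw [hd1]; exact hρ₁.le, ?_⟩
      rw [List.prod_nil, inv_one, mul_one]
      exact Δ.one_mem
    | succ N ih =>
      intro l hl hlS
      by_cases hlm : l.length ≤ m
      · refine ⟨l.prod, ?_, ?_⟩
        · have := hpre' l hlS l.length le_rfl hlm
          rwa [List.take_length] at this
        · rw [mul_inv_cancel]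
          exact Δ.one_mem
      · push Not at hlm
        have hfin := Fintype.ofFinite (t × (Γ ⧸ H))
        obtain ⟨i, _, j, _, hij, he⟩ := Finset.exists_ne_map_eq_of_card_lt_of_maps_to
          (s := (Finset.univ : Finset (Fin (m + 1))))
          (t := (Finset.univ : Finset (t × (Γ ⧸ H))))
          (f := fun i => cls (l.take (i : ℕ)).prod)
          (by rw [Finset.card_univ, Finset.card_univ, Fintype.card_fin, hm,
            Nat.card_eq_fintype_card]; exact Nat.lt_succ_self _)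
          (fun _ _ => Finset.mem_univ _)
        -- the two prefixes
        have main : ∀ i j : ℕ, i < j → j ≤ m →
            cls (l.take i).prod = cls (l.take j).prod →
            ∃ p : Γ, disp p ≤ ρ₁ ∧ l.prod * p⁻¹ ∈ Δ := by
          intro i j hij hjm he
          have hjl : j ≤ l.length := hjm.trans hlm.le
          have hdi := hpre' l hlS i (hij.le.trans hjl) (hij.le.trans hjm)
          have hdj := hpre' l hlS j hjl hjm
          have hg := hcls _ _ hdj hdi he.symm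
          have hgG : (l.take j).prod * ((l.take i).prod)⁻¹ ∈ G := by
            refine G.mul_mem ?_ (G.inv_mem ?_)
            · exact Subgroup.list_prod_mem _ fun s hs =>
                Subgroup.subset_closure (hlS s (List.mem_of_mem_take hs))
            · exact Subgroup.list_prod_mem _ fun s hs =>
                Subgroup.subset_closure (hlS s (List.mem_of_mem_take hs))
          have hgΔ : (l.take j).prod * ((l.take i).prod)⁻¹ ∈ Δ :=
            Subgroup.subset_closure ⟨hg.1, hg.2, hgG⟩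
          obtain ⟨p, hp, hp'⟩ := ih (l.take i ++ l.drop j) (by
            rw [List.length_append, List.length_take, List.length_drop]
            omega) (by
            intro s hs
            rcases List.mem_append.1 hs with h | h
            · exact hlS s (List.mem_of_mem_take h)
            · exact hlS s (List.mem_of_mem_drop h))
          refine ⟨p, hp, ?_⟩
          have e : l.prod * p⁻¹ = (l.take j).prod * ((l.take i).prod)⁻¹ *
              ((l.take i ++ l.drop j).prod * p⁻¹) := by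
            rw [List.prod_append, ← List.prod_take_mul_prod_drop l j]
            group
          rw [e]
          exact Δ.mul_mem hgΔ hp'
        have hne : (i : ℕ) ≠ (j : ℕ) := fun h => hij (Fin.ext h)
        rcases lt_or_gt_of_ne hne with h | h
        · exact main i j h (Nat.lt_succ_iff.1 j.2) he
        · exact main j i h (Nat.lt_succ_iff.1 i.2) he.symm
  have hlst : ∀ w ∈ Subgroup.closure Sg, ∃ l : List Γ, (∀ s ∈ l, s ∈ Sg) ∧ l.prod = w := by
    intro w hw
    induction hw using Subgroup.closure_induction with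
    | mem s hs =>
      refine ⟨[s], ?_, List.prod_singleton⟩
      intro s' hs'
      rw [List.mem_singleton.1 hs']
      exact hs
    | one => exact ⟨[], fun s hs => absurd hs List.not_mem_nil, rfl⟩
    | mul a b _ _ iha ihb =>
      obtain ⟨l, hl, rfl⟩ := iha
      obtain ⟨l', hl', rfl⟩ := ihb
      refine ⟨l ++ l', ?_, List.prod_append⟩
      intro s hs
      rcases List.mem_append.1 hs with h | h
      · exact hl s h
      · exact hl' s h
    | inv a _ iha =>
      obtain ⟨l, hl, rfl⟩ := iha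
      refine ⟨(l.map fun x => x⁻¹).reverse, ?_, (List.prod_inv_reverse l).symm⟩
      intro s hs
      obtain ⟨x, hx, rfl⟩ := List.mem_map.1 (List.mem_reverse.1 hs)
      rcases hl x hx with h | h
      · right
        rw [inv_inv]
        exact h
      · left
        exact h
  have hall : ∀ w : G, ∃ p : Γ, disp p ≤ ρ₁ ∧ (w : Γ) * p⁻¹ ∈ Δ := by
    intro w
    obtain ⟨l, hl, hlw⟩ := hlst w w.2
    obtain ⟨p, hp, hp'⟩ := hlist l.length l le_rfl hl
    exact ⟨p, hp, by rw [← hlw]; exact hp'⟩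
  choose p hp hpΔ using hall
  have hfinq : Finite (G ⧸ Δ.subgroupOf G) := by
    refine Finite.of_injective (β := t × (Γ ⧸ H)) (fun q => cls (p (q.out)⁻¹)) ?_
    intro q q' he
    have h2 := hcls _ _ (hp (q.out)⁻¹) (hp (q'.out)⁻¹) he
    rw [← QuotientGroup.out_eq' q, ← QuotientGroup.out_eq' q', QuotientGroup.eq]
    show (((q.out)⁻¹ * q'.out : G) : Γ) ∈ Δ
    have h3 := hpΔ (q.out)⁻¹
    have h4 := hpΔ (q'.out)⁻¹
    have hpG : ∀ w : G, p w ∈ G := by
      intro w
      have h5 := G.mul_mem (G.inv_mem (hΔG (hpΔ w))) w.2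
      have e : ((w : Γ) * (p w)⁻¹)⁻¹ * (w : Γ) = p w := by group
      rwa [e] at h5
    have h5 : p (q.out)⁻¹ * (p (q'.out)⁻¹)⁻¹ ∈ Δ :=
      Subgroup.subset_closure ⟨h2.1, h2.2, G.mul_mem (hpG _) (G.inv_mem (hpG _))⟩
    have h6 := Δ.mul_mem (Δ.mul_mem h3 h5) (Δ.inv_mem h4)
    have e : (((q.out)⁻¹ : G) : Γ) * (p (q.out)⁻¹)⁻¹ * (p (q.out)⁻¹ * (p (q'.out)⁻¹)⁻¹) *
        ((((q'.out)⁻¹ : G) : Γ) * (p (q'.out)⁻¹)⁻¹)⁻¹ = (((q.out)⁻¹ * q'.out : G) : Γ) := by
      rw [Subgroup.coe_mul, Subgroup.coe_inv (H := G) (x := q'.out)]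
      group
    rwa [e] at h6
  refine ⟨ρ, hρ, G, ?_, fun γ hγ => Subgroup.subset_closure (Or.inl hγ)⟩
  exact meanB_of_finiteIndex G (Δ.subgroupOf G) (meanB_of_invHB _ (invHB_subgroupOf hΔG hΔinv))

end Pool.Agent.Helper63.SV
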