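import Mathlib

/-!
Project SV (helper63): exponentials and logarithms of nilpotent elements.
-/

set_option autoImplicit false

open Set Filter Topology NormedSpace

namespace Pool.Agent.Helper63.SV

section poly

theorem poly_zero {V : Type} [AddCommGroup V] [Module ℝ V] (D : ℕ) (c : ℕ → V)
    (h : ∀ n : ℕ, ∑ j ∈ Finset.range D, (n : ℝ) ^ j • c j = 0) : ∀ j < D, c j = 0 := by
  intro j hj
  rw [← Module.forall_dual_apply_eq_zero_iff ℝ (c j)]
  intro φ
  set P : Polynomial ℝ := ∑ j ∈ Finset.range D, Polynomial.C (φ (c j)) * Polynomial.X ^ j with hP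
  have h0 : P = 0 := by
    apply Polynomial.eq_zero_of_infinite_isRoot
    refine Set.Infinite.mono ?_ (Set.infinite_range_of_injective (Nat.cast_injective (R := ℝ)))
    rintro _ ⟨n, rfl⟩
    show P.eval (n : ℝ) = 0
    have h1 := congrArg φ (h n)
    rw [map_zero, map_sum] at h1
    rw [hP, Polynomial.eval_finsetSum, ← h1]
    refine Finset.sum_congr rfl fun i _ => ?_
    rw [map_smul, Polynomial.eval_mul, Polynomial.eval_C, Polynomial.eval_pow, Polynomial.eval_X,
      smul_eq_mul, mul_comm]
  have h1 : P.coeff j = φ (c j) := by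
    rw [hP, Polynomial.finsetSum_coeff]
    simp only [Polynomial.coeff_C_mul_X_pow]
    rw [Finset.sum_ite_eq, if_pos (Finset.mem_range.2 hj)]
  rw [← h1, h0, Polynomial.coeff_zero]

end poly

section exp

variable {A : Type} [NormedRing A] [NormedAlgebra ℝ A] [CompleteSpace A]

theorem exp_add' {x y : A} (h : Commute x y) : exp (x + y) = exp x * exp y := by
  let := NormedAlgebra.restrictScalars ℚ ℝ A
  exact exp_add_of_commute h

theorem exp_continuous' : Continuous (exp : A → A) := by
  let := NormedAlgebra.restrictScalars ℚ ℝ A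
  exact exp_continuous

theorem exp_neg_mul' (x : A) : exp (-x) * exp x = 1 := by
  rw [← exp_add' (Commute.refl x).neg_left, neg_add_cancel, exp_zero]

theorem exp_mul_neg' (x : A) : exp x * exp (-x) = 1 := by
  rw [← exp_add' (Commute.refl x).neg_right, add_neg_cancel, exp_zero]

theorem exp_nat_smul (n : ℕ) (x : A) : exp ((n : ℝ) • x) = exp x ^ n := by
  let := NormedAlgebra.restrictScalars ℚ ℝ A
  rw [Nat.cast_smul_eq_nsmul]
  exact exp_nsmul n x

theorem exp_conj' {g h x : A} (hgh : g * h = 1) (hhg : h * g = 1) :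
    exp (g * x * h) = g * exp x * h := by
  let := NormedAlgebra.restrictScalars ℚ ℝ A
  exact exp_units_conj ⟨g, h, hgh, hhg⟩ x

omit [CompleteSpace A] in
theorem exp_nilp {B : A} {D : ℕ} (h : B ^ D = 0) :
    exp B = ∑ j ∈ Finset.range D, ((j.factorial : ℝ)⁻¹) • B ^ j := by
  have e := congrFun (exp_eq_tsum (𝔸 := A) ℝ) B
  rw [e]
  apply tsum_eq_sum
  intro j hj
  rw [Finset.mem_range, not_lt] at hj
  rw [pow_eq_zero_of_le hj h, smul_zero]

omit [CompleteSpace A] in
theorem exp_smul_nilp {B : A} {D : ℕ} (h : B ^ D = 0) (t : ℝ) :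
    exp (t • B) = ∑ j ∈ Finset.range D, t ^ j • (((j.factorial : ℝ)⁻¹) • B ^ j) := by
  have h' : (t • B) ^ D = 0 := by
    rw [smul_pow, h, smul_zero]
  rw [exp_nilp h']
  refine Finset.sum_congr rfl fun j _ => ?_
  rw [smul_pow, smul_comm]

theorem exp_inj_nilp {B B' : A} {D : ℕ} (hB : B ^ D = 0) (hB' : B' ^ D = 0)
    (h : exp B = exp B') : B = B' := by
  have h1 : B ^ (D + 2) = 0 := pow_eq_zero_of_le (by omega) hB
  have h2 : B' ^ (D + 2) = 0 := pow_eq_zero_of_le (by omega) hB'
  have h3 := poly_zero (D + 2) (fun j => ((j.factorial : ℝ)⁻¹) • B ^ j -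
    ((j.factorial : ℝ)⁻¹) • B' ^ j) (by
      intro n
      simp only [smul_sub]
      rw [Finset.sum_sub_distrib, ← exp_smul_nilp h1, ← exp_smul_nilp h2, exp_nat_smul,
        exp_nat_smul, h, sub_self]) 1 (by omega)
  simpa [sub_eq_zero] using h3

theorem commute_of_exp {B B' : A} {D : ℕ} (hB : B ^ D = 0) (hB' : B' ^ D = 0)
    (h : Commute (exp B) (exp B')) : Commute B B' := by
  have h1 : B ^ (D + 2) = 0 := pow_eq_zero_of_le (by omega) hB
  have hn : ∀ n : ℕ, exp ((n : ℝ) • B) * B' = B' * exp ((n : ℝ) • B) := by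
    intro n
    set g := exp ((n : ℝ) • B) with hg
    set g' := exp (-((n : ℝ) • B)) with hg'
    have e1 : g * g' = 1 := exp_mul_neg' _
    have e2 : g' * g = 1 := exp_neg_mul' _
    have e3 : exp (g * B' * g') = exp B' := by
      rw [exp_conj' e1 e2]
      have : g * exp B' = exp B' * g := by
        rw [hg, exp_nat_smul]
        exact (h.pow_left n).eq
      rw [this, mul_assoc, e1, mul_one]
    have e4 : (g * B' * g') ^ D = 0 := by
      have e5 : ∀ m : ℕ, (g * B' * g') ^ m = g * B' ^ m * g' := by
        intro m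
        induction m with
        | zero => rw [pow_zero, pow_zero, mul_one, e1]
        | succ m ih =>
          rw [pow_succ, ih, pow_succ]
          calc g * B' ^ m * g' * (g * B' * g') = g * B' ^ m * (g' * g) * B' * g' := by
                noncomm_ring
            _ = g * (B' ^ m * B') * g' := by rw [e2]; noncomm_ring
      rw [e5, hB', mul_zero, zero_mul]
    have e5 := exp_inj_nilp e4 hB' e3
    calc g * B' = g * B' * (g' * g) := by rw [e2, mul_one]
      _ = (g * B' * g') * g := by noncomm_ring
      _ = B' * g := by rw [e5]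
  have h3 := poly_zero (D + 2) (fun j => ((j.factorial : ℝ)⁻¹) • (B ^ j * B' - B' * B ^ j)) (by
      intro n
      have h4 := hn n
      rw [exp_smul_nilp h1, Finset.sum_mul, Finset.mul_sum, ← sub_eq_zero,
        ← Finset.sum_sub_distrib] at h4
      rw [← h4]
      refine Finset.sum_congr rfl fun j _ => ?_
      rw [smul_mul_assoc, smul_mul_assoc, mul_smul_comm, mul_smul_comm, smul_sub, smul_sub])
    1 (by omega)
  show B * B' = B' * B
  simpa [sub_eq_zero] using h3

omit [CompleteSpace A] in
theorem exp_two {M : A} {D : ℕ} (h : M ^ D = 0) : ∃ p : Polynomial ℝ,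
    exp M = 1 + M + M ^ 2 * Polynomial.aeval M p := by
  have h1 : M ^ (D + 2) = 0 := pow_eq_zero_of_le (by omega) h
  refine ⟨∑ j ∈ Finset.range D, Polynomial.C (((j + 2).factorial : ℝ)⁻¹) * Polynomial.X ^ j, ?_⟩
  rw [exp_nilp h1, Finset.sum_range_succ', Finset.sum_range_succ', map_sum, Finset.mul_sum]
  have e : ∀ j ∈ Finset.range D, (((j + 1 + 1).factorial : ℝ)⁻¹) • M ^ (j + 1 + 1) =
      M ^ 2 * Polynomial.aeval M (Polynomial.C (((j + 2).factorial : ℝ)⁻¹) * Polynomial.X ^ j) := by
    intro j _
    rw [map_mul, Polynomial.aeval_C, map_pow, Polynomial.aeval_X, Algebra.algebraMap_eq_smul_one,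
      smul_mul_assoc, one_mul, mul_smul_comm, ← pow_add, add_comm 2 j]
  rw [Finset.sum_congr rfl e]
  simp only [Nat.factorial, zero_add, mul_one, Nat.cast_one, inv_one, one_smul, pow_one, pow_zero]
  abel

/-- **Logarithms of unipotent elements.** -/
theorem exists_log {u : A} {D : ℕ} (h : (u - 1) ^ D = 0) : ∃ B : A, B ^ D = 0 ∧ exp B = u := by
  set N := u - 1 with hN
  have key : ∀ j : ℕ, ∃ p q : Polynomial ℝ,
      exp (N * Polynomial.aeval N p) = 1 + N + N ^ (j + 1) * Polynomial.aeval N q := by
    intro j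
    induction j with
    | zero =>
      refine ⟨0, -1, ?_⟩
      rw [map_zero, mul_zero, exp_zero, map_neg, map_one]
      noncomm_ring
    | succ j ih =>
      obtain ⟨p, q, hpq⟩ := ih
      have hc : ∀ r s : Polynomial ℝ, Commute (Polynomial.aeval N r) (Polynomial.aeval N s) := by
        intro r s
        show Polynomial.aeval N r * Polynomial.aeval N s =
          Polynomial.aeval N s * Polynomial.aeval N r
        rw [← map_mul, ← map_mul, mul_comm]
      set M : A := -(Polynomial.aeval N (Polynomial.X ^ (j + 1) * q)) with hM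
      have hMD : M ^ D = 0 := by
        rw [hM, ← map_neg, ← map_pow, ← mul_neg, mul_pow, map_mul, ← pow_mul, map_pow,
          Polynomial.aeval_X, mul_comm (j + 1) D, pow_mul, h, zero_pow (by omega), zero_mul]
      obtain ⟨r, hr⟩ := exp_two hMD
      have hM' : M = Polynomial.aeval N (-(Polynomial.X ^ (j + 1) * q)) := by
        rw [hM, map_neg]
      have hr' : Polynomial.aeval M r =
          Polynomial.aeval N (r.comp (-(Polynomial.X ^ (j + 1) * q))) := by
        rw [Polynomial.aeval_comp, ← hM']
      refine ⟨p - Polynomial.X ^ j * q, - q - Polynomial.X ^ j * q ^ 2 +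
        Polynomial.X ^ j * q ^ 2 * (1 + Polynomial.X + Polynomial.X ^ (j + 1) * q) *
          r.comp (-(Polynomial.X ^ (j + 1) * q)), ?_⟩
      have e1 : N * Polynomial.aeval N (p - Polynomial.X ^ j * q) =
          N * Polynomial.aeval N p + M := by
        rw [map_sub, mul_sub, sub_eq_add_neg, hM]
        congr 2
        rw [map_mul, map_mul, map_pow, map_pow, Polynomial.aeval_X, ← mul_assoc, ← pow_succ']
      have hNp : N * Polynomial.aeval N p = Polynomial.aeval N (Polynomial.X * p) := by
        rw [map_mul, Polynomial.aeval_X]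
      have hcomm : Commute (N * Polynomial.aeval N p) M := by
        rw [hNp, hM']
        exact hc _ _
      rw [e1, exp_add' hcomm, hpq, hr, hr', hM']
      have hX : N = Polynomial.aeval N (Polynomial.X : Polynomial ℝ) := by
        rw [Polynomial.aeval_X]
      have e2 : (1 : A) + N + N ^ (j + 1) * Polynomial.aeval N q =
          Polynomial.aeval N (1 + Polynomial.X + Polynomial.X ^ (j + 1) * q) := by
        simp only [map_add, map_mul, map_pow, map_one, Polynomial.aeval_X]
      rw [e2]
      have e3 : (1 : A) + N + N ^ (j + 1 + 1) * Polynomial.aeval N (- q -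
          Polynomial.X ^ j * q ^ 2 +
        Polynomial.X ^ j * q ^ 2 * (1 + Polynomial.X + Polynomial.X ^ (j + 1) * q) *
          r.comp (-(Polynomial.X ^ (j + 1) * q))) = Polynomial.aeval N (1 + Polynomial.X +
          Polynomial.X ^ (j + 1 + 1) * (- q - Polynomial.X ^ j * q ^ 2 +
        Polynomial.X ^ j * q ^ 2 * (1 + Polynomial.X + Polynomial.X ^ (j + 1) * q) *
          r.comp (-(Polynomial.X ^ (j + 1) * q)))) := by
        rw [map_add _ (1 + Polynomial.X), map_add _ 1, map_mul _ (Polynomial.X ^ (j + 1 + 1)),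
          map_pow, map_one, Polynomial.aeval_X]
      rw [e3, ← map_pow, ← map_mul, ← map_one (Polynomial.aeval N (R := ℝ)), ← map_add, ← map_add,
        ← map_mul]
      congr 1
      ring
  obtain ⟨p, q, hpq⟩ := key D
  refine ⟨N * Polynomial.aeval N p, ?_, ?_⟩
  · have e : N * Polynomial.aeval N p = Polynomial.aeval N (Polynomial.X * p) := by
      rw [map_mul, Polynomial.aeval_X]
    rw [e, ← map_pow, mul_pow, map_mul, map_pow, Polynomial.aeval_X, h, zero_mul]
  · rw [hpq, pow_succ, h, zero_mul, zero_mul, add_zero, hN]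
    abel

end exp

end Pool.Agent.Helper63.SV
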