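import Pool.Agent.Helper63.SV.Van
import Pool.Agent.Helper63.SV.Nil

/-!
Project SV (helper63): vector groups of affine maps give the geometric data.
-/

set_option autoImplicit false

open Set Metric Filter Topology NormedSpace

namespace Pool.Agent.Helper63.SV

section hat

variable {E : Type} [NormedAddCommGroup E] [NormedSpace ℝ E] [FiniteDimensional ℝ E]

/-- affine maps as linear maps -/
noncomputable def hatL (f : E →ᵃ[ℝ] E) : (E × ℝ) →L[ℝ] (E × ℝ) :=
  LinearMap.toContinuousLinearMap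
    { toFun := fun p => (f.linear p.1 + p.2 • f 0, p.2)
      map_add' := fun p q => by
        refine Prod.ext ?_ rfl
        simp only [Prod.fst_add, Prod.snd_add, map_add, add_smul]
        abel
      map_smul' := fun c p => by
        refine Prod.ext ?_ rfl
        simp only [Prod.smul_fst, Prod.smul_snd, map_smul, smul_add, RingHom.id_apply,
          smul_eq_mul, mul_smul] }

omit [FiniteDimensional ℝ E] in
theorem aff_eq (f : E →ᵃ[ℝ] E) (v : E) : f.linear v + f 0 = f v := by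
  have := f.map_vadd 0 v
  rw [vadd_eq_add, vadd_eq_add, add_zero] at this
  exact this.symm

theorem hatL_apply (f : E →ᵃ[ℝ] E) (v : E) : hatL f (v, 1) = (f v, 1) := by
  show (f.linear v + (1 : ℝ) • f 0, (1 : ℝ)) = (f v, 1)
  rw [one_smul, aff_eq]

theorem hatL_snd (f : E →ᵃ[ℝ] E) (p : E × ℝ) : (hatL f p).2 = p.2 := rfl

omit [FiniteDimensional ℝ E] in
theorem al_ext (T T' : (E × ℝ) →L[ℝ] (E × ℝ)) (h : ∀ v, T (v, 1) = T' (v, 1)) : T = T' := by
  have h0 : T (0, 1) = T' (0, 1) := h 0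
  have h1 : ∀ v, T (v, 0) = T' (v, 0) := by
    intro v
    have e : ((v, 0) : E × ℝ) = (v, 1) - (0, 1) := by simp
    rw [e, map_sub, map_sub, h, h0]
  refine ContinuousLinearMap.ext fun p => ?_
  have e : p = (p.1, 0) + p.2 • ((0 : E), (1 : ℝ)) := by
    refine Prod.ext ?_ ?_ <;> simp
  rw [e, map_add, map_add, map_smul, map_smul, h0, h1]

theorem hatL_mul (f f' : E →ᵃ[ℝ] E) : hatL (f * f') = hatL f * hatL f' := by
  refine al_ext _ _ fun v => ?_
  rw [hatL_apply]
  show _ = hatL f (hatL f' (v, 1))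
  rw [hatL_apply, hatL_apply]
  rfl

theorem hatL_one : hatL (1 : E →ᵃ[ℝ] E) = 1 := by
  refine al_ext _ _ fun v => ?_
  rw [hatL_apply]
  rfl

/-- linear representation of a group of affine maps -/
noncomputable def rep {Γ : Type} [Group Γ] (hol : Γ →* (E →ᵃ[ℝ] E)) :
    Γ →* ((E × ℝ) →L[ℝ] (E × ℝ)) where
  toFun := fun γ => hatL (hol γ)
  map_one' := by rw [map_one, hatL_one]
  map_mul' := fun γ δ => by rw [map_mul, hatL_mul]

end hat

section vec

variable {E : Type} [NormedAddCommGroup E] [NormedSpace ℝ E] [FiniteDimensional ℝ E] {k : ℕ}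

/-- linear combinations -/
noncomputable def vecL (B : Fin k → ((E × ℝ) →L[ℝ] (E × ℝ))) :
    (Fin k → ℝ) →L[ℝ] ((E × ℝ) →L[ℝ] (E × ℝ)) :=
  ∑ i, (ContinuousLinearMap.proj (R := ℝ) (φ := fun _ : Fin k => ℝ) i).smulRight (B i)

omit [FiniteDimensional ℝ E] in
theorem vecL_apply (B : Fin k → ((E × ℝ) →L[ℝ] (E × ℝ))) (s : Fin k → ℝ) :
    vecL B s = ∑ i, s i • B i := by
  rw [vecL, sum_apply]
  rfl

theorem exp_snd (B : (E × ℝ) →L[ℝ] (E × ℝ)) (hB : ∀ p, (B p).2 = 0) (p : E × ℝ) :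
    (exp B p).2 = p.2 := by
  let := NormedAlgebra.restrictScalars ℚ ℝ ((E × ℝ) →L[ℝ] (E × ℝ))
  set Z : (E × ℝ) →L[ℝ] (E × ℝ) := (ContinuousLinearMap.inr ℝ E ℝ).comp
    (ContinuousLinearMap.snd ℝ E ℝ) with hZ
  have h1 : SemiconjBy Z B 0 := by
    show Z * B = 0 * Z
    rw [zero_mul]
    refine ContinuousLinearMap.ext fun p => ?_
    show ((0 : E), (B p).2) = 0
    rw [hB]
    rfl
  have h2 : Z * exp B = exp 0 * Z := h1.exp_right
  rw [exp_zero, one_mul] at h2
  have h3 : Z (exp B p) = Z p := congrArg (fun T : (E × ℝ) →L[ℝ] (E × ℝ) => T p) h2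
  exact (congrArg Prod.snd h3 : (Z (exp B p)).2 = (Z p).2)

omit [FiniteDimensional ℝ E] in
theorem vecL_snd (B : Fin k → ((E × ℝ) →L[ℝ] (E × ℝ))) (hB : ∀ i p, (B i p).2 = 0)
    (s : Fin k → ℝ) (p : E × ℝ) : (vecL B s p).2 = 0 := by
  rw [vecL_apply, sum_apply, Prod.snd_sum]
  refine Finset.sum_eq_zero fun i _ => ?_
  show s i • (B i p).2 = 0
  rw [hB, smul_zero]

omit [FiniteDimensional ℝ E] in
theorem vecL_comm (B : Fin k → ((E × ℝ) →L[ℝ] (E × ℝ))) (hB : ∀ i j, Commute (B i) (B j))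
    (s t : Fin k → ℝ) : Commute (vecL B s) (vecL B t) := by
  rw [vecL_apply, vecL_apply]
  refine Commute.sum_left _ _ _ fun i _ => Commute.sum_right _ _ _ fun j _ => ?_
  exact ((hB i j).smul_left _).smul_right _

/-- the flow of a vector group -/
noncomputable def flow (B : Fin k → ((E × ℝ) →L[ℝ] (E × ℝ))) (s : Fin k → ℝ) (v : E) : E :=
  (exp (vecL B s) (v, 1)).1

theorem flow_eq (B : Fin k → ((E × ℝ) →L[ℝ] (E × ℝ))) (hB : ∀ i p, (B i p).2 = 0)
    (s : Fin k → ℝ) (v : E) : exp (vecL B s) (v, 1) = (flow B s v, 1) := by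
  refine Prod.ext rfl ?_
  exact exp_snd _ (vecL_snd B hB s) _

theorem flow_slice (B : Fin k → ((E × ℝ) →L[ℝ] (E × ℝ))) (hB : ∀ i p, (B i p).2 = 0)
    (v : E) (hind : ∀ s : Fin k → ℝ, vecL B s (v, 1) = 0 → s = 0) :
    ∃ C : Submodule ℝ E, Module.finrank ℝ C + k = Module.finrank ℝ E ∧
      ∀ U ∈ 𝓝 (0 : C), ∀ᶠ w in 𝓝 v, ∃ s, ∃ c ∈ U, w = flow B s (v + c) := by
  set J : (Fin k → ℝ) →L[ℝ] E := (ContinuousLinearMap.fst ℝ E ℝ).comp ((vecL B).flip (v, 1))
    with hJ
  have hJinj : Function.Injective J := by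
    rw [injective_iff_map_eq_zero]
    intro s hs
    apply hind
    refine Prod.ext hs ?_
    exact vecL_snd B hB s _
  obtain ⟨C, hC⟩ := Submodule.exists_isCompl (LinearMap.range (J : (Fin k → ℝ) →ₗ[ℝ] E))
  refine ⟨C, ?_, ?_⟩
  · have h1 := Submodule.finrank_add_eq_of_isCompl hC
    rw [LinearMap.finrank_range_of_inj hJinj, Module.finrank_fintype_fun_eq_card,
      Fintype.card_fin] at h1
    omega
  · intro U hU
    set F : (Fin k → ℝ) × C → E := fun q => flow B q.1 (v + q.2) with hF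
    set F' : (Fin k → ℝ) × C →L[ℝ] E := J.comp (ContinuousLinearMap.fst ℝ (Fin k → ℝ) C) +
      C.subtypeL.comp (ContinuousLinearMap.snd ℝ (Fin k → ℝ) C) with hF'
    have hd : HasStrictFDerivAt F F' 0 := by
      have h1 : HasStrictFDerivAt (fun q : (Fin k → ℝ) × C => exp (vecL B q.1))
          ((vecL B).comp (ContinuousLinearMap.fst ℝ (Fin k → ℝ) C)) 0 := by
        have h2 : HasStrictFDerivAt (fun q : (Fin k → ℝ) × C => vecL B q.1)
            ((vecL B).comp (ContinuousLinearMap.fst ℝ (Fin k → ℝ) C)) 0 :=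
          ((vecL B).comp (ContinuousLinearMap.fst ℝ (Fin k → ℝ) C)).hasStrictFDerivAt
        have h3 : HasStrictFDerivAt (exp : ((E × ℝ) →L[ℝ] (E × ℝ)) → _)
            (1 : ((E × ℝ) →L[ℝ] (E × ℝ)) →L[ℝ] ((E × ℝ) →L[ℝ] (E × ℝ)))
            (vecL B ((0 : (Fin k → ℝ) × C)).1) := by
          rw [Prod.fst_zero, map_zero]
          exact hasStrictFDerivAt_exp_zero
        exact h3.comp (0 : (Fin k → ℝ) × C) h2
      have h4 : HasStrictFDerivAt (fun q : (Fin k → ℝ) × C => ((v + (q.2 : E), (1 : ℝ)) : E × ℝ))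
          ((ContinuousLinearMap.inl ℝ E ℝ).comp (C.subtypeL.comp
            (ContinuousLinearMap.snd ℝ (Fin k → ℝ) C))) 0 := by
        have h5 := ((ContinuousLinearMap.inl ℝ E ℝ).comp (C.subtypeL.comp
            (ContinuousLinearMap.snd ℝ (Fin k → ℝ) C))).hasStrictFDerivAt
            (x := (0 : (Fin k → ℝ) × C))
        have h6 := h5.const_add (v, (1 : ℝ))
        refine h6.congr_of_eventuallyEq (Eventually.of_forall fun q => ?_)
        show ((v, (1 : ℝ)) : E × ℝ) + ((q.2 : E), 0) = _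
        rw [Prod.mk_add_mk, add_zero]
      have h7 := (ContinuousLinearMap.fst ℝ E ℝ).hasStrictFDerivAt.comp
        (0 : (Fin k → ℝ) × C) (h1.clm_apply h4)
      refine h7.congr_fderiv ?_
      refine ContinuousLinearMap.ext fun q => ?_
      show (exp (vecL B 0) ((q.2 : E), (0 : ℝ)) + vecL B q.1 (v + ((0 : C) : E), 1)).1 =
        (vecL B q.1 (v, 1)).1 + (q.2 : E)
      rw [map_zero, exp_zero, Submodule.coe_zero, add_zero]
      show (q.2 : E) + (vecL B q.1 (v, 1)).1 = _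
      rw [add_comm]
    have hsurj : LinearMap.range (F' : (Fin k → ℝ) × C →ₗ[ℝ] E) = ⊤ := by
      rw [eq_top_iff]
      intro w _
      have hw : w ∈ LinearMap.range (J : (Fin k → ℝ) →ₗ[ℝ] E) ⊔ C := by
        rw [hC.sup_eq_top]
        trivial
      obtain ⟨a, ⟨s, rfl⟩, c, hc, rfl⟩ := Submodule.mem_sup.1 hw
      exact ⟨(s, ⟨c, hc⟩), rfl⟩
    have hmap := hd.map_nhds_eq_of_surj hsurj
    have hF0 : F 0 = v := by
      show (exp (vecL B 0) (v + ((0 : C) : E), 1)).1 = v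
      rw [map_zero, exp_zero, Submodule.coe_zero, add_zero]
      rfl
    rw [hF0] at hmap
    rw [← hmap, eventually_map]
    have hU' : ∀ᶠ q in 𝓝 (0 : (Fin k → ℝ) × C), q.2 ∈ U := by
      have := (continuous_snd (X := Fin k → ℝ) (Y := C)).tendsto 0
      exact this hU
    filter_upwards [hU'] with q hq
    exact ⟨q.1, q.2, hq, rfl⟩

end vec

section geo

variable {Γ X E : Type} [Group Γ] [MulAction Γ X] [NormedAddCommGroup E]
  [NormedSpace ℝ E] [FiniteDimensional ℝ E] {dev : X → E}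

/-- **Geometric data from a vector group.** -/
theorem geo_of_vec (hol : Γ →* (E →ᵃ[ℝ] E)) (k n : ℕ) (D : ConvData dev fun γ => hol γ)
    (hopen : IsOpen (range dev)) (hfree : ∀ (γ : Γ) (x : X), γ • x = x → γ = 1)
    (hpd : ∀ K : Set E, IsCompact K → K ⊆ range dev →
      {γ : Γ | ∃ x, dev x ∈ K ∧ dev (γ • x) ∈ K}.Finite)
    (hcc : ∃ K : Set E, IsCompact K ∧ K ⊆ range dev ∧ ∀ x, ∃ γ : Γ, dev (γ • x) ∈ K)
    (B : Fin k → ((E × ℝ) →L[ℝ] (E × ℝ))) (hB0 : ∀ i p, (B i p).2 = 0)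
    (hBc : ∀ i j, Commute (B i) (B j))
    (hX : ∀ (s : Fin k → ℝ) (x : X), ∃ y : X, flow B s (dev x) = dev y)
    (hlat : ∀ i, ∃ γ : Γ, rep hol γ = exp (B i))
    (hnrm : ∀ (γ : Γ) (i : Fin k), ∃ s : Fin k → ℝ, rep hol γ * B i = vecL B s * rep hol γ)
    (hind : ∀ (x : X) (s : Fin k → ℝ), vecL B s (dev x, 1) = 0 → s = 0)
    (hn : Module.finrank ℝ E < n + k) : ∃ α β, Geo k n dev (fun γ => hol γ) α β := by
  classical
  choose β hβ using hX
  have hrep : ∀ (γ : Γ) x, rep hol γ (dev x, 1) = (dev (γ • x), 1) := by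
    intro γ x
    show hatL (hol γ) (dev x, 1) = _
    rw [hatL_apply, D.equi]
  have hfl : ∀ s x, exp (vecL B s) (dev x, 1) = (dev (β s x), 1) := by
    intro s x
    rw [flow_eq B hB0, hβ]
  have hinj : ∀ {x y : X}, ((dev x, 1) : E × ℝ) = (dev y, 1) → x = y := fun h =>
    D.inj (congrArg Prod.fst h)
  have hzero : ∀ x, β 0 x = x := by
    intro x
    apply hinj
    rw [← hfl, map_zero, exp_zero]
    rfl
  have hadd : ∀ s t x, β (s + t) x = β s (β t x) := by
    intro s t x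
    apply hinj
    rw [← hfl, ← hfl, ← hfl, map_add, exp_add' (vecL_comm B hBc s t)]
    rfl
  refine ⟨flow B, β, ⟨D, hfree, hpd, hcc, ?_, fun s x => (hβ s x).symm, hzero, hadd, ?_, ?_, ?_,
    ?_, ?_⟩⟩
  · intro x
    obtain ⟨ρ, hρ, hρ'⟩ := Metric.nhds_basis_closedBall.mem_iff.1 (hopen.mem_nhds ⟨x, rfl⟩)
    refine ⟨ρ, hρ, ?_⟩
    rw [inter_eq_self_of_subset_left hρ']
    exact isCompact_closedBall _ _
  · intro γ s
    choose t ht using hnrm γ
    refine ⟨∑ i, s i • t i, fun x => ?_⟩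
    have h1 : SemiconjBy (rep hol γ) (vecL B s) (vecL B (∑ i, s i • t i)) := by
      show rep hol γ * vecL B s = vecL B (∑ i, s i • t i) * rep hol γ
      rw [vecL_apply B s, Finset.mul_sum, map_sum, Finset.sum_mul]
      refine Finset.sum_congr rfl fun i _ => ?_
      rw [mul_smul_comm, ht, map_smul, smul_mul_assoc]
    let := NormedAlgebra.restrictScalars ℚ ℝ ((E × ℝ) →L[ℝ] (E × ℝ))
    have h2 : rep hol γ * exp (vecL B s) = exp (vecL B (∑ i, s i • t i)) * rep hol γ :=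
      h1.exp_right
    apply hinj
    rw [← hfl, ← hrep, ← hrep, ← hfl]
    exact congrArg (fun T : (E × ℝ) →L[ℝ] (E × ℝ) => T (dev x, 1)) h2
  · -- the lattice
    let L : AddSubgroup (Fin k → ℝ) :=
      { carrier := {s | ∃ γ : Γ, rep hol γ = exp (vecL B s)}
        zero_mem' := ⟨1, by rw [map_one, map_zero, exp_zero]⟩
        add_mem' := by
          rintro s t ⟨γ, hγ⟩ ⟨δ, hδ⟩
          exact ⟨γ * δ, by rw [map_mul, hγ, hδ, map_add, exp_add' (vecL_comm B hBc s t)]⟩
        neg_mem' := by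
          rintro s ⟨γ, hγ⟩
          refine ⟨γ⁻¹, ?_⟩
          have h1 : rep hol γ⁻¹ * rep hol γ = 1 := by
            rw [← map_mul, inv_mul_cancel, map_one]
          have h2 : rep hol γ * exp (-(vecL B s)) = 1 := by
            rw [hγ]
            exact exp_mul_neg' _
          rw [map_neg]
          exact left_inv_eq_right_inv h1 h2 }
    intro m
    have hm : (fun i => (m i : ℝ)) ∈ L := by
      have e : (fun i => (m i : ℝ)) = ∑ i, m i • (Pi.single i (1 : ℝ) : Fin k → ℝ) := by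
        funext j
        simp [Finset.sum_apply, Pi.single_apply]
      rw [e]
      refine L.sum_mem fun i _ => L.zsmul_mem ?_ _
      obtain ⟨γ, hγ⟩ := hlat i
      refine ⟨γ, ?_⟩
      rw [hγ, vecL_apply]
      congr 1
      simp [Pi.single_apply]
    obtain ⟨γ, hγ⟩ := hm
    refine ⟨γ, fun x => ?_⟩
    apply hinj
    rw [← hrep, ← hfl, hγ]
  · -- continuity
    show Continuous fun q : (Fin k → ℝ) × E => (exp (vecL B q.1) (q.2, 1)).1
    have h1 : Continuous fun q : (Fin k → ℝ) × E => exp (vecL B q.1) :=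
      exp_continuous'.comp ((vecL B).continuous.comp continuous_fst)
    have h2 : Continuous fun q : (Fin k → ℝ) × E => ((q.2, (1 : ℝ)) : E × ℝ) :=
      continuous_snd.prodMk continuous_const
    exact (h1.clm_apply h2).fst
  · obtain ⟨C, hC⟩ := (isCompact_Icc : IsCompact (Icc (0 : Fin k → ℝ) 1)).exists_bound_of_continuousOn
      (f := fun s => exp (vecL B s)) (exp_continuous'.comp (vecL B).continuous).continuousOn
    refine ⟨C, fun r hr v w => ?_⟩
    have e : flow B r v - flow B r w = (exp (vecL B r) (v - w, 0)).1 := by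
      show (exp (vecL B r) (v, 1)).1 - (exp (vecL B r) (w, 1)).1 = _
      rw [← Prod.fst_sub, ← map_sub]
      simp
    rw [e]
    refine (norm_fst_le _).trans (((exp (vecL B r)).le_opNorm _).trans ?_)
    have e2 : ‖((v - w, 0) : E × ℝ)‖ = ‖v - w‖ := by
      rw [Prod.norm_mk, norm_zero, max_eq_left (norm_nonneg _)]
    rw [e2]
    exact mul_le_mul_of_nonneg_right (hC r hr) (norm_nonneg _)
  · intro x
    obtain ⟨C, hC, hC'⟩ := flow_slice B hB0 (dev x) (hind x)
    refine ⟨C, by omega, fun r hr => ?_⟩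
    have hU : ∀ᶠ c : C in 𝓝 (0 : C), dev x + (c : E) ∈ range dev ∧ ‖(c : E)‖ < r := by
      have h1 : Tendsto (fun c : C => dev x + (c : E)) (𝓝 0) (𝓝 (dev x + ((0 : C) : E))) :=
        (continuous_const.add continuous_subtype_val).tendsto 0
      have h2 : Tendsto (fun c : C => ‖(c : E)‖) (𝓝 0) (𝓝 ‖((0 : C) : E)‖) :=
        (continuous_subtype_val.norm).tendsto 0
      rw [Submodule.coe_zero, add_zero] at h1
      rw [Submodule.coe_zero, norm_zero] at h2
      have h3 : ∀ᶠ c : C in 𝓝 (0 : C), dev x + (c : E) ∈ range dev :=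
        h1 (hopen.mem_nhds ⟨x, rfl⟩)
      exact h3.and (h2.eventually_lt_const hr)
    obtain ⟨ε, hε, h⟩ := Metric.eventually_nhds_iff.1 (hC' _ hU)
    refine ⟨ε, hε, fun y hy => ?_⟩
    obtain ⟨s, c, ⟨⟨y', hy'⟩, hc⟩, he⟩ := h (y := dev y) (by rw [dist_eq_norm]; exact hy)
    refine ⟨s, y', ?_, ?_, ?_⟩
    · apply D.inj
      rw [he, ← hβ, hy']
    · rw [hy', add_sub_cancel_left]
      exact c.2
    · rw [hy', add_sub_cancel_left]
      exact hc

end geo

end Pool.Agent.Helper63.SV
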