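import Pool.Agent.Helper63.SV.Fib
import Pool.Agent.Helper63.SV.Mar2
import Pool.Agent.Helper63.SV.Vec

/-!
Project SV (helper63): open convex sets without lines modulo a subspace.
-/

set_option autoImplicit false

open Set Metric Filter Topology

namespace Pool.Agent.Helper63.SV

section cvx

variable {E : Type} [NormedAddCommGroup E] [NormedSpace ℝ E]

/-- a line in the closure of an open convex set gives lines through all its points -/
theorem recession {U : Set E} (hU : IsOpen U) (hc : Convex ℝ U) {x₁ u : E}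
    (h : ∀ t : ℝ, x₁ + t • u ∈ closure U) : ∀ x ∈ U, ∀ t : ℝ, x + t • u ∈ U := by
  intro x hx t
  have h1 : Tendsto (fun μ : ℝ => (1 - μ)⁻¹ • (x - μ • x₁)) (𝓝 0) (𝓝 x) := by
    have h2 : ContinuousAt (fun μ : ℝ => (1 - μ)⁻¹ • (x - μ • x₁)) 0 := by
      refine ContinuousAt.smul (ContinuousAt.inv₀ (by fun_prop) (by norm_num)) (by fun_prop)
    have h3 := h2.tendsto
    simpa using h3
  have h4 : ∀ᶠ μ : ℝ in 𝓝[>] 0, (1 - μ)⁻¹ • (x - μ • x₁) ∈ U :=
    (h1.mono_left nhdsWithin_le_nhds).eventually (hU.mem_nhds hx)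
  have h5 : ∀ᶠ μ : ℝ in 𝓝[>] 0, μ < 1 :=
    nhdsWithin_le_nhds (Iio_mem_nhds one_pos)
  obtain ⟨μ, ⟨hμ1, hμ2⟩, hμ0⟩ := ((h4.and h5).and self_mem_nhdsWithin).exists
  have hμ0' : 0 < μ := hμ0
  have hne : (1 - μ) ≠ 0 := by linarith
  have h6 := hc.combo_interior_closure_mem_interior (by rw [hU.interior_eq]; exact hμ1)
    (h (t / μ)) (show 0 < 1 - μ by linarith) hμ0'.le (by ring)
  rw [hU.interior_eq, smul_smul, mul_inv_cancel₀ hne, one_smul, smul_add, smul_smul,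
    mul_div_cancel₀ _ hμ0'.ne'] at h6
  have e : x - μ • x₁ + (μ • x₁ + t • u) = x + t • u := by abel
  rwa [e] at h6

variable [FiniteDimensional ℝ E]

/-- symmetric segments in an open convex set without lines are bounded -/
theorem sym_bounded {U : Set E} (hU : IsOpen U) (hc : Convex ℝ U) (P : E →L[ℝ] E)
    (hP : ∀ v, P (P v) = P v) (hUP : ∀ x ∈ U, ∀ w, P w = 0 → x + w ∈ U)
    (hline : ∀ v, (∀ x ∈ U, ∀ t : ℝ, x + t • v ∈ U) → P v = 0) (x₁ : E) :
    ∃ r₁ M : ℝ, 0 < r₁ ∧ 0 ≤ M ∧ ∀ y v, ‖P y - P x₁‖ < r₁ → y + v ∈ U → y - v ∈ U →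
      ‖P v‖ ≤ M := by
  by_contra hcon
  push Not at hcon
  have h1 : ∀ n : ℕ, ∃ y v, ‖P y - P x₁‖ < 1 / ((n : ℝ) + 1) ∧ y + v ∈ U ∧ y - v ∈ U ∧
      (n : ℝ) + 1 < ‖P v‖ := fun n =>
    hcon (1 / ((n : ℝ) + 1)) ((n : ℝ) + 1) (by positivity) (by positivity)
  choose y v hy hv1 hv2 hv3 using h1
  have hpos : ∀ n, 0 < ‖P (v n)‖ := fun n => lt_trans (by positivity) (hv3 n)
  obtain ⟨u, hu, φ, hφ, hlim⟩ := (isCompact_sphere (0 : E) 1).tendsto_subseq
    (x := fun n => ‖P (v n)‖⁻¹ • P (v n)) (fun n => by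
      rw [mem_sphere, dist_zero_right, norm_smul, norm_inv, norm_norm,
        inv_mul_cancel₀ (hpos n).ne'])
  have hu1 : ‖u‖ = 1 := by rwa [mem_sphere, dist_zero_right] at hu
  have hPu : P u = u := by
    have h2 := (P.continuous.tendsto u).comp hlim
    refine tendsto_nhds_unique h2 ?_
    have e : (⇑P ∘ (fun n => ‖P (v n)‖⁻¹ • P (v n)) ∘ φ) =
        ((fun n => ‖P (v n)‖⁻¹ • P (v n)) ∘ φ) := by
      funext n
      simp only [Function.comp_apply, map_smul, hP]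
    rw [e]
    exact hlim
  have hφt : Tendsto (fun n => ((φ n : ℕ) : ℝ)) atTop atTop :=
    tendsto_natCast_atTop_atTop.comp hφ.tendsto_atTop
  have hyt : Tendsto (fun n => P (y (φ n)) - P x₁) atTop (𝓝 0) := by
    have h3 : Tendsto (fun n => 1 / (((φ n : ℕ) : ℝ) + 1)) atTop (𝓝 0) :=
      tendsto_one_div_add_atTop_nhds_zero_nat.comp hφ.tendsto_atTop
    exact squeeze_zero_norm (fun n => (hy (φ n)).le) h3
  have hcl : ∀ t : ℝ, x₁ + t • u ∈ closure U := by
    intro t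
    have h2 : Tendsto (fun n => x₁ + (P (y (φ n)) - P x₁) + t • (‖P (v (φ n))‖⁻¹ • P (v (φ n))))
        atTop (𝓝 (x₁ + 0 + t • u)) :=
      (tendsto_const_nhds.add hyt).add (tendsto_const_nhds.smul hlim)
    rw [add_zero] at h2
    refine mem_closure_of_tendsto h2 ?_
    filter_upwards [hφt.eventually_ge_atTop |t|] with n hn
    set s : ℝ := t * ‖P (v (φ n))‖⁻¹ with hs
    have hs1 : |s| ≤ 1 := by
      rw [hs, abs_mul, abs_inv, abs_norm, ← div_eq_mul_inv, div_le_one (hpos _)]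
      have := hv3 (φ n)
      linarith
    have h3 : y (φ n) + s • v (φ n) ∈ U := by
      have h4 := hc (hv1 (φ n)) (hv2 (φ n)) (show 0 ≤ (1 + s) / 2 by linarith [neg_abs_le s])
        (show 0 ≤ (1 - s) / 2 by linarith [le_abs_self s]) (by ring)
      have e : ((1 + s) / 2) • (y (φ n) + v (φ n)) + ((1 - s) / 2) • (y (φ n) - v (φ n)) =
          y (φ n) + s • v (φ n) := by module
      rwa [e] at h4
    have h5 := hUP _ h3 (x₁ + (P (y (φ n)) - P x₁) + t • (‖P (v (φ n))‖⁻¹ • P (v (φ n))) -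
      (y (φ n) + s • v (φ n))) (by
        simp only [map_sub, map_add, map_smul, hP, smul_smul, hs]
        abel)
    rwa [add_sub_cancel] at h5
  have h6 := hline u (recession hU hc hcl)
  rw [hPu] at h6
  rw [h6, norm_zero] at hu1
  exact zero_ne_one hu1

/-- equicontinuity of affine maps preserving a convex set without lines -/
theorem lip_lin {U : Set E} (hU : IsOpen U) (hc : Convex ℝ U) (P : E →L[ℝ] E)
    (hP : ∀ v, P (P v) = P v) (hUP : ∀ x ∈ U, ∀ w, P w = 0 → x + w ∈ U)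
    (hline : ∀ v, (∀ x ∈ U, ∀ t : ℝ, x + t • v ∈ U) → P v = 0) (x₁ : E) :
    ∃ r₁ : ℝ, 0 < r₁ ∧ ∀ x₀ ∈ U, ∃ r₀ L : ℝ, 0 < r₀ ∧ 0 ≤ L ∧ ∀ f : E →ᵃ[ℝ] E,
      (∀ x ∈ U, f x ∈ U) → (∀ w, P w = 0 → P (f.linear w) = 0) →
      ∀ x, ‖P x - P x₀‖ < r₀ → ‖P (f x) - P x₁‖ < r₁ → ∀ v, ‖P (f.linear v)‖ ≤ L * ‖P v‖ := by
  obtain ⟨r₁, M, hr₁, hM, hb⟩ := sym_bounded hU hc P hP hUP hline x₁
  refine ⟨r₁, hr₁, fun x₀ hx₀ => ?_⟩
  obtain ⟨r, hr, hball⟩ := Metric.isOpen_iff.1 hU x₀ hx₀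
  refine ⟨r / 2, 4 * M / r, by positivity, by positivity, fun f hf hfW x hx hfx v => ?_⟩
  rcases eq_or_ne (P v) 0 with h0 | h0
  · rw [hfW v h0, h0, norm_zero, mul_zero]
  have hn : 0 < ‖P v‖ := norm_pos_iff.2 h0
  have key : ∀ s : ℝ, |s| * ‖P v‖ < r / 2 → x + s • v ∈ U := by
    intro s hs
    have h2 : x₀ + (P x - P x₀ + s • P v) ∈ U := by
      apply hball
      rw [mem_ball, dist_eq_norm, add_sub_cancel_left]
      refine (norm_add_le _ _).trans_lt ?_
      rw [norm_smul, Real.norm_eq_abs]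
      linarith
    have h3 := hUP _ h2 (x + s • v - (x₀ + (P x - P x₀ + s • P v))) (by
      simp only [map_sub, map_add, map_smul, hP]
      abel)
    rwa [add_sub_cancel] at h3
  set s : ℝ := r / (4 * ‖P v‖) with hs
  have hs0 : 0 < s := by positivity
  have hs1 : s * ‖P v‖ = r / 4 := by
    rw [hs]
    field_simp
  have h4 := hf _ (key s (by rw [abs_of_pos hs0, hs1]; linarith))
  have h5 := hf _ (key (-s) (by rw [abs_neg, abs_of_pos hs0, hs1]; linarith))
  have e1 : f (x + s • v) = f x + s • f.linear v := by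
    have := f.map_vadd x (s • v)
    rw [vadd_eq_add, vadd_eq_add, map_smul] at this
    rw [add_comm x, this, add_comm]
  have e2 : f (x + (-s) • v) = f x - s • f.linear v := by
    have := f.map_vadd x ((-s) • v)
    rw [vadd_eq_add, vadd_eq_add, map_smul] at this
    rw [add_comm x, this, neg_smul]
    abel
  rw [e1] at h4
  rw [e2] at h5
  have h6 := hb (f x) (s • f.linear v) hfx h4 h5
  rw [map_smul, norm_smul, Real.norm_eq_abs, abs_of_pos hs0] at h6
  have h7 : ‖P (f.linear v)‖ ≤ M / s := by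
    rw [le_div_iff₀ hs0]
    linarith
  refine h7.trans (le_of_eq ?_)
  rw [hs]
  field_simp

end cvx

end Pool.Agent.Helper63.SV
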