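import Pool.Agent.Helper63.SV.Cells

/-!
Project SV (helper63): transfer to subgroups of finite index, change of the space.
-/

set_option autoImplicit false

open Finset

namespace Pool.Agent.Helper63.SV

/-- bounded cocycles of degree `n` vanish on cycles modulo the group -/
def Van (Γ X : Type) [Group Γ] [MulAction Γ X] (n : ℕ) : Prop :=
  ∀ f : (Fin (n + 1) → X) → ℝ, BdF f → (∀ c : TC X (n + 2), pr f (bd c) = 0) →
    (∀ (γ : Γ) x, f (γ • x) = f x) → ∀ z : TC X (n + 1), IsCyc Γ z → pr f z = 0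

section trf

variable {Γ X X₁ : Type} [Group Γ] [MulAction Γ X] [MulAction Γ X₁]

theorem exists_equivariant (hfree : ∀ (γ : Γ) (x : X), γ • x = x → γ = 1) (x₁ : X₁) :
    ∃ r : X → X₁, ∀ (γ : Γ) x, r (γ • x) = γ • r x := by
  have h : ∀ x : X, ∃ γ : Γ, γ • (Quotient.out (Quotient.mk'' x : MulAction.orbitRel.Quotient Γ X))
      = x := by
    intro x
    have h1 : (Quotient.mk'' (Quotient.out (Quotient.mk'' x : MulAction.orbitRel.Quotient Γ X)) :
        MulAction.orbitRel.Quotient Γ X) = Quotient.mk'' x := Quotient.out_eq' _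
    have h2 := MulAction.orbitRel_apply.1 (Quotient.exact h1.symm)
    exact h2
  choose c hc using h
  refine ⟨fun x => c x • x₁, fun γ x => ?_⟩
  show c (γ • x) • x₁ = γ • c x • x₁
  have h1 : (Quotient.mk'' (γ • x) : MulAction.orbitRel.Quotient Γ X) = Quotient.mk'' x :=
    Quotient.sound' ⟨γ, rfl⟩
  have h2 := hc (γ • x)
  rw [h1] at h2
  have h3 : (c (γ • x)) = γ * c x := by
    set w := Quotient.out (Quotient.mk'' x : MulAction.orbitRel.Quotient Γ X)
    have h4 : c (γ • x) • w = (γ * c x) • w := by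
      rw [h2, mul_smul, hc]
    have h5 : ((γ * c x)⁻¹ * c (γ • x)) • w = w := by
      rw [mul_smul, h4, inv_smul_smul]
    exact (inv_mul_eq_one.1 (hfree _ _ h5)).symm
  rw [h3, mul_smul]

theorem IsCyc.push {n : ℕ} (P : ChMap Γ X X₁) (z : TC X (n + 1)) (hz : IsCyc Γ z) :
    IsCyc Γ (lin (P.G (n + 1)) z) := by
  intro h hh
  rw [P.bd_lin, pr_lin]
  apply hz
  intro γ x
  rw [P.eqv, pr_ga γ h (hh γ)]

theorem Van.of_maps {n : ℕ} (r : X → X₁) (hr : ∀ (γ : Γ) x, r (γ • x) = γ • r x) (ι : X₁ → X)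
    (hι : ∀ (γ : Γ) x, ι (γ • x) = γ • ι x) (h : Van Γ X₁ n) : Van Γ X n := by
  intro f hb hf hfi z hz
  have e1 : lin ((pushMap (id : X → X) (fun (γ : Γ) x => rfl)).G (n + 1)) z = z := by
    have : (lin ((pushMap (id : X → X) (fun (γ : Γ) x => rfl)).G (n + 1)) :
        TC X (n + 1) →ₗ[ℝ] TC X (n + 1)) = LinearMap.id := by
      refine Finsupp.lhom_ext' fun x => LinearMap.ext_ring ?_
      simp only [LinearMap.comp_apply, Finsupp.lsingle_apply, LinearMap.id_apply]
      rw [lin_single]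
      rfl
    exact LinearMap.congr_fun this z
  have e2 := ChMap.homotopy (pushMap (id : X → X) (fun (γ : Γ) x => rfl))
    (pushMap (fun x => ι (r x)) (fun (γ : Γ) x => by rw [hr, hι])) id (fun γ x => rfl) f hf hfi z hz
  rw [e1] at e2
  rw [e2, pr_lin]
  set P : ChMap Γ X X₁ := pushMap r hr with hP
  have e3 : pr (fun x => pr f ((pushMap (fun x => ι (r x)) (fun (γ : Γ) x => by rw [hr, hι]) :
      ChMap Γ X X).G (n + 1) x)) z =
      pr (fun y : Fin (n + 1) → X₁ => f fun j => ι (y j)) (lin (P.G (n + 1)) z) := by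
    rw [pr_lin]
    congr 2
    funext x
    show pr f (Finsupp.single (fun j => ι (r (x j))) 1) =
      pr (fun y : Fin (n + 1) → X₁ => f fun j => ι (y j)) (Finsupp.single (fun j => r (x j)) 1)
    rw [pr_single, pr_single]
  rw [e3]
  refine h _ ?_ ?_ ?_ _ (IsCyc.push P z hz)
  · obtain ⟨C, hC⟩ := hb
    exact ⟨C, fun y => hC _⟩
  · intro c
    set Q : ChMap Γ X₁ X := pushMap ι hι with hQ
    have e4 : ∀ d : TC X₁ (n + 1), pr (fun y : Fin (n + 1) → X₁ => f fun j => ι (y j)) d =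
        pr f (lin (Q.G (n + 1)) d) := by
      intro d
      rw [pr_lin]
      congr 2
      funext y
      show _ = pr f (Finsupp.single (fun j => ι (y j)) 1)
      rw [pr_single]
    rw [e4, ← Q.bd_lin]
    exact hf _
  · intro γ y
    show f (fun j => ι (γ • y j)) = f fun j => ι (y j)
    rw [← hfi γ (fun j => ι (y j))]
    congr 1
    funext j
    exact hι γ (y j)

/-- change of the space, for free actions -/
theorem Van.of_free {n : ℕ} (hfree : ∀ (γ : Γ) (x : X), γ • x = x → γ = 1)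
    (hfree₁ : ∀ (γ : Γ) (x : X₁), γ • x = x → γ = 1) [Nonempty X] [Nonempty X₁]
    (h : Van Γ X₁ n) : Van Γ X n := by
  obtain ⟨r, hr⟩ := exists_equivariant hfree (Classical.arbitrary X₁)
  obtain ⟨ι, hι⟩ := exists_equivariant hfree₁ (Classical.arbitrary X)
  exact h.of_maps r hr ι hι

/-- transfer -/
theorem Van.of_finiteIndex {n : ℕ} (H : Subgroup Γ) [Finite (Γ ⧸ H)] (h : Van H X n) :
    Van Γ X n := by
  classical
  have := Fintype.ofFinite (Γ ⧸ H)
  intro f hb hf hfi z hz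
  set c : TC X (n + 1) := ∑ q : Γ ⧸ H, ga (q.out⁻¹ : Γ) z with hc
  have hga : ∀ {m : ℕ} (γ : Γ) (u : (Fin m → X) → ℝ) (d : TC X m),
      pr u (ga γ d) = pr (fun x => u (γ • x)) d := by
    intro m γ u d
    have : ((pr u).comp (ga γ) : TC X m →ₗ[ℝ] ℝ) = pr (fun x => u (γ • x)) := by
      refine Finsupp.lhom_ext' fun x => LinearMap.ext_ring ?_
      simp only [LinearMap.comp_apply, Finsupp.lsingle_apply]
      rw [ga_single, pr_single, pr_single]
    exact LinearMap.congr_fun this d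
  have hbd : ∀ γ : Γ, bd (ga γ z) = ga γ (bd z) := by
    intro γ
    have : (bd.comp (ga γ) : TC X (n + 1) →ₗ[ℝ] TC X n) = (ga γ).comp bd := by
      refine Finsupp.lhom_ext' fun x => LinearMap.ext_ring ?_
      simp only [LinearMap.comp_apply, Finsupp.lsingle_apply]
      rw [ga_single, bd_single, bd_single, ga_bx]
    exact LinearMap.congr_fun this z
  have hcyc : IsCyc H c := by
    intro u hu
    rw [hc, map_sum, map_sum]
    simp only [hbd, hga]
    have hsum : ∑ q : Γ ⧸ H, pr (fun x => u ((q.out⁻¹ : Γ) • x)) (bd z) =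
        pr (fun x => ∑ q : Γ ⧸ H, u ((q.out⁻¹ : Γ) • x)) (bd z) := by
      have : (∑ q : Γ ⧸ H, pr (fun x => u ((q.out⁻¹ : Γ) • x)) : TC X n →ₗ[ℝ] ℝ) =
          pr (fun x => ∑ q : Γ ⧸ H, u ((q.out⁻¹ : Γ) • x)) := by
        refine Finsupp.lhom_ext' fun x => LinearMap.ext_ring ?_
        simp only [LinearMap.comp_apply, Finsupp.lsingle_apply, LinearMap.sum_apply]
        rw [pr_single]
        exact Finset.sum_congr rfl fun q _ => by rw [pr_single]
      rw [← this, LinearMap.sum_apply]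
    rw [hsum]
    apply hz
    intro γ x
    have hF : ∀ (g g' : Γ), (g : Γ ⧸ H) = (g' : Γ ⧸ H) → u (g⁻¹ • x) = u (g'⁻¹ • x) := by
      intro g g' hgg
      rw [QuotientGroup.eq] at hgg
      have h1 := hu ⟨g⁻¹ * g', hgg⟩ (g'⁻¹ • x)
      rw [← h1]
      show _ = u ((g⁻¹ * g') • g'⁻¹ • x)
      rw [mul_smul, smul_inv_smul]
    have e : ∀ q : Γ ⧸ H, u ((q.out⁻¹ : Γ) • γ • x) = u (((γ⁻¹ • q).out⁻¹ : Γ) • x) := by
      intro q
      have e1 : (q.out⁻¹ : Γ) • γ • x = (γ⁻¹ * q.out)⁻¹ • x := by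
        rw [mul_inv_rev, inv_inv, mul_smul]
      rw [e1]
      apply hF
      rw [QuotientGroup.out_eq']
      have e2 : ((γ⁻¹ * q.out : Γ) : Γ ⧸ H) = γ⁻¹ • ((q.out : Γ) : Γ ⧸ H) := rfl
      rw [e2, QuotientGroup.out_eq']
    simp only [e]
    exact Equiv.sum_comp (MulAction.toPerm (γ⁻¹ : Γ) : Equiv.Perm (Γ ⧸ H))
      fun q : Γ ⧸ H => u ((q.out⁻¹ : Γ) • x)
  have h1 := h f hb hf (fun γ x => hfi γ x) c hcyc
  rw [hc, map_sum] at h1
  simp only [hga, hfi] at h1
  rw [Finset.sum_const, Finset.card_univ, nsmul_eq_mul] at h1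
  have h2 : (Fintype.card (Γ ⧸ H) : ℝ) ≠ 0 := by
    have : 0 < Fintype.card (Γ ⧸ H) := Fintype.card_pos
    exact_mod_cast this.ne'
  exact (mul_eq_zero.1 h1).resolve_left h2

end trf

end Pool.Agent.Helper63.SV
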