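import Pool.Agent.Helper63.SV.Van
import Pool.Agent.Helper63.SV.Trf

/-!
Project SV (helper63): the vanishing theorem for projections with amenable groups of small
displacement.
-/

set_option autoImplicit false

open Set Metric Filter Topology

namespace Pool.Agent.Helper63.SV

section mean

variable {Γ X : Type} [Group Γ] [MulAction Γ X]

theorem exists_meanFam' {N : ℕ} (S : Fin N → Subgroup Γ) (hS : ∀ i, HasMeanB (S i)) (x₀ : X) :
    ∃ M : (Σ i : Fin N, Γ ⧸ S i) → (X → ℝ) → ℝ, MeanFam Γ M := by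
  classical
  choose m hadd hsmul hbd hcst hinv using hS
  have hbdd : ∀ (u : X → ℝ) (i : Fin N) (h : Γ), BdF u →
      BdF fun δ : S i => u (h • (δ : Γ) • x₀) := by
    rintro u i h ⟨C, hC⟩
    exact ⟨C, fun _ => hC _⟩
  let M : (Σ i : Fin N, Γ ⧸ S i) → (X → ℝ) → ℝ := fun y u =>
    if BdF u then m y.1 fun δ : S y.1 => u ((y.2.out : Γ) • (δ : Γ) • x₀) else 0
  have hM : ∀ (i : Fin N) (h : Γ) (u : X → ℝ), BdF u →
      M ⟨i, (h : Γ ⧸ S i)⟩ u = m i fun δ : S i => u (h • (δ : Γ) • x₀) := by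
    intro i h u hu
    show (if BdF u then _ else 0) = _
    rw [if_pos hu]
    obtain ⟨k, hk⟩ := QuotientGroup.mk_out_eq_mul (S i) h
    have h1 := hinv i (fun δ : S i => u (h • (δ : Γ) • x₀)) (hbdd u i h hu) k
    rw [← h1]
    congr 1
    funext δ
    show u ((Quotient.out (h : Γ ⧸ S i) : Γ) • (δ : Γ) • x₀) =
      u (h • ((k * δ : S i) : Γ) • x₀)
    have h2 : (Quotient.out (h : Γ ⧸ S i) : Γ) = h * k := hk
    rw [h2, Subgroup.coe_mul, mul_smul, mul_smul]
  refine ⟨M, ⟨?_, ?_, ?_, ?_, ?_⟩⟩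
  · rintro ⟨i, q⟩ u v hu hv
    obtain ⟨h, rfl⟩ := QuotientGroup.mk_surjective q
    have huv : BdF fun x => u x + v x := by
      obtain ⟨C, hC⟩ := hu
      obtain ⟨C', hC'⟩ := hv
      exact ⟨C + C', fun x => (abs_add_le _ _).trans (add_le_add (hC x) (hC' x))⟩
    rw [hM i h _ hu, hM i h _ hv, hM i h _ huv]
    exact hadd i _ _ (hbdd u i h hu) (hbdd v i h hv)
  · rintro ⟨i, q⟩ a u hu
    obtain ⟨h, rfl⟩ := QuotientGroup.mk_surjective q
    have hau : BdF fun x => a * u x := by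
      obtain ⟨C, hC⟩ := hu
      refine ⟨|a| * C, fun x => ?_⟩
      rw [abs_mul]
      exact mul_le_mul_of_nonneg_left (hC x) (abs_nonneg _)
    rw [hM i h _ hu, hM i h _ hau]
    exact hsmul i _ _ (hbdd u i h hu)
  · rintro ⟨i, q⟩ u C hC
    obtain ⟨h, rfl⟩ := QuotientGroup.mk_surjective q
    rw [hM i h _ ⟨C, hC⟩]
    exact hbd i _ _ fun _ => hC _
  · rintro ⟨i, q⟩ a
    obtain ⟨h, rfl⟩ := QuotientGroup.mk_surjective q
    rw [hM i h _ ⟨|a|, fun _ => le_rfl⟩]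
    exact hcst i a
  · rintro γ ⟨i, q⟩ u
    obtain ⟨h, rfl⟩ := QuotientGroup.mk_surjective q
    by_cases hu : BdF u
    · have hu' : BdF fun x => u (γ • x) := by
        obtain ⟨C, hC⟩ := hu
        exact ⟨C, fun _ => hC _⟩
      have e : γ • (⟨i, (h : Γ ⧸ S i)⟩ : Σ i : Fin N, Γ ⧸ S i) =
          ⟨i, ((γ * h : Γ) : Γ ⧸ S i)⟩ := rfl
      rw [e, hM i _ _ hu, hM i _ _ hu']
      congr 1
      funext δ
      rw [mul_smul]
    · have hu' : ¬ BdF fun x => u (γ • x) := by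
        rintro ⟨C, hC⟩
        apply hu
        refine ⟨C, fun x => ?_⟩
        have h1 : |u (γ • γ⁻¹ • x)| ≤ C := hC (γ⁻¹ • x)
        rwa [smul_inv_smul] at h1
      show (if BdF u then _ else (0 : ℝ)) = (if BdF (fun x => u (γ • x)) then _ else 0)
      rw [if_neg hu, if_neg hu']

end mean

/-- A group acts on a convex set; the linear map `P` maps it to a set of dimension less than `n` on
which the group acts equicontinuously, the elements of small displacement lying in amenable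
subgroups. -/
structure GeoP {Γ X E : Type} [Group Γ] [MulAction Γ X] [NormedAddCommGroup E]
    [NormedSpace ℝ E] (n : ℕ) (dev : X → E) (g : Γ → (E →ᵃ[ℝ] E)) (P : E →L[ℝ] E)
    (C : Submodule ℝ E) : Prop where
  cd : ConvData dev g
  P_mem : ∀ v, P v ∈ C
  dim : Module.finrank ℝ C < n
  lip : ∀ x₁ : X, ∃ r₁ : ℝ, 0 < r₁ ∧ ∀ x₀ : X, ∃ r₀ L : ℝ, 0 < r₀ ∧ 0 ≤ L ∧
    ∀ (γ : Γ) (x y : X), ‖P (dev x) - P (dev x₀)‖ < r₀ →
      ‖P (dev (γ • x)) - P (dev x₁)‖ < r₁ →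
      ‖P (dev (γ • y)) - P (dev (γ • x))‖ ≤ L * ‖P (dev y) - P (dev x)‖
  cc : ∃ K : Set E, IsCompact K ∧ K ⊆ range dev ∧ ∀ x, ∃ γ : Γ, dev (γ • x) ∈ K
  amen : ∀ x₀ : X, ∃ ρ : ℝ, 0 < ρ ∧ ∃ S : Subgroup Γ, HasMeanB S ∧ ∀ (x : X) (γ γ' : Γ),
    ‖P (dev (γ • x)) - P (dev x₀)‖ < ρ → ‖P (dev (γ' • x)) - P (dev x₀)‖ < ρ → γ' * γ⁻¹ ∈ S

section fib

variable {Γ X E : Type} [Group Γ] [MulAction Γ X] [NormedAddCommGroup E]
  [NormedSpace ℝ E] [FiniteDimensional ℝ E] {n : ℕ} {dev : X → E} {g : Γ → (E →ᵃ[ℝ] E)}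
  {P : E →L[ℝ] E} {C : Submodule ℝ E}

variable (Γ) in
/-- invariant bump functions -/
noncomputable def PhiP (D : X → E) (c : E) (ρ : ℝ) (x : X) : ℝ :=
  ⨆ γ : Γ, psi c ρ (D (γ • x))

omit [NormedSpace ℝ E] [FiniteDimensional ℝ E] in
theorem PhiP_bdd (D : X → E) (c : E) {ρ : ℝ} (hρ : 0 < ρ) (x : X) :
    BddAbove (range fun γ : Γ => psi c ρ (D (γ • x))) :=
  ⟨1, by rintro _ ⟨q, rfl⟩; exact psi_le_one c hρ _⟩

omit [NormedSpace ℝ E] [FiniteDimensional ℝ E] in
theorem psi_le_PhiP (D : X → E) (c : E) {ρ : ℝ} (hρ : 0 < ρ) (x : X) (γ : Γ) :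
    psi c ρ (D (γ • x)) ≤ PhiP Γ D c ρ x :=
  le_ciSup (PhiP_bdd D c hρ x) γ

omit [NormedSpace ℝ E] [FiniteDimensional ℝ E] in
theorem PhiP_le (D : X → E) (c : E) (ρ : ℝ) (x : X) (t : ℝ)
    (h : ∀ γ : Γ, psi c ρ (D (γ • x)) ≤ t) : PhiP Γ D c ρ x ≤ t := ciSup_le h

omit [NormedSpace ℝ E] [FiniteDimensional ℝ E] in
theorem PhiP_nonneg (D : X → E) (c : E) {ρ : ℝ} (hρ : 0 < ρ) (x : X) : 0 ≤ PhiP Γ D c ρ x :=
  (psi_nonneg _ _ _).trans (psi_le_PhiP D c hρ x (1 : Γ))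

omit [NormedSpace ℝ E] [FiniteDimensional ℝ E] in
theorem exists_of_lt_PhiP (D : X → E) (c : E) (ρ : ℝ) (x : X) (t : ℝ)
    (h : t < PhiP Γ D c ρ x) : ∃ γ : Γ, t < psi c ρ (D (γ • x)) :=
  exists_lt_of_lt_ciSup h

omit [NormedSpace ℝ E] [FiniteDimensional ℝ E] in
theorem PhiP_smul (D : X → E) (c : E) {ρ : ℝ} (hρ : 0 < ρ) (x : X) (δ : Γ) :
    PhiP Γ D c ρ (δ • x) = PhiP Γ D c ρ x := by
  have h : ∀ (x : X) (δ : Γ), PhiP Γ D c ρ (δ • x) ≤ PhiP Γ D c ρ x := by
    intro x δ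
    refine PhiP_le _ _ _ _ _ fun γ => ?_
    rw [← mul_smul]
    exact psi_le_PhiP D c hρ x (γ * δ)
  refine le_antisymm (h x δ) ?_
  have := h (δ • x) δ⁻¹
  rwa [inv_smul_smul] at this

omit [FiniteDimensional ℝ E] in
/-- the invariant bump functions are locally Lipschitz -/
theorem GeoP.PhiP_lip (G : GeoP (Γ := Γ) n dev g P C) (x₁ : X) {r₁ ρ : ℝ} (hρ : 0 < ρ)
    (hρr : ρ ≤ r₁)
    (hr₁ : ∀ x₀ : X, ∃ r₀ L : ℝ, 0 < r₀ ∧ 0 ≤ L ∧
      ∀ (γ : Γ) (x y : X), ‖P (dev x) - P (dev x₀)‖ < r₀ →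
        ‖P (dev (γ • x)) - P (dev x₁)‖ < r₁ →
        ‖P (dev (γ • y)) - P (dev (γ • x))‖ ≤ L * ‖P (dev y) - P (dev x)‖) (x₀ : X) :
    ∃ r L : ℝ, 0 < r ∧ 0 ≤ L ∧ ∀ x x', ‖P (dev x) - P (dev x₀)‖ < r →
      ‖P (dev x') - P (dev x₀)‖ < r →
      |PhiP Γ (fun y => P (dev y)) (P (dev x₁)) ρ x -
        PhiP Γ (fun y => P (dev y)) (P (dev x₁)) ρ x'| ≤ L * ‖P (dev x) - P (dev x')‖ := by
  have _ := G
  obtain ⟨r₀, L, hr₀, hL, h⟩ := hr₁ x₀
  refine ⟨r₀, L / ρ, hr₀, by positivity, ?_⟩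
  have key : ∀ x x', ‖P (dev x) - P (dev x₀)‖ < r₀ →
      PhiP Γ (fun y => P (dev y)) (P (dev x₁)) ρ x ≤
        PhiP Γ (fun y => P (dev y)) (P (dev x₁)) ρ x' + L / ρ * ‖P (dev x) - P (dev x')‖ := by
    intro x x' hx
    refine PhiP_le _ _ _ _ _ fun γ => ?_
    rcases (psi_nonneg (P (dev x₁)) ρ (P (dev (γ • x)))).eq_or_lt' with h0 | h0
    · rw [h0]
      exact add_nonneg (PhiP_nonneg _ _ hρ x') (by positivity)
    · have h1 := ((psi_pos (P (dev x₁)) hρ _).1 h0).trans_le hρr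
      refine (psi_lip (P (dev x₁)) hρ _ (P (dev (γ • x')))).trans
        (add_le_add (psi_le_PhiP (fun y => P (dev y)) (P (dev x₁)) hρ x' γ) ?_)
      have h2 := h γ x x' hx h1
      rw [div_mul_eq_mul_div]
      have e1 : ‖P (dev (γ • x)) - P (dev (γ • x'))‖ =
          ‖P (dev (γ • x')) - P (dev (γ • x))‖ := norm_sub_rev _ _
      have e2 : ‖P (dev x) - P (dev x')‖ = ‖P (dev x') - P (dev x)‖ := norm_sub_rev _ _
      rw [e1, e2]
      gcongr
  intro x x' hx hx'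
  rw [abs_le]
  have h1 := key x x' hx
  have h2 := key x' x hx'
  rw [norm_sub_rev (P (dev x')) (P (dev x))] at h2
  constructor <;> linarith

/-- **Vanishing.** -/
theorem GeoP.van (G : GeoP (Γ := Γ) n dev g P C) : Van Γ X n := by
  classical
  intro f hb hf hfi z hz
  rcases isEmpty_or_nonempty X with hX | ⟨⟨x₀⟩⟩
  · have : z = 0 := by
      ext x
      exact (hX.false (x 0)).elim
    rw [this, map_zero]
  obtain ⟨K, hK, hKr, hKc⟩ := G.cc
  choose r₁ hr₁ hr₁' using G.lip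
  choose ρ₂ hρ₂ S hS htube' using G.amen
  set ρ : X → ℝ := fun x => min (r₁ x) (ρ₂ x) with hρdef
  have hρ : ∀ x, 0 < ρ x := fun x => lt_min (hr₁ x) (hρ₂ x)
  set D : X → E := fun x => P (dev x) with hD
  obtain ⟨T, hT⟩ := hK.elim_finite_subcover (fun x : X => P ⁻¹' ball (D x) (ρ x / 2))
    (fun _ => isOpen_ball.preimage P.continuous) (by
      intro v hv
      obtain ⟨x, rfl⟩ := hKr hv
      exact mem_iUnion.2 ⟨x, mem_ball_self (half_pos (hρ x))⟩)
  set N := T.card with hNdef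
  let c : Fin N → X := fun i => (T.equivFin.symm i : X)
  have hcov : ∀ y : X, ∃ i : Fin N, 1 / 2 < PhiP Γ D (D (c i)) (ρ (c i)) y := by
    intro y
    obtain ⟨γ, hγ⟩ := hKc y
    obtain ⟨x, hx, hx'⟩ := mem_iUnion₂.1 (hT hγ)
    refine ⟨T.equivFin ⟨x, hx⟩, ?_⟩
    have e : c (T.equivFin ⟨x, hx⟩) = x := by
      show ((T.equivFin.symm (T.equivFin ⟨x, hx⟩) : T) : X) = x
      rw [Equiv.symm_apply_apply]
    rw [e]
    have h1 := psi_le_PhiP (Γ := Γ) D (D x) (hρ x) y γ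
    refine lt_of_lt_of_le ?_ h1
    refine lt_of_lt_of_le ?_ (le_max_right _ _)
    have h2 : ‖D (γ • y) - D x‖ < ρ x / 2 := by
      rw [← dist_eq_norm]
      exact hx'
    have h3 : ‖D (γ • y) - D x‖ / ρ x < 1 / 2 := by
      rw [div_lt_iff₀ (hρ x)]
      linarith
    linarith
  have hN : 0 < N := (hcov x₀).elim fun i _ => i.pos
  set Φ : Fin N → X → ℝ := fun i x => PhiP Γ D (D (c i)) (ρ (c i)) x with hΦ
  have hΦlip : ∀ x, ∃ r L : ℝ, 0 < r ∧ ∀ i y y', ‖D y - D x‖ < r → ‖D y' - D x‖ < r →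
      |Φ i y - Φ i y'| ≤ L * ‖D y - D y'‖ := by
    intro x
    choose r C hr hC h using fun i => G.PhiP_lip (c i) (hρ (c i)) (min_le_left _ _)
      (hr₁' (c i)) x
    obtain ⟨r₀, hr₀, hr₀'⟩ := exists_pos_le_of_finite (finite_univ : (univ : Set (Fin N)).Finite) r
      fun i _ => hr i
    refine ⟨r₀, ∑ i, C i, hr₀, fun i y y' hy hy' => ?_⟩
    refine (h i y y' (hy.trans_le (hr₀' i trivial)) (hy'.trans_le (hr₀' i trivial))).trans ?_
    refine mul_le_mul_of_nonneg_right ?_ (norm_nonneg _)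
    exact Finset.single_le_sum (f := C) (fun i _ => hC i) (Finset.mem_univ i)
  -- thresholds
  obtain ⟨t, ht, hgen⟩ : ∃ t : Fin N → ℝ, (∀ i, 0 < t i ∧ t i < 1 / 2) ∧
      ∀ (x : X) (j : Fin n → Fin N), Function.Injective j → ∃ l, t (j l) ≠ Φ (j l) x := by
    choose r L hr hrL using hΦlip
    obtain ⟨T', hT1, hT2⟩ : ∃ T' : Set X, T'.Countable ∧ ∀ y, ∃ x ∈ T', ‖D y - D x‖ < r x := by
      have h0 : ∀ v ∈ range D, ∃ x, D x = v := fun v hv => hv
      have : Nonempty X := ⟨x₀⟩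
      choose! xx hxx using h0
      obtain ⟨T', hT, hT', hT''⟩ := TopologicalSpace.countable_cover_nhdsWithin
        (f := fun v => ball v (r (xx v))) (s := range D)
        (fun v hv => mem_nhdsWithin_of_mem_nhds (ball_mem_nhds _ (hr _)))
      refine ⟨xx '' T', hT'.image _, fun y => ?_⟩
      obtain ⟨v, hv, hv'⟩ := mem_iUnion₂.1 (hT'' ⟨y, rfl⟩)
      refine ⟨xx v, ⟨v, hv, rfl⟩, ?_⟩
      rw [hxx v (hT hv), ← dist_eq_norm]
      exact hv'
    let bad : X → (Fin n → Fin N) → Set (Fin N → ℝ) := fun x j =>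
      {t : Fin N → ℝ | ∃ y, D y - D x ∈ C ∧ ‖D y - D x‖ < r x ∧ ∀ l, t (j l) = Φ (j l) y}
    have hdim : dimH (⋃ x ∈ T', ⋃ j ∈ {j : Fin n → Fin N | Function.Injective j}, bad x j) <
        (Module.finrank ℝ (Fin N → ℝ) : ENNReal) := by
      refine lt_of_le_of_lt (b := ((N - 1 : ℕ) : ENNReal)) ?_ ?_
      · rw [dimH_bUnion hT1]
        refine iSup₂_le fun x _ => ?_
        rw [dimH_bUnion (Set.to_countable _)]
        refine iSup₂_le fun j hj => ?_
        exact piece_dim (dev := D) C G.dim x (r x) Φ (L x) (hrL x) j hj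
      · rw [Module.finrank_fintype_fun_eq_card, Fintype.card_fin]
        exact_mod_cast Nat.sub_lt hN one_pos
    have hdense := dense_compl_of_dimH_lt_finrank hdim
    obtain ⟨t, ht, ht'⟩ := hdense.exists_mem_open
      (isOpen_set_pi finite_univ (fun (_ : Fin N) _ => (isOpen_Ioo : IsOpen (Ioo (0 : ℝ) (1 / 2)))))
      ⟨fun _ => 1 / 4, fun i _ => by constructor <;> norm_num⟩
    refine ⟨t, fun i => ht' i trivial, fun y j hj => ?_⟩
    by_contra hcon
    push Not at hcon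
    apply ht
    obtain ⟨x, hx, hxe⟩ := hT2 y
    exact mem_iUnion₂.2 ⟨x, hx, mem_iUnion₂.2 ⟨j, hj, y, C.sub_mem (G.P_mem _) (G.P_mem _),
      hxe, hcon⟩⟩
  have hten : ∀ i x, Tendsto (Φ i) (comap dev (𝓝 (dev x))) (𝓝 (Φ i x)) := by
    intro i x
    obtain ⟨r, L, hr, h⟩ := hΦlip x
    rw [Metric.tendsto_nhds]
    intro ε hε
    rw [ev_iff]
    refine ⟨min r (ε / (|L| + 1)) / (‖P‖ + 1), by positivity, fun y hy => ?_⟩
    have h0 : ‖D y - D x‖ < min r (ε / (|L| + 1)) := by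
      have e : D y - D x = P (dev y - dev x) := (map_sub P _ _).symm
      rw [e]
      refine (P.le_opNorm _).trans_lt ?_
      rw [lt_div_iff₀ (by positivity)] at hy
      nlinarith [norm_nonneg (dev y - dev x), norm_nonneg P]
    have h1 := h i y x (h0.trans_le (min_le_left _ _)) (by rw [sub_self, norm_zero]; exact hr)
    rw [Real.dist_eq]
    refine h1.trans_lt ?_
    have h2 := h0.trans_le (min_le_right _ _)
    rw [lt_div_iff₀ (by positivity)] at h2
    nlinarith [norm_nonneg (D y - D x), le_abs_self L]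
  -- the index map
  have hidx : ∀ y, ∃ i, t i < Φ i y ∧ ∀ i', t i' < Φ i' y → ¬ i' < i := by
    intro y
    obtain ⟨i, hi⟩ := hcov y
    obtain ⟨m, hm, hm'⟩ := (wellFounded_lt : WellFounded (fun a b : Fin N => a < b)).has_min
      {i | t i < Φ i y} ⟨i, (ht i).2.trans hi⟩
    exact ⟨m, hm, fun i' hi' => hm' i' hi'⟩
  choose idx hidx1 hidx2 using hidx
  have hidx_smul : ∀ (δ : Γ) y, idx (δ • y) = idx y := by
    intro δ y
    have e : ∀ i, Φ i (δ • y) = Φ i y := fun i => PhiP_smul _ _ (hρ _) y δ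
    apply le_antisymm
    · apply not_lt.1
      exact hidx2 (δ • y) (idx y) (by rw [e]; exact hidx1 y)
    · apply not_lt.1
      exact hidx2 y (idx (δ • y)) (by rw [← e]; exact hidx1 (δ • y))
  have hgg : ∀ y, ∃ γ : Γ, 0 < psi (D (c (idx y))) (ρ (c (idx y))) (D (γ • y)) := by
    intro y
    obtain ⟨γ, h⟩ := exists_of_lt_PhiP _ _ _ _ _ (hidx1 y)
    exact ⟨γ, (ht _).1.trans h⟩
  choose gg hgg using hgg
  have huniq : ∀ (i : Fin N) y (γ γ' : Γ),
      0 < psi (D (c i)) (ρ (c i)) (D (γ • y)) → 0 < psi (D (c i)) (ρ (c i)) (D (γ' • y)) →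
      ((γ⁻¹ : Γ) : Γ ⧸ S (c i)) = ((γ'⁻¹ : Γ) : Γ ⧸ S (c i)) := by
    intro i y γ γ' h h'
    rw [psi_pos _ (hρ _)] at h h'
    rw [QuotientGroup.eq, inv_inv]
    exact htube' (c i) y γ' γ (h'.trans_le (min_le_right _ _)) (h.trans_le (min_le_right _ _))
  let p : X → Σ i : Fin N, Γ ⧸ S (c i) := fun y =>
    ⟨idx y, (((gg y)⁻¹ : Γ) : Γ ⧸ S (c (idx y)))⟩
  have hp_eq : ∀ (i : Fin N) y (γ : Γ), idx y = i →
      0 < psi (D (c i)) (ρ (c i)) (D (γ • y)) →
      p y = ⟨i, ((γ⁻¹ : Γ) : Γ ⧸ S (c i))⟩ := by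
    rintro i y γ rfl h
    show (⟨idx y, _⟩ : Σ i : Fin N, Γ ⧸ S (c i)) = ⟨idx y, _⟩
    rw [huniq (idx y) y (gg y) γ (hgg y) h]
  obtain ⟨M, hM⟩ := exists_meanFam' (fun i => S (c i)) (fun i => hS (c i)) x₀
  refine cells_vanish G.cd p ?_ M hM n ?_ f hb hf hfi z hz
  · intro δ y
    have h1 := hgg (δ • y)
    rw [← mul_smul, hidx_smul] at h1
    rw [hp_eq (idx y) y _ rfl h1]
    have h2 : 0 < psi (D (c (idx y))) (ρ (c (idx y))) (D (gg (δ • y) • δ • y)) := by
      rw [← mul_smul]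
      exact h1
    rw [hp_eq (idx y) (δ • y) _ (hidx_smul δ y) h2]
    have e : (gg (δ • y))⁻¹ = δ * (gg (δ • y) * δ)⁻¹ := by group
    rw [e]
    rfl
  · -- local multiplicity
    have hloc : ∀ x, ∃ ε : ℝ, 0 < ε ∧ ∀ y : Fin (n + 1) → X, (∀ i, ‖dev (y i) - dev x‖ < ε) →
        ¬ Function.Injective fun i => p (y i) := by
      intro x
      have h1 : ∀ᶠ y in comap dev (𝓝 (dev x)), t (idx x) < Φ (idx x) y :=
        (hten _ x).eventually_const_lt (hidx1 x)
      have h2 : ∀ᶠ y in comap dev (𝓝 (dev x)), ∀ i, Φ i x < t i → Φ i y < t i := by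
        rw [eventually_all]
        intro i
        by_cases hi : Φ i x < t i
        · filter_upwards [(hten i x).eventually_lt_const hi] with y hy _
          exact hy
        · exact Eventually.of_forall fun y hy => absurd hy hi
      have h3 : ∀ i, ∃ γ : Γ, t i ≤ Φ i x → ∀ᶠ y in comap dev (𝓝 (dev x)),
          0 < psi (D (c i)) (ρ (c i)) (D (γ • y)) := by
        intro i
        by_cases hi : t i ≤ Φ i x
        · obtain ⟨γ, h⟩ := exists_of_lt_PhiP _ _ _ _ _ ((ht i).1.trans_le hi)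
          refine ⟨γ, fun _ => ?_⟩
          rw [psi_pos _ (hρ _)] at h
          have hcont : Continuous fun v : E => ‖P (g γ v) - D (c i)‖ := by
            have h4 : Continuous (g γ) := (g γ).continuous_of_finiteDimensional
            exact ((P.continuous.comp h4).sub continuous_const).norm
          have h5 : Tendsto (fun y : X => ‖P (g γ (dev y)) - D (c i)‖)
              (comap dev (𝓝 (dev x))) (𝓝 ‖P (g γ (dev x)) - D (c i)‖) :=
            (hcont.tendsto (dev x)).comp tendsto_comap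
          have h6 : ‖P (g γ (dev x)) - D (c i)‖ < ρ (c i) := by
            rw [← G.cd.equi]
            exact h
          filter_upwards [h5.eventually_lt_const h6] with y hy
          rw [psi_pos _ (hρ _)]
          show ‖P (dev (γ • y)) - D (c i)‖ < ρ (c i)
          rw [G.cd.equi]
          exact hy
        · exact ⟨1, fun h => absurd h hi⟩
      choose γ hγ using h3
      have h3' : ∀ᶠ y in comap dev (𝓝 (dev x)), ∀ i, t i ≤ Φ i x →
          0 < psi (D (c i)) (ρ (c i)) (D (γ i • y)) := by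
        rw [eventually_all]
        intro i
        by_cases hi : t i ≤ Φ i x
        · filter_upwards [hγ i hi] with y hy _
          exact hy
        · exact Eventually.of_forall fun y hy => absurd hy hi
      set I : Finset (Fin N) := insert (idx x) (Finset.univ.filter fun i => Φ i x = t i) with hI
      have hIcard : I.card ≤ n := by
        refine (Finset.card_insert_le _ _).trans ?_
        by_contra hcon
        push Not at hcon
        obtain ⟨J, hJ, hJ'⟩ := Finset.exists_subset_card_eq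
          (s := Finset.univ.filter fun i => Φ i x = t i) (n := n) (by omega)
        obtain ⟨l, hl⟩ := hgen x (J.orderEmbOfFin hJ') (J.orderEmbOfFin hJ').injective
        apply hl
        exact (Finset.mem_filter.1 (hJ (Finset.orderEmbOfFin_mem J hJ' l))).2.symm
      obtain ⟨ε, hε, h⟩ := ev_iff.1 (h1.and (h2.and h3'))
      refine ⟨ε, hε, fun y hy hinj => ?_⟩
      have hmem : ∀ l, idx (y l) ∈ I := by
        intro l
        obtain ⟨e1, e2, _⟩ := h (y l) (hy l)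
        rw [hI, Finset.mem_insert, Finset.mem_filter]
        rcases lt_trichotomy (Φ (idx (y l)) x) (t (idx (y l))) with h4 | h4 | h4
        · exact absurd (e2 _ h4) (not_lt.2 (hidx1 (y l)).le)
        · exact Or.inr ⟨Finset.mem_univ _, h4⟩
        · left
          apply le_antisymm
          · exact not_lt.1 (hidx2 (y l) _ e1)
          · exact not_lt.1 (hidx2 x _ h4)
      obtain ⟨l, _, l', _, hll, he⟩ := Finset.exists_ne_map_eq_of_card_lt_of_maps_to
        (s := (Finset.univ : Finset (Fin (n + 1)))) (t := I) (f := fun l => idx (y l))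
        (by rw [Finset.card_univ, Fintype.card_fin]; omega) (fun l _ => hmem l)
      apply hll
      apply hinj
      show p (y l) = p (y l')
      have hge : t (idx (y l)) ≤ Φ (idx (y l)) x := by
        obtain ⟨e1, e2, _⟩ := h (y l) (hy l)
        by_contra hcon
        push Not at hcon
        exact absurd (e2 _ hcon) (not_lt.2 (hidx1 (y l)).le)
      have hs := (h (y l) (hy l)).2.2 _ hge
      have hs' := (h (y l') (hy l')).2.2 _ hge
      rw [hp_eq _ (y l) _ rfl hs, hp_eq _ (y l') _ he.symm hs']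
    choose ε hε hε' using hloc
    intro K' hK' hK'r
    obtain ⟨δ, hδ, h⟩ := lebesgue_number_lemma_of_metric (c := fun x : X => ball (dev x) (ε x)) hK'
      (fun _ => isOpen_ball) (by
        intro v hv
        obtain ⟨x, rfl⟩ := hK'r hv
        exact mem_iUnion.2 ⟨x, mem_ball_self (hε x)⟩)
    refine ⟨δ, hδ, fun y hy hyd => ?_⟩
    obtain ⟨x, hx⟩ := h (dev (y 0)) (hy 0)
    refine hε' x y fun i => ?_
    rw [← dist_eq_norm]
    apply hx
    rw [mem_ball, dist_eq_norm]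
    exact hyd i 0

end fib

end Pool.Agent.Helper63.SV
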