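import Pool.Agent.Helper63.SV.Red
import Pool.Agent.Helper63.SV.Desc

/-!
Project SV (helper63): closed complete affine manifolds with weakly commensurated abelian subgroups.
-/

set_option autoImplicit false

open Set Metric Filter Topology NormedSpace

namespace Pool.Agent.Helper63.SV

open Pool.Agent.N520.SV (Sx Chain face bdry norm1 BCob Negligible)

section prelim

variable {Γ E : Type} [Group Γ] [NormedAddCommGroup E] [NormedSpace ℝ E] [FiniteDimensional ℝ E]
  [MulAction Γ E]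

omit [FiniteDimensional ℝ E] in
/-- the holonomy as a homomorphism -/
theorem exists_hol (haff : ∀ γ : Γ, ∃ f : E →ᵃ[ℝ] E, ∀ x : E, γ • x = f x) :
    ∃ hol : Γ →* (E →ᵃ[ℝ] E), ∀ (γ : Γ) (x : E), γ • x = hol γ x := by
  choose f hf using haff
  refine ⟨{ toFun := f, map_one' := ?_, map_mul' := ?_ }, hf⟩
  · ext x
    rw [← hf, one_smul]
    rfl
  · intro γ δ
    ext x
    rw [← hf, mul_smul]
    show γ • δ • x = f γ (f δ x)
    rw [← hf, ← hf]

omit [FiniteDimensional ℝ E] in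
theorem torsion_free (hol : Γ →* (E →ᵃ[ℝ] E)) (hact : ∀ (γ : Γ) (x : E), γ • x = hol γ x)
    (hfree : ∀ (γ : Γ) (x : E), γ • x = x → γ = 1) (a : Γ) (m : ℕ) (hm : 0 < m)
    (h : a ^ m = 1) : a = 1 := by
  obtain ⟨m, rfl⟩ := Nat.exists_eq_succ_of_ne_zero hm.ne'
  apply hfree a ((Fintype.card (Fin (m + 1)) : ℝ)⁻¹ • ∑ i : Fin (m + 1), (a ^ (i : ℕ)) • (0 : E))
  rw [hact, affine_centroid]
  congr 1
  have e : ∀ i : Fin (m + 1), hol a (a ^ (i : ℕ) • (0 : E)) = a ^ ((i : ℕ) + 1) • (0 : E) := by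
    intro i
    rw [← hact, ← mul_smul, pow_succ']
  simp only [e]
  rw [Fin.sum_univ_eq_sum_range (fun i => a ^ (i + 1) • (0 : E)) (m + 1),
    Fin.sum_univ_eq_sum_range (fun i => a ^ i • (0 : E)) (m + 1), Finset.sum_range_succ,
    Finset.sum_range_succ', h, pow_zero]

theorem exists_compact (hcont : ∀ γ : Γ, Continuous fun x : E => γ • x)
    (hcpt : CompactSpace (MulAction.orbitRel.Quotient Γ E)) :
    ∃ K : Set E, IsCompact K ∧ ∀ x : E, ∃ γ : Γ, γ • x ∈ K := by
  have : ContinuousConstSMul Γ E := ⟨hcont⟩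
  have hopen : IsOpenMap (Quotient.mk (MulAction.orbitRel Γ E)) := isOpenMap_quotient_mk'_mul
  obtain ⟨t, ht⟩ := (isCompact_univ : IsCompact (univ :
    Set (MulAction.orbitRel.Quotient Γ E))).elim_finite_subcover
    (fun n : ℕ => Quotient.mk (MulAction.orbitRel Γ E) '' ball (0 : E) n)
    (fun n => hopen _ isOpen_ball) (by
      intro q _
      obtain ⟨x, rfl⟩ := Quotient.exists_rep q
      obtain ⟨n, hn⟩ := exists_nat_gt ‖x‖
      refine mem_iUnion.2 ⟨n, x, ?_, rfl⟩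
      rw [mem_ball, dist_zero_right]
      exact hn)
  refine ⟨closedBall 0 (t.sup id : ℕ), isCompact_closedBall _ _, fun x => ?_⟩
  obtain ⟨n, hn, y, hy, hxy⟩ := mem_iUnion₂.1 (ht (mem_univ (Quotient.mk _ x)))
  obtain ⟨γ, hγ⟩ := MulAction.orbitRel_apply.1 (Quotient.exact hxy)
  refine ⟨γ, ?_⟩
  have hγ' : γ • x = y := hγ
  rw [hγ', mem_closedBall, dist_zero_right]
  rw [mem_ball, dist_zero_right] at hy
  have h1 : n ≤ t.sup id := Finset.le_sup (f := id) hn
  have h2 : (n : ℝ) ≤ ((t.sup id : ℕ) : ℝ) := by exact_mod_cast h1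
  linarith

omit [NormedSpace ℝ E] [FiniteDimensional ℝ E] in
theorem exists_compact_sub (hcont : ∀ γ : Γ, Continuous fun x : E => γ • x)
    (hcc : ∃ K : Set E, IsCompact K ∧ ∀ x : E, ∃ γ : Γ, γ • x ∈ K) (H : Subgroup Γ)
    [Finite (Γ ⧸ H)] : ∃ K : Set E, IsCompact K ∧ ∀ x : E, ∃ γ : H, γ • x ∈ K := by
  obtain ⟨K, hK, h⟩ := hcc
  refine ⟨⋃ q : Γ ⧸ H, (fun x : E => (q.out⁻¹ : Γ) • x) '' K,
    isCompact_iUnion fun q => hK.image (hcont _), fun x => ?_⟩
  obtain ⟨γ, hγ⟩ := h x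
  have h1 : ((γ : Γ ⧸ H).out⁻¹ : Γ) * γ ∈ H := by
    rw [← QuotientGroup.eq, QuotientGroup.out_eq']
  refine ⟨⟨_, h1⟩, mem_iUnion.2 ⟨(γ : Γ ⧸ H), γ • x, hγ, ?_⟩⟩
  show (((γ : Γ ⧸ H).out⁻¹ : Γ)) • γ • x = (((γ : Γ ⧸ H).out⁻¹ : Γ) * γ) • x
  rw [mul_smul]

end prelim

section main

variable {Γ E : Type} [Group Γ] [NormedAddCommGroup E] [NormedSpace ℝ E] [FiniteDimensional ℝ E]
  [MulAction Γ E]

theorem main_ab (haff : ∀ γ : Γ, ∃ f : E →ᵃ[ℝ] E, ∀ x : E, γ • x = f x)
    (hfree : ∀ (γ : Γ) (x : E), γ • x = x → γ = 1)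
    (hprop : ∀ K : Set E, IsCompact K → {γ : Γ | ∃ x ∈ K, γ • x ∈ K}.Finite)
    (hcpt : CompactSpace (MulAction.orbitRel.Quotient Γ E))
    (H : Subgroup Γ) (hH : H.FiniteIndex) (A : Subgroup Γ) (hAH : A ≤ H) (hA : A ≠ ⊥)
    (hab : ∀ a ∈ A, ∀ b ∈ A, a * b = b * a)
    (hcom : ∀ γ ∈ H, ∀ a ∈ A, ∃ m : ℕ, 0 < m ∧ γ * a ^ m * γ⁻¹ ∈ A)
    (r : ℕ) (φ : Multiplicative (Fin r → ℤ) →* Γ) (hφ : Function.Injective φ)
    (hφA : ∀ m, φ m ∈ A) (k : ℕ) (hk : Module.finrank ℝ E < k + 1 + max 1 r) :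
    Negligible k (MulAction.orbitRel.Quotient Γ E) := by
  obtain ⟨hol, hact⟩ := exists_hol haff
  have hcont : ∀ γ : Γ, Continuous fun x : E => γ • x := by
    intro γ
    simp only [hact]
    exact (hol γ).continuous_of_finiteDimensional
  have hfin : Finite (Γ ⧸ H) := Subgroup.finite_quotient_of_finiteIndex
  -- a free abelian subgroup of rank `max 1 r`
  obtain ⟨ψ, hψ, hψA⟩ : ∃ ψ : Multiplicative (Fin (max 1 r) → ℤ) →* Γ,
      Function.Injective ψ ∧ ∀ m, ψ m ∈ A := by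
    rcases Nat.eq_zero_or_pos r with h0 | h0
    · subst h0
      obtain ⟨⟨a, haA⟩, ha1⟩ := Subgroup.ne_bot_iff_exists_ne_one.1 hA
      have ha : a ≠ 1 := fun h => ha1 (Subtype.ext h)
      let ψ : Multiplicative (Fin (max 1 0) → ℤ) →* Γ :=
        { toFun := fun m => a ^ (m.toAdd ⟨0, by decide⟩)
          map_one' := by
            show a ^ (0 : ℤ) = 1
            rw [zpow_zero]
          map_mul' := fun m m' => by
            show a ^ (m.toAdd _ + m'.toAdd _) = _
            rw [zpow_add] }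
      refine ⟨ψ, ?_, fun m => A.zpow_mem haA _⟩
      rw [injective_iff_map_eq_one]
      intro m hm
      have hm' : a ^ (m.toAdd ⟨0, by decide⟩) = 1 := hm
      have h1 : m.toAdd ⟨0, by decide⟩ = 0 := by
        by_contra hne
        apply ha
        have h2 : a ^ (m.toAdd ⟨0, by decide⟩).natAbs = 1 := by
          rcases Int.natAbs_eq (m.toAdd ⟨0, by decide⟩) with h3 | h3
          · rw [h3, zpow_natCast] at hm'
            exact hm'
          · rw [h3, zpow_neg, zpow_natCast, inv_eq_one] at hm'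
            exact hm'
        exact torsion_free hol hact hfree a _ (Int.natAbs_pos.2 hne) h2
      apply Multiplicative.toAdd.injective
      funext i
      have hi : i = ⟨0, by decide⟩ := by
        apply Fin.ext
        have := i.2
        have h4 : max 1 0 = 1 := rfl
        omega
      rw [hi, h1]
      rfl
    · have hmax : max 1 r = r := max_eq_right h0
      rw [hmax]
      exact ⟨φ, hφ, hφA⟩
  have hVanH : Van H E (k + 1) := by
    refine core_ab (hol.comp H.subtype) (fun γ x => hact γ x) ?_ ?_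
      (exists_compact_sub hcont (exists_compact hcont hcpt) H) (A.subgroupOf H) ?_ ?_
      (ψ.codRestrict H fun m => hAH (hψA m)) ?_ ?_ hk
    · intro γ x hx
      exact Subtype.ext (hfree (γ : Γ) x hx)
    · intro K hK
      refine Set.Finite.of_finite_image (f := (Subtype.val : H → Γ)) ((hprop K hK).subset ?_)
        Subtype.val_injective.injOn
      rintro _ ⟨γ, ⟨x, hx, hx'⟩, rfl⟩
      exact ⟨x, hx, hx'⟩
    · intro a ha b hb
      exact Subtype.ext (hab a ha b hb)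
    · intro γ a ha
      obtain ⟨m, hm, h⟩ := hcom γ γ.2 a ha
      exact ⟨m, hm, h⟩
    · intro m m' h
      exact hψ (congrArg Subtype.val h)
    · exact fun m => hψA m
  have hVan : Van Γ E (k + 1) := hVanH.of_finiteIndex H
  have D : ConvData (id : E → E) fun γ => hol γ :=
    ⟨fun _ _ h => h, by rw [range_id]; exact convex_univ, hact⟩
  exact negligible_of_tuples D IsEmbedding.id hcont hprop hfree k hVan

end main

end Pool.Agent.Helper63.SV
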