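import Pool.Agent.Helper63.SV.Nil

/-!
Project SV (helper63): logarithms of squares in commutative algebras.
-/

set_option autoImplicit false

open Set Filter Topology NormedSpace Polynomial

namespace Pool.Agent.Helper63.SV

section lgs

/-- the quadratic polynomials of the path -/
noncomputable def qpol (y t : ℝ) : ℝ[X] :=
  (C (1 - t) + C t * X) ^ 2 + C ((y * (t * (1 - t))) ^ 2) * (X - 1) ^ 2

theorem qpol_aeval {R : Type} [Ring R] [Algebra ℝ R] (u : R) (y t : ℝ) :
    aeval u (qpol y t) = ((1 - t) • (1 : R) + t • u) ^ 2 +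
      ((y * (t * (1 - t))) ^ 2) • (u - 1) ^ 2 := by
  have h1 : aeval u (X - 1 : ℝ[X]) = u - 1 := by rw [map_sub, aeval_X, map_one]
  unfold qpol
  rw [map_add, map_pow, map_add, aeval_C, map_mul, aeval_C, aeval_X, map_mul, aeval_C,
    map_pow _ (X - 1), h1,
    Algebra.algebraMap_eq_smul_one (1 - t), Algebra.algebraMap_eq_smul_one t,
    Algebra.algebraMap_eq_smul_one ((y * (t * (1 - t))) ^ 2), smul_mul_assoc, one_mul,
    smul_mul_assoc, one_mul]

theorem exists_good (Z : Finset ℂ) (hZ : (0 : ℂ) ∉ Z) :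
    ∃ y : ℝ, ∀ t ∈ Icc (0 : ℝ) 1, ∀ μ ∈ Z, aeval μ (qpol y t) ≠ 0 := by
  set f : ℂ → ℝ := fun μ => |(μ - 1)⁻¹.im| / |(μ - 1)⁻¹.re * (1 + (μ - 1)⁻¹.re)| with hf
  have hf0 : ∀ μ, 0 ≤ f μ := fun μ => by positivity
  refine ⟨1 + ∑ μ ∈ Z, f μ, fun t ht μ hμ h => ?_⟩
  set y : ℝ := 1 + ∑ μ ∈ Z, f μ with hy
  have hfy : f μ < y := by
    have := Finset.single_le_sum (f := f) (fun i _ => hf0 i) hμ
    rw [hy]
    linarith
  set s : ℝ := y * (t * (1 - t)) with hs
  rw [qpol_aeval, ← hs] at h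
  have h1 : ((1 - t : ℝ) • (1 : ℂ) + (t : ℝ) • μ + (Complex.I * s) * (μ - 1)) *
      ((1 - t : ℝ) • (1 : ℂ) + (t : ℝ) • μ - (Complex.I * s) * (μ - 1)) = 0 := by
    rw [← h]
    simp only [Complex.real_smul]
    have hI : Complex.I ^ 2 = -1 := Complex.I_sq
    push_cast
    ring_nf
    rw [hI]
    ring
  rcases eq_or_ne μ 1 with rfl | hμ1
  · simp at h
  have hμ1' : μ - 1 ≠ 0 := sub_ne_zero.2 hμ1
  set ν : ℂ := (μ - 1)⁻¹ with hν
  have hνμ : ν * (μ - 1) = 1 := inv_mul_cancel₀ hμ1'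
  have h2 : ∃ ε : ℝ, |ε| = 1 ∧ ν + t = ε * (Complex.I * s) := by
    have e0 : (1 - t : ℝ) • (1 : ℂ) + (t : ℝ) • μ = (ν + t) * (μ - 1) := by
      rw [add_mul, hνμ]
      simp only [Complex.real_smul]
      push_cast
      ring
    rw [e0, ← add_mul, ← sub_mul] at h1
    rcases mul_eq_zero.1 h1 with h3 | h3
    · refine ⟨-1, by norm_num, ?_⟩
      have := (mul_eq_zero.1 h3).resolve_right hμ1'
      push_cast
      linear_combination this
    · refine ⟨1, by norm_num, ?_⟩
      have := (mul_eq_zero.1 h3).resolve_right hμ1'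
      push_cast
      linear_combination this
  obtain ⟨ε, hε, h2⟩ := h2
  have hre : ν.re + t = 0 := by
    have := congrArg Complex.re h2
    simpa using this
  have him : ν.im = ε * s := by
    have := congrArg Complex.im h2
    simpa using this
  have ht' : t = -ν.re := by linarith
  have habs : |ν.im| = y * (t * (1 - t)) := by
    rw [him, abs_mul, hε, one_mul, abs_of_nonneg]
    have hy0 : 0 ≤ y := (hf0 μ).trans hfy.le
    exact mul_nonneg hy0 (mul_nonneg ht.1 (by linarith [ht.2]))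
  rcases eq_or_ne (t * (1 - t)) 0 with h0 | h0
  · have hν0 : ν.im = 0 := by
      rw [h0, mul_zero] at habs
      exact abs_eq_zero.1 habs
    rcases mul_eq_zero.1 h0 with h4 | h4
    · have : ν = 0 := Complex.ext (by simpa using (by linarith : ν.re = 0)) hν0
      rw [this, zero_mul] at hνμ
      exact zero_ne_one hνμ
    · have h5 : ν = -1 := Complex.ext (by simp; linarith) (by simpa using hν0)
      rw [h5] at hνμ
      have : μ = 0 := by linear_combination -hνμ
      exact hZ (this ▸ hμ)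
  · have hpos : 0 < t * (1 - t) := lt_of_le_of_ne
      (mul_nonneg ht.1 (by linarith [ht.2])) (Ne.symm h0)
    have h6 : |(μ - 1)⁻¹.re * (1 + (μ - 1)⁻¹.re)| = t * (1 - t) := by
      rw [← hν]
      have : ν.re * (1 + ν.re) = -(t * (1 - t)) := by
        rw [ht']
        ring
      rw [this, abs_neg, abs_of_pos hpos]
    have h7 : f μ = y := by
      rw [hf]
      simp only
      rw [h6, ← hν, habs, mul_div_assoc, div_self h0, mul_one]
    linarith

/-- **Squares of units have logarithms.** -/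
theorem exists_log_sq {R : Type} [NormedRing R] [NormedAlgebra ℝ R] [FiniteDimensional ℝ R]
    (hc : ∀ a b : R, a * b = b * a) (u : R) (hu : IsUnit u) : ∃ b : R, exp b = u ^ 2 := by
  have : CompleteSpace R := FiniteDimensional.complete ℝ R
  rcases subsingleton_or_nontrivial R with hR | hR
  · exact ⟨0, Subsingleton.elim _ _⟩
  have hloc : ∀ᶠ T in 𝓝 (1 : R), ∃ b : R, exp b = T := by
    have h1 : HasStrictFDerivAt (exp : R → R) (1 : R →L[ℝ] R) 0 := hasStrictFDerivAt_exp_zero
    have h2 := h1.map_nhds_eq_of_surj (by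
      rw [eq_top_iff]
      intro w _
      exact ⟨w, rfl⟩)
    rw [exp_zero] at h2
    rw [← h2, eventually_map]
    exact Eventually.of_forall fun b => ⟨b, rfl⟩
  have hint : IsIntegral ℝ u := Algebra.IsIntegral.isIntegral u
  set p := minpoly ℝ u with hp
  have hp0 : p ≠ 0 := minpoly.ne_zero hint
  set Z : Finset ℂ := (p.aroots ℂ).toFinset with hZ
  have hZ0 : (0 : ℂ) ∉ Z := by
    rw [hZ, Multiset.mem_toFinset, mem_aroots]
    rintro ⟨_, h⟩
    have h1 : p.coeff 0 = 0 := by
      have h2 : aeval (0 : ℂ) p = ((p.coeff 0 : ℝ) : ℂ) := by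
        rw [aeval_def, eval₂_at_zero]
        rfl
      rw [h2] at h
      exact_mod_cast h
    have h3 : X ∣ p := X_dvd_iff.2 h1
    obtain ⟨q, hq⟩ := h3
    have h4 : u * aeval u q = 0 := by
      have := minpoly.aeval ℝ u
      rw [← hp, hq, map_mul, aeval_X] at this
      exact this
    have h5 : aeval u q = 0 := hu.mul_right_eq_zero.1 h4
    have hq0 : q ≠ 0 := by
      rintro rfl
      rw [mul_zero] at hq
      exact hp0 hq
    have h6 := minpoly.degree_le_of_ne_zero ℝ u hq0 h5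
    rw [← hp, hq, degree_mul, degree_X, degree_eq_natDegree hq0] at h6
    have h7 : ((1 + q.natDegree : ℕ) : WithBot ℕ) ≤ (q.natDegree : WithBot ℕ) := by
      rw [Nat.cast_add]
      exact h6
    have h8 : 1 + q.natDegree ≤ q.natDegree := by exact_mod_cast h7
    omega
  obtain ⟨y, hy⟩ := exists_good Z hZ0
  set w : ℝ → R := fun t => aeval u (qpol y t) with hw
  have hwcont : Continuous w := by
    have e : w = fun t : ℝ => ((1 - t) • (1 : R) + t • u) ^ 2 +
      ((y * (t * (1 - t))) ^ 2) • (u - 1) ^ 2 := funext fun t => qpol_aeval u y t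
    rw [e]
    fun_prop
  have hunit : ∀ t ∈ Icc (0 : ℝ) 1, ∃ v : R, v * w t = 1 := by
    intro t ht
    have h1 : IsCoprime (qpol y t) p := by
      refine (isCoprime_iff_aeval_ne_zero_of_isAlgClosed (k := ℝ) ℂ _ _).2 fun μ => ?_
      by_cases hμ : aeval μ p = 0
      · left
        apply hy t ht
        rw [hZ, Multiset.mem_toFinset, mem_aroots]
        exact ⟨hp0, hμ⟩
      · exact Or.inr hμ
    obtain ⟨a, b, hab⟩ := h1
    refine ⟨aeval u a, ?_⟩
    have := congrArg (aeval u) hab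
    rw [map_add, map_mul, map_mul, hp, minpoly.aeval, mul_zero, add_zero, map_one] at this
    exact this
  have hexp : ∀ a b : R, exp (a + b) = exp a * exp b := fun a b => exp_add' (hc a b)
  set T : Set (Icc (0 : ℝ) 1) := {t | ∃ b : R, exp b = w t} with hT
  have hkey : ∀ t₀ : Icc (0 : ℝ) 1, ∀ᶠ t : Icc (0 : ℝ) 1 in 𝓝 t₀, (t ∈ T ↔ t₀ ∈ T) := by
    intro t₀
    obtain ⟨v, hv⟩ := hunit t₀ t₀.2
    have h1 : Tendsto (fun t : Icc (0 : ℝ) 1 => v * w t) (𝓝 t₀) (𝓝 1) := by
      rw [← hv]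
      exact ((continuous_const.mul (hwcont.comp continuous_subtype_val)).tendsto t₀)
    filter_upwards [h1.eventually hloc] with t ht
    obtain ⟨b, hb⟩ := ht
    have e1 : w t₀ * exp b = w t := by
      rw [hb, ← mul_assoc, hc (w t₀) v, hv, one_mul]
    have e2 : w t * exp (-b) = w t₀ := by
      rw [← e1, mul_assoc, exp_mul_neg', mul_one]
    constructor
    · rintro ⟨c, hc'⟩
      exact ⟨c + -b, by rw [hexp, hc', e2]⟩
    · rintro ⟨c, hc'⟩
      exact ⟨c + b, by rw [hexp, hc', e1]⟩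
  have hclopen : IsClopen T := by
    constructor
    · rw [← isOpen_compl_iff, isOpen_iff_mem_nhds]
      intro t₀ ht₀
      filter_upwards [hkey t₀] with t ht
      exact fun h => ht₀ (ht.1 h)
    · rw [isOpen_iff_mem_nhds]
      intro t₀ ht₀
      filter_upwards [hkey t₀] with t ht
      exact ht.2 ht₀
  have h0T : (⟨0, by norm_num⟩ : Icc (0 : ℝ) 1) ∈ T := by
    refine ⟨0, ?_⟩
    show exp (0 : R) = aeval u (qpol y 0)
    rw [qpol_aeval, exp_zero]
    simp
  have hT1 : T = univ := hclopen.eq_univ ⟨_, h0T⟩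
  obtain ⟨b, hb⟩ : (⟨1, by norm_num⟩ : Icc (0 : ℝ) 1) ∈ T := by
    rw [hT1]
    trivial
  refine ⟨b, ?_⟩
  rw [hb]
  show aeval u (qpol y 1) = _
  rw [qpol_aeval]
  simp

end lgs

end Pool.Agent.Helper63.SV
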