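import Pool.Agent.Helper63.SV.Uni
import Pool.Agent.Helper63.SV.Lgs

/-!
Project SV (helper63): flows of affine vector fields on open convex sets with a cocompact group.
-/

set_option autoImplicit false

open Set Metric Filter Topology NormedSpace

namespace Pool.Agent.Helper63.SV

section flw

variable {E : Type} [NormedAddCommGroup E] [NormedSpace ℝ E] [FiniteDimensional ℝ E] {k : ℕ}

theorem flow_add (B : Fin k → ((E × ℝ) →L[ℝ] (E × ℝ))) (hB : ∀ i p, (B i p).2 = 0)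
    (hBc : ∀ i j, Commute (B i) (B j)) (s t : Fin k → ℝ) (v : E) :
    flow B (s + t) v = flow B s (flow B t v) := by
  have h1 := flow_eq B hB (s + t) v
  rw [map_add, exp_add' (vecL_comm B hBc s t)] at h1
  have h2 : exp (vecL B s) (exp (vecL B t) (v, 1)) = (flow B (s + t) v, 1) := h1
  rw [flow_eq B hB, flow_eq B hB] at h2
  exact (congrArg Prod.fst h2).symm

omit [FiniteDimensional ℝ E] in
theorem flow_zero (B : Fin k → ((E × ℝ) →L[ℝ] (E × ℝ))) (v : E) : flow B 0 v = v := by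
  show (exp (vecL B 0) (v, 1)).1 = v
  rw [map_zero, exp_zero]
  rfl

theorem flow_cont (B : Fin k → ((E × ℝ) →L[ℝ] (E × ℝ))) :
    Continuous fun q : (Fin k → ℝ) × E => flow B q.1 q.2 := by
  show Continuous fun q : (Fin k → ℝ) × E => (exp (vecL B q.1) (q.2, 1)).1
  have h1 : Continuous fun q : (Fin k → ℝ) × E => exp (vecL B q.1) :=
    exp_continuous'.comp ((vecL B).continuous.comp continuous_fst)
  have h2 : Continuous fun q : (Fin k → ℝ) × E => ((q.2, (1 : ℝ)) : E × ℝ) :=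
    continuous_snd.prodMk continuous_const
  exact (h1.clm_apply h2).fst

theorem flow_pres_of_nhds (B : Fin k → ((E × ℝ) →L[ℝ] (E × ℝ))) (hB : ∀ i p, (B i p).2 = 0)
    (hBc : ∀ i j, Commute (B i) (B j)) (R : Set E)
    (h : ∀ᶠ s in 𝓝 (0 : Fin k → ℝ), ∀ v ∈ R, flow B s v ∈ R) :
    ∀ s, ∀ v ∈ R, flow B s v ∈ R := by
  intro s
  have h1 : Tendsto (fun N : ℕ => (((N : ℝ) + 1)⁻¹) • s) atTop (𝓝 0) := by
    have h2 : Tendsto (fun N : ℕ => ((N : ℝ) + 1)⁻¹) atTop (𝓝 0) := by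
      have := tendsto_one_div_add_atTop_nhds_zero_nat (𝕜 := ℝ)
      simpa [one_div] using this
    have h3 := h2.smul_const s
    rwa [zero_smul] at h3
  obtain ⟨N, hN⟩ := (h1.eventually h).exists
  have h4 : ∀ j : ℕ, ∀ v ∈ R, flow B ((j : ℝ) • ((((N : ℝ) + 1)⁻¹) • s)) v ∈ R := by
    intro j
    induction j with
    | zero =>
      intro v hv
      rw [Nat.cast_zero, zero_smul, flow_zero]
      exact hv
    | succ j ih =>
      intro v hv
      rw [Nat.cast_succ, add_smul, one_smul, flow_add B hB hBc]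
      exact ih _ (hN v hv)
  have h5 := h4 (N + 1)
  have e : ((N + 1 : ℕ) : ℝ) • ((((N : ℝ) + 1)⁻¹) • s) = s := by
    rw [smul_smul]
    have : ((N + 1 : ℕ) : ℝ) * ((N : ℝ) + 1)⁻¹ = 1 := by
      push_cast
      exact mul_inv_cancel₀ (by positivity)
    rw [this, one_smul]
  rwa [e] at h5

omit [FiniteDimensional ℝ E] in
theorem exp_fix {T : (E × ℝ) →L[ℝ] (E × ℝ)} {p : E × ℝ} (h : T p = 0) [CompleteSpace E] :
    exp T p = p := by
  have h1 : Continuous fun S : (E × ℝ) →L[ℝ] (E × ℝ) => S p :=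
    (ContinuousLinearMap.apply ℝ (E × ℝ) p).continuous
  have h2 := (NormedSpace.exp_series_hasSum_exp' (𝕂 := ℝ) T).mapL
    (ContinuousLinearMap.apply ℝ (E × ℝ) p)
  have h3 : HasSum (fun n : ℕ => (ContinuousLinearMap.apply ℝ (E × ℝ) p)
      (((n.factorial : ℝ)⁻¹) • T ^ n)) p := by
    have e : ∀ n : ℕ, n ≠ 0 → (ContinuousLinearMap.apply ℝ (E × ℝ) p)
        (((n.factorial : ℝ)⁻¹) • T ^ n) = 0 := by
      intro n hn
      obtain ⟨m, rfl⟩ := Nat.exists_eq_succ_of_ne_zero hn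
      show ((m.succ.factorial : ℝ)⁻¹) • (T ^ (m + 1)) p = 0
      rw [pow_succ]
      show ((m.succ.factorial : ℝ)⁻¹) • (T ^ m) (T p) = 0
      rw [h, map_zero, smul_zero]
    have e0 : (ContinuousLinearMap.apply ℝ (E × ℝ) p) (((Nat.factorial 0 : ℝ)⁻¹) • T ^ 0) = p := by
      show ((Nat.factorial 0 : ℝ)⁻¹) • (T ^ 0) p = p
      simp
    have h4 := hasSum_single (f := fun n : ℕ => (ContinuousLinearMap.apply ℝ (E × ℝ) p)
      (((n.factorial : ℝ)⁻¹) • T ^ n)) 0 e
    rwa [e0] at h4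
  exact h2.unique h3

end flw

section dev

variable {Γ X E : Type} [Group Γ] [MulAction Γ X] [NormedAddCommGroup E]
  [NormedSpace ℝ E] [FiniteDimensional ℝ E] {dev : X → E} {k : ℕ}

theorem rep_dev {hol : Γ →* (E →ᵃ[ℝ] E)} (D : ConvData dev fun γ => hol γ) (γ : Γ) (x : X) :
    rep hol γ (dev x, 1) = (dev (γ • x), 1) := by
  show hatL (hol γ) (dev x, 1) = _
  rw [hatL_apply, D.equi]

/-- a flow which commutes with a cocompact group preserves the convex set -/
theorem flow_pres_of_comm (hol : Γ →* (E →ᵃ[ℝ] E)) (D : ConvData dev fun γ => hol γ)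
    (hopen : IsOpen (range dev))
    (hcc : ∃ K : Set E, IsCompact K ∧ K ⊆ range dev ∧ ∀ x, ∃ γ : Γ, dev (γ • x) ∈ K)
    (B : Fin k → ((E × ℝ) →L[ℝ] (E × ℝ))) (hB : ∀ i p, (B i p).2 = 0)
    (hBc : ∀ i j, Commute (B i) (B j)) (hcomm : ∀ (γ : Γ) i, Commute (rep hol γ) (B i)) :
    ∀ s, ∀ v ∈ range dev, flow B s v ∈ range dev := by
  apply flow_pres_of_nhds B hB hBc
  obtain ⟨K, hK, hKr, hc⟩ := hcc
  have h1 : ∀ᶠ s in 𝓝 (0 : Fin k → ℝ), ∀ v ∈ K, flow B s v ∈ range dev := by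
    apply hK.eventually_forall_of_forall_eventually
    intro v hv
    have h2 := (flow_cont B).tendsto ((0 : Fin k → ℝ), v)
    have h3 : range dev ∈ 𝓝 (flow B 0 v) := by
      rw [flow_zero]
      exact hopen.mem_nhds (hKr hv)
    exact h2 h3
  filter_upwards [h1] with s hs
  rintro _ ⟨x, rfl⟩
  obtain ⟨γ, hγ⟩ := hc x
  obtain ⟨y, hy⟩ := hs _ hγ
  refine ⟨γ⁻¹ • y, ?_⟩
  have h2 : Commute (rep hol γ⁻¹) (exp (vecL B s)) := by
    let := NormedAlgebra.restrictScalars ℚ ℝ ((E × ℝ) →L[ℝ] (E × ℝ))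
    apply Commute.exp_right
    rw [vecL_apply]
    exact Commute.sum_right _ _ _ fun i _ => (hcomm γ⁻¹ i).smul_right _
  have h3 : rep hol γ⁻¹ (exp (vecL B s) (dev (γ • x), 1)) =
      exp (vecL B s) (rep hol γ⁻¹ (dev (γ • x), 1)) :=
    congrArg (fun T : (E × ℝ) →L[ℝ] (E × ℝ) => T (dev (γ • x), 1)) h2.eq
  rw [flow_eq B hB, ← hy, rep_dev D, rep_dev D, inv_smul_smul, flow_eq B hB] at h3
  exact congrArg Prod.fst h3

/-- the lattice of a vector group and a free abelian group -/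
theorem key_lat (hol : Γ →* (E →ᵃ[ℝ] E)) {r : ℕ} (φ : Multiplicative (Fin r → ℤ) →* Γ)
    (M : Fin r → ℕ) (b : Fin r → ((E × ℝ) →L[ℝ] (E × ℝ))) (hbc : ∀ i j, Commute (b i) (b j))
    (hb : ∀ i, rep hol (φ (Multiplicative.ofAdd (Pi.single i 1)) ^ M i) = exp (b i)) :
    ∀ m : Fin r → ℤ, rep hol (φ (Multiplicative.ofAdd fun i => (M i : ℤ) * m i)) =
      exp (vecL b fun i => (m i : ℝ)) := by
  let L : AddSubgroup (Fin r → ℤ) :=
    { carrier := {m | rep hol (φ (Multiplicative.ofAdd fun i => (M i : ℤ) * m i)) =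
        exp (vecL b fun i => (m i : ℝ))}
      zero_mem' := by
        show rep hol (φ (Multiplicative.ofAdd fun i => (M i : ℤ) * (0 : ℤ))) =
          exp (vecL b fun i => ((0 : ℤ) : ℝ))
        have e1 : (fun i : Fin r => (M i : ℤ) * (0 : ℤ)) = 0 := by
          funext i
          simp
        have e2 : (fun _ : Fin r => ((0 : ℤ) : ℝ)) = 0 := by
          funext i
          simp
        rw [e1, e2, ofAdd_zero, map_one, map_one, map_zero, exp_zero]
      add_mem' := by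
        intro m m' hm hm'
        have hm1 : rep hol (φ (Multiplicative.ofAdd fun i => (M i : ℤ) * m i)) =
          exp (vecL b fun i => (m i : ℝ)) := hm
        have hm2 : rep hol (φ (Multiplicative.ofAdd fun i => (M i : ℤ) * m' i)) =
          exp (vecL b fun i => (m' i : ℝ)) := hm'
        show rep hol (φ (Multiplicative.ofAdd fun i => (M i : ℤ) * (m i + m' i))) =
          exp (vecL b fun i => ((m i + m' i : ℤ) : ℝ))
        have e1 : (fun i : Fin r => (M i : ℤ) * (m i + m' i)) =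
            (fun i => (M i : ℤ) * m i) + fun i => (M i : ℤ) * m' i := by
          funext i
          simp [mul_add]
        have e2 : (fun i : Fin r => ((m i + m' i : ℤ) : ℝ)) =
            (fun i => (m i : ℝ)) + fun i => (m' i : ℝ) := by
          funext i
          simp
        rw [e1, e2, ofAdd_add, map_mul, map_mul, hm1, hm2, map_add,
          exp_add' (vecL_comm b hbc _ _)]
      neg_mem' := by
        intro m hm
        have hm1 : rep hol (φ (Multiplicative.ofAdd fun i => (M i : ℤ) * m i)) =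
          exp (vecL b fun i => (m i : ℝ)) := hm
        show rep hol (φ (Multiplicative.ofAdd fun i => (M i : ℤ) * (-m i))) =
          exp (vecL b fun i => ((-m i : ℤ) : ℝ))
        have e1 : (fun i : Fin r => (M i : ℤ) * (-m i)) = -(fun i => (M i : ℤ) * m i) := by
          funext i
          simp
        have e2 : (fun i : Fin r => ((-m i : ℤ) : ℝ)) = -(fun i => (m i : ℝ)) := by
          funext i
          simp
        rw [e1, e2, ofAdd_neg, map_inv, map_neg]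
        have h1 : rep hol (φ (Multiplicative.ofAdd fun i => (M i : ℤ) * m i))⁻¹ *
            rep hol (φ (Multiplicative.ofAdd fun i => (M i : ℤ) * m i)) = 1 := by
          rw [← map_mul, inv_mul_cancel, map_one]
        have h2 : rep hol (φ (Multiplicative.ofAdd fun i => (M i : ℤ) * m i)) *
            exp (-(vecL b fun i => (m i : ℝ))) = 1 := by
          rw [hm1]
          exact exp_mul_neg' _
        exact left_inv_eq_right_inv h1 h2 }
  intro m
  have hm : m ∈ L := by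
    have e : m = ∑ i, m i • (Pi.single i (1 : ℤ) : Fin r → ℤ) := by
      funext j
      simp [Finset.sum_apply, Pi.single_apply]
    rw [e]
    refine L.sum_mem fun i _ => L.zsmul_mem ?_ _
    show rep hol (φ (Multiplicative.ofAdd fun j => (M j : ℤ) * (Pi.single i (1 : ℤ) :
      Fin r → ℤ) j)) = exp (vecL b fun j => (((Pi.single i (1 : ℤ) : Fin r → ℤ) j : ℤ) : ℝ))
    have e1 : (Multiplicative.ofAdd fun j => (M j : ℤ) * (Pi.single i (1 : ℤ) :
        Fin r → ℤ) j) = (Multiplicative.ofAdd (Pi.single i (1 : ℤ) : Fin r → ℤ)) ^ M i := by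
      rw [← ofAdd_nsmul]
      congr 1
      funext j
      rcases eq_or_ne j i with rfl | hj
      · simp
      · simp [hj]
    rw [e1, map_pow, hb, vecL_apply]
    congr 1
    simp [Pi.single_apply]
  exact hm

/-- the fixed points of a vector group with a lattice in `Γ` -/
theorem ind_dev (hol : Γ →* (E →ᵃ[ℝ] E)) (D : ConvData dev fun γ => hol γ)
    (hpd : ∀ K : Set E, IsCompact K → K ⊆ range dev →
      {γ : Γ | ∃ x, dev x ∈ K ∧ dev (γ • x) ∈ K}.Finite)
    (B : Fin k → ((E × ℝ) →L[ℝ] (E × ℝ))) (hB : ∀ i p, (B i p).2 = 0)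
    (hBc : ∀ i j, Commute (B i) (B j))
    (hX : ∀ s, ∀ v ∈ range dev, flow B s v ∈ range dev) (γ : (Fin k → ℤ) → Γ)
    (hγ : ∀ m, rep hol (γ m) = exp (vecL B fun i => (m i : ℝ))) (hinj : Function.Injective γ)
    (x : X) (s : Fin k → ℝ) (hs : vecL B s (dev x, 1) = 0) : s = 0 := by
  by_contra hs0
  obtain ⟨i₀, hi₀⟩ : ∃ i, s i ≠ 0 := by
    by_contra hcon
    push Not at hcon
    exact hs0 (funext hcon)
  set Q : Set E := (fun r : Fin k → ℝ => flow B (-r) (dev x)) '' cube k with hQ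
  have hQc : IsCompact Q := by
    refine (isCompact_Icc : IsCompact (Icc (0 : Fin k → ℝ) 1)).image ?_
    exact (flow_cont B).comp (continuous_neg.prodMk continuous_const)
  have hQr : Q ∪ {dev x} ⊆ range dev := by
    rintro v (⟨r, _, rfl⟩ | hv)
    · exact hX _ _ ⟨x, rfl⟩
    · rw [mem_singleton_iff] at hv
      exact ⟨x, hv.symm⟩
  have hfin := hpd (Q ∪ {dev x}) (hQc.union isCompact_singleton) hQr
  -- multiples of `s` do not move `x`
  have hfix : ∀ t : ℝ, flow B (t • s) (dev x) = dev x := by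
    intro t
    show (exp (vecL B (t • s)) (dev x, 1)).1 = dev x
    rw [exp_fix]
    rw [map_smul]
    show t • vecL B s (dev x, 1) = 0
    rw [hs, smul_zero]
  have hmem : ∀ t : ℕ, γ (fun i => ⌊(t : ℝ) * s i⌋) ∈
      {γ : Γ | ∃ y, dev y ∈ Q ∪ {dev x} ∧ dev (γ • y) ∈ Q ∪ {dev x}} := by
    intro t
    refine ⟨x, Or.inr rfl, Or.inl ⟨fun i => Int.fract ((t : ℝ) * s i),
      ⟨fun i => Int.fract_nonneg _, fun i => (Int.fract_lt_one _).le⟩, ?_⟩⟩
    have h1 := hγ fun i => ⌊(t : ℝ) * s i⌋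
    have h2 := rep_dev D (γ fun i => ⌊(t : ℝ) * s i⌋) x
    rw [h1, flow_eq B hB] at h2
    have h3 : (fun i => ((⌊(t : ℝ) * s i⌋ : ℤ) : ℝ)) =
        -(fun i => Int.fract ((t : ℝ) * s i)) + (t : ℝ) • s := by
      funext i
      show ((⌊(t : ℝ) * s i⌋ : ℤ) : ℝ) = -(Int.fract ((t : ℝ) * s i)) + (t : ℝ) * s i
      have := Int.fract_add_floor ((t : ℝ) * s i)
      linarith
    rw [h3, flow_add B hB hBc, hfix] at h2
    exact congrArg Prod.fst h2
  -- finitely many integral vectors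
  have hfin2 : (range fun t : ℕ => ⌊(t : ℝ) * s i₀⌋).Finite := by
    have h1 : (range fun t : ℕ => fun i => ⌊(t : ℝ) * s i⌋).Finite := by
      refine Set.Finite.of_finite_image (f := γ) (hfin.subset ?_) ?_
      · rintro _ ⟨_, ⟨t, rfl⟩, rfl⟩
        exact hmem t
      · intro m _ m' _ h
        exact hinj h
    refine (h1.image fun m => m i₀).subset ?_
    rintro _ ⟨t, rfl⟩
    exact ⟨_, ⟨t, rfl⟩, rfl⟩
  obtain ⟨b, hb⟩ := hfin2.bddAbove
  obtain ⟨b', hb'⟩ := hfin2.bddBelow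
  rcases lt_or_gt_of_ne hi₀ with h | h
  · obtain ⟨t, ht⟩ := exists_nat_gt ((b' : ℝ) / s i₀)
    rw [div_lt_iff_of_neg h] at ht
    have h1 : b' ≤ ⌊(t : ℝ) * s i₀⌋ := hb' ⟨t, rfl⟩
    have h2 := Int.le_floor.1 h1
    linarith
  · obtain ⟨t, ht⟩ := exists_nat_gt (((b : ℝ) + 1) / s i₀)
    rw [div_lt_iff₀ h] at ht
    have h1 : ⌊(t : ℝ) * s i₀⌋ ≤ b := hb ⟨t, rfl⟩
    have h2 := Int.lt_floor_add_one ((t : ℝ) * s i₀)
    have h3 : ((⌊(t : ℝ) * s i₀⌋ : ℤ) : ℝ) ≤ (b : ℝ) := by exact_mod_cast h1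
    linarith

theorem exists_compact_dev_sub (hol : Γ →* (E →ᵃ[ℝ] E)) (D : ConvData dev fun γ => hol γ)
    (hcc : ∃ K : Set E, IsCompact K ∧ K ⊆ range dev ∧ ∀ x, ∃ γ : Γ, dev (γ • x) ∈ K)
    (H : Subgroup Γ) [Finite (Γ ⧸ H)] :
    ∃ K : Set E, IsCompact K ∧ K ⊆ range dev ∧ ∀ x, ∃ γ : H, dev (γ • x) ∈ K := by
  obtain ⟨K, hK, hKr, h⟩ := hcc
  refine ⟨⋃ q : Γ ⧸ H, (hol (q.out⁻¹ : Γ)) '' K,
    isCompact_iUnion fun q => hK.image (hol _).continuous_of_finiteDimensional, ?_, fun x => ?_⟩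
  · refine iUnion_subset fun q => ?_
    rintro _ ⟨v, hv, rfl⟩
    obtain ⟨x, rfl⟩ := hKr hv
    exact ⟨(q.out⁻¹ : Γ) • x, D.equi _ _⟩
  · obtain ⟨γ, hγ⟩ := h x
    have h1 : ((γ : Γ ⧸ H).out⁻¹ : Γ) * γ ∈ H := by
      rw [← QuotientGroup.eq, QuotientGroup.out_eq']
    refine ⟨⟨_, h1⟩, mem_iUnion.2 ⟨(γ : Γ ⧸ H), dev (γ • x), hγ, ?_⟩⟩
    show hol ((γ : Γ ⧸ H).out⁻¹ : Γ) (dev (γ • x)) =
      dev ((((γ : Γ ⧸ H).out⁻¹ : Γ) * γ) • x)
    rw [mul_smul, ← D.equi]

end dev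

end Pool.Agent.Helper63.SV
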