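import Pool.Agent.Helper63.SV.Cells

/-!
Project SV (helper63): invariant Lipschitz functions for a group acting properly discontinuously on
a convex set, normalizing a vector group.
-/

set_option autoImplicit false

open Set Metric Filter Topology

namespace Pool.Agent.Helper63.SV

/-- the unit cube -/
def cube (k : ℕ) : Set (Fin k → ℝ) := Icc 0 1

theorem exists_cube {k : ℕ} (s : Fin k → ℝ) :
    ∃ m : Fin k → ℤ, ∃ r ∈ cube k, s = r + fun i => (m i : ℝ) := by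
  refine ⟨fun i => ⌊s i⌋, fun i => Int.fract (s i), ⟨fun i => Int.fract_nonneg _,
    fun i => (Int.fract_lt_one _).le⟩, ?_⟩
  funext i
  exact (Int.fract_add_floor (s i)).symm

theorem exists_pos_le_of_finite {ι : Type*} {S : Set ι} (hS : S.Finite) (f : ι → ℝ)
    (hf : ∀ i ∈ S, 0 < f i) : ∃ ρ : ℝ, 0 < ρ ∧ ∀ i ∈ S, ρ ≤ f i := by
  induction S, hS using Set.Finite.induction_on with
  | empty => exact ⟨1, one_pos, fun i hi => absurd hi (notMem_empty i)⟩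
  | @insert a s _ _ ih =>
    obtain ⟨ρ, h1, h2⟩ := ih fun i hi => hf i (mem_insert_of_mem _ hi)
    refine ⟨min ρ (f a), lt_min h1 (hf a (mem_insert _ _)), ?_⟩
    rintro i (rfl | hi)
    · exact min_le_right _ _
    · exact (min_le_left _ _).trans (h2 i hi)

/-- A group `Γ` acts on a convex subset of `E`, freely, properly discontinuously and cocompactly, by
affine maps, and normalizes an action `β` of a vector group by affine maps `α`, such that the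
integral points of the vector group act as elements of `Γ`. Near every point there are slices of
dimension less than `n` for the vector group. -/
structure Geo {Γ X E : Type} [Group Γ] [MulAction Γ X] [NormedAddCommGroup E]
    [NormedSpace ℝ E] (k n : ℕ) (dev : X → E) (g : Γ → (E →ᵃ[ℝ] E))
    (α : (Fin k → ℝ) → E → E) (β : (Fin k → ℝ) → X → X) : Prop where
  cd : ConvData dev g
  free : ∀ (γ : Γ) (x : X), γ • x = x → γ = 1
  pd : ∀ K : Set E, IsCompact K → K ⊆ range dev → {γ : Γ | ∃ x, dev x ∈ K ∧ dev (γ • x) ∈ K}.Finite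
  cc : ∃ K : Set E, IsCompact K ∧ K ⊆ range dev ∧ ∀ x, ∃ γ : Γ, dev (γ • x) ∈ K
  lc : ∀ x, ∃ ρ : ℝ, 0 < ρ ∧ IsCompact (closedBall (dev x) ρ ∩ range dev)
  dev_β : ∀ s x, dev (β s x) = α s (dev x)
  β_zero : ∀ x, β 0 x = x
  β_add : ∀ s t x, β (s + t) x = β s (β t x)
  nrm : ∀ (γ : Γ) s, ∃ s', ∀ x, γ • β s x = β s' (γ • x)
  lat : ∀ m : Fin k → ℤ, ∃ γ : Γ, ∀ x, γ • x = β (fun i => (m i : ℝ)) x
  αcont : Continuous fun q : (Fin k → ℝ) × E => α q.1 q.2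
  αlip : ∃ C : ℝ, ∀ r ∈ cube k, ∀ v w, ‖α r v - α r w‖ ≤ C * ‖v - w‖
  slice : ∀ x, ∃ C : Submodule ℝ E, Module.finrank ℝ C < n ∧ ∀ r : ℝ, 0 < r → ∃ ε : ℝ, 0 < ε ∧
    ∀ y, ‖dev y - dev x‖ < ε → ∃ s y', y = β s y' ∧ dev y' - dev x ∈ C ∧ ‖dev y' - dev x‖ < r

section geo

variable {Γ X E : Type} [Group Γ] [MulAction Γ X] [NormedAddCommGroup E]
  [NormedSpace ℝ E] [FiniteDimensional ℝ E] {k n : ℕ} {dev : X → E} {g : Γ → (E →ᵃ[ℝ] E)}
  {α : (Fin k → ℝ) → E → E} {β : (Fin k → ℝ) → X → X}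

theorem aff_lip (f : E →ᵃ[ℝ] E) : ∃ C : ℝ, 0 ≤ C ∧ ∀ v w, ‖f v - f w‖ ≤ C * ‖v - w‖ := by
  refine ⟨‖LinearMap.toContinuousLinearMap f.linear‖, norm_nonneg _, fun v w => ?_⟩
  have h : f v - f w = f.linear (v - w) := (f.linearMap_vsub v w).symm
  rw [h]
  exact (LinearMap.toContinuousLinearMap f.linear).le_opNorm (v - w)

omit [FiniteDimensional ℝ E] in
theorem Geo.β_neg (G : Geo k n dev g α β) (s : Fin k → ℝ) (x : X) : β (-s) (β s x) = x := by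
  rw [← G.β_add, neg_add_cancel, G.β_zero]

omit [FiniteDimensional ℝ E] in
theorem Geo.β_neg' (G : Geo k n dev g α β) (s : Fin k → ℝ) (x : X) : β s (β (-s) x) = x := by
  rw [← G.β_add, add_neg_cancel, G.β_zero]

omit [FiniteDimensional ℝ E] in
/-- reduction modulo the lattice -/
theorem Geo.red (G : Geo k n dev g α β) (s : Fin k → ℝ) : ∃ r ∈ cube k, ∃ a : Γ,
    (∃ m : Fin k → ℤ, ∀ x, a • x = β (fun i => (m i : ℝ)) x) ∧
    ∀ (γ : Γ) x, β s (γ • x) = β r ((a * γ) • x) := by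
  obtain ⟨m, r, hr, hs⟩ := exists_cube s
  obtain ⟨a, ha⟩ := G.lat m
  refine ⟨r, hr, a, ⟨m, ha⟩, fun γ x => ?_⟩
  rw [mul_smul, ha, ← G.β_add, ← hs]

omit [FiniteDimensional ℝ E] in
theorem Geo.finA (G : Geo k n dev g α β) {K B : Set E} (hK : IsCompact K) (hKr : K ⊆ range dev)
    (hB : IsCompact B) (hBr : B ⊆ range dev) :
    {γ : Γ | ∃ x, dev x ∈ K ∧ ∃ r ∈ cube k, dev (β r (γ • x)) ∈ B}.Finite := by
  set K' : Set E := (fun q : (Fin k → ℝ) × E => α q.1 q.2) '' (Icc (-1) 0 ×ˢ B) with hK'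
  have h1 : IsCompact K' := (isCompact_Icc.prod hB).image G.αcont
  have h2 : K' ⊆ range dev := by
    rintro _ ⟨⟨s, v⟩, ⟨_, hv⟩, rfl⟩
    obtain ⟨x, rfl⟩ := hBr hv
    exact ⟨β s x, G.dev_β s x⟩
  refine (G.pd (K ∪ K') (hK.union h1) (union_subset hKr h2)).subset ?_
  rintro γ ⟨x, hx, r, hr, hB'⟩
  refine ⟨x, Or.inl hx, Or.inr ⟨(-r, dev (β r (γ • x))), ⟨⟨?_, ?_⟩, hB'⟩, ?_⟩⟩
  · exact fun i => neg_le_neg (hr.2 i)
  · intro i
    have := hr.1 i
    show -(r i) ≤ 0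
    have h0 : (0 : ℝ) ≤ r i := this
    linarith
  · show α (-r) (dev (β r (γ • x))) = _
    rw [← G.dev_β, G.β_neg]

/-- bump functions -/
noncomputable def psi (c : E) (ρ : ℝ) (v : E) : ℝ := max 0 (1 - ‖v - c‖ / ρ)

omit [NormedSpace ℝ E] [FiniteDimensional ℝ E] in
theorem psi_nonneg (c : E) (ρ : ℝ) (v : E) : 0 ≤ psi c ρ v := le_max_left _ _

omit [NormedSpace ℝ E] [FiniteDimensional ℝ E] in
theorem psi_le_one (c : E) {ρ : ℝ} (hρ : 0 < ρ) (v : E) : psi c ρ v ≤ 1 := by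
  refine max_le zero_le_one ?_
  have : 0 ≤ ‖v - c‖ / ρ := by positivity
  linarith

omit [NormedSpace ℝ E] [FiniteDimensional ℝ E] in
theorem psi_pos (c : E) {ρ : ℝ} (hρ : 0 < ρ) (v : E) : 0 < psi c ρ v ↔ ‖v - c‖ < ρ := by
  unfold psi
  rw [lt_max_iff, sub_pos, div_lt_one hρ]
  simp

omit [NormedSpace ℝ E] [FiniteDimensional ℝ E] in
theorem psi_lip (c : E) {ρ : ℝ} (hρ : 0 < ρ) (v w : E) :
    psi c ρ v ≤ psi c ρ w + ‖v - w‖ / ρ := by
  unfold psi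
  have h1 : ‖w - c‖ ≤ ‖v - w‖ + ‖v - c‖ := by
    have : w - c = (w - v) + (v - c) := by abel
    rw [this, ← norm_neg (v - w), neg_sub]
    exact norm_add_le _ _
  have h2 : ‖w - c‖ / ρ ≤ ‖v - w‖ / ρ + ‖v - c‖ / ρ := by
    rw [← add_div]
    gcongr
  have h3 : 0 ≤ ‖v - w‖ / ρ := by positivity
  refine max_le ?_ ?_
  · exact add_nonneg (le_max_left _ _) h3
  · have := le_max_right 0 (1 - ‖w - c‖ / ρ)
    linarith

variable (Γ dev β) in
/-- invariant bump functions -/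
noncomputable def Phi (c : E) (ρ : ℝ) (x : X) : ℝ :=
  ⨆ q : (Fin k → ℝ) × Γ, psi c ρ (dev (β q.1 (q.2 • x)))

omit [NormedSpace ℝ E] [FiniteDimensional ℝ E] in
theorem Phi_bdd (c : E) {ρ : ℝ} (hρ : 0 < ρ) (x : X) :
    BddAbove (range fun q : (Fin k → ℝ) × Γ => psi c ρ (dev (β q.1 (q.2 • x)))) :=
  ⟨1, by rintro _ ⟨q, rfl⟩; exact psi_le_one c hρ _⟩

omit [NormedSpace ℝ E] [FiniteDimensional ℝ E] in
theorem psi_le_Phi (c : E) {ρ : ℝ} (hρ : 0 < ρ) (x : X) (s : Fin k → ℝ) (γ : Γ) :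
    psi c ρ (dev (β s (γ • x))) ≤ Phi Γ dev β c ρ x :=
  le_ciSup (Phi_bdd c hρ x) (s, γ)

omit [NormedSpace ℝ E] [FiniteDimensional ℝ E] in
theorem Phi_le (c : E) (ρ : ℝ) (x : X) (t : ℝ)
    (h : ∀ (s : Fin k → ℝ) (γ : Γ), psi c ρ (dev (β s (γ • x))) ≤ t) :
    Phi Γ dev β c ρ x ≤ t := ciSup_le fun q => h q.1 q.2

omit [NormedSpace ℝ E] [FiniteDimensional ℝ E] in
theorem Phi_nonneg (c : E) {ρ : ℝ} (hρ : 0 < ρ) (x : X) : 0 ≤ Phi Γ dev β c ρ x :=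
  (psi_nonneg _ _ _).trans (psi_le_Phi c hρ x 0 (1 : Γ))

omit [NormedSpace ℝ E] [FiniteDimensional ℝ E] in
theorem exists_of_lt_Phi (c : E) (ρ : ℝ) (x : X) (t : ℝ) (h : t < Phi Γ dev β c ρ x) :
    ∃ (s : Fin k → ℝ) (γ : Γ), t < psi c ρ (dev (β s (γ • x))) := by
  obtain ⟨q, hq⟩ := exists_lt_of_lt_ciSup h
  exact ⟨q.1, q.2, hq⟩

omit [NormedSpace ℝ E] [FiniteDimensional ℝ E] in
theorem Phi_smul (c : E) {ρ : ℝ} (hρ : 0 < ρ) (x : X) (δ : Γ) :
    Phi Γ dev β c ρ (δ • x) = Phi Γ dev β c ρ x := by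
  have h : ∀ (x : X) (δ : Γ), Phi Γ dev β c ρ (δ • x) ≤ Phi Γ dev β c ρ x := by
    intro x δ
    refine Phi_le _ _ _ _ fun s γ => ?_
    rw [← mul_smul]
    exact psi_le_Phi c hρ x s (γ * δ)
  refine le_antisymm (h x δ) ?_
  have := h (δ • x) δ⁻¹
  rwa [inv_smul_smul] at this

omit [FiniteDimensional ℝ E] in
theorem Geo.Phi_β (G : Geo k n dev g α β) (c : E) {ρ : ℝ} (hρ : 0 < ρ) (x : X) (s : Fin k → ℝ) :
    Phi Γ dev β c ρ (β s x) = Phi Γ dev β c ρ x := by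
  have h : ∀ (x : X) (s : Fin k → ℝ), Phi Γ dev β c ρ (β s x) ≤ Phi Γ dev β c ρ x := by
    intro x s
    refine Phi_le _ _ _ _ fun t γ => ?_
    obtain ⟨s', hs'⟩ := G.nrm γ s
    rw [hs', ← G.β_add]
    exact psi_le_Phi c hρ x _ γ
  refine le_antisymm (h x s) ?_
  have := h (β s x) (-s)
  rwa [G.β_neg] at this

/-- the invariant bump functions are locally Lipschitz -/
theorem Geo.Phi_lip (G : Geo k n dev g α β) (c : E) {ρ : ℝ} (hρ : 0 < ρ)
    (hc : IsCompact (closedBall c ρ ∩ range dev)) (x₀ : X) :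
    ∃ r C : ℝ, 0 < r ∧ 0 ≤ C ∧ ∀ x x', ‖dev x - dev x₀‖ < r → ‖dev x' - dev x₀‖ < r →
      |Phi Γ dev β c ρ x - Phi Γ dev β c ρ x'| ≤ C * ‖dev x - dev x'‖ := by
  obtain ⟨r, hr, hrc⟩ := G.lc x₀
  have hfin := G.finA hrc inter_subset_right hc inter_subset_right
  obtain ⟨Cα, hCα⟩ := G.αlip
  choose Cg hCg0 hCg using fun γ : Γ => aff_lip (g γ)
  obtain ⟨Cb, hCb⟩ : ∃ Cb : ℝ, ∀ γ ∈ {γ : Γ | ∃ x, dev x ∈ closedBall (dev x₀) r ∩ range dev ∧
      ∃ r ∈ cube k, dev (β r (γ • x)) ∈ closedBall c ρ ∩ range dev}, Cg γ ≤ Cb := by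
    obtain ⟨Cb, hCb⟩ := (hfin.image Cg).bddAbove
    exact ⟨Cb, fun γ hγ => hCb ⟨γ, hγ, rfl⟩⟩
  refine ⟨r, |Cα| * |Cb| / ρ, hr, by positivity, ?_⟩
  have key : ∀ x x', ‖dev x - dev x₀‖ < r →
      Phi Γ dev β c ρ x ≤ Phi Γ dev β c ρ x' + |Cα| * |Cb| / ρ * ‖dev x - dev x'‖ := by
    intro x x' hx
    refine Phi_le _ _ _ _ fun s γ => ?_
    rcases (psi_nonneg c ρ (dev (β s (γ • x)))).eq_or_lt' with h0 | h0
    · rw [h0]
      exact add_nonneg (Phi_nonneg c hρ x') (by positivity)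
    · obtain ⟨r', hr', a, _, ha⟩ := G.red s
      rw [ha] at h0 ⊢
      have h1 : (a * γ) ∈ {γ : Γ | ∃ x, dev x ∈ closedBall (dev x₀) r ∩ range dev ∧
          ∃ r ∈ cube k, dev (β r (γ • x)) ∈ closedBall c ρ ∩ range dev} := by
        refine ⟨x, ⟨?_, ⟨x, rfl⟩⟩, r', hr', ⟨?_, ⟨_, rfl⟩⟩⟩
        · rw [mem_closedBall, dist_eq_norm]
          exact hx.le
        · rw [mem_closedBall, dist_eq_norm]
          exact ((psi_pos c hρ _).1 h0).le
      refine (psi_lip c hρ _ (dev (β r' ((a * γ) • x')))).trans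
        (add_le_add (psi_le_Phi c hρ x' r' (a * γ)) ?_)
      rw [div_mul_eq_mul_div]
      gcongr
      rw [G.dev_β, G.dev_β]
      refine (hCα r' hr' _ _).trans ?_
      rw [mul_assoc]
      refine mul_le_mul (le_abs_self _) ?_ (norm_nonneg _) (abs_nonneg _)
      rw [G.cd.equi, G.cd.equi]
      refine (hCg _ _ _).trans ?_
      gcongr
      exact (hCb _ h1).trans (le_abs_self _)
  intro x x' hx hx'
  rw [abs_le]
  have h1 := key x x' hx
  have h2 := key x' x hx'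
  rw [← norm_neg (dev x' - dev x), neg_sub] at h2
  constructor <;> linarith

/-- the stabilizer of an orbit of the vector group -/
def Geo.stab (G : Geo k n dev g α β) (x₀ : X) : Subgroup Γ where
  carrier := {γ | ∃ s, γ • x₀ = β s x₀}
  one_mem' := ⟨0, by rw [one_smul, G.β_zero]⟩
  mul_mem' := by
    rintro γ δ ⟨s, hs⟩ ⟨t, ht⟩
    obtain ⟨t', ht'⟩ := G.nrm γ t
    exact ⟨t' + s, by rw [mul_smul, ht, ht', hs, ← G.β_add]⟩
  inv_mem' := by
    rintro γ ⟨s, hs⟩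
    obtain ⟨s', hs'⟩ := G.nrm γ⁻¹ s
    refine ⟨-s', ?_⟩
    have h1 := hs' x₀
    rw [← hs, inv_smul_smul] at h1
    have h2 := congrArg (β (-s')) h1
    rw [G.β_neg] at h2
    exact h2.symm

omit [FiniteDimensional ℝ E] in
theorem Geo.mem_stab (G : Geo k n dev g α β) (x₀ : X) (γ : Γ) :
    γ ∈ G.stab x₀ ↔ ∃ s, γ • x₀ = β s x₀ := Iff.rfl

/-- small tubes around the orbits of the vector group -/
theorem Geo.tube (G : Geo k n dev g α β) (x₀ : X) : ∃ ρ₀ : ℝ, 0 < ρ₀ ∧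
    IsCompact (closedBall (dev x₀) ρ₀ ∩ range dev) ∧
    ∀ x s s' (γ γ' : Γ), ‖dev (β s (γ • x)) - dev x₀‖ < ρ₀ →
      ‖dev (β s' (γ' • x)) - dev x₀‖ < ρ₀ → γ' * γ⁻¹ ∈ G.stab x₀ := by
  obtain ⟨R, hR, hRc⟩ := G.lc x₀
  have hfin := G.finA hRc inter_subset_right hRc inter_subset_right
  obtain ⟨Cα, hCα⟩ := G.αlip
  choose Cg hCg0 hCg using fun γ : Γ => aff_lip (g γ)
  -- one element
  have hone : ∀ δ : Γ, δ ∉ G.stab x₀ → ∃ ε : ℝ, 0 < ε ∧ ∀ r ∈ cube k, ∀ y,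
      ‖dev y - dev x₀‖ < ε → ε ≤ ‖dev (β r (δ • y)) - dev x₀‖ := by
    intro δ hδ
    have hcomp : IsCompact ((fun r : Fin k → ℝ => α r (dev (δ • x₀))) '' cube k) :=
      (isCompact_Icc : IsCompact (Icc (0 : Fin k → ℝ) 1)).image
        (G.αcont.comp (continuous_id.prodMk continuous_const))
    have hnot : dev x₀ ∉ (fun r : Fin k → ℝ => α r (dev (δ • x₀))) '' cube k := by
      rintro ⟨r, hr, h⟩
      have h' : α r (dev (δ • x₀)) = dev x₀ := h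
      rw [← G.dev_β] at h'
      have h1 := G.cd.inj h'
      apply hδ
      refine ⟨-r, ?_⟩
      rw [← G.β_neg r (δ • x₀), h1]
    obtain ⟨η, hη, hη'⟩ := Metric.mem_nhds_iff.1 (hcomp.isClosed.isOpen_compl.mem_nhds hnot)
    have hpos : 0 < |Cα| * Cg δ + 1 := by
      have := hCg0 δ
      positivity
    refine ⟨η / (|Cα| * Cg δ + 1), by positivity, fun r hr y hy => ?_⟩
    by_contra hcon
    push Not at hcon
    have h1 : ‖α r (dev (δ • x₀)) - dev x₀‖ < η := by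
      have e : α r (dev (δ • x₀)) - dev x₀ = (α r (dev (δ • x₀)) - α r (dev (δ • y))) +
          (dev (β r (δ • y)) - dev x₀) := by
        rw [G.dev_β]
        abel
      rw [e]
      refine (norm_add_le _ _).trans_lt ?_
      have h2 : ‖α r (dev (δ • x₀)) - α r (dev (δ • y))‖ ≤ |Cα| * Cg δ * ‖dev y - dev x₀‖ := by
        refine (hCα r hr _ _).trans ?_
        rw [mul_assoc]
        refine mul_le_mul (le_abs_self _) ?_ (norm_nonneg _) (abs_nonneg _)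
        rw [G.cd.equi, G.cd.equi, ← norm_neg (dev y - dev x₀), neg_sub]
        exact hCg _ _ _
      have h3 : |Cα| * Cg δ * ‖dev y - dev x₀‖ ≤ |Cα| * Cg δ * (η / (|Cα| * Cg δ + 1)) := by
        have := hCg0 δ
        gcongr
      calc _ < |Cα| * Cg δ * (η / (|Cα| * Cg δ + 1)) + η / (|Cα| * Cg δ + 1) :=
            add_lt_add_of_le_of_lt (h2.trans h3) hcon
        _ = η := by field_simp
    have h2 : α r (dev (δ • x₀)) ∈ ball (dev x₀) η := by
      rw [mem_ball, dist_eq_norm]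
      exact h1
    exact hη' h2 ⟨r, hr, rfl⟩
  choose! ε hε hε' using hone
  obtain ⟨ρ₁, hρ₁, hρ₁'⟩ : ∃ ρ₁ : ℝ, 0 < ρ₁ ∧ ∀ δ ∈ {γ : Γ | ∃ x, dev x ∈
      closedBall (dev x₀) R ∩ range dev ∧ ∃ r ∈ cube k,
      dev (β r (γ • x)) ∈ closedBall (dev x₀) R ∩ range dev}, δ ∉ G.stab x₀ → ρ₁ ≤ ε δ := by
    obtain ⟨ρ₁, h1, h2⟩ := exists_pos_le_of_finite hfin (fun δ => by
      classical exact if δ ∈ G.stab x₀ then 1 else ε δ) (by
        intro δ _
        by_cases h : δ ∈ G.stab x₀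
        · simp only [h, if_true, one_pos]
        · simp only [h, if_false]
          exact hε δ h)
    refine ⟨ρ₁, h1, fun δ hδ hδ' => (h2 δ hδ).trans ?_⟩
    simp only [hδ', if_false, le_refl]
  refine ⟨min R ρ₁, lt_min hR hρ₁, ?_, ?_⟩
  · have e : closedBall (dev x₀) (min R ρ₁) ∩ range dev =
        closedBall (dev x₀) (min R ρ₁) ∩ (closedBall (dev x₀) R ∩ range dev) := by
      rw [← inter_assoc, inter_eq_self_of_subset_left (closedBall_subset_closedBall (min_le_left _ _))]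
    rw [e]
    exact hRc.inter_left isClosed_closedBall
  · intro x s s' γ γ' h h'
    -- `y' = β t (δ • y)`
    obtain ⟨t, ht⟩ := G.nrm (γ' * γ⁻¹) (-s)
    have e1 : β s' (γ' • x) = β (s' + t) ((γ' * γ⁻¹) • β s (γ • x)) := by
      have e2 : γ' • x = (γ' * γ⁻¹) • β (-s) (β s (γ • x)) := by
        rw [G.β_neg, mul_smul, inv_smul_smul]
      rw [e2, ht, ← G.β_add]
    obtain ⟨r, hr, a, ⟨m, ham⟩, ha⟩ := G.red (s' + t)
    rw [e1, ha] at h'
    have hastab : a ∈ G.stab x₀ := ⟨_, ham x₀⟩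
    by_contra hcon
    have hcon' : a * (γ' * γ⁻¹) ∉ G.stab x₀ := by
      intro h2
      apply hcon
      have := (G.stab x₀).mul_mem ((G.stab x₀).inv_mem hastab) h2
      rwa [inv_mul_cancel_left] at this
    have hmem : a * (γ' * γ⁻¹) ∈ {γ : Γ | ∃ x, dev x ∈
        closedBall (dev x₀) R ∩ range dev ∧ ∃ r ∈ cube k,
        dev (β r (γ • x)) ∈ closedBall (dev x₀) R ∩ range dev} := by
      refine ⟨β s (γ • x), ⟨?_, ⟨_, rfl⟩⟩, r, hr, ⟨?_, ⟨_, rfl⟩⟩⟩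
      · rw [mem_closedBall, dist_eq_norm]
        exact (h.trans_le (min_le_left _ _)).le
      · rw [mem_closedBall, dist_eq_norm]
        exact (h'.trans_le (min_le_left _ _)).le
    have h3 := hρ₁' _ hmem hcon'
    have h4 := hε' _ hcon' r hr (β s (γ • x)) (h.trans_le ((min_le_right _ _).trans h3))
    exact absurd (h'.trans_le ((min_le_right _ _).trans h3)) (not_lt.2 h4)

end geo

end Pool.Agent.Helper63.SV
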