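import Pool.Agent.Helper63.SV.Mean

/-!
Project SV (helper63): groups generated by elements close to the identity modulo a solvable group.
-/

set_option autoImplicit false

open Set Metric Filter Topology

namespace Pool.Agent.Helper63.SV

open Pool.Agent.Helper240.Amen (InvHB)

section invHB

theorem invHB_of_equiv {G G' : Type} [Group G] [Group G'] (e : G ≃* G') (h : InvHB G) :
    InvHB G' := by
  intro E _ _ π p h1 h2 hp
  obtain ⟨m, hm1, hm2⟩ := h E (π.comp e.toMonoidHom) p h1 h2 (fun g x => hp _ _)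
  refine ⟨m, hm1, fun g x => ?_⟩
  have := hm2 (e.symm g) x
  simpa using this

/-- local criterion -/
theorem invHB_of_local {G : Type} [Group G] (T : Set G) (hT : Subgroup.closure T = ⊤)
    (h : ∀ S : Finset G, (S : Set G) ⊆ T → InvHB (Subgroup.closure (S : Set G))) : InvHB G := by
  classical
  intro E _ _ π p h1 h2 hp
  set K : Set (E → ℝ) := (Set.pi univ fun x => Icc (-p (-x)) (p x)) ∩
    {m | (∀ x y, m (x + y) = m x + m y) ∧ ∀ (c : ℝ) x, m (c • x) = c * m x} with hK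
  have hKc : IsCompact K := by
    refine (isCompact_univ_pi fun x => isCompact_Icc).inter_right ?_
    have e : {m : E → ℝ | (∀ x y, m (x + y) = m x + m y) ∧ ∀ (c : ℝ) x, m (c • x) = c * m x} =
        (⋂ x, ⋂ y, {m : E → ℝ | m (x + y) = m x + m y}) ∩
          ⋂ c : ℝ, ⋂ x, {m : E → ℝ | m (c • x) = c * m x} := by
      ext m
      simp only [mem_ofPred_eq, mem_inter_iff, mem_iInter]
    rw [e]
    refine IsClosed.inter (isClosed_iInter fun x => isClosed_iInter fun y => ?_)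
      (isClosed_iInter fun c => isClosed_iInter fun x => ?_)
    · exact isClosed_eq (continuous_apply _) ((continuous_apply x).add (continuous_apply y))
    · exact isClosed_eq (continuous_apply _) (continuous_const.mul (continuous_apply x))
  obtain ⟨m, hm, hm'⟩ := hKc.inter_iInter_nonempty
    (fun t : T => {m : E → ℝ | ∀ x, m (π (t : G) x) = m x}) (fun t => by
      have e : {m : E → ℝ | ∀ x, m (π (t : G) x) = m x} =
          ⋂ x, {m : E → ℝ | m (π (t : G) x) = m x} := by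
        ext m
        simp only [mem_ofPred_eq, mem_iInter]
      rw [e]
      exact isClosed_iInter fun x => isClosed_eq (continuous_apply _) (continuous_apply _))
    (fun u => by
      obtain ⟨m, hm1, hm2⟩ := h (u.image Subtype.val) (by
        intro g hg
        rw [Finset.coe_image] at hg
        obtain ⟨t, _, rfl⟩ := hg
        exact t.2) E (π.comp (Subgroup.subtype _)) p h1 h2 (fun g x => hp _ _)
      refine ⟨m, ⟨fun x _ => ⟨?_, hm1 x⟩, fun x y => map_add m x y, fun c x => by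
        rw [map_smul, smul_eq_mul]⟩, ?_⟩
      · have := hm1 (-x)
        rw [map_neg] at this
        linarith
      · rw [mem_iInter₂]
        intro t ht x
        exact hm2 ⟨t, Subgroup.subset_closure (by
          rw [Finset.coe_image]
          exact ⟨t, ht, rfl⟩)⟩ x)
  let M : E →ₗ[ℝ] ℝ :=
    { toFun := m
      map_add' := hm.2.1
      map_smul' := fun c x => hm.2.2 c x }
  refine ⟨M, fun x => (hm.1 x trivial).2, fun g x => ?_⟩
  show m (π g x) = m x
  have hg : g ∈ Subgroup.closure T := by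
    rw [hT]
    trivial
  rw [mem_iInter] at hm'
  induction hg using Subgroup.closure_induction generalizing x with
  | mem t ht => exact hm' ⟨t, ht⟩ x
  | one => rw [map_one]; rfl
  | mul a b _ _ iha ihb =>
    rw [map_mul]
    show m (π a (π b x)) = m x
    rw [iha, ihb]
  | inv a _ iha =>
    rw [← iha (π a⁻¹ x)]
    have e : π a (π a⁻¹ x) = (π a * π a⁻¹) x := rfl
    rw [e, ← map_mul, mul_inv_cancel, map_one]
    rfl

theorem invHB_closure {G : Type} [Group G] (T : Set G)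
    (h : ∀ S : Finset G, (S : Set G) ⊆ T → InvHB (Subgroup.closure (S : Set G))) :
    InvHB (Subgroup.closure T) := by
  classical
  apply invHB_of_local _ (Subgroup.closure_closure_coe_preimage (k := T))
  intro S hS
  have h1 := h (S.image Subtype.val) (by
    intro g hg
    rw [Finset.coe_image] at hg
    obtain ⟨t, ht, rfl⟩ := hg
    exact hS ht)
  have e : (Subgroup.closure (S : Set (Subgroup.closure T))).map (Subgroup.subtype _) =
      Subgroup.closure ((S.image Subtype.val : Finset G) : Set G) := by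
    rw [MonoidHom.map_closure, Finset.coe_image]
    rfl
  rw [← e] at h1
  exact invHB_of_equiv (Subgroup.equivMapOfInjective _ _ (Subgroup.subtype_injective _)).symm h1

theorem invHB_subgroupOf {G : Type} [Group G] {N K : Subgroup G} (hNK : N ≤ K) (h : InvHB N) :
    InvHB (N.subgroupOf K) :=
  invHB_of_equiv (Subgroup.subgroupOfEquivOfLe hNK).symm h

end invHB

section lev

variable {Γ : Type} [Group Γ]

/-- left normed commutators -/
def lev (S : Set Γ) : ℕ → Set Γ
  | 0 => S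
  | j + 1 => {g | ∃ s ∈ S, ∃ c ∈ lev S j, g = s * c * s⁻¹ * c⁻¹}

/-- the group generated by the long left normed commutators -/
def TG (S : Set Γ) (j : ℕ) : Subgroup Γ := Subgroup.closure {g | ∃ i, j ≤ i ∧ g ∈ lev S i}

theorem TG_anti (S : Set Γ) {i j : ℕ} (h : i ≤ j) : TG S j ≤ TG S i := by
  apply Subgroup.closure_mono
  rintro g ⟨l, hl, hg⟩
  exact ⟨l, h.trans hl, hg⟩

theorem lev_le (S : Set Γ) : ∀ j, lev S j ⊆ (Subgroup.closure S : Set Γ) := by
  intro j
  induction j with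
  | zero => exact Subgroup.subset_closure
  | succ j ih =>
    rintro _ ⟨s, hs, c, hc, rfl⟩
    have h1 := Subgroup.subset_closure (k := S) hs
    exact Subgroup.mul_mem _ (Subgroup.mul_mem _ (Subgroup.mul_mem _ h1 (ih hc))
      (Subgroup.inv_mem _ h1)) (Subgroup.inv_mem _ (ih hc))

theorem TG_le (S : Set Γ) (j : ℕ) : TG S j ≤ Subgroup.closure S := by
  unfold TG
  rw [Subgroup.closure_le]
  rintro g ⟨i, _, hg⟩
  exact lev_le S i hg

theorem TG_zero (S : Set Γ) : TG S 0 = Subgroup.closure S := by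
  apply le_antisymm (TG_le S 0)
  apply Subgroup.closure_mono
  exact fun g hg => ⟨0, le_rfl, hg⟩

theorem TG_conj (S : Set Γ) (hS : ∀ s ∈ S, s⁻¹ ∈ S) (j : ℕ) (g : Γ)
    (hg : g ∈ Subgroup.closure S) : ∀ c ∈ TG S j, g * c * g⁻¹ ∈ TG S j := by
  have h1 : ∀ s ∈ S, ∀ c ∈ TG S j, s * c * s⁻¹ ∈ TG S j := by
    intro s hs c hc
    unfold TG at hc
    induction hc using Subgroup.closure_induction with
    | mem c hc =>
      obtain ⟨i, hi, hc⟩ := hc
      have h2 : s * c * s⁻¹ * c⁻¹ ∈ TG S j :=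
        Subgroup.subset_closure ⟨i + 1, hi.trans (Nat.le_succ i), s, hs, c, hc, rfl⟩
      have h3 : c ∈ TG S j := Subgroup.subset_closure ⟨i, hi, hc⟩
      have := (TG S j).mul_mem h2 h3
      rwa [inv_mul_cancel_right] at this
    | one => rw [mul_one, mul_inv_cancel]; exact (TG S j).one_mem
    | mul a b _ _ iha ihb =>
      have := (TG S j).mul_mem iha ihb
      have e : s * a * s⁻¹ * (s * b * s⁻¹) = s * (a * b) * s⁻¹ := by group
      rwa [e] at this
    | inv a _ iha =>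
      have := (TG S j).inv_mem iha
      have e : (s * a * s⁻¹)⁻¹ = s * a⁻¹ * s⁻¹ := by group
      rwa [e] at this
  have h2 : (∀ c ∈ TG S j, g * c * g⁻¹ ∈ TG S j) ∧ ∀ c ∈ TG S j, g⁻¹ * c * g ∈ TG S j := by
    induction hg using Subgroup.closure_induction with
    | mem s hs =>
      refine ⟨h1 s hs, fun c hc => ?_⟩
      have := h1 s⁻¹ (hS s hs) c hc
      rwa [inv_inv] at this
    | one => simp
    | mul a b _ _ iha ihb =>
      refine ⟨fun c hc => ?_, fun c hc => ?_⟩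
      · have := iha.1 _ (ihb.1 c hc)
        have e : a * (b * c * b⁻¹) * a⁻¹ = a * b * c * (a * b)⁻¹ := by group
        rwa [e] at this
      · have := ihb.2 _ (iha.2 c hc)
        have e : b⁻¹ * (a⁻¹ * c * a) * b = (a * b)⁻¹ * c * (a * b) := by group
        rwa [e] at this
    | inv a _ iha =>
      refine ⟨fun c hc => ?_, fun c hc => ?_⟩
      · rw [inv_inv]
        exact iha.2 c hc
      · rw [inv_inv]
        exact iha.1 c hc
  exact h2.1

theorem TG_comm (S : Set Γ) (hS : ∀ s ∈ S, s⁻¹ ∈ S) (j : ℕ) (g : Γ)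
    (hg : g ∈ Subgroup.closure S) : ∀ c ∈ TG S j, g * c * g⁻¹ * c⁻¹ ∈ TG S (j + 1) := by
  have hcj := fun g hg c hc => TG_conj S hS (j + 1) g hg c hc
  have h1 : ∀ s ∈ S, ∀ c ∈ TG S j, s * c * s⁻¹ * c⁻¹ ∈ TG S (j + 1) := by
    intro s hs c hc
    have hc' := hc
    unfold TG at hc
    induction hc using Subgroup.closure_induction with
    | mem c hc =>
      obtain ⟨i, hi, hc⟩ := hc
      exact Subgroup.subset_closure ⟨i + 1, Nat.succ_le_succ hi, s, hs, c, hc, rfl⟩
    | one =>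
      have e : s * 1 * s⁻¹ * 1⁻¹ = 1 := by group
      rw [e]
      exact (TG S (j + 1)).one_mem
    | mul a b ha hb iha ihb =>
      have h2 := hcj a (TG_le S j ha) _ (ihb hb)
      have h3 := (TG S (j + 1)).mul_mem (iha ha) h2
      have e : s * a * s⁻¹ * a⁻¹ * (a * (s * b * s⁻¹ * b⁻¹) * a⁻¹) =
          s * (a * b) * s⁻¹ * (a * b)⁻¹ := by group
      rwa [e] at h3
    | inv a ha iha =>
      have h2 := hcj a⁻¹ (Subgroup.inv_mem _ (TG_le S j ha)) _ ((TG S (j + 1)).inv_mem (iha ha))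
      have e : a⁻¹ * (s * a * s⁻¹ * a⁻¹)⁻¹ * a⁻¹⁻¹ = s * a⁻¹ * s⁻¹ * a⁻¹⁻¹ := by group
      rwa [e] at h2
  induction hg using Subgroup.closure_induction with
  | mem s hs => exact h1 s hs
  | one =>
    intro c _
    have e : 1 * c * 1⁻¹ * c⁻¹ = 1 := by group
    rw [e]
    exact (TG S (j + 1)).one_mem
  | mul a b ha _ iha ihb =>
    intro c hc
    have h3 := (TG S (j + 1)).mul_mem (hcj a ha _ (ihb c hc)) (iha c hc)
    have e : a * (b * c * b⁻¹ * c⁻¹) * a⁻¹ * (a * c * a⁻¹ * c⁻¹) =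
        a * b * c * (a * b)⁻¹ * c⁻¹ := by group
    rwa [e] at h3
  | inv a ha iha =>
    intro c hc
    have h3 := hcj a⁻¹ (Subgroup.inv_mem _ ha) _ ((TG S (j + 1)).inv_mem (iha c hc))
    have e : a⁻¹ * (a * c * a⁻¹ * c⁻¹)⁻¹ * a⁻¹⁻¹ = a⁻¹ * c * a⁻¹⁻¹ * c⁻¹ := by group
    rwa [e] at h3

theorem invHB_of_TG (S : Set Γ) (hS : ∀ s ∈ S, s⁻¹ ∈ S) (n : ℕ) (h : InvHB (TG S n)) :
    InvHB (Subgroup.closure S) := by
  rw [← TG_zero]
  induction n with
  | zero => exact h
  | succ n ih =>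
    apply ih
    have hn : ((TG S (n + 1)).subgroupOf (TG S n)).Normal := by
      constructor
      intro c hc g
      exact TG_conj S hS (n + 1) g (TG_le S n g.2) c hc
    refine Pool.Agent.Helper240.Amen.InvHB.step ((TG S (n + 1)).subgroupOf (TG S n)) ?_
      (invHB_subgroupOf (TG_anti S (Nat.le_succ n)) h)
    intro a b
    exact TG_comm S hS n a (TG_le S n a.2) b b.2

end lev

section est

variable {Γ : Type} [Group Γ] {A : Type} [NormedRing A] (h1 : ‖(1 : A)‖ ≤ 1) (R : Γ →* A)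

include h1

theorem inv_est {s : Γ} (hs : ‖R s - 1‖ ≤ 1 / 2) :
    ‖R s⁻¹‖ ≤ 2 ∧ ‖R s⁻¹ - 1‖ ≤ 2 * ‖R s - 1‖ := by
  have e : R s⁻¹ - 1 = -(R s⁻¹ * (R s - 1)) := by
    rw [mul_sub, ← map_mul, inv_mul_cancel, map_one, mul_one]
    abel
  have h2 : ‖R s⁻¹ - 1‖ ≤ ‖R s⁻¹‖ * ‖R s - 1‖ := by
    rw [e, norm_neg]
    exact norm_mul_le _ _
  have h3 : ‖R s⁻¹‖ ≤ 2 := by
    have h4 : ‖R s⁻¹‖ ≤ ‖R s⁻¹ - 1‖ + ‖(1 : A)‖ := by
      have : R s⁻¹ = (R s⁻¹ - 1) + 1 := by abel
      calc ‖R s⁻¹‖ = ‖(R s⁻¹ - 1) + 1‖ := by rw [← this]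
        _ ≤ _ := norm_add_le _ _
    nlinarith [norm_nonneg (R s⁻¹)]
  exact ⟨h3, h2.trans (mul_le_mul_of_nonneg_right h3 (norm_nonneg _))⟩

theorem comm_est {s c : Γ} (hs : ‖R s - 1‖ ≤ 1 / 2) (hc : ‖R c - 1‖ ≤ 1 / 2) :
    ‖R (s * c * s⁻¹ * c⁻¹) - 1‖ ≤ 8 * ‖R s - 1‖ * ‖R c - 1‖ := by
  have e : R (s * c * s⁻¹ * c⁻¹) - 1 =
      ((R s - 1) * (R c - 1) - (R c - 1) * (R s - 1)) * R s⁻¹ * R c⁻¹ := by
    have e1 : R s * R s⁻¹ = 1 := by rw [← map_mul, mul_inv_cancel, map_one]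
    have e2 : R c * R c⁻¹ = 1 := by rw [← map_mul, mul_inv_cancel, map_one]
    have e3 : (R s - 1) * (R c - 1) - (R c - 1) * (R s - 1) = R s * R c - R c * R s := by
      noncomm_ring
    rw [e3, map_mul, map_mul, map_mul, sub_mul, sub_mul]
    congr 1
    calc (1 : A) = R c * R c⁻¹ := e2.symm
      _ = R c * (R s * R s⁻¹) * R c⁻¹ := by rw [e1, mul_one]
      _ = R c * R s * R s⁻¹ * R c⁻¹ := by noncomm_ring
  rw [e]
  have h2 := (inv_est h1 R hs).1
  have h3 := (inv_est h1 R hc).1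
  have h4 : ‖(R s - 1) * (R c - 1) - (R c - 1) * (R s - 1)‖ ≤ 2 * ‖R s - 1‖ * ‖R c - 1‖ := by
    refine (norm_sub_le _ _).trans ?_
    have h5 := norm_mul_le (R s - 1) (R c - 1)
    have h6 := norm_mul_le (R c - 1) (R s - 1)
    linarith
  calc _ ≤ ‖((R s - 1) * (R c - 1) - (R c - 1) * (R s - 1)) * R s⁻¹‖ * ‖R c⁻¹‖ :=
        norm_mul_le _ _
    _ ≤ (‖(R s - 1) * (R c - 1) - (R c - 1) * (R s - 1)‖ * ‖R s⁻¹‖) * ‖R c⁻¹‖ :=
        mul_le_mul_of_nonneg_right (norm_mul_le _ _) (norm_nonneg _)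
    _ ≤ ((2 * ‖R s - 1‖ * ‖R c - 1‖) * 2) * 2 := by
        gcongr
    _ = 8 * ‖R s - 1‖ * ‖R c - 1‖ := by ring

theorem lev_est {S : Set Γ} {δ : ℝ} (hδ : δ ≤ 1 / 16) (hS : ∀ s ∈ S, ‖R s - 1‖ ≤ δ) :
    ∀ j, ∀ c ∈ lev S j, ‖R c - 1‖ ≤ δ * (1 / 2) ^ j := by
  intro j
  induction j with
  | zero =>
    intro c hc
    rw [pow_zero, mul_one]
    exact hS c hc
  | succ j ih =>
    rintro _ ⟨s, hs, c, hc, rfl⟩
    have h2 := hS s hs
    have h3 := ih c hc
    have h4 : (1 / 2 : ℝ) ^ j ≤ 1 := pow_le_one₀ (by norm_num) (by norm_num)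
    have h0 : 0 ≤ δ := (norm_nonneg _).trans h2
    have h5 : ‖R c - 1‖ ≤ δ := h3.trans (by nlinarith)
    have h6 := comm_est h1 R (h2.trans (by linarith)) (h5.trans (by linarith))
    refine h6.trans ?_
    rw [pow_succ]
    have h7 : 8 * ‖R s - 1‖ ≤ 1 / 2 := by linarith
    calc 8 * ‖R s - 1‖ * ‖R c - 1‖ ≤ 1 / 2 * ‖R c - 1‖ :=
          mul_le_mul_of_nonneg_right h7 (norm_nonneg _)
      _ ≤ 1 / 2 * (δ * (1 / 2) ^ j) := by linarith
      _ = δ * ((1 / 2) ^ j * (1 / 2)) := by ring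

/-- Zassenhaus -/
theorem invHB_of_disc (S : Finset Γ) (hS : ∀ s ∈ S, ‖R s - 1‖ ≤ 1 / 32) {ε : ℝ} (hε : 0 < ε)
    (hdisc : ∀ γ, ‖R γ - 1‖ < ε → γ = 1) : InvHB (Subgroup.closure (S : Set Γ)) := by
  classical
  set S₁ : Set Γ := {g | g ∈ S ∨ g⁻¹ ∈ S} with hS₁
  have hsym : ∀ s ∈ S₁, s⁻¹ ∈ S₁ := by
    rintro s (hs | hs)
    · right
      rw [inv_inv]
      exact hs
    · left
      exact hs
  have hcl : Subgroup.closure S₁ = Subgroup.closure (S : Set Γ) := by
    apply le_antisymm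
    · rw [Subgroup.closure_le]
      rintro s (hs | hs)
      · exact Subgroup.subset_closure hs
      · have := Subgroup.inv_mem _ (Subgroup.subset_closure (k := (S : Set Γ)) hs)
        rwa [inv_inv] at this
    · exact Subgroup.closure_mono fun s hs => Or.inl hs
  have hb : ∀ s ∈ S₁, ‖R s - 1‖ ≤ 1 / 16 := by
    rintro s (hs | hs)
    · exact (hS s hs).trans (by norm_num)
    · have h2 := (inv_est h1 R ((hS _ hs).trans (by norm_num))).2
      rw [inv_inv] at h2
      have h3 := hS _ hs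
      linarith
  obtain ⟨n, hn⟩ := exists_pow_lt_of_lt_one (show 0 < ε * 16 by positivity)
    (show (1 / 2 : ℝ) < 1 by norm_num)
  have hbot : TG S₁ n = ⊥ := by
    unfold TG
    rw [Subgroup.closure_eq_bot_iff]
    rintro g ⟨i, hi, hg⟩
    apply hdisc
    refine (lev_est h1 R le_rfl hb i g hg).trans_lt ?_
    have h3 : (1 / 2 : ℝ) ^ i ≤ (1 / 2) ^ n := pow_le_pow_of_le_one (by norm_num) (by norm_num) hi
    linarith
  rw [← hcl]
  apply invHB_of_TG S₁ hsym n
  rw [hbot]
  apply Pool.Agent.Helper240.Amen.InvHB.of_trivial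
  intro g
  exact Subsingleton.elim _ _

/-- the solvable part -/
theorem small_invHB (H : Subgroup Γ) (q : ℕ)
    (base : ∀ S : Finset Γ, (∀ s ∈ S, s ∈ (derivedSeries H q).map H.subtype ∧
      ‖R s - 1‖ ≤ 1 / 64) → InvHB (Subgroup.closure (S : Set Γ))) :
    ∀ S : Finset Γ, (∀ s ∈ S, s ∈ H ∧ ‖R s - 1‖ ≤ 1 / 64) →
      InvHB (Subgroup.closure (S : Set Γ)) := by
  classical
  induction q with
  | zero =>
    intro S hS
    apply base S
    intro s hs
    refine ⟨⟨⟨s, (hS s hs).1⟩, ?_, rfl⟩, (hS s hs).2⟩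
    rw [derivedSeries_zero]
    trivial
  | succ q ih =>
    apply ih
    intro S hS
    set K := (derivedSeries H q).map H.subtype with hK
    have hKK : ∀ a ∈ K, ∀ b ∈ K, a * b * a⁻¹ * b⁻¹ ∈
        (derivedSeries H (q + 1)).map H.subtype := by
      rintro _ ⟨a, ha, rfl⟩ _ ⟨b, hb, rfl⟩
      refine ⟨a * b * a⁻¹ * b⁻¹, ?_, rfl⟩
      rw [derivedSeries_succ]
      exact Subgroup.commutator_mem_commutator ha hb
    have hle : (derivedSeries H (q + 1)).map H.subtype ≤ K :=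
      Subgroup.map_mono (derivedSeries_antitone H (Nat.le_succ q))
    set S₁ : Set Γ := {g | g ∈ S ∨ g⁻¹ ∈ S} with hS₁
    have hsym : ∀ s ∈ S₁, s⁻¹ ∈ S₁ := by
      rintro s (hs | hs)
      · right
        rw [inv_inv]
        exact hs
      · left
        exact hs
    have hcl : Subgroup.closure S₁ = Subgroup.closure (S : Set Γ) := by
      apply le_antisymm
      · rw [Subgroup.closure_le]
        rintro s (hs | hs)
        · exact Subgroup.subset_closure hs
        · have := Subgroup.inv_mem _ (Subgroup.subset_closure (k := (S : Set Γ)) hs)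
          rwa [inv_inv] at this
      · exact Subgroup.closure_mono fun s hs => Or.inl hs
    have hb : ∀ s ∈ S₁, s ∈ K ∧ ‖R s - 1‖ ≤ 1 / 32 := by
      rintro s (hs | hs)
      · exact ⟨(hS s hs).1, (hS s hs).2.trans (by norm_num)⟩
      · have h2 := (inv_est h1 R ((hS _ hs).2.trans (by norm_num))).2
        rw [inv_inv] at h2
        have h3 := (hS _ hs).2
        refine ⟨?_, by linarith⟩
        have := K.inv_mem (hS _ hs).1
        rwa [inv_inv] at this
    have hlev : ∀ j, ∀ c ∈ lev S₁ (j + 1), c ∈ (derivedSeries H (q + 1)).map H.subtype := by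
      intro j
      induction j with
      | zero =>
        rintro _ ⟨s, hs, c, hc, rfl⟩
        exact hKK s (hb s hs).1 c (hb c hc).1
      | succ j ihj =>
        rintro _ ⟨s, hs, c, hc, rfl⟩
        exact hKK s (hb s hs).1 c (hle (ihj c hc))
    rw [← hcl]
    apply invHB_of_TG S₁ hsym 1
    apply invHB_closure
    intro S' hS'
    apply base
    intro c hc
    obtain ⟨i, hi, hci⟩ := hS' hc
    obtain ⟨j, rfl⟩ := Nat.exists_eq_add_of_le' hi
    refine ⟨hlev j c hci, ?_⟩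
    refine (lev_est h1 R (by norm_num) (fun s hs => (hb s hs).2) (j + 1) c hci).trans ?_
    have h3 : (1 / 2 : ℝ) ^ j ≤ 1 := pow_le_one₀ (by norm_num) (by norm_num)
    rw [pow_succ]
    linarith

end est

end Pool.Agent.Helper63.SV
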