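import Pool.Agent.Helper63.SV.Geo
import Pool.Graph.R_seed8.Helper240.Amen.HB

/-!
Project SV (helper63): bounded means on virtually solvable groups, and the stabilizers of the orbits
of the vector group.
-/

set_option autoImplicit false

open Set Metric Filter Topology

namespace Pool.Agent.Helper63.SV

/-- a left invariant mean on the bounded functions -/
def HasMeanB (G : Type) [Group G] : Prop :=
  ∃ m : (G → ℝ) → ℝ, (∀ u v, BdF u → BdF v → m (fun x => u x + v x) = m u + m v) ∧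
    (∀ (c : ℝ) u, BdF u → m (fun x => c * u x) = c * m u) ∧
    (∀ u (C : ℝ), (∀ x, |u x| ≤ C) → |m u| ≤ C) ∧
    (∀ c : ℝ, m (fun _ => c) = c) ∧
    ∀ u, BdF u → ∀ g, m (fun x => u (g * x)) = m u

theorem meanB_of_invHB (G : Type) [Group G] (h : Pool.Agent.Helper240.Amen.InvHB G) :
    HasMeanB G := by
  classical
  have bdd : ∀ f : Pool.Agent.Helper240.Amen.Bdd G, BddAbove (Set.range f.1) := by
    intro f
    obtain ⟨C, hC⟩ := f.2
    refine ⟨C, ?_⟩
    rintro _ ⟨x, rfl⟩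
    exact (le_abs_self _).trans (hC x)
  obtain ⟨M, hM1, hM2⟩ := h (Pool.Agent.Helper240.Amen.Bdd G) (Pool.Agent.Helper240.Amen.tra G)
    (fun f => ⨆ x, f.1 x) (by
      intro c hc f
      exact (Real.mul_iSup_of_nonneg hc.le _).symm) (by
      intro f g
      apply ciSup_le
      intro x
      exact add_le_add (le_ciSup (bdd f) x) (le_ciSup (bdd g) x)) (by
      intro g f
      apply ciSup_le
      intro x
      exact le_ciSup (bdd f) (g⁻¹ * x))
  have hle : ∀ (f : Pool.Agent.Helper240.Amen.Bdd G) (c : ℝ), (∀ x, f.1 x ≤ c) → M f ≤ c :=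
    fun f c hf => (hM1 f).trans (ciSup_le hf)
  refine ⟨fun f => if hf : f ∈ Pool.Agent.Helper240.Amen.Bdd G then M ⟨f, hf⟩ else 0, ?_, ?_,
    ?_, ?_, ?_⟩
  · intro f g hf hg
    have hf' : f ∈ Pool.Agent.Helper240.Amen.Bdd G := hf
    have hg' : g ∈ Pool.Agent.Helper240.Amen.Bdd G := hg
    have hfg : (fun γ => f γ + g γ) ∈ Pool.Agent.Helper240.Amen.Bdd G :=
      (Pool.Agent.Helper240.Amen.Bdd G).add_mem hf' hg'
    simp only
    rw [dif_pos hfg, dif_pos hf', dif_pos hg', ← map_add]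
    rfl
  · intro c f hf
    have hf' : f ∈ Pool.Agent.Helper240.Amen.Bdd G := hf
    have hcf : (fun γ => c * f γ) ∈ Pool.Agent.Helper240.Amen.Bdd G :=
      (Pool.Agent.Helper240.Amen.Bdd G).smul_mem c hf'
    simp only
    rw [dif_pos hcf, dif_pos hf', ← smul_eq_mul, ← map_smul]
    rfl
  · intro f C hf
    have hf' : f ∈ Pool.Agent.Helper240.Amen.Bdd G := ⟨C, hf⟩
    simp only
    rw [dif_pos hf', abs_le]
    constructor
    · have := hle (-⟨f, hf'⟩) C (fun x => (neg_le_abs (f x)).trans (hf x))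
      rw [map_neg] at this
      linarith
    · exact hle _ C fun x => (le_abs_self _).trans (hf x)
  · intro c
    have h1 : (fun _ : G => c) ∈ Pool.Agent.Helper240.Amen.Bdd G := ⟨|c|, fun x => le_rfl⟩
    simp only
    rw [dif_pos h1]
    apply le_antisymm
    · exact hle _ c fun x => le_rfl
    · have := hle (-⟨fun _ : G => c, h1⟩) (-c) (fun x => le_rfl)
      rw [map_neg] at this
      linarith
  · intro f hf δ
    have hf' : f ∈ Pool.Agent.Helper240.Amen.Bdd G := hf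
    have hδ : (fun γ => f (δ * γ)) ∈ Pool.Agent.Helper240.Amen.Bdd G := by
      obtain ⟨C, hC⟩ := hf
      exact ⟨C, fun x => hC _⟩
    simp only
    rw [dif_pos hδ, dif_pos hf', ← hM2 δ⁻¹ ⟨f, hf'⟩]
    congr 1
    apply Subtype.ext
    funext x
    show f (δ * x) = f (δ⁻¹⁻¹ * x)
    rw [inv_inv]

theorem meanB_of_finiteIndex (Γ : Type) [Group Γ] (H : Subgroup Γ) [Finite (Γ ⧸ H)]
    (h : HasMeanB H) : HasMeanB Γ := by
  classical
  obtain ⟨m, hadd, hsmul, hbd, hcst, hinv⟩ := h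
  have hf := Fintype.ofFinite (Γ ⧸ H)
  set F : (Γ → ℝ) → Γ → ℝ := fun f γ => m fun k : H => f (γ * k) with hF
  have hb : ∀ (f : Γ → ℝ) (γ : Γ), BdF f → BdF fun k : H => f (γ * k) := by
    rintro f γ ⟨C, hC⟩
    exact ⟨C, fun k => hC _⟩
  have hFk : ∀ (f : Γ → ℝ) (γ γ' : Γ), BdF f → ((γ : Γ ⧸ H) = (γ' : Γ ⧸ H)) →
      F f γ = F f γ' := by
    intro f γ γ' hbf hγ
    rw [QuotientGroup.eq] at hγ
    have h1 := hinv (fun k : H => f (γ * k)) (hb f γ hbf) ⟨γ⁻¹ * γ', hγ⟩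
    have h2 : (fun k : H => f (γ * ((⟨γ⁻¹ * γ', hγ⟩ * k : H) : Γ))) =
        fun k : H => f (γ' * k) := by
      funext k
      congr 1
      show γ * (γ⁻¹ * γ' * k) = γ' * k
      group
    rw [h2] at h1
    exact h1.symm
  have hcard0 : (0 : ℝ) < Fintype.card (Γ ⧸ H) := by
    have : 0 < Fintype.card (Γ ⧸ H) := Fintype.card_pos
    exact_mod_cast this
  have hcard : (Fintype.card (Γ ⧸ H) : ℝ) ≠ 0 := hcard0.ne'
  refine ⟨fun f => (∑ q : Γ ⧸ H, F f q.out) / Fintype.card (Γ ⧸ H), ?_, ?_, ?_, ?_, ?_⟩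
  · intro f g hf hg
    simp only
    rw [← add_div, ← Finset.sum_add_distrib]
    congr 1
    refine Finset.sum_congr rfl fun q _ => ?_
    exact hadd _ _ (hb f _ hf) (hb g _ hg)
  · intro c f hf
    simp only
    rw [← mul_div_assoc, Finset.mul_sum]
    congr 1
    refine Finset.sum_congr rfl fun q _ => ?_
    exact hsmul c _ (hb f _ hf)
  · intro f C hC
    simp only
    rw [abs_div, abs_of_pos hcard0, div_le_iff₀ hcard0]
    refine (Finset.abs_sum_le_sum_abs _ _).trans ?_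
    refine (Finset.sum_le_card_nsmul _ _ C fun q _ => hbd _ _ fun k => hC _).trans ?_
    rw [nsmul_eq_mul, Finset.card_univ, mul_comm]
  · intro c
    simp only [hF]
    rw [hcst, Finset.sum_const, Finset.card_univ, nsmul_eq_mul, mul_div_assoc,
      mul_div_cancel₀ _ hcard]
  · intro f hf δ
    simp only
    congr 1
    have h1 : ∀ q : Γ ⧸ H, F (fun γ => f (δ * γ)) q.out = F f (δ • q).out := by
      intro q
      have h2 : F (fun γ => f (δ * γ)) q.out = F f (δ * q.out) := by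
        simp only [hF]
        congr 1
        funext k
        rw [mul_assoc]
      rw [h2]
      apply hFk f _ _ hf
      rw [QuotientGroup.out_eq']
      have h3 : ((δ * q.out : Γ) : Γ ⧸ H) = δ • ((q.out : Γ) : Γ ⧸ H) := rfl
      rw [h3, QuotientGroup.out_eq']
    rw [Finset.sum_congr rfl fun q _ => h1 q]
    exact Equiv.sum_comp (MulAction.toPerm δ : Equiv.Perm (Γ ⧸ H)) fun q => F f q.out

theorem meanB_of_comm (G : Type) [Group G] (h : ∀ a b : G, a * b = b * a) : HasMeanB G := by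
  apply meanB_of_invHB
  apply Pool.Agent.Helper240.Amen.InvHB.of_derived 1
  rw [derivedSeries_one]
  exact (commutator_eq_bot_iff_center_eq_top G).2 (by
    rw [eq_top_iff]
    intro a _
    rw [Subgroup.mem_center_iff]
    exact fun b => h b a)

section stab

variable {Γ X E : Type} [Group Γ] [MulAction Γ X] [NormedAddCommGroup E]
  [NormedSpace ℝ E] {k n : ℕ} {dev : X → E} {g : Γ → (E →ᵃ[ℝ] E)}
  {α : (Fin k → ℝ) → E → E} {β : (Fin k → ℝ) → X → X}

/-- the integral points of the vector group -/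
def Geo.latt (G : Geo k n dev g α β) (x₀ : X) : Subgroup (G.stab x₀) where
  carrier := {γ | ∃ m : Fin k → ℤ, ∀ x, (γ : Γ) • x = β (fun i => (m i : ℝ)) x}
  one_mem' := ⟨0, fun x => by
    have : (fun i => (((0 : Fin k → ℤ) i : ℤ) : ℝ)) = 0 := by
      funext i
      simp
    rw [this, G.β_zero]
    exact one_smul Γ x⟩
  mul_mem' := by
    rintro γ δ ⟨s, hs⟩ ⟨t, ht⟩
    refine ⟨s + t, fun x => ?_⟩
    have e : (fun i => (((s + t) i : ℤ) : ℝ)) =
        (fun i => (s i : ℝ)) + fun i => (t i : ℝ) := by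
      funext i
      simp
    rw [e, G.β_add, ← ht, ← hs]
    exact mul_smul (γ : Γ) (δ : Γ) x
  inv_mem' := by
    rintro γ ⟨s, hs⟩
    refine ⟨-s, fun x => ?_⟩
    have e : (fun i => (((-s) i : ℤ) : ℝ)) = -(fun i => (s i : ℝ)) := by
      funext i
      simp
    rw [e]
    have h1 := hs ((γ : Γ)⁻¹ • x)
    rw [smul_inv_smul] at h1
    have h2 := congrArg (β (-(fun i => (s i : ℝ)))) h1
    rw [G.β_neg] at h2
    exact h2.symm

theorem Geo.latt_comm (G : Geo k n dev g α β) (x₀ : X) (a b : G.latt x₀) : a * b = b * a := by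
  obtain ⟨⟨a, ha'⟩, s, hs⟩ := a
  obtain ⟨⟨b, hb'⟩, t, ht⟩ := b
  apply Subtype.ext
  apply Subtype.ext
  show a * b = b * a
  have hs' : ∀ x, a • x = β (fun i => (s i : ℝ)) x := hs
  have ht' : ∀ x, b • x = β (fun i => (t i : ℝ)) x := ht
  have h1 : (a * b) • x₀ = (b * a) • x₀ := by
    rw [mul_smul, mul_smul, ht', hs', hs', ht', ← G.β_add, ← G.β_add, add_comm]
  have h2 : ((a * b)⁻¹ * (b * a)) • x₀ = x₀ := by
    rw [mul_smul, ← h1, inv_smul_smul]
  exact inv_mul_eq_one.1 (G.free _ _ h2)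

theorem Geo.latt_finite (G : Geo k n dev g α β) (x₀ : X) :
    Finite (G.stab x₀ ⧸ G.latt x₀) := by
  have hfin := G.finA (K := {dev x₀}) (B := {dev (β 1 x₀)}) isCompact_singleton
    (by rintro _ rfl; exact ⟨x₀, rfl⟩) isCompact_singleton (by rintro _ rfl; exact ⟨_, rfl⟩)
  set F := {γ : Γ | ∃ x, dev x ∈ ({dev x₀} : Set E) ∧ ∃ r ∈ cube k,
    dev (β r (γ • x)) ∈ ({dev (β 1 x₀)} : Set E)} with hF
  have hFf : Finite F := hfin
  -- every element is a product of an element of `F` and an integral point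
  have key : ∀ γ : G.stab x₀, ∃ a : G.latt x₀, ∃ δ ∈ F, (γ : Γ) = ((a : G.stab x₀) : Γ) * δ := by
    intro γ
    obtain ⟨s, hs⟩ := γ.2
    obtain ⟨m, r, hr, hsr⟩ := exists_cube s
    obtain ⟨a, ha⟩ := G.lat m
    have ha' : a ∈ G.stab x₀ := ⟨_, ha x₀⟩
    refine ⟨⟨⟨a, ha'⟩, m, ha⟩, a⁻¹ * γ, ⟨x₀, rfl, 1 - r, ?_, ?_⟩, ?_⟩
    · refine ⟨fun i => ?_, fun i => ?_⟩
      · have := hr.2 i
        show (0 : ℝ) ≤ 1 - r i
        have h1 : r i ≤ 1 := this
        linarith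
      · have := hr.1 i
        show (1 : ℝ) - r i ≤ 1
        have h1 : 0 ≤ r i := this
        linarith
    · have h1 : (a⁻¹ * (γ : Γ)) • x₀ = β r x₀ := by
        rw [mul_smul, hs, inv_smul_eq_iff, ha, ← G.β_add, hsr, add_comm]
      rw [h1, ← G.β_add, sub_add_cancel]
      rfl
    · show (γ : Γ) = a * (a⁻¹ * γ)
      rw [mul_inv_cancel_left]
  choose a δ hδ hγ using key
  refine Finite.of_injective (β := F) (fun q => ⟨δ (q.out)⁻¹, hδ _⟩) ?_
  intro q q' h
  have h1 : δ (q.out)⁻¹ = δ (q'.out)⁻¹ := congrArg Subtype.val h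
  rw [← QuotientGroup.out_eq' q, ← QuotientGroup.out_eq' q', QuotientGroup.eq]
  have e1 := hγ (q.out)⁻¹
  have e2 := hγ (q'.out)⁻¹
  rw [h1] at e1
  have e3 : (q.out)⁻¹ * q'.out = ((a (q.out)⁻¹ : G.latt x₀) : G.stab x₀) *
      ((a (q'.out)⁻¹ : G.latt x₀) : G.stab x₀)⁻¹ := by
    apply Subtype.ext
    show (((q.out)⁻¹ : G.stab x₀) : Γ) * ((q'.out : G.stab x₀) : Γ) = (((a (q.out)⁻¹ : G.latt x₀) :
      G.stab x₀) : Γ) * (((a (q'.out)⁻¹ : G.latt x₀) : G.stab x₀) : Γ)⁻¹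
    have e4 : ((q'.out : G.stab x₀) : Γ) = ((((q'.out)⁻¹ : G.stab x₀) : Γ))⁻¹ := by
      simp
    rw [e4, e1, e2]
    group
  rw [e3]
  exact (G.latt x₀).mul_mem (a _).2 ((G.latt x₀).inv_mem (a _).2)

theorem Geo.stab_mean (G : Geo k n dev g α β) (x₀ : X) : HasMeanB (G.stab x₀) := by
  have := G.latt_finite x₀
  exact meanB_of_finiteIndex _ (G.latt x₀) (meanB_of_comm _ (G.latt_comm x₀))

theorem Geo.exists_meanFam (G : Geo k n dev g α β) {N : ℕ} (c : Fin N → X) (x₀ : X) :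
    ∃ M : (Σ i : Fin N, Γ ⧸ G.stab (c i)) → (X → ℝ) → ℝ, MeanFam Γ M := by
  classical
  have hm := fun i => G.stab_mean (c i)
  choose m hadd hsmul hbd hcst hinv using hm
  have hbdd : ∀ (u : X → ℝ) (i : Fin N) (h : Γ), BdF u →
      BdF fun δ : G.stab (c i) => u (h • (δ : Γ) • x₀) := by
    rintro u i h ⟨C, hC⟩
    exact ⟨C, fun _ => hC _⟩
  let M : (Σ i : Fin N, Γ ⧸ G.stab (c i)) → (X → ℝ) → ℝ := fun y u =>
    if BdF u then m y.1 fun δ : G.stab (c y.1) => u ((y.2.out : Γ) • (δ : Γ) • x₀) else 0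
  have hM : ∀ (i : Fin N) (h : Γ) (u : X → ℝ), BdF u →
      M ⟨i, (h : Γ ⧸ G.stab (c i))⟩ u = m i fun δ : G.stab (c i) => u (h • (δ : Γ) • x₀) := by
    intro i h u hu
    show (if BdF u then _ else 0) = _
    rw [if_pos hu]
    obtain ⟨k, hk⟩ := QuotientGroup.mk_out_eq_mul (G.stab (c i)) h
    have h1 := hinv i (fun δ : G.stab (c i) => u (h • (δ : Γ) • x₀)) (hbdd u i h hu) k
    rw [← h1]
    congr 1
    funext δ
    show u ((Quotient.out (h : Γ ⧸ G.stab (c i)) : Γ) • (δ : Γ) • x₀) =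
      u (h • ((k * δ : G.stab (c i)) : Γ) • x₀)
    have h2 : (Quotient.out (h : Γ ⧸ G.stab (c i)) : Γ) = h * k := hk
    rw [h2, Subgroup.coe_mul, mul_smul, mul_smul]
  refine ⟨M, ⟨?_, ?_, ?_, ?_, ?_⟩⟩
  · rintro ⟨i, q⟩ u v hu hv
    obtain ⟨h, rfl⟩ := QuotientGroup.mk_surjective q
    have huv : BdF fun x => u x + v x := by
      obtain ⟨C, hC⟩ := hu
      obtain ⟨C', hC'⟩ := hv
      exact ⟨C + C', fun x => (abs_add_le _ _).trans (add_le_add (hC x) (hC' x))⟩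
    rw [hM i h _ hu, hM i h _ hv, hM i h _ huv]
    exact hadd i _ _ (hbdd u i h hu) (hbdd v i h hv)
  · rintro ⟨i, q⟩ a u hu
    obtain ⟨h, rfl⟩ := QuotientGroup.mk_surjective q
    have hau : BdF fun x => a * u x := by
      obtain ⟨C, hC⟩ := hu
      refine ⟨|a| * C, fun x => ?_⟩
      rw [abs_mul]
      exact mul_le_mul_of_nonneg_left (hC x) (abs_nonneg _)
    rw [hM i h _ hu, hM i h _ hau]
    exact hsmul i _ _ (hbdd u i h hu)
  · rintro ⟨i, q⟩ u C hC
    obtain ⟨h, rfl⟩ := QuotientGroup.mk_surjective q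
    rw [hM i h _ ⟨C, hC⟩]
    exact hbd i _ _ fun _ => hC _
  · rintro ⟨i, q⟩ a
    obtain ⟨h, rfl⟩ := QuotientGroup.mk_surjective q
    rw [hM i h _ ⟨|a|, fun _ => le_rfl⟩]
    exact hcst i a
  · rintro γ ⟨i, q⟩ u
    obtain ⟨h, rfl⟩ := QuotientGroup.mk_surjective q
    by_cases hu : BdF u
    · have hu' : BdF fun x => u (γ • x) := by
        obtain ⟨C, hC⟩ := hu
        exact ⟨C, fun _ => hC _⟩
      have e : γ • (⟨i, (h : Γ ⧸ G.stab (c i))⟩ : Σ i : Fin N, Γ ⧸ G.stab (c i)) =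
          ⟨i, ((γ * h : Γ) : Γ ⧸ G.stab (c i))⟩ := rfl
      rw [e, hM i _ _ hu, hM i _ _ hu']
      congr 1
      funext δ
      rw [mul_smul]
    · have hu' : ¬ BdF fun x => u (γ • x) := by
        rintro ⟨C, hC⟩
        apply hu
        refine ⟨C, fun x => ?_⟩
        have h1 : |u (γ • γ⁻¹ • x)| ≤ C := hC (γ⁻¹ • x)
        rwa [smul_inv_smul] at h1
      show (if BdF u then _ else (0 : ℝ)) = (if BdF (fun x => u (γ • x)) then _ else 0)
      rw [if_neg hu, if_neg hu']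

end stab

end Pool.Agent.Helper63.SV
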