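import Pool.Agent.Helper63.SV.Tup

/-!
Project SV (helper63): chain maps defined by recursion with cones; alternation.
-/

set_option autoImplicit false

open Finset

namespace Pool.Agent.Helper63.SV

section cj

variable {Z : Type}

/-- cone with a weighted apex -/
noncomputable def cj {m : ℕ} : (Z →₀ ℝ) →ₗ[ℝ] TC Z m →ₗ[ℝ] TC Z (m + 1) :=
  Finsupp.linearCombination ℝ fun b => (cn b : TC Z m →ₗ[ℝ] TC Z (m + 1))

/-- total weight -/
noncomputable def wt : (Z →₀ ℝ) →ₗ[ℝ] ℝ := Finsupp.linearCombination ℝ fun _ => (1 : ℝ)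

theorem cj_single {m : ℕ} (b : Z) (c : TC Z m) : cj (Finsupp.single b 1) c = cn b c := by
  rw [cj, Finsupp.linearCombination_single, one_smul]

theorem wt_single (b : Z) : wt (Finsupp.single b (1 : ℝ)) = 1 := by
  rw [wt, Finsupp.linearCombination_single, one_smul]

theorem bd_cj {m : ℕ} (w : Z →₀ ℝ) (c : TC Z (m + 1)) :
    bd (cj w c) = wt w • c - cj w (bd c) := by
  induction w using Finsupp.induction_linear with
  | zero => simp
  | add v w hv hw =>
    simp only [map_add, LinearMap.add_apply, hv, hw, add_smul]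
    abel
  | single b t =>
    have e : Finsupp.single b t = t • Finsupp.single b (1 : ℝ) := by simp
    rw [e, map_smul, map_smul, map_smul, LinearMap.smul_apply, LinearMap.smul_apply, map_smul,
      cj_single, cj_single, wt_single, bd_cn, smul_sub, smul_eq_mul, mul_one]

theorem bd_cj_zero (w : Z →₀ ℝ) (c : TC Z 0) : bd (cj w c) = wt w • c := by
  induction w using Finsupp.induction_linear with
  | zero => simp
  | add v w hv hw => simp only [map_add, LinearMap.add_apply, hv, hw, add_smul]
  | single b t =>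
    have e : Finsupp.single b t = t • Finsupp.single b (1 : ℝ) := by simp
    rw [e, map_smul, map_smul, LinearMap.smul_apply, map_smul, cj_single, wt_single, bd_cn_zero,
      smul_eq_mul, mul_one]

end cj

section rec

variable {Γ S Z : Type} [Group Γ] [MulAction Γ S] [MulAction Γ Z]

/-- recursion with apexes -/
noncomputable def RG (B : ∀ m, (Fin (m + 1) → S) → (Z →₀ ℝ)) : ∀ m, (Fin m → S) → TC Z m
  | 0, _ => Finsupp.single default 1
  | m + 1, x => cj (B m x) (lin (RG B m) (bx x))

theorem bd_bx {m : ℕ} (x : Fin (m + 2) → S) : bd (bx x) = 0 := by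
  rw [← bd_single, bd_bd]

theorem RG_comm (B : ∀ m, (Fin (m + 1) → S) → (Z →₀ ℝ)) (hB : ∀ m x, wt (B m x) = 1) :
    ∀ m (x : Fin (m + 1) → S), bd (RG B (m + 1) x) = lin (RG B m) (bx x) := by
  intro m
  induction m with
  | zero =>
    intro x
    rw [RG, bd_cj_zero, hB, one_smul]
  | succ m ih =>
    intro x
    have hlin : ∀ c : TC S (m + 1), bd (lin (RG B (m + 1)) c) = lin (RG B m) (bd c) := by
      intro c
      have : (bd.comp (lin (RG B (m + 1))) : TC S (m + 1) →ₗ[ℝ] TC Z m) =
          (lin (RG B m)).comp bd := by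
        refine Finsupp.lhom_ext' fun y => LinearMap.ext_ring ?_
        simp only [LinearMap.comp_apply, Finsupp.lsingle_apply]
        rw [lin_single, bd_single, ih]
      exact LinearMap.congr_fun this c
    rw [RG, bd_cj, hB, one_smul, hlin, bd_bx, map_zero, map_zero, sub_zero]

/-- the action on weights -/
noncomputable def gw (γ : Γ) : (Z →₀ ℝ) →ₗ[ℝ] (Z →₀ ℝ) := Finsupp.lmapDomain ℝ ℝ (fun z => γ • z)

theorem gw_single (γ : Γ) (z : Z) (c : ℝ) : gw γ (Finsupp.single z c) = Finsupp.single (γ • z) c := by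
  rw [gw, Finsupp.lmapDomain_apply, Finsupp.mapDomain_single]

theorem ga_cj {m : ℕ} (γ : Γ) (w : Z →₀ ℝ) (c : TC Z m) :
    ga γ (cj w c) = cj (gw γ w) (ga γ c) := by
  induction w using Finsupp.induction_linear with
  | zero => simp
  | add v w hv hw => simp only [map_add, LinearMap.add_apply, hv, hw]
  | single b t =>
    have e : Finsupp.single b t = t • Finsupp.single b (1 : ℝ) := by simp
    rw [e, map_smul, map_smul, map_smul, LinearMap.smul_apply, LinearMap.smul_apply, map_smul,
      cj_single, ga_cn, gw_single, cj_single]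

theorem RG_eqv (B : ∀ m, (Fin (m + 1) → S) → (Z →₀ ℝ)) (γ : Γ)
    (hB : ∀ m x, B m (γ • x) = gw γ (B m x)) :
    ∀ m (x : Fin m → S), RG B m (γ • x) = ga γ (RG B m x) := by
  intro m
  induction m with
  | zero =>
    intro x
    rw [RG, RG, ga_single]
    congr 1
    exact Subsingleton.elim _ _
  | succ m ih =>
    intro x
    rw [RG, RG, ga_cj, hB, ga_bx, ga_lin γ _ ih]

/-- recursion with equivariant apexes of weight one gives a chain map -/
noncomputable def recMap (B : ∀ m, (Fin (m + 1) → S) → (Z →₀ ℝ)) (hB : ∀ m x, wt (B m x) = 1)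
    (hBe : ∀ m (γ : Γ) x, B m (γ • x) = gw γ (B m x)) : ChMap Γ S Z where
  G := RG B
  eqv := fun m γ x => RG_eqv B γ (fun m x => hBe m γ x) m x
  comm := RG_comm B hB
  aug := fun _ => rfl

/-- the chain map of an equivariant map -/
noncomputable def pushMap (u : S → Z) (hu : ∀ (γ : Γ) x, u (γ • x) = γ • u x) : ChMap Γ S Z where
  G := fun m x => Finsupp.single (fun j => u (x j)) 1
  eqv := fun m γ x => by
    rw [ga_single]
    congr 1
    funext j
    exact hu γ (x j)
  comm := fun m x => by
    rw [bd_single, bx, bx, map_sum]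
    refine Finset.sum_congr rfl fun i _ => ?_
    rw [map_smul, lin_single]
  aug := fun x => by
    congr 1
    exact Subsingleton.elim _ _

/-- composition -/
noncomputable def ChMap.comp {W : Type} [MulAction Γ W] (Q : ChMap Γ Z W) (P : ChMap Γ S Z) :
    ChMap Γ S W where
  G := fun m x => lin (Q.G m) (P.G m x)
  eqv := fun m γ x => by
    rw [P.eqv, ga_lin γ _ (fun y => Q.eqv m γ y)]
  comm := fun m x => by
    rw [Q.bd_lin, P.comm, lin_lin]
  aug := fun x => by
    rw [P.aug, lin_single, Q.aug]

/-- the identity -/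
noncomputable def ChMap.id : ChMap Γ S S := pushMap (fun x => x) fun _ _ => rfl

/-- iteration -/
noncomputable def ChMap.iter (P : ChMap Γ S S) : ℕ → ChMap Γ S S
  | 0 => ChMap.id
  | N + 1 => P.comp (P.iter N)

end rec

section alt

variable {Γ S : Type} [Group Γ] [MulAction Γ S]

/-- the barycentric weight -/
noncomputable def ba (m : ℕ) (x : Fin (m + 1) → S) : S →₀ ℝ :=
  ∑ j, ((m + 1 : ℝ)⁻¹) • Finsupp.single (x j) 1

theorem wt_ba (m : ℕ) (x : Fin (m + 1) → S) : wt (ba m x) = 1 := by
  rw [ba, map_sum]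
  simp only [map_smul, wt_single, smul_eq_mul, mul_one]
  rw [Finset.sum_const, Finset.card_univ, Fintype.card_fin, nsmul_eq_mul]
  push_cast
  exact mul_inv_cancel₀ (by positivity)

/-- the alternation -/
noncomputable def altMap : ChMap Γ S S :=
  recMap ba wt_ba fun m γ x => by
    rw [ba, ba, map_sum]
    refine Finset.sum_congr rfl fun j _ => ?_
    rw [map_smul, gw_single]
    rfl

theorem ba_perm (m : ℕ) (x : Fin (m + 1) → S) (π : Equiv.Perm (Fin (m + 1))) :
    ba m (x ∘ π) = ba m x := by
  rw [ba, ba]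
  exact Equiv.sum_comp π fun j => ((m + 1 : ℝ)⁻¹) • Finsupp.single (x j) (1 : ℝ)

theorem swap_succAbove {m : ℕ} (x : Fin (m + 1) → S) (a b : Fin (m + 1)) (l : Fin (m + 1))
    (ha : l ≠ a) (hb : l ≠ b) (hab : a ≠ b) : ∃ a' b' : Fin m, a' ≠ b' ∧
    (fun j => (x ∘ Equiv.swap a b) (l.succAbove j)) =
      (fun j => x (l.succAbove j)) ∘ Equiv.swap a' b' := by
  obtain ⟨a', rfl⟩ := Fin.exists_succAbove_eq (Ne.symm ha)
  obtain ⟨b', rfl⟩ := Fin.exists_succAbove_eq (Ne.symm hb)
  refine ⟨a', b', fun h => hab (by rw [h]), ?_⟩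
  funext j
  simp only [Function.comp_apply]
  congr 1
  rcases eq_or_ne j a' with rfl | hja
  · rw [Equiv.swap_apply_left, Equiv.swap_apply_left]
  rcases eq_or_ne j b' with rfl | hjb
  · rw [Equiv.swap_apply_right, Equiv.swap_apply_right]
  rw [Equiv.swap_apply_of_ne_of_ne hja hjb, Equiv.swap_apply_of_ne_of_ne]
  · exact fun h => hja (Fin.succAbove_right_injective h)
  · exact fun h => hjb (Fin.succAbove_right_injective h)

theorem swap_adj_left {m : ℕ} (x : Fin (m + 2) → S) (i : Fin (m + 1)) :
    (fun j => (x ∘ Equiv.swap i.castSucc i.succ) (i.castSucc.succAbove j)) =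
      fun j => x (i.succ.succAbove j) := by
  funext j
  simp only [Function.comp_apply]
  congr 1
  rcases lt_trichotomy j i with h | rfl | h
  · rw [Fin.succAbove_of_castSucc_lt _ _ (Fin.castSucc_lt_castSucc_iff.2 h),
      Fin.succAbove_of_castSucc_lt _ _ (Fin.castSucc_lt_succ_iff.2 h.le),
      Equiv.swap_apply_of_ne_of_ne]
    · exact fun e => h.ne (Fin.castSucc_injective _ e)
    · intro e
      have := congrArg Fin.val e
      simp at this
      have h' : (j : ℕ) < i := h
      omega
  · rw [Fin.succAbove_castSucc_self, Equiv.swap_apply_right, Fin.succAbove_succ_self]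
  · rw [Fin.succAbove_of_lt_succ _ _ (by
      rw [Fin.lt_def, Fin.val_castSucc, Fin.val_succ]; have h' : (i : ℕ) < j := h; omega),
      Fin.succAbove_of_lt_succ _ _ (by
      rw [Fin.lt_def, Fin.val_succ, Fin.val_succ]; have h' : (i : ℕ) < j := h; omega),
      Equiv.swap_apply_of_ne_of_ne]
    · intro e
      have := congrArg Fin.val e
      simp at this
      have h' : (i : ℕ) < j := h
      omega
    · exact fun e => h.ne (Fin.succ_injective _ e).symm

theorem swap_adj_right {m : ℕ} (x : Fin (m + 2) → S) (i : Fin (m + 1)) :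
    (fun j => (x ∘ Equiv.swap i.castSucc i.succ) (i.succ.succAbove j)) =
      fun j => x (i.castSucc.succAbove j) := by
  have h := swap_adj_left (x ∘ Equiv.swap i.castSucc i.succ) i
  rw [← h]
  funext j
  simp only [Function.comp_apply, Equiv.swap_apply_self]

theorem altMap_perm : ∀ (m : ℕ) (x : Fin m → S) (π : Equiv.Perm (Fin m)),
    (altMap (Γ := Γ)).G m (x ∘ π) = ((Equiv.Perm.sign π : ℤ) : ℝ) • (altMap (Γ := Γ)).G m x := by
  intro m
  induction m with
  | zero =>
    intro x π
    have : π = 1 := Subsingleton.elim _ _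
    subst this
    simp
  | succ m ih =>
    have hadj : ∀ (x : Fin (m + 1) → S) (i : Fin m),
        (altMap (Γ := Γ)).G (m + 1) (x ∘ Equiv.swap i.castSucc i.succ) =
          (-1 : ℝ) • (altMap (Γ := Γ)).G (m + 1) x := by
      intro x i
      obtain ⟨m, rfl⟩ : ∃ m', m = m' + 1 := ⟨m - 1, by have := i.pos; omega⟩
      have key : lin ((altMap (Γ := Γ)).G (m + 1)) (bx (x ∘ Equiv.swap i.castSucc i.succ)) =
          (-1 : ℝ) • lin ((altMap (Γ := Γ)).G (m + 1)) (bx x) := by
        rw [bx, bx, map_sum, map_sum, Finset.smul_sum]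
        have hne : i.castSucc ≠ i.succ := (Fin.castSucc_lt_succ).ne
        -- reindex by the transposition
        rw [← Equiv.sum_comp (Equiv.swap i.castSucc i.succ)]
        refine Finset.sum_congr rfl fun l _ => ?_
        rw [map_smul, map_smul, lin_single, lin_single]
        rcases eq_or_ne l i.castSucc with rfl | hl1
        · rw [Equiv.swap_apply_left, swap_adj_right, Fin.val_castSucc, Fin.val_succ, pow_succ,
            smul_smul]
          congr 1
          ring
        rcases eq_or_ne l i.succ with rfl | hl2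
        · rw [Equiv.swap_apply_right, swap_adj_left, Fin.val_castSucc, Fin.val_succ, pow_succ,
            smul_smul]
          congr 1
          ring
        rw [Equiv.swap_apply_of_ne_of_ne hl1 hl2]
        obtain ⟨a', b', hab, e⟩ := swap_succAbove x i.castSucc i.succ l hl1 hl2 hne
        rw [e, ih, Equiv.Perm.sign_swap hab, smul_smul, smul_smul]
        congr 1
        push_cast
        ring
      show cj (ba _ (x ∘ Equiv.swap i.castSucc i.succ))
        (lin ((altMap (Γ := Γ)).G (m + 1)) (bx (x ∘ Equiv.swap i.castSucc i.succ))) =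
        (-1 : ℝ) • cj (ba _ x) (lin ((altMap (Γ := Γ)).G (m + 1)) (bx x))
      rw [ba_perm, key, map_smul]
    intro x π
    have hmem : π ∈ Submonoid.closure
        (Set.range fun i : Fin m => Equiv.swap i.castSucc i.succ) := by
      rw [Equiv.Perm.mclosure_swap_castSucc_succ]
      trivial
    induction hmem using Submonoid.closure_induction generalizing x with
    | mem σ hσ =>
      obtain ⟨i, rfl⟩ := hσ
      show (altMap (Γ := Γ)).G (m + 1) (x ∘ Equiv.swap i.castSucc i.succ) = _
      rw [hadj, Equiv.Perm.sign_swap (Fin.castSucc_lt_succ).ne]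
      simp
    | one => simp
    | mul σ τ _ _ hσ hτ =>
      have e : x ∘ (σ * τ : Equiv.Perm (Fin (m + 1))) = (x ∘ σ) ∘ τ := rfl
      rw [e, hτ, hσ, Equiv.Perm.sign_mul, smul_smul]
      congr 1
      push_cast
      ring

/-- the alternation kills the tuples with repetitions -/
theorem altMap_rep {m : ℕ} (x : Fin m → S) (h : ¬ Function.Injective x) :
    (altMap (Γ := Γ)).G m x = 0 := by
  rw [Function.not_injective_iff] at h
  obtain ⟨i, j, hij, hne⟩ := h
  have e : x ∘ Equiv.swap i j = x := by
    funext l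
    simp only [Function.comp_apply]
    rcases eq_or_ne l i with rfl | hl
    · rw [Equiv.swap_apply_left, hij]
    rcases eq_or_ne l j with rfl | hl'
    · rw [Equiv.swap_apply_right, hij]
    rw [Equiv.swap_apply_of_ne_of_ne hl hl']
  have h1 := altMap_perm (Γ := Γ) m x (Equiv.swap i j)
  rw [e, Equiv.Perm.sign_swap hne] at h1
  have h2 : (2 : ℝ) • (altMap (Γ := Γ)).G m x = 0 := by
    rw [two_smul]
    nth_rewrite 1 [h1]
    simp
  exact (smul_eq_zero.1 h2).resolve_left two_ne_zero

end alt

end Pool.Agent.Helper63.SV
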