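import Pool.Agent.Helper63.SV.Uni2

/-!
Project SV (helper63): reduction of weakly commensurated abelian groups to virtually unipotent ones.
-/

set_option autoImplicit false

open Set Metric Filter Topology NormedSpace

namespace Pool.Agent.Helper63.SV

section gen

variable {F : Type} [NormedAddCommGroup F] [NormedSpace ℝ F]

theorem gen_mono {T : F →L[ℝ] F} {m j m' j' : ℕ} {w : F} (h : ((T ^ m - 1) ^ j) w = 0)
    (hm : m ∣ m') (hj : j ≤ j') : ((T ^ m' - 1) ^ j') w = 0 := by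
  obtain ⟨q, rfl⟩ := hm
  obtain ⟨i, rfl⟩ := Nat.exists_eq_add_of_le hj
  have hc : Commute (T ^ m - 1) (∑ i ∈ Finset.range q, (T ^ m) ^ i) := by
    refine Commute.sum_right _ _ _ fun i _ => ?_
    exact ((Commute.refl (T ^ m)).pow_right i).sub_left (Commute.one_left _)
  have e : (T ^ (m * q) - 1) ^ (j + i) =
      ((∑ i ∈ Finset.range q, (T ^ m) ^ i) ^ (j + i) * (T ^ m - 1) ^ i) * (T ^ m - 1) ^ j := by
    rw [pow_mul, ← mul_geom_sum, hc.mul_pow, (hc.pow_pow _ _).eq, mul_assoc, ← pow_add,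
      add_comm i j]
  rw [e]
  show ((∑ i ∈ Finset.range q, (T ^ m) ^ i) ^ (j + i) * (T ^ m - 1) ^ i)
    (((T ^ m - 1) ^ j) w) = 0
  rw [h, map_zero]

/-- the generalized eigenvectors whose eigenvalues are roots of unity -/
def gen (T : F →L[ℝ] F) : Submodule ℝ F where
  carrier := {w | ∃ m : ℕ, 0 < m ∧ ∃ j : ℕ, ((T ^ m - 1) ^ j) w = 0}
  zero_mem' := ⟨1, one_pos, 0, map_zero _⟩
  add_mem' := by
    rintro v w ⟨m, hm, j, h⟩ ⟨m', hm', j', h'⟩
    refine ⟨m * m', Nat.mul_pos hm hm', max j j', ?_⟩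
    rw [map_add, gen_mono h (Dvd.intro _ rfl) (le_max_left _ _),
      gen_mono h' (Dvd.intro_left _ rfl) (le_max_right _ _), add_zero]
  smul_mem' := by
    rintro c w ⟨m, hm, j, h⟩
    exact ⟨m, hm, j, by rw [map_smul, h, smul_zero]⟩

theorem mem_gen (T : F →L[ℝ] F) (w : F) :
    w ∈ gen T ↔ ∃ m : ℕ, 0 < m ∧ ∃ j : ℕ, ((T ^ m - 1) ^ j) w = 0 := Iff.rfl

theorem nil_of_gen [FiniteDimensional ℝ F] (T : F →L[ℝ] F) (h : ∀ w, w ∈ gen T) :
    ∃ m : ℕ, 0 < m ∧ IsNilpotent (T ^ m - 1) := by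
  classical
  obtain ⟨S, hS⟩ := (Module.Finite.fg_top : (⊤ : Submodule ℝ F).FG)
  have h1 : ∀ S : Finset F, ∃ m : ℕ, 0 < m ∧ ∃ j : ℕ, ∀ w ∈ S, ((T ^ m - 1) ^ j) w = 0 := by
    intro S
    induction S using Finset.induction_on with
    | empty => exact ⟨1, one_pos, 0, fun w hw => absurd hw (Finset.notMem_empty w)⟩
    | insert v S _ ih =>
      obtain ⟨m, hm, j, hj⟩ := ih
      obtain ⟨m', hm', j', hj'⟩ := h v
      refine ⟨m * m', Nat.mul_pos hm hm', max j j', fun w hw => ?_⟩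
      rcases Finset.mem_insert.1 hw with rfl | hw
      · exact gen_mono hj' (Dvd.intro_left _ rfl) (le_max_right _ _)
      · exact gen_mono (hj w hw) (Dvd.intro _ rfl) (le_max_left _ _)
  obtain ⟨m, hm, j, hj⟩ := h1 S
  refine ⟨m, hm, j, ?_⟩
  refine ContinuousLinearMap.ext fun w => ?_
  have h2 : (⊤ : Submodule ℝ F) ≤ LinearMap.ker (((T ^ m - 1) ^ j : F →L[ℝ] F) : F →ₗ[ℝ] F) := by
    rw [← hS, Submodule.span_le]
    exact fun w hw => hj w hw
  exact h2 (trivial : w ∈ (⊤ : Submodule ℝ F))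

end gen

section red

variable {H E : Type} [Group H] [NormedAddCommGroup E] [NormedSpace ℝ E] [FiniteDimensional ℝ E]
  [MulAction H E]

omit [MulAction H E] in
/-- some vector outside of `E` is in all the generalized eigenspaces -/
theorem exists_vec (hol : H →* (E →ᵃ[ℝ] E)) (A : Subgroup H)
    (hab : ∀ a ∈ A, ∀ b ∈ A, a * b = b * a) :
    ∃ w : E × ℝ, w.2 ≠ 0 ∧ ∀ a ∈ A, w ∈ gen (rep hol a) := by
  let P : Set (Submodule ℝ (E × ℝ)) :=
    {W | (∀ a ∈ A, ∀ w ∈ W, rep hol a w ∈ W) ∧ ∃ w ∈ W, w.2 ≠ 0}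
  have hP : (⊤ : Submodule ℝ (E × ℝ)) ∈ P :=
    ⟨fun _ _ _ _ => trivial, (0, 1), trivial, one_ne_zero⟩
  obtain ⟨W, hW, hmin⟩ := (wellFounded_lt (α := Submodule ℝ (E × ℝ))).has_min P ⟨_, hP⟩
  obtain ⟨w, hw, hw2⟩ := hW.2
  refine ⟨w, hw2, fun a ha => ?_⟩
  set T : (E × ℝ) →L[ℝ] (E × ℝ) := rep hol a - 1 with hT
  have hT2 : ∀ x, (T x).2 = 0 := fun x => by
    show (rep hol a x).2 - x.2 = 0
    have : (rep hol a x).2 = x.2 := hatL_snd _ _
    rw [this, sub_self]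
  have hTW : ∀ x ∈ W, (T : (E × ℝ) →ₗ[ℝ] (E × ℝ)) x ∈ W := fun x hx =>
    W.sub_mem (hW.1 a ha x hx) hx
  set TW : W →ₗ[ℝ] W := (T : (E × ℝ) →ₗ[ℝ] (E × ℝ)).restrict hTW with hTWdef
  obtain ⟨N, hN, hN1⟩ := ((LinearMap.eventually_isCompl_ker_pow_range_pow TW).and
    (eventually_ge_atTop 1)).exists
  have hpow : ∀ (N : ℕ) (x : W), (((TW ^ N) x : W) : E × ℝ) = (T ^ N) (x : E × ℝ) := by
    intro N
    induction N with
    | zero => exact fun x => rfl
    | succ N ih =>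
      intro x
      rw [pow_succ, pow_succ]
      show (((TW ^ N) (TW x) : W) : E × ℝ) = (T ^ N) (T (x : E × ℝ))
      rw [ih]
      rfl
  have hw' : (⟨w, hw⟩ : W) ∈ LinearMap.ker (TW ^ N) ⊔ LinearMap.range (TW ^ N) := by
    rw [hN.sup_eq_top]
    trivial
  obtain ⟨u, hu, v, ⟨v', hv'⟩, huv⟩ := Submodule.mem_sup.1 hw'
  have hv2 : (v : E × ℝ).2 = 0 := by
    rw [← hv', hpow]
    obtain ⟨N', rfl⟩ := Nat.exists_eq_add_of_le hN1
    rw [pow_add, pow_one]
    exact hT2 _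
  have hu2 : (u : E × ℝ).2 ≠ 0 := by
    intro h0
    apply hw2
    have e : w = (u : E × ℝ) + (v : E × ℝ) := by
      have := congrArg Subtype.val huv
      exact this.symm
    rw [e, Prod.snd_add, h0, hv2, add_zero]
  have hu' : (T ^ N) (u : E × ℝ) = 0 := by
    rw [← hpow, hu]
    rfl
  set W' : Submodule ℝ (E × ℝ) := W ⊓ LinearMap.ker ((T ^ N : (E × ℝ) →L[ℝ] (E × ℝ)) :
    (E × ℝ) →ₗ[ℝ] (E × ℝ)) with hW'
  have hW'P : W' ∈ P := by
    refine ⟨?_, u, ⟨u.2, hu'⟩, hu2⟩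
    rintro b hb x ⟨hx, hx'⟩
    refine ⟨hW.1 b hb x hx, ?_⟩
    have hc : Commute (T ^ N) (rep hol b) := by
      apply Commute.pow_left
      have h1 : Commute (rep hol a) (rep hol b) := by
        show _ * _ = _ * _
        rw [← map_mul, ← map_mul, hab a ha b hb]
      exact h1.sub_left (Commute.one_left _)
    show (T ^ N) (rep hol b x) = 0
    have e : (T ^ N) (rep hol b x) = (rep hol b) ((T ^ N) x) :=
      congrArg (fun S : (E × ℝ) →L[ℝ] (E × ℝ) => S x) hc.eq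
    have hx'' : (T ^ N) x = 0 := hx'
    rw [e, hx'', map_zero]
  have heq : W' = W := by
    by_contra hne
    exact hmin W' hW'P (lt_of_le_of_ne inf_le_left hne)
  have hwW' : w ∈ W' := by
    rw [heq]
    exact hw
  refine ⟨1, one_pos, N, ?_⟩
  rw [pow_one]
  exact hwW'.2

/-- **Vanishing for weakly commensurated abelian groups.** -/
theorem core_ab (hol : H →* (E →ᵃ[ℝ] E)) (hact : ∀ (γ : H) (x : E), γ • x = hol γ x)
    (hfree : ∀ (γ : H) (x : E), γ • x = x → γ = 1)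
    (hpd : ∀ K : Set E, IsCompact K → {γ : H | ∃ x ∈ K, γ • x ∈ K}.Finite)
    (hcc : ∃ K : Set E, IsCompact K ∧ ∀ x : E, ∃ γ : H, γ • x ∈ K) (A : Subgroup H)
    (hab : ∀ a ∈ A, ∀ b ∈ A, a * b = b * a)
    (hcom : ∀ (γ : H), ∀ a ∈ A, ∃ m : ℕ, 0 < m ∧ γ * a ^ m * γ⁻¹ ∈ A)
    {r : ℕ} (φ : Multiplicative (Fin r → ℤ) →* H) (hφ : Function.Injective φ)
    (hφA : ∀ m, φ m ∈ A) {n : ℕ} (hn : Module.finrank ℝ E < n + r) : Van H E n := by
  obtain ⟨w, hw2, hw⟩ := exists_vec hol A hab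
  let K : Submodule ℝ (E × ℝ) := ⨅ a : A, gen (rep hol a)
  have hK : ∀ v, v ∈ K ↔ ∀ a ∈ A, v ∈ gen (rep hol a) := by
    intro v
    rw [Submodule.mem_iInf]
    exact ⟨fun h a ha => h ⟨a, ha⟩, fun h a => h a a.2⟩
  have hKinv : ∀ (γ : H), ∀ v ∈ K, rep hol γ v ∈ K := by
    intro γ v hv
    rw [hK] at hv ⊢
    intro a ha
    obtain ⟨m, hm, hb⟩ := hcom γ⁻¹ a ha
    rw [inv_inv] at hb
    obtain ⟨m', hm', j, hj⟩ := hv _ hb
    refine ⟨m * m', Nat.mul_pos hm hm', j, ?_⟩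
    have h1 : SemiconjBy (rep hol γ) (rep hol (γ⁻¹ * a ^ m * γ) ^ m') (rep hol a ^ (m * m')) := by
      rw [pow_mul]
      apply SemiconjBy.pow_right
      show rep hol γ * rep hol (γ⁻¹ * a ^ m * γ) = rep hol a ^ m * rep hol γ
      rw [← map_pow, ← map_mul, ← map_mul]
      congr 1
      group
    have h2 : SemiconjBy (rep hol γ) ((rep hol (γ⁻¹ * a ^ m * γ) ^ m' - 1) ^ j)
        ((rep hol a ^ (m * m') - 1) ^ j) := (h1.sub_right (SemiconjBy.one_right _)).pow_right j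
    have h3 : (rep hol γ) (((rep hol (γ⁻¹ * a ^ m * γ) ^ m' - 1) ^ j) v) =
        ((rep hol a ^ (m * m') - 1) ^ j) (rep hol γ v) :=
      congrArg (fun S : (E × ℝ) →L[ℝ] (E × ℝ) => S v) h2.eq
    rw [← h3, hj, map_zero]
  -- the base point
  obtain ⟨e₁, he₁⟩ : ∃ e₁ : E, ((e₁, 1) : E × ℝ) ∈ K := by
    refine ⟨w.2⁻¹ • w.1, ?_⟩
    have h1 : ((w.2⁻¹ • w.1, 1) : E × ℝ) = w.2⁻¹ • w := by
      refine Prod.ext rfl ?_
      show (1 : ℝ) = w.2⁻¹ * w.2
      rw [inv_mul_cancel₀ hw2]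
    rw [h1]
    exact K.smul_mem _ ((hK w).2 hw)
  let V₁ : Submodule ℝ E := K.comap (LinearMap.inl ℝ E ℝ)
  have hV₁ : ∀ v, v ∈ V₁ ↔ ((v, 0) : E × ℝ) ∈ K := fun v => Iff.rfl
  have hadd1 : ∀ v ∈ V₁, ((v + e₁, 1) : E × ℝ) ∈ K := by
    intro v hv
    have h1 := K.add_mem ((hV₁ v).1 hv) he₁
    rwa [Prod.mk_add_mk, zero_add] at h1
  have hact1 : ∀ (γ : H), ∀ v ∈ V₁, hol γ (v + e₁) - e₁ ∈ V₁ := by
    intro γ v hv
    rw [hV₁]
    have h1 := hKinv γ _ (hadd1 v hv)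
    have h2 : rep hol γ (v + e₁, 1) = (hol γ (v + e₁), 1) := hatL_apply _ _
    rw [h2] at h1
    have h3 := K.sub_mem h1 he₁
    rwa [Prod.mk_sub_mk, sub_self] at h3
  have hlin1 : ∀ (γ : H), ∀ v ∈ V₁, (hol γ).linear v ∈ V₁ := by
    intro γ v hv
    rw [hV₁]
    have h1 := hKinv γ _ ((hV₁ v).1 hv)
    have h2 : rep hol γ (v, 0) = ((hol γ).linear v, 0) := by
      show ((hol γ).linear v + (0 : ℝ) • hol γ 0, (0 : ℝ)) = _
      rw [zero_smul, add_zero]
    rwa [h2] at h1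
  let aff : H → (V₁ →ᵃ[ℝ] V₁) := fun γ =>
    { toFun := fun v => ⟨hol γ ((v : E) + e₁) - e₁, hact1 γ v v.2⟩
      linear := (hol γ).linear.restrict (hlin1 γ)
      map_vadd' := by
        intro p v
        apply Subtype.ext
        show hol γ (((v : E) + (p : E)) + e₁) - e₁ = (hol γ).linear (v : E) +
          (hol γ ((p : E) + e₁) - e₁)
        have h1 := (hol γ).map_vadd ((p : E) + e₁) (v : E)
        rw [vadd_eq_add, vadd_eq_add] at h1
        rw [add_assoc, h1]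
        abel }
  have haff : ∀ (γ : H) (v : V₁), ((aff γ v : V₁) : E) = hol γ ((v : E) + e₁) - e₁ :=
    fun γ v => rfl
  let hol₁ : H →* (V₁ →ᵃ[ℝ] V₁) :=
    { toFun := aff
      map_one' := by
        ext v
        rw [haff, map_one]
        show (v : E) + e₁ - e₁ = v
        abel
      map_mul' := by
        intro γ δ
        ext v
        rw [haff, map_mul]
        show hol γ (hol δ ((v : E) + e₁)) - e₁ = ((aff γ (aff δ v) : V₁) : E)
        rw [haff, haff, sub_add_cancel] }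
  let : MulAction H V₁ :=
    { smul := fun γ v => hol₁ γ v
      one_smul := fun v => by
        show hol₁ 1 v = v
        rw [map_one]
        rfl
      mul_smul := fun γ δ v => by
        show hol₁ (γ * δ) v = hol₁ γ (hol₁ δ v)
        rw [map_mul]
        rfl }
  have hsm : ∀ (γ : H) (v : V₁), γ • v = hol₁ γ v := fun γ v => rfl
  have hsm' : ∀ (γ : H) (v : V₁), (((γ • v : V₁) : E) + e₁) = γ • ((v : E) + e₁) := by
    intro γ v
    rw [hsm]
    show hol γ ((v : E) + e₁) - e₁ + e₁ = _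
    rw [sub_add_cancel, hact]
  have hfree₁ : ∀ (γ : H) (v : V₁), γ • v = v → γ = 1 := by
    intro γ v h
    apply hfree γ ((v : E) + e₁)
    rw [← hsm', h]
  have hcont : Continuous fun v : V₁ => (v : E) + e₁ := continuous_subtype_val.add continuous_const
  have hVan : Van H V₁ n := by
    refine core_unip hol₁ hsm hfree₁ ?_ ?_ A hab hcom ?_ φ hφ hφA ?_
    · intro K₁ hK₁
      refine (hpd _ (hK₁.image hcont)).subset ?_
      rintro γ ⟨v, hv, hv'⟩
      exact ⟨_, ⟨v, hv, rfl⟩, γ • v, hv', hsm' γ v⟩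
    · obtain ⟨KE, hKE, h⟩ := hcc
      refine ⟨(fun v : V₁ => (v : E) + e₁) ⁻¹' KE, ?_, fun v => ?_⟩
      · have hce : IsClosedEmbedding fun v : V₁ => (v : E) + e₁ := by
          have h1 : IsClosedEmbedding (Subtype.val : V₁ → E) :=
            V₁.closed_of_finiteDimensional.isClosedEmbedding_subtypeVal
          exact (Homeomorph.addRight e₁).isClosedEmbedding.comp h1
        exact hce.isCompact_preimage hKE
      · obtain ⟨γ, hγ⟩ := h ((v : E) + e₁)
        refine ⟨γ, ?_⟩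
        show ((γ • v : V₁) : E) + e₁ ∈ KE
        rw [hsm']
        exact hγ
    · intro a ha
      apply nil_of_gen
      intro p
      -- the inclusion of `V₁ × ℝ`
      have hι : ∀ (T : (V₁ × ℝ)), ((T.1 : E) + T.2 • e₁, T.2) ∈ K := by
        intro T
        have h1 := K.add_mem ((hV₁ T.1).1 T.1.2) (K.smul_mem T.2 he₁)
        rw [Prod.smul_mk, Prod.mk_add_mk, zero_add, smul_eq_mul, mul_one] at h1
        exact h1
      obtain ⟨m, hm, j, hj⟩ := (hK _).1 (hι p) a ha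
      refine ⟨m, hm, j, ?_⟩
      let ι : (V₁ × ℝ) →L[ℝ] (E × ℝ) :=
        (V₁.subtypeL.comp (ContinuousLinearMap.fst ℝ V₁ ℝ) +
          (ContinuousLinearMap.snd ℝ V₁ ℝ).smulRight e₁).prod (ContinuousLinearMap.snd ℝ V₁ ℝ)
      have hιa : ∀ T : V₁ × ℝ, ι T = ((T.1 : E) + T.2 • e₁, T.2) := fun T => rfl
      have hιinj : Function.Injective ι := by
        rw [injective_iff_map_eq_zero]
        intro T hT
        rw [hιa] at hT
        have h2 : T.2 = 0 := congrArg Prod.snd hT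
        have h1 : (T.1 : E) + T.2 • e₁ = 0 := congrArg Prod.fst hT
        rw [h2, zero_smul, add_zero] at h1
        exact Prod.ext (Subtype.ext h1) h2
      have hιrep : ∀ T : V₁ × ℝ, ι (rep hol₁ a T) = rep hol a (ι T) := by
        intro T
        have e1 : rep hol₁ a T = ((hol₁ a).linear T.1 + T.2 • hol₁ a 0, T.2) := rfl
        have e2 : rep hol a (ι T) = ((hol a).linear ((T.1 : E) + T.2 • e₁) + T.2 • hol a 0, T.2) :=
          rfl
        rw [e1, e2, hιa]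
        refine Prod.ext ?_ rfl
        show (hol a).linear (T.1 : E) + T.2 • (hol a ((0 : V₁) + e₁ : E) - e₁) + T.2 • e₁ = _
        rw [Submodule.coe_zero, zero_add, ← aff_eq (hol a) e₁, map_add, map_smul]
        simp only [smul_sub, smul_add]
        abel
      have hpow : ∀ (j : ℕ) (T : V₁ × ℝ), ι (((rep hol₁ a ^ m - 1) ^ j) T) =
          ((rep hol a ^ m - 1) ^ j) (ι T) := by
        have h0 : ∀ (m : ℕ) (T : V₁ × ℝ), ι ((rep hol₁ a ^ m) T) = (rep hol a ^ m) (ι T) := by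
          intro m
          induction m with
          | zero => exact fun T => rfl
          | succ m ih =>
            intro T
            rw [pow_succ, pow_succ]
            show ι ((rep hol₁ a ^ m) (rep hol₁ a T)) = (rep hol a ^ m) (rep hol a (ι T))
            rw [ih, hιrep]
        intro j
        induction j with
        | zero => exact fun T => rfl
        | succ j ih =>
          intro T
          rw [pow_succ, pow_succ]
          show ι (((rep hol₁ a ^ m - 1) ^ j) ((rep hol₁ a ^ m) T - T)) =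
            ((rep hol a ^ m - 1) ^ j) ((rep hol a ^ m) (ι T) - ι T)
          rw [ih, map_sub, h0]
      apply hιinj
      rw [hpow, map_zero]
      exact hj
    · exact (Nat.add_lt_add_iff_right.1 (lt_of_le_of_lt (Nat.add_le_add_right
        (Submodule.finrank_le V₁) 0) hn) : _)
  have : Nonempty V₁ := ⟨0⟩
  have : Nonempty E := ⟨0⟩
  exact Van.of_free hfree hfree₁ hVan

end red

end Pool.Agent.Helper63.SV
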