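import Pool.Graph.R_pool_sql_team_seeded_63374d34.N951.SV.Cone
import Pool.Graph.R_pool_sql_team_seeded_63374d34.N278.SV.Lift
import Pool.Graph.R_pool_sql_team_seeded_63374d34.N340.SV.HB
import Pool.Agent.Helper63.SV.Cells

/-!
Project SV (helper63): from singular chains of the quotient of a convex set to chains of tuples.
-/

set_option autoImplicit false

open Set Filter Topology

namespace Pool.Agent.Helper63.SV

open Pool.Agent.N520.SV (Sx Chain face bdry norm1 BCob Negligible)
open Pool.Agent.N951.SV (tl cone_cont face_self face_succAbove tl_apply)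

section singular

variable {X : Type} [TopologicalSpace X]

/-- affine maps between standard simplices given by maps of the vertices -/
noncomputable def smap {k N : ℕ} (θ : Fin (k + 1) → Fin (N + 1)) : C(Sx k, Sx N) :=
  ⟨stdSimplex.map θ, stdSimplex.continuous_map _⟩

theorem smap_face {k N : ℕ} (θ : Fin (k + 2) → Fin (N + 1)) (i : Fin (k + 2)) :
    (smap θ).comp (face i) = smap fun j => θ (i.succAbove j) := by
  ext p : 1
  show stdSimplex.map θ (stdSimplex.map i.succAbove p) = stdSimplex.map _ p
  rw [stdSimplex.map_comp_apply]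
  rfl

/-- the boundary of a singular simplex -/
noncomputable def bs {k : ℕ} (σ : C(Sx (k + 1), X)) : Chain k X :=
  ∑ i : Fin (k + 2), ((-1 : ℝ) ^ (i : ℕ)) • Finsupp.single (σ.comp (face i)) 1

theorem bdry_single {k : ℕ} (σ : C(Sx (k + 1), X)) :
    bdry k (Finsupp.single σ 1) = bs σ := by
  rw [bdry, Finsupp.linearCombination_single, one_smul]
  rfl

/-- the chains of a simplex -/
noncomputable def Psi {N : ℕ} (σ : C(Sx N, X)) {l : ℕ} : TC (Fin (N + 1)) (l + 1) →ₗ[ℝ] Chain l X :=
  Finsupp.lmapDomain ℝ ℝ fun θ => σ.comp (smap θ)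

theorem Psi_single {N : ℕ} (σ : C(Sx N, X)) {l : ℕ} (θ : Fin (l + 1) → Fin (N + 1)) :
    Psi σ (Finsupp.single θ 1) = Finsupp.single (σ.comp (smap θ)) 1 := by
  rw [Psi, Finsupp.lmapDomain_apply, Finsupp.mapDomain_single]

theorem bdry_Psi {N : ℕ} (σ : C(Sx N, X)) {l : ℕ} (c : TC (Fin (N + 1)) (l + 2)) :
    bdry l (Psi σ c) = Psi σ (bd c) := by
  have : ((bdry l).comp (Psi σ) : TC (Fin (N + 1)) (l + 2) →ₗ[ℝ] Chain l X) =
      (Psi σ).comp bd := by
    refine Finsupp.lhom_ext' fun θ => LinearMap.ext_ring ?_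
    simp only [LinearMap.comp_apply, Finsupp.lsingle_apply]
    rw [Psi_single, bdry_single, bd_single, bx, bs, map_sum]
    refine Finset.sum_congr rfl fun i _ => ?_
    rw [map_smul, Psi_single, ContinuousMap.comp_assoc, smap_face]
  exact LinearMap.congr_fun this c

theorem bdry_bs {k : ℕ} (σ : C(Sx (k + 2), X)) : bdry k (bs σ) = 0 := by
  have h1 : σ.comp (smap id) = σ := by
    ext p : 1
    show σ (stdSimplex.map id p) = σ p
    rw [stdSimplex.map_id_apply]
  have h2 : bs σ = Psi σ (bd (Finsupp.single id 1)) := by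
    rw [← bdry_Psi, Psi_single, h1, bdry_single]
  rw [h2, bdry_Psi, bd_bd, map_zero]

end singular

section cone

variable {Γ X E : Type} [Group Γ] [MulAction Γ X] [NormedAddCommGroup E] [NormedSpace ℝ E]
  [TopologicalSpace X] {dev : X → E} {g : Γ → (E →ᵃ[ℝ] E)}

/-- lifts of maps with values in the range of `dev` -/
noncomputable def lft (hemb : IsEmbedding dev) {k : ℕ} (τ : C(Sx k, E))
    (h : ∀ p, τ p ∈ range dev) : C(Sx k, X) :=
  ⟨fun p => hemb.toHomeomorph.symm ⟨τ p, h p⟩,
    hemb.toHomeomorph.symm.continuous.comp (τ.continuous.subtype_mk h)⟩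

omit [NormedSpace ℝ E] in
theorem dev_lft (hemb : IsEmbedding dev) {k : ℕ} (τ : C(Sx k, E))
    (h : ∀ p, τ p ∈ range dev) (p : Sx k) : dev (lft hemb τ h p) = τ p :=
  congrArg Subtype.val (hemb.toHomeomorph.apply_symm_apply ⟨τ p, h p⟩)

theorem Sx_le_one {k : ℕ} (t : Sx k) (i : Fin (k + 1)) : t.1 i ≤ 1 := stdSimplex.le_one t i

/-- cones in `X` -/
noncomputable def cX (D : ConvData dev g) (hemb : IsEmbedding dev) {k : ℕ} (b : X)
    (s : C(Sx k, X)) : C(Sx (k + 1), X) :=
  lft hemb ⟨fun t => AffineMap.lineMap (dev b) (dev (s (tl t))) (1 - t.1 0),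
    cone_cont (dev b) ⟨fun p => dev (s p), hemb.continuous.comp s.continuous⟩⟩ (by
    intro t
    refine D.conv.segment_subset ⟨b, rfl⟩ ⟨s (tl t), rfl⟩ ?_
    rw [segment_eq_image_lineMap]
    exact ⟨1 - t.1 0, ⟨by linarith [Sx_le_one t 0], by linarith [t.2.1 0]⟩, rfl⟩)

theorem dev_cX (D : ConvData dev g) (hemb : IsEmbedding dev) {k : ℕ} (b : X)
    (s : C(Sx k, X)) (t : Sx (k + 1)) : dev (cX D hemb b s t) =
      AffineMap.lineMap (dev b) (dev (s (tl t))) (1 - t.1 0) := dev_lft hemb _ _ t

theorem cX_face_zero (D : ConvData dev g) (hemb : IsEmbedding dev) {k : ℕ} (b : X)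
    (s : C(Sx k, X)) : (cX D hemb b s).comp (face 0) = s := by
  ext p
  apply D.inj
  rw [ContinuousMap.comp_apply, dev_cX D hemb]
  have h0 : (face 0 p).1 0 = 0 := face_self 0 p
  have h1 : tl (face 0 p) = p := by
    apply Subtype.ext
    funext i
    rw [tl_apply _ (by rw [h0]; norm_num), h0, sub_zero, div_one]
    have := face_succAbove 0 p i
    rwa [Fin.succAbove_zero] at this
  rw [h1, h0, sub_zero, AffineMap.lineMap_apply_one]

theorem cX_face_succ (D : ConvData dev g) (hemb : IsEmbedding dev) {k : ℕ} (b : X)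
    (s : C(Sx (k + 1), X)) (i : Fin (k + 2)) :
    (cX D hemb b s).comp (face i.succ) = cX D hemb b (s.comp (face i)) := by
  ext t
  apply D.inj
  rw [ContinuousMap.comp_apply, dev_cX D hemb, dev_cX D hemb, ContinuousMap.comp_apply]
  have h0 : (face i.succ t).1 0 = t.1 0 := by
    have := face_succAbove i.succ t 0
    rwa [Fin.succ_succAbove_zero] at this
  rw [h0]
  by_cases h : t.1 0 = 1
  · rw [h, sub_self, AffineMap.lineMap_apply_zero, AffineMap.lineMap_apply_zero]
  · have h1 : tl (face i.succ t) = face i (tl t) := by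
      apply Subtype.ext
      funext j
      rw [tl_apply _ (by rw [h0]; exact h), h0]
      rcases Fin.eq_self_or_eq_succAbove i j with hj | ⟨l, hl⟩
      · rw [hj, face_self, face_self, zero_div]
      · rw [hl, face_succAbove, tl_apply _ h, ← Fin.succ_succAbove_succ, face_succAbove]
    rw [h1]

/-- the action on singular simplices -/
def sa (hcont : ∀ γ : Γ, Continuous fun x : X => γ • x) {k : ℕ} (γ : Γ) (s : C(Sx k, X)) :
    C(Sx k, X) := ⟨fun p => γ • s p, (hcont γ).comp s.continuous⟩

theorem cX_sa (D : ConvData dev g) (hemb : IsEmbedding dev)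
    (hcont : ∀ γ : Γ, Continuous fun x : X => γ • x) {k : ℕ} (γ : Γ) (b : X) (s : C(Sx k, X)) :
    cX D hemb (γ • b) (sa hcont γ s) = sa hcont γ (cX D hemb b s) := by
  ext t
  apply D.inj
  show dev (cX D hemb (γ • b) (sa hcont γ s) t) = dev (γ • cX D hemb b s t)
  rw [D.equi, dev_cX D hemb, dev_cX D hemb]
  show AffineMap.lineMap (dev (γ • b)) (dev (γ • s (tl t))) _ = _
  rw [D.equi, D.equi]
  exact (AffineMap.apply_lineMap (g γ) _ _ _).symm

/-- straight simplices -/
noncomputable def str (D : ConvData dev g) (hemb : IsEmbedding dev) {k : ℕ}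
    (x : Fin (k + 1) → X) : C(Sx k, X) :=
  lft hemb ⟨fun p => ∑ i, p.1 i • dev (x i), by
    refine continuous_finsetSum _ fun i _ => Continuous.smul ?_ continuous_const
    exact (continuous_apply i).comp continuous_subtype_val⟩ (by
    intro p
    exact D.conv.sum_mem (fun i _ => p.2.1 i) p.2.2 fun i _ => ⟨x i, rfl⟩)

theorem dev_str (D : ConvData dev g) (hemb : IsEmbedding dev) {k : ℕ}
    (x : Fin (k + 1) → X) (p : Sx k) : dev (str D hemb x p) = ∑ i, p.1 i • dev (x i) :=
  dev_lft hemb _ _ p

theorem str_face (D : ConvData dev g) (hemb : IsEmbedding dev) {k : ℕ}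
    (x : Fin (k + 2) → X) (i : Fin (k + 2)) :
    (str D hemb x).comp (face i) = str D hemb fun j => x (i.succAbove j) := by
  ext p
  apply D.inj
  rw [ContinuousMap.comp_apply, dev_str D hemb, dev_str D hemb, Fin.sum_univ_succAbove _ i, face_self,
    zero_smul, zero_add]
  refine Finset.sum_congr rfl fun j _ => ?_
  rw [face_succAbove]

theorem str_sa (D : ConvData dev g) (hemb : IsEmbedding dev)
    (hcont : ∀ γ : Γ, Continuous fun x : X => γ • x) {k : ℕ} (γ : Γ) (x : Fin (k + 1) → X) :
    str D hemb (γ • x) = sa hcont γ (str D hemb x) := by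
  ext p
  apply D.inj
  show dev (str D hemb (γ • x) p) = dev (γ • str D hemb x p)
  rw [D.equi, dev_str D hemb, dev_str D hemb]
  have h : ∀ w : E, g γ w = (g γ).linear w + g γ 0 := fun w => by
    have := (g γ).map_vadd 0 w
    rw [vadd_eq_add, vadd_eq_add, add_zero] at this
    exact this
  rw [h, map_sum]
  have h1 : ∀ i, p.1 i • dev ((γ • x) i) = (g γ).linear (p.1 i • dev (x i)) + p.1 i • g γ 0 := by
    intro i
    show p.1 i • dev (γ • x i) = _
    rw [D.equi, h, smul_add, map_smul]
  simp only [h1]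
  rw [Finset.sum_add_distrib, ← Finset.sum_smul]
  have h2 : ∑ i, p.1 i = 1 := p.2.2
  rw [h2, one_smul]

/-- the vertices of a singular simplex -/
noncomputable def vt {k : ℕ} (s : C(Sx k, X)) : Fin (k + 1) → X :=
  fun i => s (stdSimplex.vertex i)

theorem vt_face {k : ℕ} (s : C(Sx (k + 1), X)) (i : Fin (k + 2)) :
    vt (s.comp (face i)) = fun j => vt s (i.succAbove j) := by
  funext j
  show s (stdSimplex.map i.succAbove (stdSimplex.vertex j)) = s (stdSimplex.vertex _)
  rw [stdSimplex.map_vertex]

theorem str_vt_zero (D : ConvData dev g) (hemb : IsEmbedding dev) (s : C(Sx 0, X)) :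
    str D hemb (vt s) = s := by
  ext p
  apply D.inj
  rw [dev_str D hemb, Fin.sum_univ_one]
  have h1 : p = stdSimplex.vertex 0 := Subsingleton.elim _ _
  subst h1
  simp [vt]

/-- cones of chains -/
noncomputable def CX (D : ConvData dev g) (hemb : IsEmbedding dev) {k : ℕ} (b : X) :
    Chain k X →ₗ[ℝ] Chain (k + 1) X :=
  Finsupp.lmapDomain ℝ ℝ (cX D hemb b)

theorem CX_single (D : ConvData dev g) (hemb : IsEmbedding dev) {k : ℕ} (b : X)
    (s : C(Sx k, X)) (c : ℝ) :
    CX D hemb b (Finsupp.single s c) = Finsupp.single (cX D hemb b s) c := by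
  rw [CX, Finsupp.lmapDomain_apply, Finsupp.mapDomain_single]

theorem bdry_CX (D : ConvData dev g) (hemb : IsEmbedding dev) {k : ℕ} (b : X)
    (c : Chain (k + 1) X) : bdry (k + 1) (CX D hemb b c) = c - CX D hemb b (bdry k c) := by
  have : ((bdry (k + 1)).comp (CX D hemb b) : Chain (k + 1) X →ₗ[ℝ] Chain (k + 1) X) =
      LinearMap.id - (CX D hemb b).comp (bdry k) := by
    refine Finsupp.lhom_ext' fun s => LinearMap.ext_ring ?_
    simp only [LinearMap.comp_apply, Finsupp.lsingle_apply, LinearMap.sub_apply,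
      LinearMap.id_apply]
    rw [CX_single, bdry_single, bdry_single, bs, Fin.sum_univ_succ, cX_face_zero]
    simp only [Fin.val_zero, pow_zero, one_smul]
    rw [sub_eq_add_neg]
    congr 1
    rw [bs, map_sum, ← Finset.sum_neg_distrib]
    refine Finset.sum_congr rfl fun i _ => ?_
    rw [cX_face_succ, map_smul, CX_single, Fin.val_succ, pow_succ]
    simp
  exact LinearMap.congr_fun this c

/-- singular simplex minus straight simplex -/
noncomputable def TT (D : ConvData dev g) (hemb : IsEmbedding dev) {k : ℕ} (s : C(Sx k, X)) :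
    Chain k X := Finsupp.single s 1 - Finsupp.single (str D hemb (vt s)) 1

/-- the homotopy to straight simplices -/
noncomputable def HS (D : ConvData dev g) (hemb : IsEmbedding dev) :
    ∀ k, C(Sx k, X) → Chain (k + 1) X
  | 0, _ => 0
  | k + 1, s => CX D hemb (s (stdSimplex.vertex 0))
      (TT D hemb s - Finsupp.linearCombination ℝ (HS D hemb k) (bs s))

theorem bdry_TT (D : ConvData dev g) (hemb : IsEmbedding dev) {k : ℕ} (s : C(Sx (k + 1), X)) :
    bdry k (TT D hemb s) = Finsupp.linearCombination ℝ (TT D hemb) (bs s) := by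
  rw [TT, map_sub, bdry_single, bdry_single]
  nth_rewrite 3 [bs]
  rw [map_sum]
  simp only [map_smul, Finsupp.linearCombination_single, one_smul]
  rw [bs, bs, ← Finset.sum_sub_distrib]
  refine Finset.sum_congr rfl fun i _ => ?_
  rw [← smul_sub, TT, str_face, vt_face]

theorem HS_spec (D : ConvData dev g) (hemb : IsEmbedding dev) : ∀ k (s : C(Sx (k + 1), X)),
    bdry (k + 1) (HS D hemb (k + 1) s) =
      TT D hemb s - Finsupp.linearCombination ℝ (HS D hemb k) (bs s) := by
  intro k
  induction k with
  | zero =>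
    intro s
    rw [HS, bdry_CX, map_sub, bdry_TT]
    have e1 : ∀ c : Chain 0 X, Finsupp.linearCombination ℝ (TT D hemb) c = 0 := by
      intro c
      rw [Finsupp.linearCombination_apply, Finsupp.sum]
      refine Finset.sum_eq_zero fun y _ => ?_
      rw [TT, str_vt_zero, sub_self, smul_zero]
    have e2 : ∀ c : Chain 0 X, Finsupp.linearCombination ℝ (HS D hemb 0) c = 0 := by
      intro c
      rw [Finsupp.linearCombination_apply, Finsupp.sum]
      refine Finset.sum_eq_zero fun y _ => ?_
      rw [HS, smul_zero]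
    rw [e1, e2]
    simp
  | succ k ih =>
    intro s
    rw [HS, bdry_CX]
    have hlin : ∀ c : Chain (k + 1) X,
        bdry (k + 1) (Finsupp.linearCombination ℝ (HS D hemb (k + 1)) c) =
        Finsupp.linearCombination ℝ (TT D hemb) c -
          Finsupp.linearCombination ℝ (HS D hemb k) (bdry k c) := by
      intro c
      have : ((bdry (k + 1)).comp (Finsupp.linearCombination ℝ (HS D hemb (k + 1))) :
          Chain (k + 1) X →ₗ[ℝ] Chain (k + 1) X) =
          Finsupp.linearCombination ℝ (TT D hemb) -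
            (Finsupp.linearCombination ℝ (HS D hemb k)).comp (bdry k) := by
        refine Finsupp.lhom_ext' fun y => LinearMap.ext_ring ?_
        simp only [LinearMap.comp_apply, Finsupp.lsingle_apply, LinearMap.sub_apply]
        rw [Finsupp.linearCombination_single, Finsupp.linearCombination_single, one_smul, one_smul,
          bdry_single, ih]
      exact LinearMap.congr_fun this c
    rw [map_sub, bdry_TT, hlin, bdry_bs, map_zero, sub_zero, sub_self, map_zero, sub_zero]

/-- the action on singular chains -/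
noncomputable def SA (hcont : ∀ γ : Γ, Continuous fun x : X => γ • x) {k : ℕ} (γ : Γ) :
    Chain k X →ₗ[ℝ] Chain k X := Finsupp.lmapDomain ℝ ℝ (sa hcont γ)

theorem SA_single (hcont : ∀ γ : Γ, Continuous fun x : X => γ • x) {k : ℕ} (γ : Γ)
    (s : C(Sx k, X)) (c : ℝ) :
    SA hcont γ (Finsupp.single s c) = Finsupp.single (sa hcont γ s) c := by
  rw [SA, Finsupp.lmapDomain_apply, Finsupp.mapDomain_single]

theorem HS_sa (D : ConvData dev g) (hemb : IsEmbedding dev)
    (hcont : ∀ γ : Γ, Continuous fun x : X => γ • x) (γ : Γ) : ∀ k (s : C(Sx k, X)),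
    HS D hemb k (sa hcont γ s) = SA hcont γ (HS D hemb k s) := by
  intro k
  induction k with
  | zero =>
    intro s
    rw [HS, HS, map_zero]
  | succ k ih =>
    intro s
    have h1 : bs (sa hcont γ s) = SA hcont γ (bs s) := by
      rw [bs, bs, map_sum]
      refine Finset.sum_congr rfl fun i _ => ?_
      rw [map_smul, SA_single]
      rfl
    have h2 : TT D hemb (sa hcont γ s) = SA hcont γ (TT D hemb s) := by
      rw [TT, TT, map_sub, SA_single, SA_single, ← str_sa]
      rfl
    have h3 : ∀ c : Chain k X, Finsupp.linearCombination ℝ (HS D hemb k) (SA hcont γ c) =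
        SA hcont γ (Finsupp.linearCombination ℝ (HS D hemb k) c) := by
      intro c
      have : ((Finsupp.linearCombination ℝ (HS D hemb k)).comp (SA hcont γ) :
          Chain k X →ₗ[ℝ] Chain (k + 1) X) =
          (SA hcont γ).comp (Finsupp.linearCombination ℝ (HS D hemb k)) := by
        refine Finsupp.lhom_ext' fun y => LinearMap.ext_ring ?_
        simp only [LinearMap.comp_apply, Finsupp.lsingle_apply]
        rw [SA_single, Finsupp.linearCombination_single, Finsupp.linearCombination_single,
          one_smul, one_smul, ih]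
      exact LinearMap.congr_fun this c
    have h4 : ∀ (b : X) (c : Chain (k + 1) X),
        CX D hemb (γ • b) (SA hcont γ c) = SA hcont γ (CX D hemb b c) := by
      intro b c
      have : ((CX D hemb (γ • b)).comp (SA hcont γ) :
          Chain (k + 1) X →ₗ[ℝ] Chain (k + 2) X) = (SA hcont γ).comp (CX D hemb b) := by
        refine Finsupp.lhom_ext' fun y => LinearMap.ext_ring ?_
        simp only [LinearMap.comp_apply, Finsupp.lsingle_apply]
        rw [SA_single, CX_single, CX_single, SA_single, cX_sa]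
      exact LinearMap.congr_fun this c
    show CX D hemb (γ • s (stdSimplex.vertex 0))
      (TT D hemb (sa hcont γ s) - Finsupp.linearCombination ℝ (HS D hemb k) (bs (sa hcont γ s))) =
      SA hcont γ (CX D hemb (s (stdSimplex.vertex 0))
        (TT D hemb s - Finsupp.linearCombination ℝ (HS D hemb k) (bs s)))
    rw [h1, h2, h3, ← map_sub, h4]

end cone

end Pool.Agent.Helper63.SV
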