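import Pool.Agent.Helper63.SV.Flw

/-!
Project SV (helper63): convex sets invariant under a unipotent affine map contain orbits of the
unipotent flow.
-/

set_option autoImplicit false

open Set Metric Filter Topology NormedSpace

namespace Pool.Agent.Helper63.SV

section smooth

variable {F : Type} [NormedAddCommGroup F] [NormedSpace ℝ F] [FiniteDimensional ℝ F]

/-- averages of a curve over intervals of length one -/
noncomputable def smo (c : ℝ → F) (s : ℝ) : F := ∫ t in (0 : ℝ)..1, c (s + t)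

omit [FiniteDimensional ℝ F] in
theorem smo_cont {c : ℝ → F} (hc : Continuous c) : Continuous (smo c) := by
  apply intervalIntegral.continuous_parametric_intervalIntegral_of_continuous'
  exact hc.comp (continuous_fst.add continuous_snd)

theorem smo_map {c : ℝ → F} (hc : Continuous c) {G : Type} [NormedAddCommGroup G]
    [NormedSpace ℝ G] [CompleteSpace G] (L : F →L[ℝ] G) (s : ℝ) :
    L (smo c s) = ∫ t in (0 : ℝ)..1, L (c (s + t)) := by
  have : CompleteSpace F := FiniteDimensional.complete ℝ F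
  exact (L.intervalIntegral_comp_comm
    ((hc.comp (continuous_const.add continuous_id)).intervalIntegrable 0 1)).symm

theorem smo_equi {c : ℝ → F} (hc : Continuous c) (g : F →L[ℝ] F) (h : ∀ s, c (s + 1) = g (c s))
    (s : ℝ) : smo c (s + 1) = g (smo c s) := by
  have : CompleteSpace F := FiniteDimensional.complete ℝ F
  rw [smo_map hc]
  show ∫ t in (0 : ℝ)..1, c (s + 1 + t) = _
  congr 1
  funext t
  rw [← h]
  congr 1
  ring

omit [FiniteDimensional ℝ F] in
theorem exp_sub_one_mul {b : F →L[ℝ] F} (hb : IsNilpotent b) (t : ℝ) :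
    ∃ q : F →L[ℝ] F, exp (t • b) - 1 = q * b ∧ Commute q b := by
  obtain ⟨D, hD⟩ := hb
  have hD' : (t • b) ^ D = 0 := by rw [smul_pow, hD, smul_zero]
  obtain ⟨p, hp⟩ := exp_two hD'
  have hc : Commute (t • b) (Polynomial.aeval (t • b) p) := by
    show _ * _ = _ * _
    have h1 : Polynomial.aeval (t • b) (Polynomial.X * p) = t • b * Polynomial.aeval (t • b) p := by
      rw [map_mul, Polynomial.aeval_X]
    have h2 : Polynomial.aeval (t • b) (p * Polynomial.X) = Polynomial.aeval (t • b) p * t • b := by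
      rw [map_mul, Polynomial.aeval_X]
    rw [← h1, ← h2, mul_comm]
  have hc2 : Commute (1 + t • b * Polynomial.aeval (t • b) p) b := by
    have h3 : Commute (Polynomial.aeval (t • b) p) b := by
      rcases eq_or_ne t 0 with rfl | ht
      · rw [zero_smul, Polynomial.aeval_def, Polynomial.eval₂_at_zero]
        exact Algebra.commutes _ _
      · have h4 := (hc.symm.smul_right t⁻¹)
        rwa [smul_smul, inv_mul_cancel₀ ht, one_smul] at h4
    exact (Commute.one_left b).add_left (((Commute.refl b).smul_left t).mul_left h3)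
  refine ⟨t • (1 + t • b * Polynomial.aeval (t • b) p), ?_, hc2.smul_left t⟩
  rw [hp, smul_mul_assoc, hc2.eq, pow_two]
  simp only [mul_add, mul_one, smul_add, ← smul_mul_assoc, mul_assoc]
  abel

/-- one smoothing step -/
theorem smo_step {b : F →L[ℝ] F} (hb : IsNilpotent b) {c : ℝ → F} (hc : Continuous c)
    (hce : ∀ s, c (s + 1) = exp b (c s)) (j : ℕ)
    (h : ∀ ℓ : F →L[ℝ] ℝ, (∀ v, ℓ ((b ^ j) v) = 0) → ∀ s, ℓ (exp (-(s • b)) (c s)) = ℓ (c 0)) :
    ∀ ℓ : F →L[ℝ] ℝ, (∀ v, ℓ ((b ^ (j + 1)) v) = 0) →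
      ∀ s, ℓ (exp (-(s • b)) (smo c s)) = ℓ (smo c 0) := by
  have : CompleteSpace F := FiniteDimensional.complete ℝ F
  set ψ : ℝ → F := fun u => exp (-(u • b)) (c u) with hψ
  have hexp : ∀ s t : ℝ, exp ((s + t) • b) = exp (s • b) * exp (t • b) := by
    intro s t
    rw [add_smul]
    exact exp_add' (((Commute.refl b).smul_left s).smul_right t)
  have hneg : ∀ s : ℝ, exp (-(s • b)) = exp ((-s) • b) := fun s => by rw [neg_smul]
  have hψc : Continuous ψ := by
    have h1 : Continuous fun u : ℝ => exp (-(u • b)) :=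
      exp_continuous'.comp (continuous_id.smul continuous_const).neg
    exact h1.clm_apply hc
  have hψp : Function.Periodic ψ 1 := by
    intro u
    show exp (-((u + 1) • b)) (c (u + 1)) = exp (-(u • b)) (c u)
    rw [hce, hneg, hneg]
    have h1 : exp ((-(u + 1)) • b) * exp b = exp ((-u) • b) := by
      have h2 := hexp (-(u + 1)) 1
      rw [one_smul] at h2
      rw [← h2]
      congr 2
      ring
    exact congrArg (fun T : F →L[ℝ] F => T (c u)) h1
  have key : ∀ s t : ℝ, exp (-(s • b)) (c (s + t)) = exp (t • b) (ψ (s + t)) := by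
    intro s t
    show _ = exp (t • b) (exp (-((s + t) • b)) (c (s + t)))
    have h1 : exp (t • b) * exp (-((s + t) • b)) = exp (-(s • b)) := by
      rw [hneg, hneg, ← hexp]
      congr 2
      ring
    exact (congrArg (fun T : F →L[ℝ] F => T (c (s + t))) h1).symm
  intro ℓ hℓ
  have hval : ∀ s : ℝ, ℓ (exp (-(s • b)) (smo c s)) =
      (∫ u in (0 : ℝ)..1, ℓ (ψ u)) + ∫ t in (0 : ℝ)..1, ℓ ((exp (t • b) - 1) (c 0)) := by
    intro s
    have h1 := smo_map hc (ℓ.comp (exp (-(s • b)))) s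
    have h2 : ∀ t : ℝ, ℓ (exp (-(s • b)) (c (s + t))) =
        ℓ (ψ (s + t)) + ℓ ((exp (t • b) - 1) (c 0)) := by
      intro t
      rw [key]
      have h3 : exp (t • b) (ψ (s + t)) = ψ (s + t) + (exp (t • b) - 1) (ψ (s + t)) := by
        show _ = ψ (s + t) + (exp (t • b) (ψ (s + t)) - ψ (s + t))
        abel
      rw [h3, map_add]
      congr 1
      obtain ⟨q, hq, hqb⟩ := exp_sub_one_mul hb t
      refine h (ℓ.comp (exp (t • b) - 1)) (fun v => ?_) (s + t)
      show ℓ ((exp (t • b) - 1) ((b ^ j) v)) = 0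
      rw [hq]
      have h4 : q * b * b ^ j = b ^ (j + 1) * q := by
        rw [mul_assoc, ← pow_succ']
        exact (hqb.pow_right (j + 1)).eq
      have h5 : (q * b) ((b ^ j) v) = (b ^ (j + 1)) (q v) :=
        congrArg (fun T : F →L[ℝ] F => T v) h4
      rw [h5]
      exact hℓ _
    have h3 : (ℓ.comp (exp (-(s • b)))) (smo c s) =
        ∫ t in (0 : ℝ)..1, (ℓ (ψ (s + t)) + ℓ ((exp (t • b) - 1) (c 0))) := by
      rw [h1]
      congr 1
      funext t
      exact h2 t
    have hi1 : IntervalIntegrable (fun t => ℓ (ψ (s + t))) MeasureTheory.volume 0 1 :=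
      (ℓ.continuous.comp (hψc.comp (continuous_const.add continuous_id))).intervalIntegrable 0 1
    have hi2 : IntervalIntegrable (fun t : ℝ => ℓ ((exp (t • b) - 1) (c 0)))
        MeasureTheory.volume 0 1 := by
      have h4 : Continuous fun t : ℝ => exp (t • b) - 1 :=
        (exp_continuous'.comp (continuous_id.smul continuous_const)).sub continuous_const
      exact (ℓ.continuous.comp (h4.clm_apply continuous_const)).intervalIntegrable 0 1
    rw [intervalIntegral.integral_add hi1 hi2] at h3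
    rw [show ℓ (exp (-(s • b)) (smo c s)) = (ℓ.comp (exp (-(s • b)))) (smo c s) from rfl, h3]
    congr 1
    have h5 : (∫ t in (0 : ℝ)..1, ℓ (ψ (s + t))) = ∫ u in s + 0..s + 1, ℓ (ψ u) :=
      intervalIntegral.integral_comp_add_left (fun u => ℓ (ψ u)) s
    have h6 : Function.Periodic (fun u => ℓ (ψ u)) 1 := fun u => by
      show ℓ (ψ (u + 1)) = ℓ (ψ u)
      rw [hψp u]
    rw [h5, add_zero, h6.intervalIntegral_add_eq s 0, zero_add]
  intro s
  have h0 := hval 0
  rw [zero_smul, neg_zero, exp_zero] at h0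
  have h0' : ℓ (smo c 0) = (∫ u in (0 : ℝ)..1, ℓ (ψ u)) +
      ∫ t in (0 : ℝ)..1, ℓ ((exp (t • b) - 1) (c 0)) := h0
  rw [hval, h0']

theorem smo_iter {b : F →L[ℝ] F} (hb : IsNilpotent b) {c : ℝ → F} (hc : Continuous c)
    (hce : ∀ s, c (s + 1) = exp b (c s)) (j : ℕ) :
    Continuous (smo^[j] c) ∧ (∀ s, (smo^[j] c) (s + 1) = exp b ((smo^[j] c) s)) ∧
    ∀ ℓ : F →L[ℝ] ℝ, (∀ v, ℓ ((b ^ j) v) = 0) →
      ∀ s, ℓ (exp (-(s • b)) ((smo^[j] c) s)) = ℓ ((smo^[j] c) 0) := by
  induction j with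
  | zero =>
    refine ⟨hc, hce, fun ℓ hℓ s => ?_⟩
    have h1 : ∀ v, ℓ v = 0 := fun v => by
      have := hℓ v
      rwa [pow_zero] at this
    rw [h1, h1]
  | succ j ih =>
    rw [Function.iterate_succ_apply']
    exact ⟨smo_cont ih.1, smo_equi ih.1 _ ih.2.1, smo_step hb ih.1 ih.2.1 j ih.2.2⟩

end smooth

section orbit

variable {E : Type} [NormedAddCommGroup E] [NormedSpace ℝ E] [FiniteDimensional ℝ E]

theorem smo_mem {X : Set E} (hXo : IsOpen X) (hXc : Convex ℝ X) {c : ℝ → E × ℝ}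
    (hc : Continuous c) (h : ∀ s, (c s).1 ∈ X ∧ (c s).2 = 1) (s : ℝ) :
    (smo c s).1 ∈ X ∧ (smo c s).2 = 1 := by
  have : CompleteSpace E := FiniteDimensional.complete ℝ E
  constructor
  · by_contra hcon
    obtain ⟨f, hf⟩ := geometric_hahn_banach_open_point hXc hXo hcon
    have h1 := smo_map hc (f.comp (ContinuousLinearMap.fst ℝ E ℝ)) s
    have h2 : ∫ t in (0 : ℝ)..1, f ((c (s + t)).1) < ∫ _ in (0 : ℝ)..1, f ((smo c s).1) := by
      apply intervalIntegral.integral_lt_integral_of_continuousOn_of_le_of_exists_lt zero_lt_one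
      · exact (f.continuous.comp ((hc.comp (continuous_const.add continuous_id)).fst)).continuousOn
      · exact continuousOn_const
      · intro t _
        exact (hf _ (h _).1).le
      · exact ⟨0, by norm_num, hf _ (h _).1⟩
    rw [intervalIntegral.integral_const] at h2
    have h3 : f ((smo c s).1) = ∫ t in (0 : ℝ)..1, f ((c (s + t)).1) := h1
    rw [← h3] at h2
    simp at h2
  · have h1 := smo_map hc (ContinuousLinearMap.snd ℝ E ℝ) s
    have h2 : (smo c s).2 = ∫ t in (0 : ℝ)..1, (c (s + t)).2 := h1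
    rw [h2]
    simp only [(h _).2]
    simp

/-- **Convex sets invariant under a unipotent map contain orbits of the flow.** -/
theorem exists_orbit {X : Set E} (hXo : IsOpen X) (hXc : Convex ℝ X) (hne : X.Nonempty)
    {b : (E × ℝ) →L[ℝ] (E × ℝ)} (hb : IsNilpotent b) (hb0 : ∀ p, (b p).2 = 0)
    (h1 : ∀ x ∈ X, (exp b (x, 1)).1 ∈ X) (h2 : ∀ x ∈ X, (exp (-b) (x, 1)).1 ∈ X) :
    ∃ y : E, ∀ s : ℝ, (exp (s • b) (y, 1)).1 ∈ X := by
  obtain ⟨x, hx⟩ := hne
  have hsnd : ∀ (s : ℝ) (p : E × ℝ), (exp (s • b) p).2 = p.2 := fun s p =>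
    exp_snd (s • b) (fun p => by
      show s • (b p).2 = 0
      rw [hb0, smul_zero]) p
  have hexp : ∀ s t : ℝ, exp ((s + t) • b) = exp (s • b) * exp (t • b) := by
    intro s t
    rw [add_smul]
    exact exp_add' (((Commute.refl b).smul_left s).smul_right t)
  have hneg : ∀ s : ℝ, (-s) • b = -(s • b) := fun s => neg_smul s b
  set xh : E × ℝ := (x, 1) with hxh
  -- integral powers preserve the set
  have hR : ∀ p : E × ℝ, p.1 ∈ X ∧ p.2 = 1 → ∀ n : ℤ, (exp ((n : ℝ) • b) p).1 ∈ X ∧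
      (exp ((n : ℝ) • b) p).2 = 1 := by
    intro p hp n
    refine ⟨?_, by rw [hsnd, hp.2]⟩
    induction n using Int.induction_on with
    | zero =>
      rw [Int.cast_zero, zero_smul, exp_zero]
      exact hp.1
    | succ n ih =>
      have e : exp (((((n : ℕ) : ℤ) + 1 : ℤ) : ℝ) • b) p =
          exp b (exp ((((n : ℕ) : ℤ) : ℝ) • b) p) := by
        have h3 := hexp 1 (((n : ℕ) : ℤ) : ℝ)
        rw [one_smul] at h3
        rw [Int.cast_add, Int.cast_one, add_comm _ (1 : ℝ), h3]
        rfl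
      rw [e]
      have e2 : exp ((((n : ℕ) : ℤ) : ℝ) • b) p = ((exp ((((n : ℕ) : ℤ) : ℝ) • b) p).1, 1) :=
        Prod.ext rfl (by rw [hsnd, hp.2])
      rw [e2]
      exact h1 _ ih
    | pred n ih =>
      have e : exp (((-((n : ℕ) : ℤ) - 1 : ℤ) : ℝ) • b) p =
          exp (-b) (exp (((-((n : ℕ) : ℤ) : ℤ) : ℝ) • b) p) := by
        have h3 := hexp (-1) ((-((n : ℕ) : ℤ) : ℤ) : ℝ)
        rw [hneg, one_smul] at h3
        have e3 : ((-((n : ℕ) : ℤ) - 1 : ℤ) : ℝ) = -1 + ((-((n : ℕ) : ℤ) : ℤ) : ℝ) := by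
          push_cast
          ring
        rw [e3, h3]
        rfl
      rw [e]
      have e2 : exp (((-((n : ℕ) : ℤ) : ℤ) : ℝ) • b) p =
          ((exp (((-((n : ℕ) : ℤ) : ℤ) : ℝ) • b) p).1, 1) :=
        Prod.ext rfl (by rw [hsnd, hp.2])
      rw [e2]
      exact h2 _ ih
  -- the starting curve
  set ψ : ℝ → E × ℝ := fun r => exp (-(r • b)) ((1 - r) • xh + r • exp b xh) with hψ
  have hψc : Continuous ψ := by
    have h3 : Continuous fun u : ℝ => exp (-(u • b)) :=
      exp_continuous'.comp (continuous_id.smul continuous_const).neg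
    refine h3.clm_apply ?_
    fun_prop
  have hψ01 : ψ 0 = ψ 1 := by
    show exp (-((0 : ℝ) • b)) ((1 - 0 : ℝ) • xh + (0 : ℝ) • exp b xh) =
      exp (-((1 : ℝ) • b)) ((1 - 1 : ℝ) • xh + (1 : ℝ) • exp b xh)
    rw [zero_smul, neg_zero, exp_zero, sub_zero, one_smul, zero_smul, add_zero, one_smul, sub_self,
      zero_smul, zero_add, one_smul]
    have h3 := exp_neg_mul' b
    exact (congrArg (fun T : (E × ℝ) →L[ℝ] (E × ℝ) => T xh) h3).symm
  set c : ℝ → E × ℝ := fun s => exp (s • b) (ψ (Int.fract s)) with hc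
  have hcc : Continuous c := by
    have h3 : Continuous fun u : ℝ => exp (u • b) :=
      exp_continuous'.comp (continuous_id.smul continuous_const)
    exact h3.clm_apply (hψc.continuousOn.comp_fract'' hψ01)
  have hce : ∀ s, c (s + 1) = exp b (c s) := by
    intro s
    show exp ((s + 1) • b) (ψ (Int.fract (s + 1))) = exp b (exp (s • b) (ψ (Int.fract s)))
    rw [Int.fract_add_one, add_comm s 1, hexp, one_smul]
    rfl
  have hcm : ∀ s, (c s).1 ∈ X ∧ (c s).2 = 1 := by
    intro s
    have e : c s = exp (((⌊s⌋ : ℤ) : ℝ) • b) ((1 - Int.fract s) • xh + Int.fract s • exp b xh) := by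
      show exp (s • b) (exp (-(Int.fract s • b)) _) = _
      have h3 := hexp s (-Int.fract s)
      have e4 : s + -Int.fract s = ((⌊s⌋ : ℤ) : ℝ) := by
        have := Int.fract_add_floor s
        linarith
      rw [e4, hneg] at h3
      rw [h3]
      rfl
    rw [e]
    apply hR
    constructor
    · show (1 - Int.fract s) • x + Int.fract s • (exp b xh).1 ∈ X
      exact hXc hx (h1 x hx) (by linarith [Int.fract_lt_one s]) (Int.fract_nonneg s) (by ring)
    · show (1 - Int.fract s) * 1 + Int.fract s * (exp b xh).2 = 1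
      have h3 := hsnd 1 xh
      rw [one_smul] at h3
      rw [h3]
      show (1 - Int.fract s) * 1 + Int.fract s * 1 = 1
      ring
  obtain ⟨D, hD⟩ := hb
  have hit := smo_iter ⟨D, hD⟩ hcc hce
  have hmem : ∀ j : ℕ, ∀ s, ((smo^[j] c) s).1 ∈ X ∧ ((smo^[j] c) s).2 = 1 := by
    intro j
    induction j with
    | zero => exact hcm
    | succ j ih =>
      rw [Function.iterate_succ_apply']
      exact smo_mem hXo hXc (hit j).1 ih
  refine ⟨((smo^[D] c) 0).1, fun s => ?_⟩
  have h3 : exp (-(s • b)) ((smo^[D] c) s) = (smo^[D] c) 0 := by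
    rw [← sub_eq_zero]
    by_contra hne
    obtain ⟨ℓ, hℓ⟩ := SeparatingDual.exists_ne_zero (R := ℝ) hne
    apply hℓ
    rw [map_sub, sub_eq_zero]
    exact (hit D).2.2 ℓ (fun v => by rw [hD]; simp) s
  have h4 : (((smo^[D] c) 0).1, (1 : ℝ)) = (smo^[D] c) 0 := Prod.ext rfl (hmem D 0).2.symm
  rw [h4, ← h3]
  have h5 : exp (s • b) (exp (-(s • b)) ((smo^[D] c) s)) = (smo^[D] c) s :=
    congrArg (fun T : (E × ℝ) →L[ℝ] (E × ℝ) => T ((smo^[D] c) s)) (exp_mul_neg' (s • b))
  rw [h5]
  exact (hmem D s).1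

end orbit

end Pool.Agent.Helper63.SV
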