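import Pool.Agent.Helper63.SV.Rec

/-!
Project SV (helper63): barycentric subdivision of tuples in a convex set.
-/

set_option autoImplicit false

open Finset

namespace Pool.Agent.Helper63.SV

section aff

variable {E : Type} [NormedAddCommGroup E] [NormedSpace ℝ E]

theorem affine_centroid {ι : Type} [Fintype ι] [Nonempty ι] (f : E →ᵃ[ℝ] E) (v : ι → E) :
    f ((Fintype.card ι : ℝ)⁻¹ • ∑ i, v i) = (Fintype.card ι : ℝ)⁻¹ • ∑ i, f (v i) := by
  have hc : (Fintype.card ι : ℝ) ≠ 0 := by
    exact_mod_cast Fintype.card_ne_zero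
  have h : ∀ w : E, f w = f.linear w + f 0 := fun w => by
    have := f.map_vadd 0 w
    rw [vadd_eq_add, vadd_eq_add, add_zero] at this
    exact this
  rw [h]
  simp only [h (v _)]
  rw [Finset.sum_add_distrib, Finset.sum_const, Finset.card_univ, smul_add, map_smul, map_sum,
    ← Nat.cast_smul_eq_nsmul ℝ, smul_smul, inv_mul_cancel₀ hc, one_smul]

end aff

/-- a group acting on a convex subset of a vector space by affine maps -/
structure ConvData {Γ X E : Type} [Group Γ] [MulAction Γ X] [NormedAddCommGroup E]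
    [NormedSpace ℝ E] (dev : X → E) (g : Γ → (E →ᵃ[ℝ] E)) : Prop where
  inj : Function.Injective dev
  conv : Convex ℝ (Set.range dev)
  equi : ∀ γ x, dev (γ • x) = g γ (dev x)

section sd

variable {Γ X E : Type} [Group Γ] [MulAction Γ X] [NormedAddCommGroup E] [NormedSpace ℝ E]
  {dev : X → E} {g : Γ → (E →ᵃ[ℝ] E)}

theorem ConvData.exists_bar (D : ConvData dev g) {m : ℕ} (x : Fin (m + 1) → X) :
    ∃ b : X, dev b = (Fintype.card (Fin (m + 1)) : ℝ)⁻¹ • ∑ j, dev (x j) := by
  have hc : (Fintype.card (Fin (m + 1)) : ℝ) ≠ 0 := by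
    exact_mod_cast Fintype.card_ne_zero
  have := D.conv.sum_mem (t := Finset.univ)
    (w := fun _ : Fin (m + 1) => (Fintype.card (Fin (m + 1)) : ℝ)⁻¹) (z := fun j => dev (x j))
    (fun _ _ => by positivity) (by
      rw [Finset.sum_const, Finset.card_univ, nsmul_eq_mul, mul_inv_cancel₀ hc])
    (fun j _ => ⟨x j, rfl⟩)
  rw [← Finset.smul_sum] at this
  exact this

/-- the barycentre -/
noncomputable def bar (D : ConvData dev g) {m : ℕ} (x : Fin (m + 1) → X) : X :=
  (D.exists_bar x).choose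

theorem dev_bar (D : ConvData dev g) {m : ℕ} (x : Fin (m + 1) → X) :
    dev (bar D x) = (Fintype.card (Fin (m + 1)) : ℝ)⁻¹ • ∑ j, dev (x j) :=
  (D.exists_bar x).choose_spec

theorem bar_eqv (D : ConvData dev g) {m : ℕ} (γ : Γ) (x : Fin (m + 1) → X) :
    bar D (γ • x) = γ • bar D x := by
  apply D.inj
  rw [D.equi, dev_bar D, dev_bar D, affine_centroid]
  congr 1
  refine Finset.sum_congr rfl fun j _ => ?_
  exact D.equi γ (x j)

/-- barycentric subdivision -/
noncomputable def sdMap (D : ConvData dev g) : ChMap Γ X X :=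
  recMap (fun _ x => Finsupp.single (bar D x) 1) (fun _ _ => wt_single _) fun _ γ x => by
    rw [gw_single, bar_eqv]

theorem sd_cons (D : ConvData dev g) {m : ℕ} (x : Fin (m + 1) → X) (y : Fin (m + 1) → X)
    (hy : y ∈ ((sdMap D).G (m + 1) x).support) : y 0 = bar D x ∧ ∃ i : Fin (m + 1),
      Fin.tail y ∈ ((sdMap D).G m fun j => x (i.succAbove j)).support := by
  classical
  have e : (sdMap D).G (m + 1) x = cn (bar D x) (lin ((sdMap D).G m) (bx x)) := by
    show cj (Finsupp.single (bar D x) 1) _ = _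
    rw [cj_single]
    rfl
  rw [e, cn, Finsupp.lmapDomain_apply] at hy
  obtain ⟨y', hy', rfl⟩ := Finset.mem_image.1 (Finsupp.mapDomain_support hy)
  refine ⟨Fin.cons_zero _ _, ?_⟩
  rw [Fin.tail_cons]
  obtain ⟨x', hx', hy'⟩ := exists_of_mem_support_lin _ _ _ hy'
  rw [bx] at hx'
  obtain ⟨i, _, hi⟩ := Finset.mem_biUnion.1 (Finsupp.support_finsetSum hx')
  have hi' := Finsupp.support_smul hi
  have hi'' := Finset.mem_singleton.1 (Finsupp.support_single_subset hi')
  exact ⟨i, by rw [← hi'']; exact hy'⟩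

theorem norm_bar_sub (D : ConvData dev g) {m : ℕ} (x : Fin (m + 1) → X) {δ : ℝ}
    (hδ : ∀ i j, ‖dev (x i) - dev (x j)‖ ≤ δ) (i : Fin (m + 1)) :
    ‖dev (bar D x) - dev (x i)‖ ≤ (m : ℝ) / (m + 1) * δ := by
  have hm : (0 : ℝ) < (m : ℝ) + 1 := by positivity
  have e : dev (bar D x) - dev (x i) = ((m : ℝ) + 1)⁻¹ • ∑ j, (dev (x j) - dev (x i)) := by
    rw [dev_bar D, Fintype.card_fin, Finset.sum_sub_distrib, Finset.sum_const, Finset.card_univ,
      Fintype.card_fin, ← Nat.cast_smul_eq_nsmul ℝ, smul_sub, smul_smul]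
    push_cast
    rw [inv_mul_cancel₀ hm.ne', one_smul]
  rw [e, norm_smul, norm_inv, Real.norm_eq_abs, abs_of_pos hm]
  have h1 : ‖∑ j, (dev (x j) - dev (x i))‖ ≤ m * δ := by
    rw [← Finset.add_sum_erase _ _ (Finset.mem_univ i), sub_self, zero_add]
    refine (norm_sum_le _ _).trans ((Finset.sum_le_sum fun j _ => hδ j i).trans ?_)
    rw [Finset.sum_const, Finset.card_erase_of_mem (Finset.mem_univ i), Finset.card_univ,
      Fintype.card_fin, Nat.add_sub_cancel, nsmul_eq_mul]
  rw [div_mul_eq_mul_div, inv_mul_eq_div]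
  gcongr

theorem sd_mesh (D : ConvData dev g) : ∀ (m : ℕ) (x y : Fin m → X),
    y ∈ ((sdMap D).G m x).support →
    (∀ i, dev (y i) ∈ convexHull ℝ (Set.range fun j => dev (x j))) ∧
      ∀ δ : ℝ, (∀ i j, ‖dev (x i) - dev (x j)‖ ≤ δ) →
        ∀ i j, ‖dev (y i) - dev (y j)‖ ≤ ((m : ℝ) - 1) / m * δ := by
  intro m
  induction m with
  | zero => exact fun x y _ => ⟨fun i => i.elim0, fun δ _ i => i.elim0⟩
  | succ m ih =>
    intro x y hy
    obtain ⟨h0, i, hi⟩ := sd_cons D x y hy
    obtain ⟨ih1, ih2⟩ := ih _ _ hi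
    have hsub : (Set.range fun j => dev (x (i.succAbove j))) ⊆ Set.range fun j => dev (x j) := by
      rintro _ ⟨j, rfl⟩
      exact ⟨i.succAbove j, rfl⟩
    have htail : ∀ j : Fin m, dev (y j.succ) ∈ convexHull ℝ (Set.range fun j => dev (x j)) :=
      fun j => convexHull_mono hsub (ih1 j)
    have hbar : dev (bar D x) ∈ convexHull ℝ (Set.range fun j => dev (x j)) := by
      have hc : (Fintype.card (Fin (m + 1)) : ℝ) ≠ 0 := by
        exact_mod_cast Fintype.card_ne_zero
      rw [dev_bar D, Finset.smul_sum]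
      exact (convex_convexHull ℝ _).sum_mem (fun _ _ => by positivity) (by
        rw [Finset.sum_const, Finset.card_univ, nsmul_eq_mul, mul_inv_cancel₀ hc])
        (fun j _ => subset_convexHull ℝ _ ⟨j, rfl⟩)
    refine ⟨fun j => ?_, fun δ hδ => ?_⟩
    · refine Fin.cases ?_ (fun l => ?_) j
      · rw [h0]
        exact hbar
      · exact htail l
    · have hδ0 : 0 ≤ δ := (norm_nonneg _).trans (hδ i i)
      have hm : (0 : ℝ) < (m : ℝ) + 1 := by positivity
      have hfac : (((m + 1 : ℕ) : ℝ) - 1) / ((m + 1 : ℕ) : ℝ) = (m : ℝ) / (m + 1) := by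
        push_cast
        rw [add_sub_cancel_right]
      rw [hfac]
      have hr0 : 0 ≤ (m : ℝ) / (m + 1) * δ := by positivity
      have hbt : ∀ j : Fin m, ‖dev (bar D x) - dev (y j.succ)‖ ≤ (m : ℝ) / (m + 1) * δ := by
        intro j
        have h1 : convexHull ℝ (Set.range fun j => dev (x j)) ⊆
            Metric.closedBall (dev (bar D x)) ((m : ℝ) / (m + 1) * δ) := by
          refine convexHull_min ?_ (convex_closedBall _ _)
          rintro _ ⟨l, rfl⟩
          rw [Metric.mem_closedBall, dist_comm, dist_eq_norm]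
          exact norm_bar_sub D x hδ l
        have h2 := h1 (htail j)
        rwa [Metric.mem_closedBall, dist_comm, dist_eq_norm] at h2
      have htt : ∀ j l : Fin m, ‖dev (y j.succ) - dev (y l.succ)‖ ≤ (m : ℝ) / (m + 1) * δ := by
        intro j l
        refine (ih2 δ (fun a b => hδ _ _) j l).trans ?_
        have hm0 : (0 : ℝ) < m := by
          have := j.pos
          exact_mod_cast this
        gcongr ?_ * δ
        rw [div_le_div_iff₀ hm0 hm]
        nlinarith
      intro j l
      refine Fin.cases ?_ (fun j' => ?_) j <;> refine Fin.cases ?_ (fun l' => ?_) l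
      · rw [sub_self, norm_zero]
        exact hr0
      · rw [h0]
        exact hbt l'
      · rw [h0, ← norm_neg, neg_sub]
        exact hbt j'
      · exact htt j' l'

theorem iter_mesh (D : ConvData dev g) {m : ℕ} (x : Fin m → X) {δ : ℝ}
    (hδ : ∀ i j, ‖dev (x i) - dev (x j)‖ ≤ δ) : ∀ (N : ℕ) (y : Fin m → X),
    y ∈ (((sdMap D).iter N).G m x).support →
    (∀ i, dev (y i) ∈ convexHull ℝ (Set.range fun j => dev (x j))) ∧
      ∀ i j, ‖dev (y i) - dev (y j)‖ ≤ (((m : ℝ) - 1) / m) ^ N * δ := by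
  intro N
  induction N with
  | zero =>
    intro y hy
    have h1 : y ∈ (Finsupp.single (fun j => x j) (1 : ℝ)).support := hy
    have h2 : y = x := Finset.mem_singleton.1 (Finsupp.support_single_subset h1)
    subst h2
    refine ⟨fun i => subset_convexHull ℝ _ ⟨i, rfl⟩, fun i j => ?_⟩
    rw [pow_zero, one_mul]
    exact hδ i j
  | succ N ih =>
    intro y hy
    have hy1 : y ∈ (lin ((sdMap D).G m) (((sdMap D).iter N).G m x)).support := hy
    obtain ⟨y', hy', hy2⟩ := exists_of_mem_support_lin _ _ _ hy1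
    obtain ⟨ih1, ih2⟩ := ih y' hy'
    obtain ⟨h1, h2⟩ := sd_mesh D m y' y hy2
    refine ⟨fun i => ?_, fun i j => ?_⟩
    · refine convexHull_min ?_ (convex_convexHull ℝ _) (h1 i)
      rintro _ ⟨j, rfl⟩
      exact ih1 j
    · refine (h2 _ ih2 i j).trans (le_of_eq ?_)
      rw [pow_succ]
      ring

end sd

end Pool.Agent.Helper63.SV
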