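import Pool.Agent.Helper63.SV.Mean

/-!
Project SV (helper63): generic thresholds.
-/

set_option autoImplicit false

open Set Metric Filter Topology MeasureTheory

namespace Pool.Agent.Helper63.SV

section thr

variable {Γ X E : Type} [Group Γ] [MulAction Γ X] [NormedAddCommGroup E]
  [NormedSpace ℝ E] [FiniteDimensional ℝ E] {k n : ℕ} {dev : X → E} {g : Γ → (E →ᵃ[ℝ] E)}
  {α : (Fin k → ℝ) → E → E} {β : (Fin k → ℝ) → X → X}

theorem piece_dim (C : Submodule ℝ E) (hC : Module.finrank ℝ C < n) {N : ℕ} (x : X) (r : ℝ)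
    (Φ : Fin N → X → ℝ) (L : ℝ)
    (hΦ : ∀ i y y', ‖dev y - dev x‖ < r → ‖dev y' - dev x‖ < r →
      |Φ i y - Φ i y'| ≤ L * ‖dev y - dev y'‖) (j : Fin n → Fin N) (hj : Function.Injective j) :
    dimH {t : Fin N → ℝ | ∃ y, dev y - dev x ∈ C ∧ ‖dev y - dev x‖ < r ∧
      ∀ l, t (j l) = Φ (j l) y} ≤ ((N - 1 : ℕ) : ENNReal) := by
  classical
  let S : Set C := {v | ∃ y, dev y - dev x = v ∧ ‖(v : E)‖ < r}
  have hS : ∀ v ∈ S, ∃ y, dev y - dev x = v ∧ ‖(v : E)‖ < r := fun v hv => hv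
  have : Nonempty X := ⟨x⟩
  choose! yy hyy hyr using hS
  let F : C × ({i : Fin N // ¬ ∃ l, j l = i} → ℝ) → (Fin N → ℝ) := fun q i =>
    if h : ∃ l, j l = i then Φ i (yy q.1) else q.2 ⟨i, h⟩
  have hsub : {t : Fin N → ℝ | ∃ y, dev y - dev x ∈ C ∧ ‖dev y - dev x‖ < r ∧
      ∀ l, t (j l) = Φ (j l) y} ⊆ F '' (S ×ˢ univ) := by
    rintro t ⟨y, hyC, hyr', hy⟩
    have hv : (⟨dev y - dev x, hyC⟩ : C) ∈ S := ⟨y, rfl, hyr'⟩
    refine ⟨(⟨dev y - dev x, hyC⟩, fun i => t i), ⟨hv, mem_univ _⟩, ?_⟩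
    funext i
    by_cases h : ∃ l, j l = i
    · show (if h : ∃ l, j l = i then Φ i (yy ⟨dev y - dev x, hyC⟩) else _) = t i
      rw [dif_pos h]
      obtain ⟨l, rfl⟩ := h
      rw [hy l]
      have h1 : dev (yy ⟨dev y - dev x, hyC⟩) - dev x = dev y - dev x := hyy _ hv
      have h2 : dev (yy ⟨dev y - dev x, hyC⟩) = dev y := sub_left_injective h1
      have h3 := hΦ (j l) (yy ⟨dev y - dev x, hyC⟩) y (by rw [h1]; exact hyr') hyr'
      rw [h2, sub_self, norm_zero, mul_zero, abs_le] at h3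
      linarith [h3.1, h3.2]
    · show (if h : ∃ l, j l = i then _ else t i) = t i
      rw [dif_neg h]
  have hlip : LipschitzOnWith (Real.toNNReal (max L 1)) F (S ×ˢ univ) := by
    apply LipschitzOnWith.of_dist_le_mul
    rintro ⟨v, τ⟩ ⟨hv, _⟩ ⟨v', τ'⟩ ⟨hv', _⟩
    have h1 : (0 : ℝ) ≤ max L 1 := zero_le_one.trans (le_max_right _ _)
    rw [Real.coe_toNNReal _ h1, dist_pi_le_iff (mul_nonneg h1 dist_nonneg)]
    intro i
    by_cases h : ∃ l, j l = i
    · show dist (if h : ∃ l, j l = i then Φ i (yy v) else _)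
        (if h : ∃ l, j l = i then Φ i (yy v') else _) ≤ _
      rw [dif_pos h, dif_pos h, Real.dist_eq]
      have e1 : dev (yy v) - dev x = v := hyy v hv
      have e2 : dev (yy v') - dev x = v' := hyy v' hv'
      have h2 := hΦ i (yy v) (yy v') (by rw [e1]; exact hyr v hv) (by rw [e2]; exact hyr v' hv')
      have e3 : dev (yy v) - dev (yy v') = (v : E) - v' := by
        rw [← e1, ← e2, sub_sub_sub_cancel_right]
      rw [e3] at h2
      refine h2.trans ?_
      have h3 : ‖(v : E) - v'‖ ≤ dist (v, τ) (v', τ') := by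
        have : ‖(v : E) - v'‖ = dist v v' := by
          rw [Subtype.dist_eq, dist_eq_norm]
        rw [this]
        exact le_max_left _ _
      exact mul_le_mul (le_max_left _ _) h3 (norm_nonneg _) h1
    · show dist (if h : ∃ l, j l = i then _ else τ ⟨i, h⟩)
        (if h : ∃ l, j l = i then _ else τ' ⟨i, h⟩) ≤ _
      rw [dif_neg h, dif_neg h]
      have h3 : dist (τ ⟨i, h⟩) (τ' ⟨i, h⟩) ≤ dist (v, τ) (v', τ') :=
        (dist_le_pi_dist τ τ' _).trans (le_max_right _ _)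
      calc _ ≤ dist (v, τ) (v', τ') := h3
        _ = 1 * dist (v, τ) (v', τ') := (one_mul _).symm
        _ ≤ _ := mul_le_mul_of_nonneg_right (le_max_right _ _) dist_nonneg
  refine (dimH_mono hsub).trans (hlip.dimH_image_le.trans ((dimH_mono (subset_univ _)).trans ?_))
  rw [Real.dimH_univ_eq_finrank, Module.finrank_prod, Module.finrank_fintype_fun_eq_card]
  have hcard : n + Fintype.card {i : Fin N // ¬ ∃ l, j l = i} = N := by
    have h1 : Fintype.card {i : Fin N // ∃ l, j l = i} = n := by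
      have h3 : Fintype.card (Fin n) = Fintype.card {i : Fin N // ∃ l, j l = i} :=
        Fintype.card_congr (Equiv.ofInjective j hj)
      rw [Fintype.card_fin] at h3
      exact h3.symm
    have h2 := Fintype.card_subtype_compl (fun i : Fin N => ∃ l, j l = i)
    have h3 : Fintype.card {i : Fin N // ∃ l, j l = i} ≤ Fintype.card (Fin N) :=
      Fintype.card_subtype_le _
    rw [h1, Fintype.card_fin] at h2 h3
    omega
  exact_mod_cast (by omega : Module.finrank ℝ C + Fintype.card {i : Fin N // ¬ ∃ l, j l = i} ≤ N - 1)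

theorem Geo.exists_threshold (G : Geo k n dev g α β) {N : ℕ} (hN : 0 < N) (c : Fin N → X)
    (ρ : Fin N → ℝ) (hρ : ∀ i, 0 < ρ i)
    (hc : ∀ i, IsCompact (closedBall (dev (c i)) (ρ i) ∩ range dev)) :
    ∃ t : Fin N → ℝ, (∀ i, 0 < t i ∧ t i < 1 / 2) ∧ ∀ (x : X) (j : Fin n → Fin N),
      Function.Injective j → ∃ l, t (j l) ≠ Phi Γ dev β (dev (c (j l))) (ρ (j l)) x := by
  classical
  set Φ : Fin N → X → ℝ := fun i x => Phi Γ dev β (dev (c i)) (ρ i) x with hΦ
  have hloc : ∀ x, ∃ r L : ℝ, 0 < r ∧ ∀ i y y', ‖dev y - dev x‖ < r → ‖dev y' - dev x‖ < r →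
      |Φ i y - Φ i y'| ≤ L * ‖dev y - dev y'‖ := by
    intro x
    choose r C hr hC h using fun i => G.Phi_lip (dev (c i)) (hρ i) (hc i) x
    obtain ⟨r₀, hr₀, hr₀'⟩ := exists_pos_le_of_finite (finite_univ : (univ : Set (Fin N)).Finite) r
      fun i _ => hr i
    refine ⟨r₀, ∑ i, C i, hr₀, fun i y y' hy hy' => ?_⟩
    refine (h i y y' (hy.trans_le (hr₀' i trivial)) (hy'.trans_le (hr₀' i trivial))).trans ?_
    gcongr
    exact Finset.single_le_sum (f := C) (fun i _ => hC i) (Finset.mem_univ i)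
  choose r L hr hrL using hloc
  choose C hC hC' using G.slice
  choose ε hε hε' using fun x => hC' x (r x) (hr x)
  -- a countable cover
  obtain ⟨T, hT1, hT2⟩ : ∃ T : Set X, T.Countable ∧ ∀ y, ∃ x ∈ T, ‖dev y - dev x‖ < ε x := by
    have h0 : ∀ v ∈ range dev, ∃ x, dev x = v := fun v hv => hv
    have : Nonempty X := ⟨c ⟨0, hN⟩⟩
    choose! xx hxx using h0
    obtain ⟨T, hT, hT', hT''⟩ := TopologicalSpace.countable_cover_nhdsWithin
      (f := fun v => ball v (ε (xx v))) (s := range dev)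
      (fun v hv => mem_nhdsWithin_of_mem_nhds (ball_mem_nhds _ (hε _)))
    refine ⟨xx '' T, hT'.image _, fun y => ?_⟩
    obtain ⟨v, hv, hv'⟩ := mem_iUnion₂.1 (hT'' ⟨y, rfl⟩)
    refine ⟨xx v, ⟨v, hv, rfl⟩, ?_⟩
    rw [hxx v (hT hv), ← dist_eq_norm]
    exact hv'
  let bad : X → (Fin n → Fin N) → Set (Fin N → ℝ) := fun x j =>
    {t : Fin N → ℝ | ∃ y, dev y - dev x ∈ C x ∧ ‖dev y - dev x‖ < r x ∧
      ∀ l, t (j l) = Φ (j l) y}
  have hdim : dimH (⋃ x ∈ T, ⋃ j ∈ {j : Fin n → Fin N | Function.Injective j}, bad x j) <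
      (Module.finrank ℝ (Fin N → ℝ) : ENNReal) := by
    refine lt_of_le_of_lt (b := ((N - 1 : ℕ) : ENNReal)) ?_ ?_
    · rw [dimH_bUnion hT1]
      refine iSup₂_le fun x _ => ?_
      rw [dimH_bUnion (Set.to_countable _)]
      refine iSup₂_le fun j hj => ?_
      exact piece_dim (C x) (hC x) x (r x) Φ (L x) (hrL x) j hj
    · rw [Module.finrank_fintype_fun_eq_card, Fintype.card_fin]
      exact_mod_cast Nat.sub_lt hN one_pos
  have hdense := dense_compl_of_dimH_lt_finrank hdim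
  obtain ⟨t, ht, ht'⟩ := hdense.exists_mem_open
    (isOpen_set_pi finite_univ (fun (_ : Fin N) _ => (isOpen_Ioo : IsOpen (Ioo (0 : ℝ) (1 / 2)))))
    ⟨fun _ => 1 / 4, fun i _ => by constructor <;> norm_num⟩
  refine ⟨t, fun i => ht' i trivial, fun x₀ j hj => ?_⟩
  by_contra hcon
  push Not at hcon
  apply ht
  obtain ⟨x, hx, hxe⟩ := hT2 x₀
  obtain ⟨s, y', hy1, hy2, hy3⟩ := hε' x x₀ hxe
  refine mem_iUnion₂.2 ⟨x, hx, mem_iUnion₂.2 ⟨j, hj, y', hy2, hy3, fun l => ?_⟩⟩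
  rw [hcon l, hy1, G.Phi_β _ (hρ _)]

end thr

end Pool.Agent.Helper63.SV
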