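import Mathlib

/-!
Project SV (helper63): chains of tuples, cones, natural chain maps and their homotopies.
-/

set_option autoImplicit false

open Finset

namespace Pool.Agent.Helper63.SV

/-- real chains of `m`-tuples -/
abbrev TC (S : Type) (m : ℕ) : Type := (Fin m → S) →₀ ℝ

section basic

variable {S Z : Type}

/-- linear extension -/
noncomputable abbrev lin {m l : ℕ} (G : (Fin m → S) → TC Z l) : TC S m →ₗ[ℝ] TC Z l :=
  Finsupp.linearCombination ℝ G

/-- evaluation of a function on a chain -/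
noncomputable abbrev pr {m : ℕ} (f : (Fin m → S) → ℝ) : TC S m →ₗ[ℝ] ℝ :=
  Finsupp.linearCombination ℝ f

/-- the boundary of a tuple -/
noncomputable def bx {m : ℕ} (x : Fin (m + 1) → S) : TC S m :=
  ∑ i : Fin (m + 1), ((-1 : ℝ) ^ (i : ℕ)) • Finsupp.single (fun j => x (i.succAbove j)) 1

/-- the boundary -/
noncomputable def bd {m : ℕ} : TC S (m + 1) →ₗ[ℝ] TC S m := Finsupp.linearCombination ℝ bx

theorem bd_single {m : ℕ} (x : Fin (m + 1) → S) : bd (Finsupp.single x 1) = bx x := by
  rw [bd, Finsupp.linearCombination_single, one_smul]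

/-- the cone with apex `a` -/
noncomputable def cn {m : ℕ} (a : S) : TC S m →ₗ[ℝ] TC S (m + 1) :=
  Finsupp.lmapDomain ℝ ℝ (fun x : Fin m → S => (Fin.cons a x : Fin (m + 1) → S))

theorem cn_single {m : ℕ} (a : S) (x : Fin m → S) (c : ℝ) :
    cn a (Finsupp.single x c) = Finsupp.single (Fin.cons a x : Fin (m + 1) → S) c := by
  rw [cn, Finsupp.lmapDomain_apply, Finsupp.mapDomain_single]

theorem cons_succAbove {m : ℕ} (a : S) (x : Fin (m + 1) → S) (i : Fin (m + 1)) :
    (fun j => (Fin.cons a x : Fin (m + 2) → S) (i.succ.succAbove j)) =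
      (Fin.cons a (fun j => x (i.succAbove j)) : Fin (m + 1) → S) := by
  funext j
  refine Fin.cases ?_ (fun l => ?_) j
  · rw [Fin.succ_succAbove_zero, Fin.cons_zero, Fin.cons_zero]
  · rw [Fin.succ_succAbove_succ, Fin.cons_succ, Fin.cons_succ]

theorem bd_cn_single {m : ℕ} (a : S) (x : Fin (m + 1) → S) :
    bd (cn a (Finsupp.single x 1)) = Finsupp.single x 1 - cn a (bx x) := by
  rw [cn_single, bd_single, bx, Fin.sum_univ_succ]
  have h0 : (fun j => (Fin.cons a x : Fin (m + 2) → S) ((0 : Fin (m + 2)).succAbove j)) = x := by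
    funext j
    rw [Fin.succAbove_zero, Fin.cons_succ]
  rw [h0]
  simp only [Fin.val_zero, pow_zero, one_smul]
  rw [sub_eq_add_neg]
  congr 1
  rw [bx, map_sum, ← Finset.sum_neg_distrib]
  refine Finset.sum_congr rfl fun i _ => ?_
  rw [cons_succAbove, map_smul, cn_single, Fin.val_succ, pow_succ]
  simp

theorem bd_cn {m : ℕ} (a : S) (c : TC S (m + 1)) : bd (cn a c) = c - cn a (bd c) := by
  have : (bd.comp (cn a) : TC S (m + 1) →ₗ[ℝ] TC S (m + 1)) =
      LinearMap.id - (cn a).comp bd := by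
    refine Finsupp.lhom_ext' fun x => LinearMap.ext_ring ?_
    simp only [LinearMap.comp_apply, Finsupp.lsingle_apply, LinearMap.sub_apply,
      LinearMap.id_apply]
    rw [bd_cn_single, bd_single]
  exact LinearMap.congr_fun this c

theorem bd_cn_zero (a : S) (c : TC S 0) : bd (cn a c) = c := by
  have : (bd.comp (cn a) : TC S 0 →ₗ[ℝ] TC S 0) = LinearMap.id := by
    refine Finsupp.lhom_ext' fun x => LinearMap.ext_ring ?_
    simp only [LinearMap.comp_apply, Finsupp.lsingle_apply, LinearMap.id_apply]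
    rw [cn_single, bd_single, bx, Fin.sum_univ_one]
    simp only [Fin.val_zero, pow_zero, one_smul]
    congr 1
  exact LinearMap.congr_fun this c

theorem bd_bd {m : ℕ} (c : TC S (m + 2)) : bd (bd c) = 0 := by
  induction m with
  | zero =>
    have : (bd.comp bd : TC S 2 →ₗ[ℝ] TC S 0) = 0 := by
      refine Finsupp.lhom_ext' fun x => LinearMap.ext_ring ?_
      simp only [LinearMap.comp_apply, Finsupp.lsingle_apply, LinearMap.zero_apply]
      have hx : (Finsupp.single x 1 : TC S 2) = cn (x 0) (Finsupp.single (Fin.tail x) 1) := by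
        rw [cn_single, Fin.cons_self_tail]
      rw [hx, bd_cn, map_sub, bd_cn_zero, sub_self]
    exact LinearMap.congr_fun this c
  | succ m ih =>
    have : (bd.comp bd : TC S (m + 3) →ₗ[ℝ] TC S (m + 1)) = 0 := by
      refine Finsupp.lhom_ext' fun x => LinearMap.ext_ring ?_
      simp only [LinearMap.comp_apply, Finsupp.lsingle_apply, LinearMap.zero_apply]
      have hx : (Finsupp.single x 1 : TC S (m + 3)) = cn (x 0) (Finsupp.single (Fin.tail x) 1) := by
        rw [cn_single, Fin.cons_self_tail]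
      rw [hx, bd_cn, map_sub, bd_cn, ih, map_zero, sub_zero, sub_self]
    exact LinearMap.congr_fun this c

theorem lin_single {m l : ℕ} (G : (Fin m → S) → TC Z l) (x : Fin m → S) :
    lin G (Finsupp.single x 1) = G x := by
  rw [lin, Finsupp.linearCombination_single, one_smul]

theorem pr_single {m : ℕ} (f : (Fin m → S) → ℝ) (x : Fin m → S) :
    pr f (Finsupp.single x 1) = f x := by
  rw [pr, Finsupp.linearCombination_single, one_smul]

theorem pr_lin {m l : ℕ} (f : (Fin l → Z) → ℝ) (G : (Fin m → S) → TC Z l) (c : TC S m) :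
    pr f (lin G c) = pr (fun x => pr f (G x)) c := by
  have : ((pr f).comp (lin G) : TC S m →ₗ[ℝ] ℝ) = pr (fun x => pr f (G x)) := by
    refine Finsupp.lhom_ext' fun x => LinearMap.ext_ring ?_
    simp only [LinearMap.comp_apply, Finsupp.lsingle_apply]
    rw [lin_single, pr_single]
  exact LinearMap.congr_fun this c

theorem lin_lin {W : Type} {m l p : ℕ} (F : (Fin l → Z) → TC W p) (G : (Fin m → S) → TC Z l)
    (c : TC S m) : lin F (lin G c) = lin (fun x => lin F (G x)) c := by
  have : ((lin F).comp (lin G) : TC S m →ₗ[ℝ] TC W p) = lin (fun x => lin F (G x)) := by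
    refine Finsupp.lhom_ext' fun x => LinearMap.ext_ring ?_
    simp only [LinearMap.comp_apply, Finsupp.lsingle_apply]
    rw [lin_single, lin_single]
  exact LinearMap.congr_fun this c

/-- the support of the image of a chain -/
theorem exists_of_mem_support_lin {m l : ℕ} (G : (Fin m → S) → TC Z l) (c : TC S m)
    (y : Fin l → Z) (hy : y ∈ (lin G c).support) : ∃ x ∈ c.support, y ∈ (G x).support := by
  classical
  rw [lin, Finsupp.linearCombination_apply, Finsupp.sum] at hy
  obtain ⟨x, hx, hy⟩ := Finset.mem_biUnion.1 (Finsupp.support_finsetSum hy)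
  exact ⟨x, hx, Finsupp.support_smul hy⟩

end basic

section action

variable {Γ S Z : Type} [Group Γ] [MulAction Γ S] [MulAction Γ Z]

/-- the action of a group element on chains -/
noncomputable def ga {m : ℕ} (γ : Γ) : TC S m →ₗ[ℝ] TC S m :=
  Finsupp.lmapDomain ℝ ℝ (fun x : Fin m → S => γ • x)

theorem ga_single {m : ℕ} (γ : Γ) (x : Fin m → S) (c : ℝ) :
    ga γ (Finsupp.single x c) = Finsupp.single (γ • x) c := by
  rw [ga, Finsupp.lmapDomain_apply, Finsupp.mapDomain_single]

theorem ga_bx {m : ℕ} (γ : Γ) (x : Fin (m + 1) → S) : bx (γ • x) = ga γ (bx x) := by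
  rw [bx, bx, map_sum]
  refine Finset.sum_congr rfl fun i _ => ?_
  rw [map_smul, ga_single]
  rfl

theorem ga_cn {m : ℕ} (γ : Γ) (a : S) (c : TC S m) : ga γ (cn a c) = cn (γ • a) (ga γ c) := by
  have : ((ga γ).comp (cn a) : TC S m →ₗ[ℝ] TC S (m + 1)) = (cn (γ • a)).comp (ga γ) := by
    refine Finsupp.lhom_ext' fun x => LinearMap.ext_ring ?_
    simp only [LinearMap.comp_apply, Finsupp.lsingle_apply]
    rw [cn_single, ga_single, ga_single, cn_single]
    congr 1
    funext j
    refine Fin.cases ?_ (fun l => ?_) j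
    · simp
    · simp
  exact LinearMap.congr_fun this c

theorem ga_lin {m l : ℕ} (γ : Γ) (G : (Fin m → S) → TC Z l) (hG : ∀ x, G (γ • x) = ga γ (G x))
    (c : TC S m) : lin G (ga γ c) = ga γ (lin G c) := by
  have : ((lin G).comp (ga γ) : TC S m →ₗ[ℝ] TC Z l) = (ga γ).comp (lin G) := by
    refine Finsupp.lhom_ext' fun x => LinearMap.ext_ring ?_
    simp only [LinearMap.comp_apply, Finsupp.lsingle_apply]
    rw [ga_single, lin_single, lin_single, hG]
  exact LinearMap.congr_fun this c

theorem pr_ga {m : ℕ} (γ : Γ) (f : (Fin m → S) → ℝ) (hf : ∀ x, f (γ • x) = f x) (c : TC S m) :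
    pr f (ga γ c) = pr f c := by
  have : ((pr f).comp (ga γ) : TC S m →ₗ[ℝ] ℝ) = pr f := by
    refine Finsupp.lhom_ext' fun x => LinearMap.ext_ring ?_
    simp only [LinearMap.comp_apply, Finsupp.lsingle_apply]
    rw [ga_single, pr_single, pr_single, hf]
  exact LinearMap.congr_fun this c

/-- cycles modulo the group -/
def IsCyc (Γ : Type) {S : Type} [Group Γ] [MulAction Γ S] {n : ℕ} (z : TC S (n + 1)) : Prop :=
  ∀ h : (Fin n → S) → ℝ, (∀ (γ : Γ) x, h (γ • x) = h x) → pr h (bd z) = 0

/-- equivariant augmentation preserving chain maps -/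
structure ChMap (Γ S Z : Type) [Group Γ] [MulAction Γ S] [MulAction Γ Z] where
  /-- the values on tuples -/
  G : ∀ m, (Fin m → S) → TC Z m
  /-- equivariance -/
  eqv : ∀ m (γ : Γ) (x : Fin m → S), G m (γ • x) = ga γ (G m x)
  /-- chain map -/
  comm : ∀ m (x : Fin (m + 1) → S), bd (G (m + 1) x) = lin (G m) (bx x)
  /-- augmentation -/
  aug : ∀ x : Fin 0 → S, G 0 x = Finsupp.single default 1

theorem ChMap.bd_lin (P : ChMap Γ S Z) {m : ℕ} (c : TC S (m + 1)) :
    bd (lin (P.G (m + 1)) c) = lin (P.G m) (bd c) := by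
  have : (bd.comp (lin (P.G (m + 1))) : TC S (m + 1) →ₗ[ℝ] TC Z m) =
      (lin (P.G m)).comp bd := by
    refine Finsupp.lhom_ext' fun x => LinearMap.ext_ring ?_
    simp only [LinearMap.comp_apply, Finsupp.lsingle_apply]
    rw [lin_single, bd_single, P.comm]
  exact LinearMap.congr_fun this c

/-- the homotopy, defined by recursion -/
noncomputable def HH (T : ∀ m, (Fin m → S) → TC Z m) (u : S → Z) :
    ∀ m, (Fin m → S) → TC Z (m + 1)
  | 0, _ => 0
  | m + 1, x => cn (u (x 0)) (T (m + 1) x - lin (HH T u m) (bx x))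

theorem HH_spec (T : ∀ m, (Fin m → S) → TC Z m) (u : S → Z)
    (hT : ∀ m (x : Fin (m + 1) → S), bd (T (m + 1) x) = lin (T m) (bx x))
    (hT0 : ∀ x, T 0 x = 0) : ∀ m (x : Fin (m + 1) → S),
    bd (HH T u (m + 1) x) = T (m + 1) x - lin (HH T u m) (bx x) := by
  have hbb : ∀ m (x : Fin (m + 2) → S), bd (bx x) = 0 := fun m x => by
    rw [← bd_single, bd_bd]
  intro m
  induction m with
  | zero =>
    intro x
    rw [HH, bd_cn]
    have hw : bd (T 1 x - lin (HH T u 0) (bx x)) = 0 := by
      rw [map_sub, hT]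
      have e1 : lin (T 0) (bx x) = 0 := by
        rw [lin, Finsupp.linearCombination_apply, Finsupp.sum]
        refine Finset.sum_eq_zero fun y _ => ?_
        rw [hT0, smul_zero]
      have e2 : lin (HH T u 0) (bx x) = 0 := by
        rw [lin, Finsupp.linearCombination_apply, Finsupp.sum]
        refine Finset.sum_eq_zero fun y _ => ?_
        rw [HH, smul_zero]
      rw [e1, e2, map_zero, sub_zero]
    rw [hw, map_zero, sub_zero]
  | succ m ih =>
    intro x
    rw [HH, bd_cn]
    have hlin : ∀ c : TC S (m + 1), bd (lin (HH T u (m + 1)) c) =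
        lin (T (m + 1)) c - lin (HH T u m) (bd c) := by
      intro c
      have : (bd.comp (lin (HH T u (m + 1))) : TC S (m + 1) →ₗ[ℝ] TC Z (m + 1)) =
          lin (T (m + 1)) - (lin (HH T u m)).comp bd := by
        refine Finsupp.lhom_ext' fun y => LinearMap.ext_ring ?_
        simp only [LinearMap.comp_apply, Finsupp.lsingle_apply, LinearMap.sub_apply]
        rw [lin_single, lin_single, bd_single, ih]
      exact LinearMap.congr_fun this c
    have hw : bd (T (m + 2) x - lin (HH T u (m + 1)) (bx x)) = 0 := by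
      rw [map_sub, hT, hlin, hbb, map_zero, sub_zero, sub_self]
    rw [hw, map_zero, sub_zero]

theorem HH_eqv (T : ∀ m, (Fin m → S) → TC Z m) (u : S → Z) (γ : Γ)
    (hT : ∀ m (x : Fin m → S), T m (γ • x) = ga γ (T m x)) (hu : ∀ x, u (γ • x) = γ • u x) :
    ∀ m (x : Fin m → S), HH T u m (γ • x) = ga γ (HH T u m x) := by
  intro m
  induction m with
  | zero =>
    intro x
    rw [HH, HH, map_zero]
  | succ m ih =>
    intro x
    show cn (u (γ • x 0)) (T (m + 1) (γ • x) - lin (HH T u m) (bx (γ • x))) =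
      ga γ (cn (u (x 0)) (T (m + 1) x - lin (HH T u m) (bx x)))
    rw [hT, ga_bx, ga_lin γ _ ih, ← map_sub, ga_cn, hu]

/-- **Equivariant chain maps are homotopic.** -/
theorem ChMap.homotopy (P Q : ChMap Γ S Z) (u : S → Z) (hu : ∀ (γ : Γ) x, u (γ • x) = γ • u x)
    {n : ℕ} (f : (Fin (n + 1) → Z) → ℝ) (hf : ∀ c : TC Z (n + 2), pr f (bd c) = 0)
    (hfi : ∀ (γ : Γ) x, f (γ • x) = f x) (z : TC S (n + 1)) (hz : IsCyc Γ z) :
    pr f (lin (P.G (n + 1)) z) = pr f (lin (Q.G (n + 1)) z) := by
  let T : ∀ m, (Fin m → S) → TC Z m := fun m x => P.G m x - Q.G m x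
  have hlinT : ∀ m (c : TC S m), lin (T m) c = lin (P.G m) c - lin (Q.G m) c := by
    intro m c
    have : (lin (T m) : TC S m →ₗ[ℝ] TC Z m) = lin (P.G m) - lin (Q.G m) := by
      refine Finsupp.lhom_ext' fun x => LinearMap.ext_ring ?_
      simp only [LinearMap.comp_apply, Finsupp.lsingle_apply, LinearMap.sub_apply]
      rw [lin_single, lin_single, lin_single]
    exact LinearMap.congr_fun this c
  have hT : ∀ m (x : Fin (m + 1) → S), bd (T (m + 1) x) = lin (T m) (bx x) := by
    intro m x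
    rw [hlinT, ← P.comm, ← Q.comm, ← map_sub]
  have hT0 : ∀ x, T 0 x = 0 := fun x => by
    show P.G 0 x - Q.G 0 x = 0
    rw [P.aug, Q.aug, sub_self]
  have hTe : ∀ (γ : Γ) m (x : Fin m → S), T m (γ • x) = ga γ (T m x) := by
    intro γ m x
    show P.G m (γ • x) - Q.G m (γ • x) = ga γ (P.G m x - Q.G m x)
    rw [P.eqv, Q.eqv, map_sub]
  have hs := HH_spec T u hT hT0
  have hspec : ∀ c : TC S (n + 1), lin (T (n + 1)) c =
      bd (lin (HH T u (n + 1)) c) + lin (HH T u n) (bd c) := by
    intro c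
    have : (lin (T (n + 1)) : TC S (n + 1) →ₗ[ℝ] TC Z (n + 1)) =
        bd.comp (lin (HH T u (n + 1))) + (lin (HH T u n)).comp bd := by
      refine Finsupp.lhom_ext' fun x => LinearMap.ext_ring ?_
      simp only [LinearMap.comp_apply, Finsupp.lsingle_apply, LinearMap.add_apply]
      rw [lin_single, lin_single, bd_single, hs, sub_add_cancel]
    exact LinearMap.congr_fun this c
  rw [← sub_eq_zero, ← map_sub, ← hlinT, hspec, map_add, hf, zero_add, pr_lin]
  apply hz
  intro γ x
  show pr f (HH T u n (γ • x)) = pr f (HH T u n x)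
  rw [HH_eqv T u γ (hTe γ) (hu γ), pr_ga γ f (hfi γ)]

end action

end Pool.Agent.Helper63.SV
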