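import Pool.Agent.Helper63.SV.Vec
import Pool.Agent.Helper63.SV.Trf

/-!
Project SV (helper63): weakly commensurated abelian groups of virtually unipotent affine maps.
-/

set_option autoImplicit false

open Set Metric Filter Topology NormedSpace

namespace Pool.Agent.Helper63.SV

section nil

variable {A : Type} [NormedRing A] [NormedAlgebra ℝ A] [CompleteSpace A]

theorem exp_inj_nil {B B' : A} (hB : IsNilpotent B) (hB' : IsNilpotent B')
    (h : exp B = exp B') : B = B' := by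
  obtain ⟨D, hD⟩ := hB
  obtain ⟨D', hD'⟩ := hB'
  exact exp_inj_nilp (pow_eq_zero_of_le (le_max_left D D') hD)
    (pow_eq_zero_of_le (le_max_right D D') hD') h

theorem commute_nil {B B' : A} (hB : IsNilpotent B) (hB' : IsNilpotent B')
    (h : Commute (exp B) (exp B')) : Commute B B' := by
  obtain ⟨D, hD⟩ := hB
  obtain ⟨D', hD'⟩ := hB'
  exact commute_of_exp (pow_eq_zero_of_le (le_max_left D D') hD)
    (pow_eq_zero_of_le (le_max_right D D') hD') h

end nil

section snd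

variable {E : Type} [NormedAddCommGroup E] [NormedSpace ℝ E] [FiniteDimensional ℝ E]

theorem exp_nat_al (n : ℕ) (B : (E × ℝ) →L[ℝ] (E × ℝ)) : exp ((n : ℝ) • B) = exp B ^ n :=
  exp_nat_smul n B

theorem snd_zero {B : (E × ℝ) →L[ℝ] (E × ℝ)} (hB : IsNilpotent B)
    (h : ∀ p, (exp B p).2 = p.2) (p : E × ℝ) : (B p).2 = 0 := by
  have hn : ∀ (n : ℕ) p, (exp ((n : ℝ) • B) p).2 = p.2 := by
    intro n
    rw [exp_nat_al]
    induction n with
    | zero => exact fun p => rfl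
    | succ n ih =>
      intro p
      rw [pow_succ]
      show ((exp B ^ n) (exp B p)).2 = p.2
      rw [ih, h]
  obtain ⟨D, hD⟩ := hB
  have h1 : B ^ (D + 2) = 0 := pow_eq_zero_of_le (by omega) hD
  have h3 := poly_zero (D + 2) (fun j => if j = 0 then (0 : ℝ) else
    (j.factorial : ℝ)⁻¹ * ((B ^ j) p).2) (by
      intro n
      have h4 := hn n p
      rw [exp_smul_nilp h1, sum_apply, Prod.snd_sum, Finset.sum_range_succ'] at h4
      rw [Finset.sum_range_succ']
      simp only [if_true, smul_zero, add_zero, Nat.succ_ne_zero, if_false]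
      have h5 : (((n : ℝ) ^ 0 • ((Nat.factorial 0 : ℝ)⁻¹ • B ^ 0)) p).2 = p.2 := by
        simp
      rw [h5] at h4
      have h6 := add_eq_right.1 h4
      rw [← h6]
      exact Finset.sum_congr rfl fun j _ => rfl) 1 (by omega)
  simpa using h3

end snd

section lat

variable {Γ E : Type} [Group Γ] [NormedAddCommGroup E] [NormedSpace ℝ E] [FiniteDimensional ℝ E]

theorem lat_of {k : ℕ} (hol : Γ →* (E →ᵃ[ℝ] E)) (B : Fin k → ((E × ℝ) →L[ℝ] (E × ℝ)))
    (hBc : ∀ i j, Commute (B i) (B j)) (hlat : ∀ i, ∃ γ : Γ, rep hol γ = exp (B i))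
    (m : Fin k → ℤ) : ∃ γ : Γ, rep hol γ = exp (vecL B fun i => (m i : ℝ)) := by
  let L : AddSubgroup (Fin k → ℝ) :=
    { carrier := {s | ∃ γ : Γ, rep hol γ = exp (vecL B s)}
      zero_mem' := ⟨1, by rw [map_one, map_zero, exp_zero]⟩
      add_mem' := by
        rintro s t ⟨γ, hγ⟩ ⟨δ, hδ⟩
        exact ⟨γ * δ, by rw [map_mul, hγ, hδ, map_add, exp_add' (vecL_comm B hBc s t)]⟩
      neg_mem' := by
        rintro s ⟨γ, hγ⟩
        refine ⟨γ⁻¹, ?_⟩
        have h1 : rep hol γ⁻¹ * rep hol γ = 1 := by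
          rw [← map_mul, inv_mul_cancel, map_one]
        have h2 : rep hol γ * exp (-(vecL B s)) = 1 := by
          rw [hγ]
          exact exp_mul_neg' _
        rw [map_neg]
        exact left_inv_eq_right_inv h1 h2 }
  have hm : (fun i => (m i : ℝ)) ∈ L := by
    have e : (fun i => (m i : ℝ)) = ∑ i, m i • (Pi.single i (1 : ℝ) : Fin k → ℝ) := by
      funext j
      simp [Finset.sum_apply, Pi.single_apply]
    rw [e]
    refine L.sum_mem fun i _ => L.zsmul_mem ?_ _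
    obtain ⟨γ, hγ⟩ := hlat i
    refine ⟨γ, ?_⟩
    rw [hγ, vecL_apply]
    congr 1
    simp [Pi.single_apply]
  exact hm

omit [FiniteDimensional ℝ E] in
theorem vecL_nil {k : ℕ} (B : Fin k → ((E × ℝ) →L[ℝ] (E × ℝ)))
    (hBc : ∀ i j, Commute (B i) (B j)) (hBn : ∀ i, IsNilpotent (B i)) (s : Fin k → ℝ) :
    IsNilpotent (vecL B s) := by
  rw [vecL_apply]
  refine Commute.isNilpotent_sum (fun i _ => ?_) fun i j _ _ =>
    ((hBc i j).smul_left _).smul_right _
  exact (hBn i).smul _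

end lat

section uni

variable {H E : Type} [Group H] [NormedAddCommGroup E] [NormedSpace ℝ E] [FiniteDimensional ℝ E]
  [MulAction H E]

theorem rep_apply (hol : H →* (E →ᵃ[ℝ] E)) (hact : ∀ (γ : H) (x : E), γ • x = hol γ x) (γ : H)
    (x : E) : rep hol γ (x, 1) = (γ • x, 1) := by
  rw [hact]
  exact hatL_apply _ _

theorem rep_inj (hol : H →* (E →ᵃ[ℝ] E)) (hact : ∀ (γ : H) (x : E), γ • x = hol γ x)
    (hfree : ∀ (γ : H) (x : E), γ • x = x → γ = 1) : Function.Injective (rep hol) := by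
  intro γ δ h
  have h1 : rep hol γ (0, 1) = rep hol δ (0, 1) := by rw [h]
  rw [rep_apply hol hact, rep_apply hol hact] at h1
  have h2 : γ • (0 : E) = δ • (0 : E) := congrArg Prod.fst h1
  have h3 : (γ⁻¹ * δ) • (0 : E) = 0 := by
    rw [mul_smul, ← h2, inv_smul_smul]
  exact inv_mul_eq_one.1 (hfree _ _ h3)

/-- the fixed points of a vector group with a lattice in `H` -/
theorem ind_of_pd (hol : H →* (E →ᵃ[ℝ] E)) (hact : ∀ (γ : H) (x : E), γ • x = hol γ x)
    (hpd : ∀ K : Set E, IsCompact K → {γ : H | ∃ x ∈ K, γ • x ∈ K}.Finite)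
    {k : ℕ} (B : Fin k → ((E × ℝ) →L[ℝ] (E × ℝ)))
    (hBc : ∀ i j, Commute (B i) (B j)) (hBn : ∀ i, IsNilpotent (B i))
    (hBl : LinearIndependent ℝ B) (hlat : ∀ i, ∃ γ : H, rep hol γ = exp (B i)) (x : E)
    (s : Fin k → ℝ) (hs : vecL B s (x, 1) = 0) : s = 0 := by
  by_contra hs0
  obtain ⟨i₀, hi₀⟩ : ∃ i, s i ≠ 0 := by
    by_contra hcon
    push Not at hcon
    exact hs0 (funext hcon)
  choose γ hγ using lat_of hol B hBc hlat
  set Q : Set E := (fun r : Fin k → ℝ => (exp (-(vecL B r)) (x, 1)).1) '' cube k with hQ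
  have hQc : IsCompact Q := by
    refine (isCompact_Icc : IsCompact (Icc (0 : Fin k → ℝ) 1)).image ?_
    have h1 : Continuous fun r : Fin k → ℝ => exp (-(vecL B r)) :=
      exp_continuous'.comp (vecL B).continuous.neg
    exact (h1.clm_apply continuous_const).fst
  have hfin := hpd (Q ∪ {x}) (hQc.union isCompact_singleton)
  -- multiples of `s` do not move `x`
  have hfix : ∀ t : ℕ, exp (vecL B ((t : ℝ) • s)) (x, 1) = (x, 1) := by
    intro t
    rw [map_smul, exp_nat_al]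
    have h1 : exp (vecL B s) (x, 1) = (x, 1) := by
      obtain ⟨D, hD⟩ := vecL_nil B hBc hBn s
      have hD' : vecL B s ^ (D + 1) = 0 := pow_eq_zero_of_le (by omega) hD
      rw [exp_nilp hD', sum_apply, Finset.sum_range_succ']
      have h2 : ∀ j ∈ Finset.range D, (((j + 1).factorial : ℝ)⁻¹ • vecL B s ^ (j + 1))
          ((x, 1) : E × ℝ) = 0 := by
        intro j _
        show ((j + 1).factorial : ℝ)⁻¹ • (vecL B s ^ (j + 1)) ((x, 1) : E × ℝ) = 0
        rw [pow_succ]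
        show ((j + 1).factorial : ℝ)⁻¹ • (vecL B s ^ j) (vecL B s ((x, 1) : E × ℝ)) = 0
        rw [hs, map_zero, smul_zero]
      rw [Finset.sum_eq_zero h2, zero_add]
      simp
    induction t with
    | zero => rfl
    | succ t ih =>
      rw [pow_succ]
      show (exp (vecL B s) ^ t) (exp (vecL B s) (x, 1)) = (x, 1)
      rw [h1, ih]
  have hmem : ∀ t : ℕ, γ (fun i => ⌊(t : ℝ) * s i⌋) ∈
      {γ : H | ∃ y ∈ Q ∪ {x}, γ • y ∈ Q ∪ {x}} := by
    intro t
    refine ⟨x, Or.inr rfl, Or.inl ⟨fun i => Int.fract ((t : ℝ) * s i),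
      ⟨fun i => Int.fract_nonneg _, fun i => (Int.fract_lt_one _).le⟩, ?_⟩⟩
    have h1 := hγ fun i => ⌊(t : ℝ) * s i⌋
    have h2 := rep_apply hol hact (γ fun i => ⌊(t : ℝ) * s i⌋) x
    rw [h1] at h2
    have h3 : (fun i => ((⌊(t : ℝ) * s i⌋ : ℤ) : ℝ)) =
        -(fun i => Int.fract ((t : ℝ) * s i)) + (t : ℝ) • s := by
      funext i
      show ((⌊(t : ℝ) * s i⌋ : ℤ) : ℝ) = -(Int.fract ((t : ℝ) * s i)) + (t : ℝ) * s i
      have := Int.fract_add_floor ((t : ℝ) * s i)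
      linarith
    rw [h3, map_add, exp_add' (vecL_comm B hBc _ _)] at h2
    have h4 : exp (vecL B (-(fun i => Int.fract ((t : ℝ) * s i))))
        (exp (vecL B ((t : ℝ) • s)) (x, 1)) =
        (γ (fun i => ⌊(t : ℝ) * s i⌋) • x, 1) := h2
    rw [hfix, map_neg] at h4
    show (exp (-(vecL B fun i => Int.fract ((t : ℝ) * s i))) (x, 1)).1 = _
    rw [h4]
  have hinj : ∀ m m' : Fin k → ℤ, γ m = γ m' → m = m' := by
    intro m m' h
    have h1 := hγ m
    rw [h, hγ m'] at h1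
    have h2 := exp_inj_nil (vecL_nil B hBc hBn _) (vecL_nil B hBc hBn _) h1
    rw [vecL_apply, vecL_apply] at h2
    rw [Fintype.linearIndependent_iff] at hBl
    have h3 := hBl (fun i => (m' i : ℝ) - (m i : ℝ)) (by
      simp only [sub_smul]
      rw [Finset.sum_sub_distrib, h2, sub_self])
    funext i
    have h4 : (m' i : ℝ) - (m i : ℝ) = 0 := h3 i
    have h5 : (m' i : ℝ) = (m i : ℝ) := by linarith
    exact_mod_cast h5.symm
  -- finitely many integral vectors
  have hfin2 : (range fun t : ℕ => ⌊(t : ℝ) * s i₀⌋).Finite := by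
    have h1 : (range fun t : ℕ => fun i => ⌊(t : ℝ) * s i⌋).Finite := by
      refine Set.Finite.of_finite_image (f := γ) (hfin.subset ?_) ?_
      · rintro _ ⟨_, ⟨t, rfl⟩, rfl⟩
        exact hmem t
      · intro m _ m' _ h
        exact hinj m m' h
    refine (h1.image fun m => m i₀).subset ?_
    rintro _ ⟨t, rfl⟩
    exact ⟨_, ⟨t, rfl⟩, rfl⟩
  obtain ⟨b, hb⟩ := hfin2.bddAbove
  obtain ⟨b', hb'⟩ := hfin2.bddBelow
  rcases lt_or_gt_of_ne hi₀ with h | h
  · obtain ⟨t, ht⟩ := exists_nat_gt ((b' : ℝ) / s i₀)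
    rw [div_lt_iff_of_neg h] at ht
    have h1 : b' ≤ ⌊(t : ℝ) * s i₀⌋ := hb' ⟨t, rfl⟩
    have h2 := Int.le_floor.1 h1
    linarith
  · obtain ⟨t, ht⟩ := exists_nat_gt (((b : ℝ) + 1) / s i₀)
    rw [div_lt_iff₀ h] at ht
    have h1 : ⌊(t : ℝ) * s i₀⌋ ≤ b := hb ⟨t, rfl⟩
    have h2 := Int.lt_floor_add_one ((t : ℝ) * s i₀)
    have h3 : ((⌊(t : ℝ) * s i₀⌋ : ℤ) : ℝ) ≤ (b : ℝ) := by exact_mod_cast h1
    linarith

end uni

end Pool.Agent.Helper63.SV
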