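import Pool.Agent.Helper63.SV.Uni

/-!
Project SV (helper63): vanishing for weakly commensurated abelian groups of virtually unipotent
affine maps.
-/

set_option autoImplicit false

open Set Metric Filter Topology NormedSpace

namespace Pool.Agent.Helper63.SV

section rank

variable {H E : Type} [Group H] [NormedAddCommGroup E] [NormedSpace ℝ E] [FiniteDimensional ℝ E]
  [MulAction H E]

theorem nil_pow {R : Type} [Ring R] {u : R} (h : IsNilpotent (u - 1)) (q : ℕ) :
    IsNilpotent (u ^ q - 1) := by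
  rw [← mul_geom_sum]
  have hc : Commute (u - 1) (∑ i ∈ Finset.range q, u ^ i) := by
    refine Commute.sum_right _ _ _ fun i _ => ?_
    exact ((Commute.refl u).pow_right i).sub_left (Commute.one_left _)
  exact hc.isNilpotent_mul_right h

/-- the logarithms of an abelian group of rank `r` span a space of dimension at least `r` -/
theorem rank_le (hol : H →* (E →ᵃ[ℝ] E)) (hact : ∀ (γ : H) (x : E), γ • x = hol γ x)
    (hfree : ∀ (γ : H) (x : E), γ • x = x → γ = 1)
    (hpd : ∀ K : Set E, IsCompact K → {γ : H | ∃ x ∈ K, γ • x ∈ K}.Finite)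
    {r : ℕ} (φ : Multiplicative (Fin r → ℤ) →* H) (hφ : Function.Injective φ)
    (M : Fin r → ℕ) (hM : ∀ i, 0 < M i) (b : Fin r → ((E × ℝ) →L[ℝ] (E × ℝ)))
    (hbn : ∀ i, IsNilpotent (b i))
    (hb : ∀ i, rep hol (φ (Multiplicative.ofAdd (Pi.single i 1)) ^ M i) = exp (b i)) :
    Module.finrank ℝ (Submodule.span ℝ (range b)) = r := by
  have hbc : ∀ i j, Commute (b i) (b j) := by
    intro i j
    apply commute_nil (hbn i) (hbn j)
    rw [← hb, ← hb]
    have h1 : Commute (φ (Multiplicative.ofAdd (Pi.single i 1)) ^ M i)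
        (φ (Multiplicative.ofAdd (Pi.single j 1)) ^ M j) := by
      apply Commute.pow_pow
      exact (Commute.all _ _).map φ
    exact h1.map (rep hol)
  -- the identity on the whole lattice
  have key : ∀ m : Fin r → ℤ, rep hol (φ (Multiplicative.ofAdd fun i => (M i : ℤ) * m i)) =
      exp (vecL b fun i => (m i : ℝ)) := by
    let L : AddSubgroup (Fin r → ℤ) :=
      { carrier := {m | rep hol (φ (Multiplicative.ofAdd fun i => (M i : ℤ) * m i)) =
          exp (vecL b fun i => (m i : ℝ))}
        zero_mem' := by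
          show rep hol (φ (Multiplicative.ofAdd fun i => (M i : ℤ) * (0 : ℤ))) =
            exp (vecL b fun i => ((0 : ℤ) : ℝ))
          have e1 : (fun i : Fin r => (M i : ℤ) * (0 : ℤ)) = 0 := by
            funext i
            simp
          have e2 : (fun _ : Fin r => ((0 : ℤ) : ℝ)) = 0 := by
            funext i
            simp
          rw [e1, e2, ofAdd_zero, map_one, map_one, map_zero, exp_zero]
        add_mem' := by
          intro m m' hm hm'
          have hm1 : rep hol (φ (Multiplicative.ofAdd fun i => (M i : ℤ) * m i)) =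
            exp (vecL b fun i => (m i : ℝ)) := hm
          have hm2 : rep hol (φ (Multiplicative.ofAdd fun i => (M i : ℤ) * m' i)) =
            exp (vecL b fun i => (m' i : ℝ)) := hm'
          show rep hol (φ (Multiplicative.ofAdd fun i => (M i : ℤ) * (m i + m' i))) =
            exp (vecL b fun i => ((m i + m' i : ℤ) : ℝ))
          have e1 : (fun i : Fin r => (M i : ℤ) * (m i + m' i)) =
              (fun i => (M i : ℤ) * m i) + fun i => (M i : ℤ) * m' i := by
            funext i
            simp [mul_add]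
          have e2 : (fun i : Fin r => ((m i + m' i : ℤ) : ℝ)) =
              (fun i => (m i : ℝ)) + fun i => (m' i : ℝ) := by
            funext i
            simp
          rw [e1, e2, ofAdd_add, map_mul, map_mul, hm1, hm2, map_add,
            exp_add' (vecL_comm b hbc _ _)]
        neg_mem' := by
          intro m hm
          have hm1 : rep hol (φ (Multiplicative.ofAdd fun i => (M i : ℤ) * m i)) =
            exp (vecL b fun i => (m i : ℝ)) := hm
          show rep hol (φ (Multiplicative.ofAdd fun i => (M i : ℤ) * (-m i))) =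
            exp (vecL b fun i => ((-m i : ℤ) : ℝ))
          have e1 : (fun i : Fin r => (M i : ℤ) * (-m i)) = -(fun i => (M i : ℤ) * m i) := by
            funext i
            simp
          have e2 : (fun i : Fin r => ((-m i : ℤ) : ℝ)) = -(fun i => (m i : ℝ)) := by
            funext i
            simp
          rw [e1, e2, ofAdd_neg, map_inv, map_neg]
          have h1 : rep hol (φ (Multiplicative.ofAdd fun i => (M i : ℤ) * m i))⁻¹ *
              rep hol (φ (Multiplicative.ofAdd fun i => (M i : ℤ) * m i)) = 1 := by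
            rw [← map_mul, inv_mul_cancel, map_one]
          have h2 : rep hol (φ (Multiplicative.ofAdd fun i => (M i : ℤ) * m i)) *
              exp (-(vecL b fun i => (m i : ℝ))) = 1 := by
            rw [hm1]
            exact exp_mul_neg' _
          exact left_inv_eq_right_inv h1 h2 }
    intro m
    have hm : m ∈ L := by
      have e : m = ∑ i, m i • (Pi.single i (1 : ℤ) : Fin r → ℤ) := by
        funext j
        simp [Finset.sum_apply, Pi.single_apply]
      rw [e]
      refine L.sum_mem fun i _ => L.zsmul_mem ?_ _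
      show rep hol (φ (Multiplicative.ofAdd fun j => (M j : ℤ) * (Pi.single i (1 : ℤ) :
        Fin r → ℤ) j)) = exp (vecL b fun j => (((Pi.single i (1 : ℤ) : Fin r → ℤ) j : ℤ) : ℝ))
      have e1 : (Multiplicative.ofAdd fun j => (M j : ℤ) * (Pi.single i (1 : ℤ) :
          Fin r → ℤ) j) = (Multiplicative.ofAdd (Pi.single i (1 : ℤ) : Fin r → ℤ)) ^ M i := by
        rw [← ofAdd_nsmul]
        congr 1
        funext j
        rcases eq_or_ne j i with rfl | hj
        · simp
        · simp [hj]
      rw [e1, map_pow, hb, vecL_apply]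
      congr 1
      simp [Pi.single_apply]
    exact hm
  have hinj : Function.Injective fun m : Fin r → ℤ =>
      φ (Multiplicative.ofAdd fun i => (M i : ℤ) * m i) := by
    intro m m' h
    have h1 := hφ h
    have h2 : (fun i => (M i : ℤ) * m i) = fun i => (M i : ℤ) * m' i := h1
    funext i
    have h3 := congrFun h2 i
    have h4 : (M i : ℤ) ≠ 0 := by exact_mod_cast (hM i).ne'
    exact mul_left_cancel₀ h4 h3
  have hcast : ∀ m : Fin r → ℤ, ∑ i, m i • b i = vecL b fun i => (m i : ℝ) := by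
    intro m
    rw [vecL_apply]
    refine Finset.sum_congr rfl fun i _ => ?_
    rw [← Int.cast_smul_eq_zsmul ℝ]
  have hli : LinearIndependent ℤ b := by
    rw [Fintype.linearIndependent_iff]
    intro m hm
    rw [hcast] at hm
    have h1 := key m
    rw [hm, exp_zero, ← map_one (rep hol)] at h1
    have h2 := rep_inj hol hact hfree h1
    have h3 : (fun m : Fin r → ℤ => φ (Multiplicative.ofAdd fun i => (M i : ℤ) * m i)) m =
        (fun m : Fin r → ℤ => φ (Multiplicative.ofAdd fun i => (M i : ℤ) * m i)) 0 := by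
      show φ _ = φ (Multiplicative.ofAdd fun i => (M i : ℤ) * 0)
      rw [h2]
      have e1 : (fun i : Fin r => (M i : ℤ) * (0 : ℤ)) = 0 := by
        funext i
        simp
      rw [e1, ofAdd_zero, map_one]
    have h4 := hinj h3
    intro i
    rw [h4]
    rfl
  -- the compact set
  set Q : Set E := (fun y : (E × ℝ) →L[ℝ] (E × ℝ) => (exp y ((0 : E), (1 : ℝ))).1) ''
    closedBall 0 1 with hQ
  have hQc : IsCompact Q := by
    refine (isCompact_closedBall _ _).image ?_
    exact (exp_continuous'.clm_apply continuous_const).fst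
  have hfin := hpd (Q ∪ {0}) (hQc.union isCompact_singleton)
  have hfinM : {m : Fin r → ℤ | ‖vecL b fun i => (m i : ℝ)‖ ≤ 1}.Finite := by
    refine Set.Finite.of_finite_image (f := fun m : Fin r → ℤ =>
      φ (Multiplicative.ofAdd fun i => (M i : ℤ) * m i)) (hfin.subset ?_) hinj.injOn
    rintro _ ⟨m, hm, rfl⟩
    refine ⟨0, Or.inr rfl, Or.inl ⟨vecL b fun i => (m i : ℝ), ?_, ?_⟩⟩
    · rw [mem_closedBall, dist_zero_right]
      exact hm
    · show (exp (vecL b fun i => (m i : ℝ)) ((0 : E), (1 : ℝ))).1 = _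
      rw [← key, rep_apply hol hact]
  have hfinL : {y : (E × ℝ) →L[ℝ] (E × ℝ) | y ∈ Submodule.span ℤ (range b) ∧ ‖y‖ ≤ 1}.Finite := by
    refine (hfinM.image fun m => vecL b fun i => (m i : ℝ)).subset ?_
    rintro y ⟨hy, hy1⟩
    obtain ⟨m, hm⟩ := (Submodule.mem_span_range_iff_exists_fun ℤ).1 hy
    rw [hcast] at hm
    exact ⟨m, by show ‖_‖ ≤ 1; rw [hm]; exact hy1, hm⟩
  have hdisc : DiscreteTopology (Submodule.span ℤ (range b)) := by
    apply discreteTopology_of_isOpen_singleton_zero
    rw [isOpen_induced_iff]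
    refine ⟨ball 0 1 ∩ ({y : (E × ℝ) →L[ℝ] (E × ℝ) | y ∈ Submodule.span ℤ (range b) ∧ ‖y‖ ≤ 1} \
      {0})ᶜ, isOpen_ball.inter (hfinL.subset sdiff_subset).isClosed.isOpen_compl, ?_⟩
    ext y
    constructor
    · rintro ⟨hy1, hy2⟩
      have h1 : ‖(y : (E × ℝ) →L[ℝ] (E × ℝ))‖ < 1 := by
        have : dist (y : (E × ℝ) →L[ℝ] (E × ℝ)) 0 < 1 := hy1
        rwa [dist_zero_right] at this
      by_contra hcon
      apply hy2
      refine ⟨⟨y.2, h1.le⟩, fun h0 => hcon ?_⟩
      exact Subtype.ext h0
    · intro hy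
      have hy0 : y = 0 := hy
      subst hy0
      refine ⟨mem_ball_self one_pos, fun h => h.2 rfl⟩
  have h1 := Real.finrank_eq_int_finrank_of_discrete hdisc
  have h2 : Set.finrank ℤ (range b) = r := by
    have := finrank_span_eq_card hli
    rw [Fintype.card_fin] at this
    exact this
  rw [h2] at h1
  exact h1

/-- **Vanishing for weakly commensurated abelian groups of virtually unipotent affine maps.** -/
theorem core_unip (hol : H →* (E →ᵃ[ℝ] E)) (hact : ∀ (γ : H) (x : E), γ • x = hol γ x)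
    (hfree : ∀ (γ : H) (x : E), γ • x = x → γ = 1)
    (hpd : ∀ K : Set E, IsCompact K → {γ : H | ∃ x ∈ K, γ • x ∈ K}.Finite)
    (hcc : ∃ K : Set E, IsCompact K ∧ ∀ x : E, ∃ γ : H, γ • x ∈ K) (A : Subgroup H)
    (hab : ∀ a ∈ A, ∀ b ∈ A, a * b = b * a)
    (hcom : ∀ (γ : H), ∀ a ∈ A, ∃ m : ℕ, 0 < m ∧ γ * a ^ m * γ⁻¹ ∈ A)
    (huni : ∀ a ∈ A, ∃ m : ℕ, 0 < m ∧ IsNilpotent (rep hol a ^ m - 1))
    {r : ℕ} (φ : Multiplicative (Fin r → ℤ) →* H) (hφ : Function.Injective φ)
    (hφA : ∀ m, φ m ∈ A) {n : ℕ} (hn : Module.finrank ℝ E < n + r) : Van H E n := by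
  set S : Set ((E × ℝ) →L[ℝ] (E × ℝ)) := {B | IsNilpotent B ∧ ∃ a ∈ A, rep hol a = exp B} with hS
  obtain ⟨k, hk, B, hBS, hBspan, hBl⟩ : ∃ k : ℕ, k = Module.finrank ℝ (Submodule.span ℝ S) ∧
      ∃ B : Fin k → ((E × ℝ) →L[ℝ] (E × ℝ)), (∀ i, B i ∈ S) ∧
        Submodule.span ℝ (range B) = Submodule.span ℝ S ∧ LinearIndependent ℝ B :=
    ⟨_, rfl, Submodule.exists_fun_fin_finrank_span_eq ℝ S⟩
  have hBn : ∀ i, IsNilpotent (B i) := fun i => (hBS i).1
  have hBc : ∀ i j, Commute (B i) (B j) := by
    intro i j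
    obtain ⟨a, ha, ha'⟩ := (hBS i).2
    obtain ⟨b, hb, hb'⟩ := (hBS j).2
    apply commute_nil (hBn i) (hBn j)
    rw [← ha', ← hb']
    show _ * _ = _ * _
    rw [← map_mul, ← map_mul, hab a ha b hb]
  have hB0 : ∀ i p, (B i p).2 = 0 := by
    intro i
    apply snd_zero (hBn i)
    obtain ⟨a, _, ha'⟩ := (hBS i).2
    rw [← ha']
    exact fun p => rfl
  have hlat : ∀ i, ∃ γ : H, rep hol γ = exp (B i) := fun i => by
    obtain ⟨a, _, ha'⟩ := (hBS i).2
    exact ⟨a, ha'⟩
  have hnrm : ∀ (γ : H) (i : Fin k), ∃ s : Fin k → ℝ,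
      rep hol γ * B i = vecL B s * rep hol γ := by
    intro γ i
    obtain ⟨a, ha, ha'⟩ := (hBS i).2
    obtain ⟨m, hm, hmA⟩ := hcom γ a ha
    have e1 : rep hol γ * rep hol γ⁻¹ = 1 := by
      rw [← map_mul, mul_inv_cancel, map_one]
    have e2 : rep hol γ⁻¹ * rep hol γ = 1 := by
      rw [← map_mul, inv_mul_cancel, map_one]
    have hmem : (m : ℝ) • (rep hol γ * B i * rep hol γ⁻¹) ∈ S := by
      refine ⟨?_, _, hmA, ?_⟩
      · apply IsNilpotent.smul
        obtain ⟨D, hD⟩ := hBn i
        refine ⟨D, ?_⟩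
        have e5 : ∀ q : ℕ, (rep hol γ * B i * rep hol γ⁻¹) ^ q =
            rep hol γ * B i ^ q * rep hol γ⁻¹ := by
          intro q
          induction q with
          | zero => rw [pow_zero, pow_zero, mul_one, e1]
          | succ q ih =>
            rw [pow_succ, ih, pow_succ]
            calc rep hol γ * B i ^ q * rep hol γ⁻¹ * (rep hol γ * B i * rep hol γ⁻¹) =
                rep hol γ * B i ^ q * (rep hol γ⁻¹ * rep hol γ) * B i * rep hol γ⁻¹ := by
                  noncomm_ring
              _ = rep hol γ * (B i ^ q * B i) * rep hol γ⁻¹ := by rw [e2]; noncomm_ring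
        rw [e5, hD, mul_zero, zero_mul]
      · rw [exp_nat_al, exp_conj' e1 e2, ← ha', ← map_mul, ← map_mul, ← map_pow]
        congr 1
        exact conj_pow.symm
    have hmem2 : rep hol γ * B i * rep hol γ⁻¹ ∈ Submodule.span ℝ (range B) := by
      rw [hBspan]
      have h1 := Submodule.smul_mem (Submodule.span ℝ S) (m : ℝ)⁻¹ (Submodule.subset_span hmem)
      rwa [smul_smul, inv_mul_cancel₀ (by exact_mod_cast hm.ne'), one_smul] at h1
    obtain ⟨s, hs⟩ := (Submodule.mem_span_range_iff_exists_fun ℝ).1 hmem2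
    refine ⟨s, ?_⟩
    rw [vecL_apply, hs, mul_assoc, mul_assoc, e2, mul_one]
  have hind : ∀ (x : E) (s : Fin k → ℝ), vecL B s (x, 1) = 0 → s = 0 := fun x s hs =>
    ind_of_pd hol hact hpd B hBc hBn hBl hlat x s hs
  -- the rank
  have hrk : r ≤ k := by
    have h1 : ∀ i, ∃ M : ℕ, 0 < M ∧ ∃ b : (E × ℝ) →L[ℝ] (E × ℝ), IsNilpotent b ∧
        rep hol (φ (Multiplicative.ofAdd (Pi.single i 1)) ^ M) = exp b := by
      intro i
      obtain ⟨m, hm, D, hD⟩ := huni _ (hφA (Multiplicative.ofAdd (Pi.single i 1)))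
      obtain ⟨b, hb, hb'⟩ := exists_log hD
      exact ⟨m, hm, b, ⟨D, hb⟩, by rw [map_pow, hb']⟩
    choose M hM b hbn hb using h1
    have h2 := rank_le hol hact hfree hpd φ hφ M hM b hbn hb
    rw [← h2, hk]
    refine Submodule.finrank_mono (Submodule.span_mono ?_)
    rintro _ ⟨i, rfl⟩
    exact ⟨hbn i, _, A.pow_mem (hφA _) _, hb i⟩
  have D : ConvData (id : E → E) fun γ => hol γ :=
    ⟨fun _ _ h => h, by rw [range_id]; exact convex_univ, hact⟩
  obtain ⟨α, β, G⟩ := geo_of_vec hol k n D (by rw [range_id]; exact isOpen_univ) hfree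
    (fun K hK _ => (hpd K hK).subset fun γ hγ => hγ)
    (by
      obtain ⟨K, hK, h⟩ := hcc
      exact ⟨K, hK, by rw [range_id]; exact subset_univ _, h⟩)
    B hB0 hBc (fun s x => ⟨_, rfl⟩) hlat hnrm hind (by omega)
  intro f hb hf hfi z hz
  exact G.vanish f hb hf hfi z hz

end rank

end Pool.Agent.Helper63.SV
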