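import Pool.Agent.Helper63.SV.Thr

/-!
Project SV (helper63): the vanishing theorem for groups normalizing a vector group.
-/

set_option autoImplicit false

open Set Metric Filter Topology

namespace Pool.Agent.Helper63.SV

section van

variable {Γ X E : Type} [Group Γ] [MulAction Γ X] [NormedAddCommGroup E]
  [NormedSpace ℝ E] [FiniteDimensional ℝ E] {k n : ℕ} {dev : X → E} {g : Γ → (E →ᵃ[ℝ] E)}
  {α : (Fin k → ℝ) → E → E} {β : (Fin k → ℝ) → X → X}

omit [NormedSpace ℝ E] [FiniteDimensional ℝ E] in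
theorem ev_iff {x : X} {P : X → Prop} : (∀ᶠ y in comap dev (𝓝 (dev x)), P y) ↔
    ∃ ε : ℝ, 0 < ε ∧ ∀ y, ‖dev y - dev x‖ < ε → P y := by
  rw [(Metric.nhds_basis_ball.comap dev).eventually_iff]
  constructor
  · rintro ⟨ε, hε, h⟩
    refine ⟨ε, hε, fun y hy => h ?_⟩
    show dist (dev y) (dev x) < ε
    rw [dist_eq_norm]
    exact hy
  · rintro ⟨ε, hε, h⟩
    refine ⟨ε, hε, fun y hy => h y ?_⟩
    rw [← dist_eq_norm]
    exact hy

theorem Geo.Phi_tendsto (G : Geo k n dev g α β) (c : E) {ρ : ℝ} (hρ : 0 < ρ)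
    (hc : IsCompact (closedBall c ρ ∩ range dev)) (x : X) :
    Tendsto (Phi Γ dev β c ρ) (comap dev (𝓝 (dev x))) (𝓝 (Phi Γ dev β c ρ x)) := by
  obtain ⟨r, C, hr, hC, h⟩ := G.Phi_lip c hρ hc x
  rw [Metric.tendsto_nhds]
  intro ε hε
  rw [ev_iff]
  refine ⟨min r (ε / (C + 1)), by positivity, fun y hy => ?_⟩
  have h1 := h y x (hy.trans_le (min_le_left _ _)) (by rw [sub_self, norm_zero]; exact hr)
  rw [Real.dist_eq]
  refine h1.trans_lt ?_
  have h2 := hy.trans_le (min_le_right _ _)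
  rw [lt_div_iff₀ (by positivity)] at h2
  nlinarith [norm_nonneg (dev y - dev x)]

theorem Geo.vanish (G : Geo k n dev g α β) (f : (Fin (n + 1) → X) → ℝ) (hb : BdF f)
    (hf : ∀ c : TC X (n + 2), pr f (bd c) = 0) (hfi : ∀ (γ : Γ) x, f (γ • x) = f x)
    (z : TC X (n + 1)) (hz : IsCyc Γ z) : pr f z = 0 := by
  classical
  rcases isEmpty_or_nonempty X with hX | ⟨⟨x₀⟩⟩
  · have : z = 0 := by
      ext x
      exact (hX.false (x 0)).elim
    rw [this, map_zero]
  obtain ⟨K, hK, hKr, hKc⟩ := G.cc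
  choose ρ hρ hρc htube using G.tube
  obtain ⟨T, hT⟩ := hK.elim_finite_subcover (fun x : X => ball (dev x) (ρ x / 2))
    (fun _ => isOpen_ball) (by
      intro v hv
      obtain ⟨x, rfl⟩ := hKr hv
      exact mem_iUnion.2 ⟨x, mem_ball_self (half_pos (hρ x))⟩)
  set N := T.card with hNdef
  let c : Fin N → X := fun i => (T.equivFin.symm i : X)
  have hcov : ∀ y : X, ∃ i : Fin N, 1 / 2 < Phi Γ dev β (dev (c i)) (ρ (c i)) y := by
    intro y
    obtain ⟨γ, hγ⟩ := hKc y
    obtain ⟨x, hx, hx'⟩ := mem_iUnion₂.1 (hT hγ)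
    refine ⟨T.equivFin ⟨x, hx⟩, ?_⟩
    have e : c (T.equivFin ⟨x, hx⟩) = x := by
      show ((T.equivFin.symm (T.equivFin ⟨x, hx⟩) : T) : X) = x
      rw [Equiv.symm_apply_apply]
    rw [e]
    have h1 := psi_le_Phi (Γ := Γ) (dev := dev) (β := β) (dev x) (hρ x) y 0 γ
    rw [G.β_zero] at h1
    refine lt_of_lt_of_le ?_ h1
    refine lt_of_lt_of_le ?_ (le_max_right _ _)
    have h2 : ‖dev (γ • y) - dev x‖ < ρ x / 2 := by
      rw [← dist_eq_norm]
      exact hx'
    have h3 : ‖dev (γ • y) - dev x‖ / ρ x < 1 / 2 := by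
      rw [div_lt_iff₀ (hρ x)]
      linarith
    linarith
  have hN : 0 < N := (hcov x₀).elim fun i _ => i.pos
  obtain ⟨t, ht, hgen⟩ := G.exists_threshold hN c (fun i => ρ (c i)) (fun i => hρ _)
    (fun i => hρc _)
  set Φ : Fin N → X → ℝ := fun i x => Phi Γ dev β (dev (c i)) (ρ (c i)) x with hΦ
  -- the index map
  have hidx : ∀ y, ∃ i, t i < Φ i y ∧ ∀ i', t i' < Φ i' y → ¬ i' < i := by
    intro y
    obtain ⟨i, hi⟩ := hcov y
    obtain ⟨m, hm, hm'⟩ := (wellFounded_lt : WellFounded (fun a b : Fin N => a < b)).has_min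
      {i | t i < Φ i y} ⟨i, (ht i).2.trans hi⟩
    exact ⟨m, hm, fun i' hi' => hm' i' hi'⟩
  choose idx hidx1 hidx2 using hidx
  have hidx_smul : ∀ (δ : Γ) y, idx (δ • y) = idx y := by
    intro δ y
    have e : ∀ i, Φ i (δ • y) = Φ i y := fun i => Phi_smul _ (hρ _) y δ
    apply le_antisymm
    · apply not_lt.1
      exact hidx2 (δ • y) (idx y) (by rw [e]; exact hidx1 y)
    · apply not_lt.1
      exact hidx2 y (idx (δ • y)) (by rw [← e]; exact hidx1 (δ • y))
  have hgg : ∀ y, ∃ (s : Fin k → ℝ) (γ : Γ), 0 < psi (dev (c (idx y))) (ρ (c (idx y)))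
      (dev (β s (γ • y))) := by
    intro y
    obtain ⟨s, γ, h⟩ := exists_of_lt_Phi _ _ _ _ (hidx1 y)
    exact ⟨s, γ, (ht _).1.trans h⟩
  choose ss gg hgg using hgg
  have huniq : ∀ (i : Fin N) y s s' (γ γ' : Γ),
      0 < psi (dev (c i)) (ρ (c i)) (dev (β s (γ • y))) →
      0 < psi (dev (c i)) (ρ (c i)) (dev (β s' (γ' • y))) →
      ((γ⁻¹ : Γ) : Γ ⧸ G.stab (c i)) = ((γ'⁻¹ : Γ) : Γ ⧸ G.stab (c i)) := by
    intro i y s s' γ γ' h h'
    rw [psi_pos _ (hρ _)] at h h'
    rw [QuotientGroup.eq, inv_inv]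
    exact htube (c i) y s' s γ' γ h' h
  let p : X → Σ i : Fin N, Γ ⧸ G.stab (c i) := fun y =>
    ⟨idx y, (((gg y)⁻¹ : Γ) : Γ ⧸ G.stab (c (idx y)))⟩
  have hp_eq : ∀ (i : Fin N) y (s : Fin k → ℝ) (γ : Γ), idx y = i →
      0 < psi (dev (c i)) (ρ (c i)) (dev (β s (γ • y))) →
      p y = ⟨i, ((γ⁻¹ : Γ) : Γ ⧸ G.stab (c i))⟩ := by
    rintro i y s γ rfl h
    show (⟨idx y, _⟩ : Σ i : Fin N, Γ ⧸ G.stab (c i)) = ⟨idx y, _⟩
    rw [huniq (idx y) y (ss y) s (gg y) γ (hgg y) h]
  obtain ⟨M, hM⟩ := G.exists_meanFam c x₀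
  refine cells_vanish G.cd p ?_ M hM n ?_ f hb hf hfi z hz
  · intro δ y
    have h1 := hgg (δ • y)
    rw [← mul_smul, hidx_smul] at h1
    rw [hp_eq (idx y) y _ _ rfl h1]
    have h2 : 0 < psi (dev (c (idx y))) (ρ (c (idx y)))
        (dev (β (ss (δ • y)) (gg (δ • y) • δ • y))) := by
      rw [← mul_smul]
      exact h1
    rw [hp_eq (idx y) (δ • y) _ _ (hidx_smul δ y) h2]
    have e : (gg (δ • y))⁻¹ = δ * (gg (δ • y) * δ)⁻¹ := by group
    rw [e]
    rfl
  · -- local multiplicity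
    have hloc : ∀ x, ∃ ε : ℝ, 0 < ε ∧ ∀ y : Fin (n + 1) → X, (∀ i, ‖dev (y i) - dev x‖ < ε) →
        ¬ Function.Injective fun i => p (y i) := by
      intro x
      have hten : ∀ i, Tendsto (Φ i) (comap dev (𝓝 (dev x))) (𝓝 (Φ i x)) := fun i =>
        G.Phi_tendsto _ (hρ _) (hρc _) x
      have h1 : ∀ᶠ y in comap dev (𝓝 (dev x)), t (idx x) < Φ (idx x) y :=
        (hten _).eventually_const_lt (hidx1 x)
      have h2 : ∀ᶠ y in comap dev (𝓝 (dev x)), ∀ i, Φ i x < t i → Φ i y < t i := by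
        rw [eventually_all]
        intro i
        by_cases hi : Φ i x < t i
        · filter_upwards [(hten i).eventually_lt_const hi] with y hy _
          exact hy
        · exact Eventually.of_forall fun y hy => absurd hy hi
      have h3 : ∀ i, ∃ γ : Γ, t i ≤ Φ i x → ∀ᶠ y in comap dev (𝓝 (dev x)), ∃ s : Fin k → ℝ,
          0 < psi (dev (c i)) (ρ (c i)) (dev (β s (γ • y))) := by
        intro i
        by_cases hi : t i ≤ Φ i x
        · obtain ⟨s, γ, h⟩ := exists_of_lt_Phi _ _ _ _ ((ht i).1.trans_le hi)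
          refine ⟨γ, fun _ => ?_⟩
          rw [psi_pos _ (hρ _)] at h
          have hcont : Continuous fun v : E => ‖α s (g γ v) - dev (c i)‖ := by
            have h4 : Continuous (g γ) := (g γ).continuous_of_finiteDimensional
            exact ((G.αcont.comp (continuous_const.prodMk h4)).sub continuous_const).norm
          have h5 : Tendsto (fun y : X => ‖α s (g γ (dev y)) - dev (c i)‖)
              (comap dev (𝓝 (dev x))) (𝓝 ‖α s (g γ (dev x)) - dev (c i)‖) :=
            (hcont.tendsto (dev x)).comp tendsto_comap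
          rw [G.dev_β, G.cd.equi] at h
          filter_upwards [h5.eventually_lt_const h] with y hy
          refine ⟨s, ?_⟩
          rw [psi_pos _ (hρ _), G.dev_β, G.cd.equi]
          exact hy
        · exact ⟨1, fun h => absurd h hi⟩
      choose γ hγ using h3
      have h3' : ∀ᶠ y in comap dev (𝓝 (dev x)), ∀ i, t i ≤ Φ i x → ∃ s : Fin k → ℝ,
          0 < psi (dev (c i)) (ρ (c i)) (dev (β s (γ i • y))) := by
        rw [eventually_all]
        intro i
        by_cases hi : t i ≤ Φ i x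
        · filter_upwards [hγ i hi] with y hy _
          exact hy
        · exact Eventually.of_forall fun y hy => absurd hy hi
      set I : Finset (Fin N) := insert (idx x) (Finset.univ.filter fun i => Φ i x = t i) with hI
      have hIcard : I.card ≤ n := by
        refine (Finset.card_insert_le _ _).trans ?_
        by_contra hcon
        push Not at hcon
        obtain ⟨J, hJ, hJ'⟩ := Finset.exists_subset_card_eq
          (s := Finset.univ.filter fun i => Φ i x = t i) (n := n) (by omega)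
        obtain ⟨l, hl⟩ := hgen x (J.orderEmbOfFin hJ') (J.orderEmbOfFin hJ').injective
        apply hl
        exact (Finset.mem_filter.1 (hJ (Finset.orderEmbOfFin_mem J hJ' l))).2.symm
      obtain ⟨ε, hε, h⟩ := ev_iff.1 (h1.and (h2.and h3'))
      refine ⟨ε, hε, fun y hy hinj => ?_⟩
      have hmem : ∀ l, idx (y l) ∈ I := by
        intro l
        obtain ⟨e1, e2, _⟩ := h (y l) (hy l)
        rw [hI, Finset.mem_insert, Finset.mem_filter]
        rcases lt_trichotomy (Φ (idx (y l)) x) (t (idx (y l))) with h4 | h4 | h4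
        · exact absurd (e2 _ h4) (not_lt.2 (hidx1 (y l)).le)
        · exact Or.inr ⟨Finset.mem_univ _, h4⟩
        · left
          apply le_antisymm
          · exact not_lt.1 (hidx2 (y l) _ e1)
          · exact not_lt.1 (hidx2 x _ h4)
      obtain ⟨l, _, l', _, hll, he⟩ := Finset.exists_ne_map_eq_of_card_lt_of_maps_to
        (s := (Finset.univ : Finset (Fin (n + 1)))) (t := I) (f := fun l => idx (y l))
        (by rw [Finset.card_univ, Fintype.card_fin]; omega) (fun l _ => hmem l)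
      apply hll
      apply hinj
      show p (y l) = p (y l')
      have hge : t (idx (y l)) ≤ Φ (idx (y l)) x := by
        obtain ⟨e1, e2, _⟩ := h (y l) (hy l)
        by_contra hcon
        push Not at hcon
        exact absurd (e2 _ hcon) (not_lt.2 (hidx1 (y l)).le)
      obtain ⟨s, hs⟩ := (h (y l) (hy l)).2.2 _ hge
      obtain ⟨s', hs'⟩ := (h (y l') (hy l')).2.2 _ hge
      rw [hp_eq _ (y l) s _ rfl hs, hp_eq _ (y l') s' _ he.symm hs']
    choose ε hε hε' using hloc
    intro K' hK' hK'r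
    obtain ⟨δ, hδ, h⟩ := lebesgue_number_lemma_of_metric (c := fun x : X => ball (dev x) (ε x)) hK'
      (fun _ => isOpen_ball) (by
        intro v hv
        obtain ⟨x, rfl⟩ := hK'r hv
        exact mem_iUnion.2 ⟨x, mem_ball_self (hε x)⟩)
    refine ⟨δ, hδ, fun y hy hyd => ?_⟩
    obtain ⟨x, hx⟩ := h (dev (y 0)) (hy 0)
    refine hε' x y fun i => ?_
    rw [← dist_eq_norm]
    apply hx
    rw [mem_ball, dist_eq_norm]
    exact hyd i 0

end van

end Pool.Agent.Helper63.SV
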